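import Pool.Agent.H1SS.Thm

open MeasureTheory Set Filter Topology
open scoped ENNReal NNReal ContDiff

namespace Pool.Agent.H356R3.NS.H1SS

open H459R3.NS (IsSol SP Per fr ee cube)

/-- `w` is a smooth `ℤ³`-periodic divergence-free field with mean zero which is an eigenfunction of the
Laplacian, `Δw = -κw`, and whose convection term is a gradient: `∑_j w_j ∂_j w_i = ∂_i q` for a smooth
`ℤ³`-periodic function `q`. -/
structure GenBeltrami (κ : ℝ) (w : R3 → R3) (q : R3 → ℝ) : Prop where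
  smooth_w : ContDiff ℝ ∞ w
  smooth_q : ContDiff ℝ ∞ q
  periodic_w : ∀ x j, w (x + Pi.single j 1) = w x
  periodic_q : ∀ x j, q (x + Pi.single j 1) = q x
  divFree : ∀ x, ∑ i, pd i (fun y => w y i) x = 0
  mean : ∀ i, ∫ x in Icc (0 : R3) 1, w x i = 0
  eigen : ∀ x i, ∑ j, pd j (pd j fun y => w y i) x = -κ * w x i
  convect : ∀ x i, ∑ j, w x j * pd j (fun y => w y i) x = pd i q x

section
variable {ν κ : ℝ} {w : R3 → R3} {q : R3 → ℝ}

lemma bel_adm (h : GenBeltrami κ w q) (lam : ℝ) : AdmissiblePeriodic ν (fun x => lam • w x)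
    (fun t x => (lam * Real.exp (-(ν * κ * t))) • w x)
    (fun t x => -((lam * Real.exp (-(ν * κ * t))) ^ 2 * q x)) := by
  have hw : ∀ i, Differentiable ℝ fun x => w x i := fun i =>
    ((contDiff_pi.1 h.smooth_w) i).differentiable (by norm_cast)
  have hspw : ∀ i, SP (fun x => w x i) := sp_of w h.smooth_w h.periodic_w
  have hpw : ∀ i j, Differentiable ℝ (pd j fun x => w x i) := fun i j =>
    ((hspw i).pd j).smooth.differentiable (by norm_cast)
  have hq : Differentiable ℝ q := h.smooth_q.differentiable (by norm_cast)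
  have he : ContDiff ℝ ∞ fun z : ℝ × R3 => lam * Real.exp (-(ν * κ * z.1)) := by
    fun_prop
  have hx1 : ∀ (a : ℝ) i j, (pd j fun y => (a • w y) i) = fun y => a * pd j (fun y => w y i) y := by
    intro a i j
    funext y
    exact pd_const_mul (hw i) a j y
  refine ⟨?_, ?_, ?_, ?_, ?_, ?_, ?_⟩
  · exact (he.smul (h.smooth_w.comp contDiff_snd)).contDiffOn
  · exact (((he.pow 2).mul (h.smooth_q.comp contDiff_snd)).neg).contDiffOn
  · intro t _ x j
    simp only [h.periodic_w]
  · intro t _ x j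
    simp only [h.periodic_q]
  · intro t ht x i
    set a := lam * Real.exp (-(ν * κ * t)) with ha
    have hd : HasDerivAt (fun s => ((lam * Real.exp (-(ν * κ * s))) • w x) i) (-(ν * κ) * a * w x i) t := by
      have h1 : HasDerivAt (fun s : ℝ => Real.exp (-(ν * κ * s))) (Real.exp (-(ν * κ * t)) * -(ν * κ)) t := by
        have : HasDerivAt (fun u : ℝ => -(ν * κ * u)) (-(ν * κ)) t := by
          simpa using ((hasDerivAt_id' t).const_mul (ν * κ)).fun_neg
        exact this.exp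
      have h2 := (h1.const_mul lam).mul_const (w x i)
      refine h2.congr_deriv ?_
      rw [ha]; ring
    have hdt := hd.hasDerivWithinAt.derivWithin (uniqueDiffOn_Ici (0 : ℝ) t ht)
    have hx2 : ∀ j, pd j (fun y => a * pd j (fun y => w y i) y) x = a * pd j (pd j fun y => w y i) x :=
      fun j => pd_const_mul (hpw i j) a j x
    have hx3 : pd i (fun y => -(a ^ 2 * q y)) x = -(a ^ 2 * pd i q x) := by
      have e : (fun y => -(a ^ 2 * q y)) = fun y => (-(a ^ 2)) * q y := by funext y; ring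
      rw [e, pd_const_mul hq]
      ring
    show derivWithin (fun s => ((lam * Real.exp (-(ν * κ * s))) • w x) i) (Ici 0) t
      + ∑ j, (a • w x) j * pd j (fun y => (a • w y) i) x
      = ν * ∑ j, pd j (pd j fun y => (a • w y) i) x - pd i (fun y => -(a ^ 2 * q y)) x
    rw [hdt, hx3]
    simp only [hx1, hx2]
    have e4 : ∀ j, (a • w x) j * (a * pd j (fun y => w y i) x) = a ^ 2 * (w x j * pd j (fun y => w y i) x) := by
      intro j
      show a * w x j * _ = _
      ring
    simp only [e4]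
    rw [← Finset.mul_sum, ← Finset.mul_sum, h.eigen, h.convect]
    ring
  · intro t _ x
    show ∑ i, pd i (fun y => ((lam * Real.exp (-(ν * κ * t))) • w y) i) x = 0
    simp only [hx1]
    rw [← Finset.mul_sum, h.divFree, mul_zero]
  · funext x
    simp

/-- Superposition with a high-frequency generalised Beltrami field of large amplitude. -/
theorem beltrami (hν : 0 < ν) (hκ : 0 < κ) (h : GenBeltrami κ w q) :
    ∃ a : ℝ, 0 < a ∧ ∀ (v : R3 → R3) (u : ℝ → R3 → R3) (p : ℝ → R3 → ℝ), AdmissiblePeriodic ν v u p →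
      (∀ i, ∫ x in Icc (0 : R3) 1, v x i = 0) → ∀ ε : ℝ, 0 < ε →
      ∃ N0 : ℕ, ∀ N : ℕ, N0 ≤ N → ∀ lam : ℝ, |lam| ≤ a * Real.sqrt (Real.log N) → ∀ b : R3,
        ∃ U P, AdmissiblePeriodic ν (fun x => v x + (N : ℝ) • lam • w ((N : ℝ) • x + b)) U P ∧
          ∀ t, 0 ≤ t → leiLin (fun k => fc (U t) k - fc (u t) k - fc (fun x => (N : ℝ) •
            (lam * Real.exp (-(ν * κ * ((N : ℝ) ^ 2 * t)))) • w ((N : ℝ) • x + b)) k) ≤ ENNReal.ofReal ε := by
  have hspw : ∀ i, SP (fun x => w x i) := sp_of w h.smooth_w h.periodic_w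
  -- finite Wiener norm
  have hWfin : wiener w ≠ ⊤ := by
    have hadm := bel_adm (ν := ν) h 1
    have h0 : ∀ i, ∫ x in Icc (0 : R3) 1, (fun x => (1 : ℝ) • w x) x i = 0 := by
      intro i
      simp only [one_smul]
      exact h.mean i
    obtain ⟨B, -, -, -, -, -, hB, -, -⟩ := good_facts hν hadm h0
    have := hB 0 le_rfl
    simp only [mul_zero, neg_zero, Real.exp_zero, mul_one, one_smul] at this
    exact ne_top_of_le_ne_top ENNReal.ofReal_ne_top this
  set W := (wiener w).toReal with hWdef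
  have hW0 : 0 ≤ W := ENNReal.toReal_nonneg
  have hWe : wiener w = ENNReal.ofReal W := (ENNReal.ofReal_toReal hWfin).symm
  have hνκ : 0 < ν * κ := by positivity
  -- the amplitude
  set a := Real.sqrt (ν ^ 2 * κ / (41472 * (W ^ 2 + 1))) with hadef
  have ha2 : a ^ 2 = ν ^ 2 * κ / (41472 * (W ^ 2 + 1)) := Real.sq_sqrt (by positivity)
  have ha : 0 < a := Real.sqrt_pos.2 (by positivity)
  refine ⟨a, ha, fun v u p hu hv0 ε hε => ?_⟩
  obtain ⟨B, D, -, hB, hD, -, hBi, hDi, -⟩ := good_facts hν hu hv0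
  -- elementary limits
  have hlog : Tendsto (fun N : ℕ => Real.sqrt (Real.log N) * (N : ℝ) ^ (-(1 / 2) : ℝ)) atTop (𝓝 0) := by
    have h1 : Tendsto (fun x : ℝ => Real.log x / x ^ (1 / 2 : ℝ)) atTop (𝓝 0) :=
      (isLittleO_log_rpow_atTop (by norm_num : (0 : ℝ) < 1 / 2)).tendsto_div_nhds_zero
    have h2 : Tendsto (fun N : ℕ => Real.log (N : ℝ) / (N : ℝ) ^ (1 / 2 : ℝ)) atTop (𝓝 0) :=
      h1.comp tendsto_natCast_atTop_atTop
    have h3 : Tendsto (fun N : ℕ => (N : ℝ) ^ (-(1 / 2) : ℝ)) atTop (𝓝 0) :=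
      (tendsto_rpow_neg_atTop (by norm_num : (0 : ℝ) < 1 / 2)).comp tendsto_natCast_atTop_atTop
    have h4 := h2.add h3
    rw [add_zero] at h4
    refine squeeze_zero' (Filter.Eventually.of_forall fun N => by positivity) ?_ h4
    filter_upwards [eventually_ge_atTop 1] with N hN
    have hN0 : (0 : ℝ) < N := by exact_mod_cast hN
    have hL : 0 ≤ Real.log N := Real.log_natCast_nonneg N
    have h5 : Real.sqrt (Real.log N) ≤ Real.log N + 1 := by
      rw [Real.sqrt_le_left (by linarith)]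
      nlinarith
    have h6 : (0 : ℝ) < (N : ℝ) ^ (-(1 / 2) : ℝ) := Real.rpow_pos_of_pos hN0 _
    calc Real.sqrt (Real.log N) * (N : ℝ) ^ (-(1 / 2) : ℝ) ≤ (Real.log N + 1) * (N : ℝ) ^ (-(1 / 2) : ℝ) := by gcongr
      _ = Real.log N / (N : ℝ) ^ (1 / 2 : ℝ) + (N : ℝ) ^ (-(1 / 2) : ℝ) := by
          rw [add_mul, one_mul, Real.rpow_neg hN0.le, ← div_eq_mul_inv]
  set M := Real.exp (20736 * (2 * D) / ν) with hM
  have hM0 : 0 < M := Real.exp_pos _
  set G := B * (a * W / (ν * κ)) with hG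
  have hG0 : 0 ≤ G := by positivity
  have t1 : Tendsto (fun N : ℕ => 20736 * G * M * (Real.sqrt (Real.log N) * (N : ℝ) ^ (-(1 / 2) : ℝ))) atTop (𝓝 0) := by
    have := hlog.const_mul (20736 * G * M)
    simpa using this
  have t2 : Tendsto (fun N : ℕ => 144 * Real.pi * G * M * (Real.sqrt (Real.log N) * (N : ℝ) ^ (-(1 / 2) : ℝ))) atTop (𝓝 0) := by
    have := hlog.const_mul (144 * Real.pi * G * M)
    simpa using this
  have ev1 := t1.eventually_lt_const hν
  have ev2 := t2.eventually_lt_const hε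
  obtain ⟨N0, hN0⟩ := ((ev1.and ev2).and (eventually_ge_atTop 1)).exists_forall_of_atTop
  refine ⟨N0, fun N hN lam hlam b => ?_⟩
  obtain ⟨⟨h1, h2⟩, h3⟩ := hN0 N hN
  have hNp : (0 : ℝ) < N := by exact_mod_cast h3
  have hL : 0 ≤ Real.log N := Real.log_natCast_nonneg N
  have hadm := bel_adm (ν := ν) h lam
  have hm : ∀ i, ∫ x in Icc (0 : R3) 1, (fun x => lam • w x) x i = 0 := by
    intro i
    have e : ∀ x, (fun x => lam • w x) x i = lam * w x i := fun x => rfl
    simp only [e]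
    rw [integral_const_mul, h.mean i, mul_zero]
  have hwn : ∀ t : ℝ, wiener ((fun t x => (lam * Real.exp (-(ν * κ * t))) • w x) t)
      = ENNReal.ofReal (|lam| * W * Real.exp (-(ν * κ) * t)) := by
    intro t
    have h4 := wiener_scale hspw (le_refl 1) 0 (lam * Real.exp (-(ν * κ * t)))
    simp only [Nat.cast_one, one_smul, add_zero] at h4
    show wiener (fun x => (lam * Real.exp (-(ν * κ * t))) • w x) = _
    rw [h4, hWe, ← ENNReal.ofReal_mul (abs_nonneg _), abs_mul, abs_of_pos (Real.exp_pos _)]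
    congr 1
    rw [neg_mul]
    ring
  have hexp : ∀ {r : ℝ}, 0 < r → ∫⁻ t in Ioi (0 : ℝ), ENNReal.ofReal (Real.exp (-r * t)) = ENNReal.ofReal (1 / r) := by
    intro r hr
    rw [← ofReal_integral_eq_lintegral_ofReal]
    · rw [integral_exp_mul_Ioi (neg_lt_zero.2 hr)]
      simp
    · exact exp_neg_integrableOn_Ioi 0 hr
    · exact Filter.Eventually.of_forall fun t => (Real.exp_pos _).le
  have hEi : ∫⁻ t in Ioi (0 : ℝ), wiener ((fun t x => (lam * Real.exp (-(ν * κ * t))) • w x) t)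
      ≤ ENNReal.ofReal (|lam| * W / (ν * κ)) := by
    have e : ∀ t : ℝ, wiener ((fun t x => (lam * Real.exp (-(ν * κ * t))) • w x) t)
        = ENNReal.ofReal (|lam| * W) * ENNReal.ofReal (Real.exp (-(ν * κ) * t)) := by
      intro t
      rw [hwn, ENNReal.ofReal_mul (by positivity)]
    simp only [e]
    rw [lintegral_const_mul _ (by fun_prop), hexp hνκ, ← ENNReal.ofReal_mul (by positivity)]
    apply ENNReal.ofReal_le_ofReal
    apply le_of_eq; ring
  have hFi : ∫⁻ t in Ioi (0 : ℝ), wiener ((fun t x => (lam * Real.exp (-(ν * κ * t))) • w x) t) ^ 2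
      ≤ ENNReal.ofReal ((|lam| * W) ^ 2 / (2 * (ν * κ))) := by
    have e : ∀ t : ℝ, wiener ((fun t x => (lam * Real.exp (-(ν * κ * t))) • w x) t) ^ 2
        = ENNReal.ofReal ((|lam| * W) ^ 2) * ENNReal.ofReal (Real.exp (-(2 * (ν * κ)) * t)) := by
      intro t
      rw [hwn, ← ENNReal.ofReal_pow (by positivity), ← ENNReal.ofReal_mul (by positivity), mul_pow,
        ← Real.exp_nat_mul]
      congr 2
      push_cast
      ring_nf
    simp only [e]
    rw [lintegral_const_mul _ (by fun_prop), hexp (by positivity), ← ENNReal.ofReal_mul (by positivity)]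
    apply ENNReal.ofReal_le_ofReal
    apply le_of_eq; ring
  -- the bounds
  set E := |lam| * W / (ν * κ) with hE
  set F := (|lam| * W) ^ 2 / (2 * (ν * κ)) with hF
  have hE0 : 0 ≤ E := by positivity
  have hF0 : 0 ≤ F := by positivity
  have hlam2 : |lam| ^ 2 ≤ a ^ 2 * Real.log N := by
    calc |lam| ^ 2 ≤ (a * Real.sqrt (Real.log N)) ^ 2 := by gcongr
      _ = a ^ 2 * Real.log N := by rw [mul_pow, Real.sq_sqrt hL]
  have hF2 : 20736 * (2 * F) / ν ≤ 1 / 2 * Real.log N := by
    have h4 : 20736 * (2 * F) / ν = 20736 * W ^ 2 / (ν ^ 2 * κ) * |lam| ^ 2 := by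
      rw [hF]; field_simp
    rw [h4]
    calc 20736 * W ^ 2 / (ν ^ 2 * κ) * |lam| ^ 2 ≤ 20736 * W ^ 2 / (ν ^ 2 * κ) * (a ^ 2 * Real.log N) := by gcongr
      _ = W ^ 2 / (W ^ 2 + 1) * (1 / 2 * Real.log N) := by
          rw [ha2]; field_simp; ring
      _ ≤ 1 * (1 / 2 * Real.log N) := by
          apply mul_le_mul_of_nonneg_right _ (by positivity)
          rw [div_le_one (by positivity)]
          linarith
      _ = _ := one_mul _
  have hexpb : Real.exp (20736 * (2 * D + 2 * F) / ν) ≤ M * (N : ℝ) ^ (1 / 2 : ℝ) := by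
    have e1 : 20736 * (2 * D + 2 * F) / ν = 20736 * (2 * D) / ν + 20736 * (2 * F) / ν := by ring
    rw [e1, Real.exp_add, ← hM]
    apply mul_le_mul_of_nonneg_left _ hM0.le
    rw [Real.rpow_def_of_pos hNp]
    apply Real.exp_le_exp.2
    linarith
  have hEb : B * E / N ≤ G * Real.sqrt (Real.log N) / N := by
    apply div_le_div_of_nonneg_right _ hNp.le
    rw [hG, hE]
    calc B * (|lam| * W / (ν * κ)) ≤ B * (a * Real.sqrt (Real.log N) * W / (ν * κ)) := by gcongr
      _ = _ := by ring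
  have hprod : B * E / N * Real.exp (20736 * (2 * D + 2 * F) / ν)
      ≤ G * M * (Real.sqrt (Real.log N) * (N : ℝ) ^ (-(1 / 2) : ℝ)) := by
    have hBE : 0 ≤ B * E / N := by positivity
    calc _ ≤ G * Real.sqrt (Real.log N) / N * (M * (N : ℝ) ^ (1 / 2 : ℝ)) := by gcongr
      _ = G * M * (Real.sqrt (Real.log N) * ((N : ℝ) ^ (1 / 2 : ℝ) / N)) := by ring
      _ = _ := by
          congr 2
          rw [div_eq_iff hNp.ne']
          nth_rewrite 3 [← Real.rpow_one (N : ℝ)]
          rw [← Real.rpow_add hNp]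
          norm_num
  have c1 : 20736 * (B * E / N) < ν * Real.exp (-(20736 * (2 * D + 2 * F) / ν)) := by
    rw [Real.exp_neg, ← div_eq_mul_inv, lt_div_iff₀ (Real.exp_pos _)]
    calc 20736 * (B * E / N) * Real.exp (20736 * (2 * D + 2 * F) / ν)
        = 20736 * (B * E / N * Real.exp (20736 * (2 * D + 2 * F) / ν)) := by ring
      _ ≤ 20736 * (G * M * (Real.sqrt (Real.log N) * (N : ℝ) ^ (-(1 / 2) : ℝ))) := by gcongr
      _ = 20736 * G * M * (Real.sqrt (Real.log N) * (N : ℝ) ^ (-(1 / 2) : ℝ)) := by ring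
      _ < ν := h1
  have c2 : 144 * Real.pi * (B * E / N) * Real.exp (20736 * (2 * D + 2 * F) / ν) < ε := by
    calc 144 * Real.pi * (B * E / N) * Real.exp (20736 * (2 * D + 2 * F) / ν)
        = 144 * Real.pi * (B * E / N * Real.exp (20736 * (2 * D + 2 * F) / ν)) := by ring
      _ ≤ 144 * Real.pi * (G * M * (Real.sqrt (Real.log N) * (N : ℝ) ^ (-(1 / 2) : ℝ))) := by
          have := Real.pi_pos
          gcongr
      _ = 144 * Real.pi * G * M * (Real.sqrt (Real.log N) * (N : ℝ) ^ (-(1 / 2) : ℝ)) := by ring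
      _ < ε := h2
  exact scaled_crit hν hu hadm hv0 hm hB hD hE0 hF0 hBi hDi hEi hFi h3 b c1 c2

end

end Pool.Agent.H356R3.NS.H1SS
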