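import Pool.Agent.H1SS.Ene

open MeasureTheory Set Filter Topology
open scoped ENNReal NNReal

namespace Pool.Agent.H356R3.NS.H1SS

lemma NW_wadd (W W' : K → ℝ≥0∞) (x : K → C3) : NW (fun k => W k + W' k) x = NW W x + NW W' x := by
  unfold NW
  rw [← ENNReal.tsum_add]
  exact tsum_congr fun k => by ring

lemma NW_wmul (a : ℝ≥0∞) (W : K → ℝ≥0∞) (x : K → C3) : NW (fun k => a * W k) x = a * NW W x := by
  unfold NW
  rw [← ENNReal.tsum_mul_left]
  exact tsum_congr fun k => by ring

/-- the two parts of the energy bound -/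
structure SB (c : ℝ) (w : K → ℝ) (g g' : ℝ → ℝ) (d : Fam) (B : ℝ≥0∞) : Prop where
  sup : ∀ T, 0 ≤ T → ENNReal.ofReal (Real.exp (-g T)) * NW (Vm w) (at' d T) ≤ B
  int : ∀ T, 0 ≤ T → ∫⁻ t in Ioc 0 T, ENNReal.ofReal (Real.exp (-g t)) *
      (ENNReal.ofReal c * NW (Vp w) (at' d t) + ENNReal.ofReal (g' t) * NW (Vm w) (at' d t)) ≤ B

section
variable {c : ℝ} {w : K → ℝ} {g g' : ℝ → ℝ}

lemma SB.of_Phi {d : Fam} {B : ℝ≥0∞} (h : ∀ T, 0 ≤ T → Phi c w g g' d T ≤ B) : SB c w g g' d B :=
  ⟨fun T hT => le_self_add.trans (h T hT), fun T hT => le_add_self.trans (h T hT)⟩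

lemma SB.mono {d : Fam} {B B' : ℝ≥0∞} (h : SB c w g g' d B) (hB : B ≤ B') : SB c w g g' d B' :=
  ⟨fun T hT => (h.sup T hT).trans hB, fun T hT => (h.int T hT).trans hB⟩

lemma SB.zero : SB c w g g' 0 0 := by
  have h0 : ∀ (W : K → ℝ≥0∞) t, NW W (at' (0 : Fam) t) = 0 := fun W t => NW_zero _
  constructor
  · intro T _; rw [h0]; simp
  · intro T _; simp [h0]

lemma meas_NW {d : Fam} (hd : CF d) (hg : Continuous g) (hg' : Continuous g') : Measurable fun t =>
    ENNReal.ofReal (Real.exp (-g t)) *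
      (ENNReal.ofReal c * NW (Vp w) (at' d t) + ENNReal.ofReal (g' t) * NW (Vm w) (at' d t)) := by
  have h1 := NW_meas (Vp w) hd
  have h2 := NW_meas (Vm w) hd
  have h3 : Measurable fun t => ENNReal.ofReal (Real.exp (-g t)) := by fun_prop
  have h4 : Measurable fun t => ENNReal.ofReal (g' t) := by fun_prop
  exact h3.mul ((h1.const_mul _).add (h4.mul h2))

lemma SB.add {d d' : Fam} {B B' : ℝ≥0∞} (hd : CF d) (hg : Continuous g) (hg' : Continuous g')
    (h : SB c w g g' d B) (h' : SB c w g g' d' B') : SB c w g g' (d + d') (B + B') := by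
  constructor
  · intro T hT
    calc _ ≤ ENNReal.ofReal (Real.exp (-g T)) * (NW (Vm w) (at' d T) + NW (Vm w) (at' d' T)) :=
          mul_le_mul' le_rfl (NW_add_le _ _ _)
      _ ≤ _ := by rw [mul_add]; exact add_le_add (h.sup T hT) (h'.sup T hT)
  · intro T hT
    refine le_trans ?_ (add_le_add (h.int T hT) (h'.int T hT))
    rw [← lintegral_add_left (meas_NW hd hg hg')]
    refine lintegral_mono fun t => ?_
    calc _ ≤ ENNReal.ofReal (Real.exp (-g t)) *
          (ENNReal.ofReal c * (NW (Vp w) (at' d t) + NW (Vp w) (at' d' t)) +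
            ENNReal.ofReal (g' t) * (NW (Vm w) (at' d t) + NW (Vm w) (at' d' t))) := by
          apply mul_le_mul' le_rfl
          exact add_le_add (mul_le_mul' le_rfl (NW_add_le _ _ _)) (mul_le_mul' le_rfl (NW_add_le _ _ _))
      _ = _ := by ring

lemma SB.lim {R : ℕ → Fam} {r : Fam} {B : ℝ≥0∞} (hR : ∀ n, CF (R n)) (hg : Continuous g) (hg' : Continuous g')
    (ht : ∀ k t, Tendsto (fun n => R n k t) atTop (𝓝 (r k t))) (h : ∀ n, SB c w g g' (R n) B) :
    SB c w g g' r B := by
  constructor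
  · intro T hT
    have h1 : NW (fun k => ENNReal.ofReal (Real.exp (-g T)) * Vm w k) (at' r T) ≤ B := by
      refine NW_le_of_tendsto (fun k => ENNReal.mul_ne_top ENNReal.ofReal_ne_top ENNReal.ofReal_ne_top)
        (x := fun n => at' (R n) T) (fun k => ht k T) fun n => ?_
      rw [NW_wmul]; exact (h n).sup T hT
    rwa [NW_wmul] at h1
  · intro T hT
    set W : ℝ → K → ℝ≥0∞ := fun t k => ENNReal.ofReal (Real.exp (-g t)) *
      (ENNReal.ofReal c * Vp w k + ENNReal.ofReal (g' t) * Vm w k) with hW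
    have e : ∀ (d : Fam) t, ENNReal.ofReal (Real.exp (-g t)) *
        (ENNReal.ofReal c * NW (Vp w) (at' d t) + ENNReal.ofReal (g' t) * NW (Vm w) (at' d t))
        = NW (W t) (at' d t) := by
      intro d t
      simp only [hW]
      rw [NW_wmul (W := fun k => ENNReal.ofReal c * Vp w k + ENNReal.ofReal (g' t) * Vm w k), NW_wadd,
        NW_wmul, NW_wmul]
    have hWt : ∀ t k, W t k ≠ ⊤ := by
      intro t k
      exact ENNReal.mul_ne_top ENNReal.ofReal_ne_top (ENNReal.add_ne_top.2
        ⟨ENNReal.mul_ne_top ENNReal.ofReal_ne_top ENNReal.ofReal_ne_top,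
          ENNReal.mul_ne_top ENNReal.ofReal_ne_top ENNReal.ofReal_ne_top⟩)
    simp only [e]
    calc ∫⁻ t in Ioc 0 T, NW (W t) (at' r t)
        ≤ ∫⁻ t in Ioc 0 T, liminf (fun n => NW (W t) (at' (R n) t)) atTop := by
          refine lintegral_mono fun t => ?_
          exact NW_le_liminf (hWt t) (x := fun n => at' (R n) t) (fun k => ht k t)
      _ ≤ liminf (fun n => ∫⁻ t in Ioc 0 T, NW (W t) (at' (R n) t)) atTop := by
          refine lintegral_liminf_le fun n => ?_
          have := meas_NW (c := c) (w := w) (hR n) hg hg'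
          simpa only [e] using this
      _ ≤ liminf (fun _ : ℕ => B) atTop := by
          refine liminf_le_liminf (Filter.Eventually.of_forall fun n => ?_)
          have := (h n).int T hT
          simpa only [e] using this
      _ = B := liminf_const B

end

/-- the growth constant -/
noncomputable def La (c : ℝ) : ℝ := 64 * C0 ^ 2 / c

/-- derivative of the time weight -/
noncomputable def gd (c : ℝ) (A : ℝ → ℝ) (t : ℝ) : ℝ := La c * A t ^ 2

lemma La_pos {c : ℝ} (hc : 0 < c) : 0 < La c := by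
  have := C0_pos
  unfold La; positivity

section
variable {c : ℝ} {w : K → ℝ} {A : ℝ → ℝ}

/-- The main bilinear estimate. -/
lemma bil (hc : 0 < c) (hw : Wt w) (hA : Continuous A) (hA0 : ∀ t, 0 ≤ A t) {G : ℝ}
    (hG : ∀ t, 0 ≤ t → gw (La c) A t ≤ G)
    {F d R R' : Fam} (hd : CF d) (hR : CF R) (hR' : CF R') (hd0 : ∀ t, d 0 t = 0)
    (hR0 : ∀ t, R 0 t = 0) (hR0' : ∀ t, R' 0 t = 0)
    {b r r' : ℝ} (hb : 0 ≤ b) (hr : 0 ≤ r) (hr' : 0 ≤ r')
    (sd : SB c w (gw (La c) A) (gd c A) d (ENNReal.ofReal b))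
    (sR : SB c w (gw (La c) A) (gd c A) R (ENNReal.ofReal r))
    (sR' : SB c w (gw (La c) A) (gd c A) R' (ENNReal.ofReal r'))
    (hF : ∀ s, 0 < s → NW (Vm w) (at' F s) ≤ ENNReal.ofReal C0 * (NW (Va w) (at' d s) *
      (2 * ENNReal.ofReal (A s) + (NW (Va w) (at' R s) + NW (Va w) (at' R' s))))) {T : ℝ} (hT : 0 ≤ T) :
    ∫⁻ t in Ioc 0 T, ENNReal.ofReal (Real.exp (-gw (La c) A t)) * NW (Vm w) (at' F t)
      ≤ ENNReal.ofReal (b * (1 / 8 + C0 / c * Real.exp G * (r + r'))) := by
  have hC := C0_pos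
  have hL := La_pos hc
  set g := gw (La c) A with hgdef
  have hgc : Continuous g := continuous_iff_continuousAt.2 fun s => (gw_deriv (La c) hA s).continuousAt
  have hg'c : Continuous (gd c A) := by unfold gd; fun_prop
  have hg'0 : ∀ t, 0 ≤ gd c A t := fun t => mul_nonneg hL.le (sq_nonneg _)
  set E : ℝ → ℝ≥0∞ := fun t => ENNReal.ofReal (Real.exp (-g t)) with hE
  set Xd : ℝ → ℝ≥0∞ := fun t => NW (Vm w) (at' d t) with hXd
  set Zd : ℝ → ℝ≥0∞ := fun t => NW (Vp w) (at' d t) with hZd
  set XR : ℝ → ℝ≥0∞ := fun t => NW (Vm w) (at' R t) with hXR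
  set ZR : ℝ → ℝ≥0∞ := fun t => NW (Vp w) (at' R t) with hZR
  set XS : ℝ → ℝ≥0∞ := fun t => NW (Vm w) (at' R' t) with hXS
  set ZS : ℝ → ℝ≥0∞ := fun t => NW (Vp w) (at' R' t) with hZS
  have mE : Measurable E := by simp only [hE]; fun_prop
  have mXd : Measurable Xd := NW_meas _ hd
  have mZd : Measurable Zd := NW_meas _ hd
  have mXR : Measurable XR := NW_meas _ hR
  have mZR : Measurable ZR := NW_meas _ hR
  have mXS : Measurable XS := NW_meas _ hR'
  have mZS : Measurable ZS := NW_meas _ hR'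
  -- sup bounds
  have hsup : ∀ (x : Fam) (B : ℝ≥0∞), SB c w g (gd c A) x B → ∀ t, 0 ≤ t →
      NW (Vm w) (at' x t) ≤ ENNReal.ofReal (Real.exp G) * B := by
    intro x B hx t ht
    calc NW (Vm w) (at' x t) = ENNReal.ofReal (Real.exp (g t)) *
          (ENNReal.ofReal (Real.exp (-g t)) * NW (Vm w) (at' x t)) := by
          rw [← mul_assoc, ← ENNReal.ofReal_mul (Real.exp_pos _).le, ← Real.exp_add]
          simp
      _ ≤ ENNReal.ofReal (Real.exp G) * B := by
          refine mul_le_mul' (ENNReal.ofReal_le_ofReal (Real.exp_le_exp.2 (hG t ht))) (hx.sup t ht)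
  -- integral bounds
  have hint : ∀ (x : Fam) (B : ℝ≥0∞), CF x → SB c w g (gd c A) x B →
      ∫⁻ t in Ioc 0 T, E t * NW (Vp w) (at' x t) ≤ ENNReal.ofReal (1 / c) * B := by
    intro x B hxc hx
    have h1 := hx.int T hT
    calc ∫⁻ t in Ioc 0 T, E t * NW (Vp w) (at' x t)
        = ENNReal.ofReal (1 / c) * ∫⁻ t in Ioc 0 T, E t * (ENNReal.ofReal c * NW (Vp w) (at' x t)) := by
          have mm : Measurable fun t => E t * (ENNReal.ofReal c * NW (Vp w) (at' x t)) :=
            mE.mul ((NW_meas _ hxc).const_mul _)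
          rw [← lintegral_const_mul _ mm]
          refine lintegral_congr fun t => ?_
          have : ENNReal.ofReal (1 / c) * ENNReal.ofReal c = 1 := by
            rw [← ENNReal.ofReal_mul (by positivity), one_div, inv_mul_cancel₀ hc.ne', ENNReal.ofReal_one]
          calc E t * NW (Vp w) (at' x t) = (ENNReal.ofReal (1 / c) * ENNReal.ofReal c) *
                (E t * NW (Vp w) (at' x t)) := by rw [this, one_mul]
            _ = _ := by ring
      _ ≤ ENNReal.ofReal (1 / c) * B := by
          apply mul_le_mul' le_rfl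
          refine le_trans (lintegral_mono fun t => ?_) h1
          exact mul_le_mul' le_rfl le_self_add
  have hpt : ∀ s, 0 < s → E s * NW (Vm w) (at' F s) ≤
      ENNReal.ofReal (1 / 8) * (E s * (ENNReal.ofReal c * Zd s + ENNReal.ofReal (gd c A s) * Xd s))
      + ENNReal.ofReal (C0 / 2) * ((ENNReal.ofReal (Real.exp G * b)) * (E s * ZR s)
        + (ENNReal.ofReal (Real.exp G * r)) * (E s * Zd s)
        + ((ENNReal.ofReal (Real.exp G * b)) * (E s * ZS s)
        + (ENNReal.ofReal (Real.exp G * r')) * (E s * Zd s))) := by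
    intro s hs
    have y1 : ENNReal.ofReal C0 * (2 * (NW (Va w) (at' d s) * ENNReal.ofReal (A s))) ≤
        ENNReal.ofReal (1 / 8) * (ENNReal.ofReal c * Zd s + ENNReal.ofReal (gd c A s) * Xd s) := by
      have h1 := NV_young hw (x := at' d s) (hd0 s) (θ := c / (8 * C0)) (by positivity) (hA0 s)
      refine (mul_le_mul' le_rfl h1).trans (le_of_eq ?_)
      have e1 : ENNReal.ofReal C0 * ENNReal.ofReal (c / (8 * C0)) = ENNReal.ofReal (1 / 8) * ENNReal.ofReal c := by
        rw [← ENNReal.ofReal_mul hC.le, ← ENNReal.ofReal_mul (by norm_num)]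
        congr 1; field_simp
      have e2 : ENNReal.ofReal C0 * ENNReal.ofReal (A s ^ 2 / (c / (8 * C0)))
          = ENNReal.ofReal (1 / 8) * ENNReal.ofReal (gd c A s) := by
        rw [← ENNReal.ofReal_mul hC.le, ← ENNReal.ofReal_mul (by norm_num)]
        congr 1; unfold gd La; field_simp; norm_num
      calc _ = (ENNReal.ofReal C0 * ENNReal.ofReal (c / (8 * C0))) * Zd s
            + (ENNReal.ofReal C0 * ENNReal.ofReal (A s ^ 2 / (c / (8 * C0)))) * Xd s := by
            simp only [hZd, hXd]; ring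
        _ = _ := by rw [e1, e2]; ring
    have hXdb := hsup d _ sd s hs.le
    have hXRb := hsup R _ sR s hs.le
    have hXSb := hsup R' _ sR' s hs.le
    rw [← ENNReal.ofReal_mul (Real.exp_pos _).le] at hXdb hXRb hXSb
    have y2 : ENNReal.ofReal C0 * (NW (Va w) (at' d s) * NW (Va w) (at' R s)) ≤
        ENNReal.ofReal (C0 / 2) * (ENNReal.ofReal (Real.exp G * b) * ZR s
          + ENNReal.ofReal (Real.exp G * r) * Zd s) := by
      have h1 := NV_interp2 hw (x := at' d s) (y := at' R s) (hd0 s) (hR0 s)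
      calc _ = ENNReal.ofReal (C0 / 2) * (2 * (NW (Va w) (at' d s) * NW (Va w) (at' R s))) := by
            rw [← mul_assoc (ENNReal.ofReal (C0 / 2))]
            congr 1
            rw [show (2 : ℝ≥0∞) = ENNReal.ofReal 2 by simp, ← ENNReal.ofReal_mul (by positivity)]
            congr 1; ring
        _ ≤ ENNReal.ofReal (C0 / 2) * (Xd s * ZR s + Zd s * XR s) := mul_le_mul' le_rfl h1
        _ ≤ _ := by
            apply mul_le_mul' le_rfl
            apply add_le_add (mul_le_mul' hXdb le_rfl)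
            rw [mul_comm (Zd s)]
            exact mul_le_mul' hXRb le_rfl
    have y3 : ENNReal.ofReal C0 * (NW (Va w) (at' d s) * NW (Va w) (at' R' s)) ≤
        ENNReal.ofReal (C0 / 2) * (ENNReal.ofReal (Real.exp G * b) * ZS s
          + ENNReal.ofReal (Real.exp G * r') * Zd s) := by
      have h1 := NV_interp2 hw (x := at' d s) (y := at' R' s) (hd0 s) (hR0' s)
      calc _ = ENNReal.ofReal (C0 / 2) * (2 * (NW (Va w) (at' d s) * NW (Va w) (at' R' s))) := by
            rw [← mul_assoc (ENNReal.ofReal (C0 / 2))]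
            congr 1
            rw [show (2 : ℝ≥0∞) = ENNReal.ofReal 2 by simp, ← ENNReal.ofReal_mul (by positivity)]
            congr 1; ring
        _ ≤ ENNReal.ofReal (C0 / 2) * (Xd s * ZS s + Zd s * XS s) := mul_le_mul' le_rfl h1
        _ ≤ _ := by
            apply mul_le_mul' le_rfl
            apply add_le_add (mul_le_mul' hXdb le_rfl)
            rw [mul_comm (Zd s)]
            exact mul_le_mul' hXSb le_rfl
    calc E s * NW (Vm w) (at' F s) ≤ E s * (ENNReal.ofReal C0 * (NW (Va w) (at' d s) *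
          (2 * ENNReal.ofReal (A s) + (NW (Va w) (at' R s) + NW (Va w) (at' R' s))))) :=
          mul_le_mul' le_rfl (hF s hs)
      _ = E s * (ENNReal.ofReal C0 * (2 * (NW (Va w) (at' d s) * ENNReal.ofReal (A s)))
          + (ENNReal.ofReal C0 * (NW (Va w) (at' d s) * NW (Va w) (at' R s))
          + ENNReal.ofReal C0 * (NW (Va w) (at' d s) * NW (Va w) (at' R' s)))) := by ring
      _ ≤ E s * (ENNReal.ofReal (1 / 8) * (ENNReal.ofReal c * Zd s + ENNReal.ofReal (gd c A s) * Xd s)
          + (ENNReal.ofReal (C0 / 2) * (ENNReal.ofReal (Real.exp G * b) * ZR s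
          + ENNReal.ofReal (Real.exp G * r) * Zd s)
          + ENNReal.ofReal (C0 / 2) * (ENNReal.ofReal (Real.exp G * b) * ZS s
          + ENNReal.ofReal (Real.exp G * r') * Zd s))) :=
          mul_le_mul' le_rfl (add_le_add y1 (add_le_add y2 y3))
      _ = _ := by ring
  have mg : Measurable fun s => ENNReal.ofReal (gd c A s) := by fun_prop
  have m1 : Measurable fun s => E s * (ENNReal.ofReal c * Zd s + ENNReal.ofReal (gd c A s) * Xd s) :=
    mE.mul ((mZd.const_mul _).add (mg.mul mXd))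
  have mEZd : Measurable fun s => E s * Zd s := mE.mul mZd
  have mEZR : Measurable fun s => E s * ZR s := mE.mul mZR
  have mEZS : Measurable fun s => E s * ZS s := mE.mul mZS
  calc ∫⁻ t in Ioc 0 T, E t * NW (Vm w) (at' F t)
      ≤ ∫⁻ s in Ioc 0 T, (ENNReal.ofReal (1 / 8) *
        (E s * (ENNReal.ofReal c * Zd s + ENNReal.ofReal (gd c A s) * Xd s))
      + ENNReal.ofReal (C0 / 2) * ((ENNReal.ofReal (Real.exp G * b)) * (E s * ZR s)
        + (ENNReal.ofReal (Real.exp G * r)) * (E s * Zd s)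
        + ((ENNReal.ofReal (Real.exp G * b)) * (E s * ZS s)
        + (ENNReal.ofReal (Real.exp G * r')) * (E s * Zd s)))) :=
        setLIntegral_mono' measurableSet_Ioc fun s hs => hpt s hs.1
    _ = ENNReal.ofReal (1 / 8) * (∫⁻ s in Ioc 0 T,
        (E s * (ENNReal.ofReal c * Zd s + ENNReal.ofReal (gd c A s) * Xd s)))
      + ENNReal.ofReal (C0 / 2) * ((ENNReal.ofReal (Real.exp G * b)) * (∫⁻ s in Ioc 0 T, E s * ZR s)
        + (ENNReal.ofReal (Real.exp G * r)) * (∫⁻ s in Ioc 0 T, E s * Zd s)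
        + ((ENNReal.ofReal (Real.exp G * b)) * (∫⁻ s in Ioc 0 T, E s * ZS s)
        + (ENNReal.ofReal (Real.exp G * r')) * (∫⁻ s in Ioc 0 T, E s * Zd s))) := by
        rw [lintegral_add_left (m1.const_mul _), lintegral_const_mul _ m1,
          lintegral_const_mul _ (by fun_prop), lintegral_add_left (by fun_prop),
          lintegral_add_left (by fun_prop), lintegral_add_left (by fun_prop),
          lintegral_const_mul _ mEZR, lintegral_const_mul _ mEZd, lintegral_const_mul _ mEZS,
          lintegral_const_mul _ mEZd]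
    _ ≤ ENNReal.ofReal (1 / 8) * ENNReal.ofReal b
      + ENNReal.ofReal (C0 / 2) * ((ENNReal.ofReal (Real.exp G * b)) * (ENNReal.ofReal (1 / c) * ENNReal.ofReal r)
        + (ENNReal.ofReal (Real.exp G * r)) * (ENNReal.ofReal (1 / c) * ENNReal.ofReal b)
        + ((ENNReal.ofReal (Real.exp G * b)) * (ENNReal.ofReal (1 / c) * ENNReal.ofReal r')
        + (ENNReal.ofReal (Real.exp G * r')) * (ENNReal.ofReal (1 / c) * ENNReal.ofReal b))) := by
        have i1 := hint d _ hd sd
        have i2 := hint R _ hR sR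
        have i3 := hint R' _ hR' sR'
        have i0 := sd.int T hT
        gcongr
    _ = _ := by
        have hG0 := Real.exp_pos G
        simp only [← ENNReal.ofReal_mul (show (0 : ℝ) ≤ 1 / 8 by norm_num),
          ← ENNReal.ofReal_mul (show (0 : ℝ) ≤ 1 / c by positivity),
          ← ENNReal.ofReal_mul (show (0 : ℝ) ≤ Real.exp G * b by positivity),
          ← ENNReal.ofReal_mul (show (0 : ℝ) ≤ Real.exp G * r by positivity),
          ← ENNReal.ofReal_mul (show (0 : ℝ) ≤ Real.exp G * r' by positivity)]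
        rw [← ENNReal.ofReal_add (by positivity) (by positivity),
          ← ENNReal.ofReal_add (by positivity) (by positivity),
          ← ENNReal.ofReal_add (by positivity) (by positivity),
          ← ENNReal.ofReal_mul (by positivity), ← ENNReal.ofReal_add (by positivity) (by positivity)]
        congr 1
        field_simp
        ring

end

end Pool.Agent.H356R3.NS.H1SS
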