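import Pool.Agent.H1SS.Poly
import Pool.Agent.H459R3.NS.Main

open MeasureTheory Set Filter Topology
open scoped ENNReal NNReal ContDiff

namespace Pool.Agent.H356R3.NS.H1SS

open H459R3.NS (IsSol SP Per fr ee cube)

lemma fc_fr (v : R3 → R3) (k : K) (i : Fin 3) : fc v k i = fr (fun x => v x i) k := by
  unfold NS.fc H459R3.NS.fr H459R3.NS.fc H459R3.NS.cube
  refine integral_congr_ae (Filter.Eventually.of_forall fun x => ?_)
  simp only
  rw [mul_comm]
  congr 1
  unfold H459R3.NS.ee H459R3.NS.ph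
  congr 1
  push_cast
  simp only [Pi.neg_apply, Int.cast_neg, neg_mul, Finset.sum_neg_distrib, mul_neg]

lemma toSol {ν : ℝ} {v : R3 → R3} {u : ℝ → R3 → R3} {p : ℝ → R3 → ℝ} (h : AdmissiblePeriodic ν v u p) (T : ℝ) :
    IsSol ν T u p where
  smooth_u := h.smooth_u.mono (prod_mono (fun t ht => ht.1) subset_rfl)
  smooth_p := h.smooth_p.mono (prod_mono (fun t ht => ht.1) subset_rfl)
  per_u := fun t ht i x => h.periodic_u t ht.1 x i
  per_p := fun t ht i x => h.periodic_p t ht.1 x i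
  divfree := fun t ht x => h.divFree t ht.1 x
  momentum := fun t ht x i => by
    have h1 := h.momentum t ht.1.le x i
    rw [derivWithin_of_mem_nhds (Ici_mem_nhds ht.1)] at h1
    exact h1

/-- the Fourier coefficients of a field depending on time -/
noncomputable def UF (u : ℝ → R3 → R3) : Fam := fun k t i => fc (u (max t 0)) k i

lemma UF_mx (u : ℝ → R3 → R3) (k : K) (t : ℝ) : UF u k (max t 0) = UF u k t := by
  unfold UF; simp

lemma UF_eq (u : ℝ → R3 → R3) (k : K) {t : ℝ} (ht : 0 ≤ t) (i : Fin 3) : UF u k t i = fr (fun x => u t x i) k := by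
  unfold UF
  rw [max_eq_left ht, fc_fr]

section
variable {ν : ℝ} {v : R3 → R3} {u : ℝ → R3 → R3} {p : ℝ → R3 → ℝ}

lemma UF_cf (h : AdmissiblePeriodic ν v u p) : CF (UF u) := by
  intro k
  refine continuous_pi fun i => ?_
  unfold UF NS.fc
  refine continuous_parametric_integral_of_continuous (f := fun (t : ℝ) (x : R3) =>
    (u (max t 0) x i : ℂ) * Complex.exp (-(2 * Real.pi * Complex.I * ∑ j, (k j : ℂ) * (x j : ℂ)))) ?_ isCompact_Icc
  have h1 : Continuous fun z : ℝ × R3 => u (max z.1 0) z.2 := by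
    have := h.smooth_u.continuousOn.comp_continuous (f := fun z : ℝ × R3 => ((max z.1 0, z.2) : ℝ × R3))
      (by fun_prop) (fun z => ⟨mem_Ici.2 (le_max_right _ _), mem_univ _⟩)
    exact this
  have h2 : Continuous fun z : ℝ × R3 => u (max z.1 0) z.2 i := (continuous_apply i).comp h1
  have h3 : Continuous fun z : ℝ × R3 => ((u (max z.1 0) z.2 i : ℝ) : ℂ) := Complex.continuous_ofReal.comp h2
  exact h3.mul (by fun_prop)

lemma UF_sym (u : ℝ → R3 → R3) : SymF (UF u) := by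
  intro t k i
  exact fc_sym (u (max t 0)) k i

lemma iter_smooth {T : ℝ} {f : ℝ → R3 → ℝ}
    (hf : ContDiffOn ℝ ∞ (fun z : ℝ × R3 => f z.1 z.2) (Ico 0 T ×ˢ univ)) (j : Fin 3) (n : ℕ) :
    ContDiffOn ℝ ∞ (fun z : ℝ × R3 => ((H459R3.NS.pd j)^[n] (f z.1)) z.2) (Ico 0 T ×ˢ univ) := by
  induction n with
  | zero => exact hf
  | succ n ih =>
    have := H459R3.NS.contDiffOn_pd (f := fun t => (H459R3.NS.pd j)^[n] (f t)) ih j
    simpa only [Function.iterate_succ_apply'] using this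

lemma pw_le_N (k : K) (m : ℕ) : pw k ^ m ≤ 4 ^ m * (1 + (H459R3.NS.N k : ℝ) ^ m) := by
  have h1 : ∀ j, |(k j : ℝ)| ≤ (H459R3.NS.N k : ℝ) := by
    intro j
    have := (H459R3.NS.N_le_iff k (H459R3.NS.N k)).1 le_rfl j
    exact_mod_cast this
  have h2 : pw k ≤ 1 + 3 * (H459R3.NS.N k : ℝ) := by
    unfold pw l1
    simp only [Fin.sum_univ_three]
    linarith [h1 0, h1 1, h1 2]
  have hN : (0 : ℝ) ≤ (H459R3.NS.N k : ℝ) := Nat.cast_nonneg _
  rcases le_total (H459R3.NS.N k : ℝ) 1 with h | h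
  · calc pw k ^ m ≤ 4 ^ m := pow_le_pow_left₀ (pw_pos k).le (by linarith) m
      _ ≤ _ := by
        have : (0 : ℝ) ≤ (H459R3.NS.N k : ℝ) ^ m := by positivity
        nlinarith [show (0 : ℝ) < 4 ^ m by positivity]
  · calc pw k ^ m ≤ (4 * (H459R3.NS.N k : ℝ)) ^ m := pow_le_pow_left₀ (pw_pos k).le (by linarith) m
      _ = 4 ^ m * (H459R3.NS.N k : ℝ) ^ m := mul_pow _ _ _
      _ ≤ _ := by
        have : (0 : ℝ) < 4 ^ m := by positivity
        nlinarith

lemma fr_loc (h : AdmissiblePeriodic ν v u p) (T : ℝ) (m : ℕ) (i : Fin 3) :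
    ∃ M : ℝ, 0 ≤ M ∧ ∀ k t, 0 ≤ t → t ≤ T → pw k ^ m * ‖fr (fun x => u t x i) k‖ ≤ M := by
  have hs := toSol h (T + 1)
  have hsm := hs.smooth_c i
  -- bounds for the iterated derivatives
  have hb : ∀ (j : Fin 3) (n : ℕ), ∃ C : ℝ, ∀ t, 0 ≤ t → t ≤ T → ∀ x ∈ cube,
      |((H459R3.NS.pd j)^[n] (fun y => u t y i)) x| ≤ C := by
    intro j n
    have h1 := iter_smooth (f := fun t y => u t y i) hsm j n
    have hK : IsCompact (Icc 0 T ×ˢ cube) := isCompact_Icc.prod isCompact_Icc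
    have hsub : Icc 0 T ×ˢ cube ⊆ Ico 0 (T + 1) ×ˢ (univ : Set R3) :=
      prod_mono (fun s hs => ⟨hs.1, by linarith [hs.2]⟩) (subset_univ _)
    obtain ⟨C, hC⟩ := hK.exists_bound_of_continuousOn (h1.continuousOn.mono hsub)
    exact ⟨C, fun t ht0 htT x hx => hC (t, x) ⟨⟨ht0, htT⟩, hx⟩⟩
  choose C hC using hb
  have hint : ∀ (j : Fin 3) (n : ℕ) t, 0 ≤ t → t ≤ T → ∀ k,
      ‖fr ((H459R3.NS.pd j)^[n] (fun y => u t y i)) k‖ ≤ C j n := by
    intro j n t ht0 htT k
    have := H459R3.NS.cube_finite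
    unfold H459R3.NS.fr H459R3.NS.fc
    have h2 : ‖∫ x in cube, ee (-k) x * ((((H459R3.NS.pd j)^[n] (fun y => u t y i)) x : ℝ) : ℂ)‖
        ≤ C j n * (volume.restrict cube).real univ := by
      refine norm_integral_le_of_norm_le_const ?_
      refine (ae_restrict_iff' (measurableSet_Icc : MeasurableSet cube)).2 (Filter.Eventually.of_forall fun x hx => ?_)
      rw [norm_mul, H459R3.NS.norm_ee, one_mul, Complex.norm_real]
      exact hC j n t ht0 htT x hx
    refine h2.trans (le_of_eq ?_)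
    rw [measureReal_restrict_apply MeasurableSet.univ, univ_inter]
    simp [Measure.real, H459R3.NS.volume_cube]
  have hk : ∀ (n : ℕ) t, 0 ≤ t → t ≤ T → ∀ k,
      (H459R3.NS.N k : ℝ) ^ n * ‖fr (fun y => u t y i) k‖ ≤ ∑ j, C j n := by
    intro n t ht0 htT k
    have hsp := hs.sp (t := t) ⟨ht0, by linarith⟩ i
    have h1 : ∀ j, |(k j : ℝ)| ^ n * ‖fr (fun y => u t y i) k‖ ≤ C j n := by
      intro j
      refine le_trans ?_ (hint j n t ht0 htT k)
      rw [H459R3.NS.fr_iter hsp, norm_mul, norm_pow]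
      gcongr
      rw [norm_mul, norm_mul, norm_mul, Complex.norm_I, mul_one, Complex.norm_real,
        Real.norm_eq_abs, abs_of_pos Real.pi_pos, Complex.norm_ofNat, Complex.norm_intCast]
      have h0 : 0 ≤ |(k j : ℝ)| := abs_nonneg _
      have := Real.pi_gt_three
      nlinarith
    calc (H459R3.NS.N k : ℝ) ^ n * ‖fr (fun y => u t y i) k‖
        ≤ (∑ j, |(k j : ℝ)| ^ n) * ‖fr (fun y => u t y i) k‖ := by
          gcongr
          exact H459R3.NS.N_pow_le k n
      _ = ∑ j, |(k j : ℝ)| ^ n * ‖fr (fun y => u t y i) k‖ := Finset.sum_mul _ _ _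
      _ ≤ ∑ j, C j n := Finset.sum_le_sum fun j _ => h1 j
  refine ⟨|4 ^ m * (∑ j, C j 0 + ∑ j, C j m)|, abs_nonneg _, fun k t ht0 htT => ?_⟩
  refine le_trans ?_ (le_abs_self _)
  have h0 := hk 0 t ht0 htT k
  have hm := hk m t ht0 htT k
  rw [pow_zero, one_mul] at h0
  calc pw k ^ m * ‖fr (fun y => u t y i) k‖
      ≤ 4 ^ m * (1 + (H459R3.NS.N k : ℝ) ^ m) * ‖fr (fun y => u t y i) k‖ :=
        mul_le_mul_of_nonneg_right (pw_le_N k m) (norm_nonneg _)
    _ = 4 ^ m * (‖fr (fun y => u t y i) k‖ + (H459R3.NS.N k : ℝ) ^ m * ‖fr (fun y => u t y i) k‖) := by ring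
    _ ≤ _ := by gcongr

lemma UF_loc (h : AdmissiblePeriodic ν v u p) (T : ℝ) (m : ℕ) :
    ∃ M : ℝ, 0 ≤ M ∧ ∀ k t, t ≤ T → pw k ^ m * ‖UF u k t‖ ≤ M := by
  choose M hM0 hM using fun i => fr_loc h (max T 0) m i
  refine ⟨∑ i, M i, Finset.sum_nonneg fun i _ => hM0 i, fun k t ht => ?_⟩
  rw [← UF_mx]
  calc pw k ^ m * ‖UF u k (max t 0)‖ ≤ pw k ^ m * ∑ i, ‖UF u k (max t 0) i‖ :=
        mul_le_mul_of_nonneg_left (norm_le_sum _) (pow_pos (pw_pos k) m).le
    _ = ∑ i, pw k ^ m * ‖UF u k (max t 0) i‖ := by rw [Finset.mul_sum]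
    _ ≤ _ := Finset.sum_le_sum fun i _ => by
        rw [UF_eq u k (le_max_right t 0)]
        exact hM i k _ (le_max_right _ _) (max_le_max ht le_rfl)

/-- time derivative of a Fourier coefficient -/
lemma fr_hasDeriv {T : ℝ} (hs : IsSol ν T u p) {t : ℝ} (ht : t ∈ Ioo 0 T) (i : Fin 3) (k : K) :
    HasDerivAt (fun s => fr (fun y => u s y i) k) (fr (H459R3.NS.dt (fun s y => u s y i) t) k) t := by
  have hc := H459R3.NS.mono_Ioo (f := fun s y => u s y i) (hs.smooth_c i) (n := 1) (by norm_cast)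
  have hre : ContDiff ℝ 1 fun x : R3 => (ee (-k) x).re := Complex.reCLM.contDiff.comp (H459R3.NS.ee_contDiff _)
  have him : ContDiff ℝ 1 fun x : R3 => (ee (-k) x).im := Complex.imCLM.contDiff.comp (H459R3.NS.ee_contDiff _)
  have hgen : ∀ a : R3 → ℝ, ContDiff ℝ 1 a → HasDerivAt (fun s => ∫ x in cube, a x * u s x i)
      (∫ x in cube, a x * H459R3.NS.dt (fun s y => u s y i) t x) t := by
    intro a ha
    have hF : ContDiffOn ℝ 1 (fun z : ℝ × R3 => a z.2 * u z.1 z.2 i) (Ioo 0 T ×ˢ univ) :=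
      (ha.comp contDiff_snd).contDiffOn.mul hc
    have key := H459R3.NS.hasDerivAt_int (F := fun s x => a x * u s x i) hF ht
    refine key.congr_deriv ?_
    congr 1
    funext x
    have h2 : HasDerivAt (fun s => u s x i) (H459R3.NS.dt (fun s y => u s y i) t x) t := by
      have := H459R3.NS.hasDerivAt_slice (F := fun s y => u s y i) hc ht x
      rwa [← H459R3.NS.dt_eq (f := fun s y => u s y i) (hs.smooth_c i) ht x] at this
    exact (h2.const_mul (a x)).deriv
  have e : ∀ f : R3 → ℝ, Continuous f → fr f k = ((∫ x in cube, (ee (-k) x).re * f x : ℝ) : ℂ)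
      + ((∫ x in cube, (ee (-k) x).im * f x : ℝ) : ℂ) * Complex.I := by
    intro f hf
    unfold H459R3.NS.fr H459R3.NS.fc
    rw [← integral_complex_ofReal, ← integral_complex_ofReal, ← integral_mul_const, ← integral_add]
    · congr 1
      funext x
      conv_lhs => rw [← Complex.re_add_im (ee (-k) x)]
      push_cast
      ring
    · exact H459R3.NS.integrableOn_cube (Complex.continuous_ofReal.comp (hre.continuous.mul hf))
    · exact (H459R3.NS.integrableOn_cube (Complex.continuous_ofReal.comp (him.continuous.mul hf))).mul_const _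
  have h1 := ((hgen _ hre).ofReal_comp).add (((hgen _ him).ofReal_comp).mul_const Complex.I)
  rw [e _ ((hs.sp_dt ht i).cont)]
  refine h1.congr_of_eventuallyEq ?_
  filter_upwards [Ioo_mem_nhds ht.1 ht.2] with s hs'
  exact e _ ((hs.sp ⟨hs'.1.le, hs'.2⟩ i).cont)

end

end Pool.Agent.H356R3.NS.H1SS
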