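import Pool.Agent.H1SS.Brg

open MeasureTheory Set Filter Topology
open scoped ENNReal NNReal ContDiff

namespace Pool.Agent.H356R3.NS.H1SS

open H459R3.NS (IsSol SP Per fr ee cube)

/-- Fourier coefficients of a product -/
lemma fr_mul {f g : R3 → ℝ} (hf : SP f) (hg : SP g) (k : K) :
    fr (fun x => f x * g x) k = ∑' l, fr f l * fr g (k - l) := by
  have h := H459R3.NS.integral_ee_S_S (-k) (H459R3.NS.rap_fr hf).summable (H459R3.NS.rap_fr hg).summable
  rw [neg_neg] at h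
  rw [h.tsum_eq]
  have e : ∀ x, ee (-k) x * (H459R3.NS.S (fr f) x * H459R3.NS.S (fr g) x)
      = ee (-k) x * (((fun x => f x * g x) x : ℝ) : ℂ) := by
    intro x
    rw [H459R3.NS.S_fr hf x, H459R3.NS.S_fr hg x]
    push_cast
    ring
  simp only [e]
  rfl

section
variable {ν : ℝ} {v : R3 → R3} {u : ℝ → R3 → R3} {p : ℝ → R3 → ℝ}

/-- the coefficients at a fixed time -/
noncomputable def fv (f : Fin 3 → R3 → ℝ) : K → C3 := fun k i => fr (f i) k

lemma fr_conv {f : Fin 3 → R3 → ℝ} (hf : ∀ i, SP (f i)) (hdiv : ∀ x, ∑ i, H459R3.NS.pd i (f i) x = 0)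
    (i : Fin 3) (k : K) : fr (H459R3.NS.conv f i) k = ∑ j, fj k j * cv (fv f) (fv f) k j i := by
  have e1 : H459R3.NS.conv f i = fun x => ∑ j, H459R3.NS.pd j (fun y => f j y * f i y) x := by
    funext x
    unfold H459R3.NS.conv
    have h1 : ∀ j, H459R3.NS.pd j (fun y => f j y * f i y) x
        = f j x * H459R3.NS.pd j (f i) x + H459R3.NS.pd j (f j) x * f i x := fun j =>
      H459R3.NS.pd_mul (hf j) (hf i) j x
    simp only [h1]
    rw [Finset.sum_add_distrib, ← Finset.sum_mul, hdiv, zero_mul, add_zero]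
  rw [e1, H459R3.NS.fr_sum (fun j _ => ((hf j).mul (hf i)).pd j)]
  refine Finset.sum_congr rfl fun j _ => ?_
  rw [H459R3.NS.fr_pd ((hf j).mul (hf i)) j]
  unfold H459R3.NS.D
  rw [fr_mul (hf j) (hf i)]
  rfl

lemma fr_lap {f : R3 → ℝ} (hf : SP f) (k : K) :
    fr (H459R3.NS.lap f) k = -((4 * Real.pi ^ 2 * sq k : ℝ) : ℂ) * fr f k := by
  have e0 : H459R3.NS.lap f = fun x => ∑ j, H459R3.NS.pd j (H459R3.NS.pd j f) x := rfl
  rw [e0, H459R3.NS.fr_sum (fun j _ => (hf.pd j).pd j)]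
  have e1 : ∀ j, fr (H459R3.NS.pd j (H459R3.NS.pd j f)) k
      = (2 * Real.pi * Complex.I * (k j : ℂ)) * ((2 * Real.pi * Complex.I * (k j : ℂ)) * fr f k) := by
    intro j
    rw [H459R3.NS.fr_pd (hf.pd j), H459R3.NS.fr_pd hf]
    rfl
  have e2 : ∀ j, fr (fun x => H459R3.NS.pd j (H459R3.NS.pd j f) x) k
      = (2 * Real.pi * Complex.I * (k j : ℂ)) * ((2 * Real.pi * Complex.I * (k j : ℂ)) * fr f k) := e1
  simp only [e2]
  unfold sq
  push_cast
  rw [Finset.mul_sum, ← Finset.sum_neg_distrib, Finset.sum_mul]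
  refine Finset.sum_congr rfl fun j _ => ?_
  linear_combination (4 * (Real.pi : ℂ) ^ 2 * (k j : ℂ) ^ 2 * fr f k) * Complex.I_mul_I

lemma fr_divfree {f : Fin 3 → R3 → ℝ} (hf : ∀ i, SP (f i)) (hdiv : ∀ x, ∑ i, H459R3.NS.pd i (f i) x = 0)
    (k : K) : ∑ i, (k i : ℂ) * fr (f i) k = 0 := by
  have h1 : fr (fun x => ∑ i, H459R3.NS.pd i (f i) x) k = 0 := by
    have : (fun x => ∑ i, H459R3.NS.pd i (f i) x) = fun _ => (0 : ℝ) := funext hdiv
    rw [this]
    unfold H459R3.NS.fr H459R3.NS.fc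
    simp
  rw [H459R3.NS.fr_sum (fun j _ => (hf j).pd j)] at h1
  have e2 : ∀ j, fr (fun x => H459R3.NS.pd j (f j) x) k = (2 * Real.pi * Complex.I) * ((k j : ℂ) * fr (f j) k) := by
    intro j
    have e3 : (fun x => H459R3.NS.pd j (f j) x) = H459R3.NS.pd j (f j) := rfl
    rw [e3, H459R3.NS.fr_pd (hf j)]
    unfold H459R3.NS.D
    ring
  simp only [e2] at h1
  rw [← Finset.mul_sum] at h1
  have h3 : (2 * Real.pi * Complex.I : ℂ) ≠ 0 := by
    have : (Real.pi : ℂ) ≠ 0 := by exact_mod_cast Real.pi_ne_zero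
    simp [this, Complex.I_ne_zero]
  exact (mul_eq_zero.1 h1).resolve_left h3

/-- `Bf` in terms of the convection term. -/
lemma Bf_conv (x : K → C3) (k : K) (i : Fin 3) : Bf x x k i = -(∑ j, fj k j * cv x x k j i)
    + (k i : ℂ) / ((sq k : ℝ) : ℂ) * ∑ m, (k m : ℂ) * ∑ j, fj k j * cv x x k j m := by
  unfold Bf
  have h4 : ∑ m, (k m : ℂ) * ∑ j, fj k j * cv x x k j m
      = ∑ j, ∑ m, (k m : ℂ) * (fj k j * cv x x k j m) := by
    rw [Finset.sum_comm]
    exact Finset.sum_congr rfl fun m _ => Finset.mul_sum _ _ _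
  rw [h4, Finset.mul_sum, ← Finset.sum_neg_distrib, ← Finset.sum_add_distrib]
  refine Finset.sum_congr rfl fun j _ => ?_
  rw [Finset.mul_sum]
  have h5 : fj k j * cv x x k j i = ∑ m, (if m = i then 1 else 0) * (fj k j * cv x x k j m) := by simp
  rw [h5, ← Finset.sum_neg_distrib, ← Finset.sum_add_distrib]
  refine Finset.sum_congr rfl fun m _ => ?_
  unfold coef fj
  ring

/-- the equation on the Fourier side -/
lemma ode {T : ℝ} (hs : IsSol ν T u p) {t : ℝ} (ht : t ∈ Ioo 0 T) (i : Fin 3) (k : K) :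
    fr (H459R3.NS.dt (fun s y => u s y i) t) k = -((4 * Real.pi ^ 2 * ν * sq k : ℝ) : ℂ) * fr (fun y => u t y i) k
      + Bf (fv fun i y => u t y i) (fv fun i y => u t y i) k i := by
  have hI : t ∈ Ico 0 T := ⟨ht.1.le, ht.2⟩
  set f : Fin 3 → R3 → ℝ := fun i y => u t y i with hf0
  have hsp : ∀ i, SP (f i) := fun i => hs.sp hI i
  have hdiv : ∀ x, ∑ i, H459R3.NS.pd i (f i) x = 0 := hs.divfree t hI
  set P := fr (p t) k with hP
  set C : Fin 3 → ℂ := fun i => ∑ j, fj k j * cv (fv f) (fv f) k j i with hC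
  have hdt : ∀ i, fr (H459R3.NS.dt (fun s y => u s y i) t) k
      = -((4 * Real.pi ^ 2 * ν * sq k : ℝ) : ℂ) * fr (f i) k - C i - fj k i * P := by
    intro i
    have e0 : H459R3.NS.dt (fun s y => u s y i) t = fun x => ν * H459R3.NS.lap (f i) x
        - H459R3.NS.conv f i x - H459R3.NS.pd i (p t) x := funext fun x => hs.dt_eq ht i x
    rw [e0]
    have c1 := (hsp i).lap.cont
    have c2 := (H459R3.NS.sp_conv hsp i).cont
    have c3 := ((hs.sp_p hI).pd i).cont
    have i1 : Integrable (fun x => ee (-k) x * ((H459R3.NS.lap (f i) x : ℝ) : ℂ)) (volume.restrict cube) :=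
      H459R3.NS.integrableOn_cube ((H459R3.NS.ee_continuous _).mul (Complex.continuous_ofReal.comp c1))
    have i2 : Integrable (fun x => ee (-k) x * ((H459R3.NS.conv f i x : ℝ) : ℂ)) (volume.restrict cube) :=
      H459R3.NS.integrableOn_cube ((H459R3.NS.ee_continuous _).mul (Complex.continuous_ofReal.comp c2))
    have i3 : Integrable (fun x => ee (-k) x * ((H459R3.NS.pd i (p t) x : ℝ) : ℂ)) (volume.restrict cube) :=
      H459R3.NS.integrableOn_cube ((H459R3.NS.ee_continuous _).mul (Complex.continuous_ofReal.comp c3))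
    have e1 : fr (fun x => ν * H459R3.NS.lap (f i) x - H459R3.NS.conv f i x - H459R3.NS.pd i (p t) x) k
        = (ν : ℂ) * fr (H459R3.NS.lap (f i)) k - fr (H459R3.NS.conv f i) k - fr (H459R3.NS.pd i (p t)) k := by
      unfold H459R3.NS.fr H459R3.NS.fc
      have i12 : Integrable (fun x => (ν : ℂ) * (ee (-k) x * ((H459R3.NS.lap (f i) x : ℝ) : ℂ))
          - ee (-k) x * ((H459R3.NS.conv f i x : ℝ) : ℂ)) (volume.restrict cube) := (i1.const_mul _).sub i2
      rw [← integral_const_mul, ← integral_sub (i1.const_mul _) i2, ← integral_sub i12 i3]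
      congr 1
      funext x
      push_cast
      ring
    rw [e1, fr_lap (hsp i), fr_conv hsp hdiv, H459R3.NS.fr_pd (hs.sp_p hI)]
    unfold H459R3.NS.D
    simp only [hC, hP]
    unfold fj
    push_cast
    ring
  have hdiv0 : ∑ i, (k i : ℂ) * fr (H459R3.NS.dt (fun s y => u s y i) t) k = 0 := by
    have h1 : HasDerivAt (fun s => ∑ i, (k i : ℂ) * fr (fun y => u s y i) k)
        (∑ i, (k i : ℂ) * fr (H459R3.NS.dt (fun s y => u s y i) t) k) t :=
      HasDerivAt.fun_sum fun i _ => (fr_hasDeriv hs ht i k).const_mul _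
    have h2 : HasDerivAt (fun s => ∑ i, (k i : ℂ) * fr (fun y => u s y i) k) 0 t := by
      refine (hasDerivAt_const t (0 : ℂ)).congr_of_eventuallyEq ?_
      filter_upwards [Ioo_mem_nhds ht.1 ht.2] with s hs'
      exact fr_divfree (f := fun i y => u s y i) (fun i => hs.sp ⟨hs'.1.le, hs'.2⟩ i)
        (hs.divfree s ⟨hs'.1.le, hs'.2⟩) k
    exact h1.unique h2
  have hdf := fr_divfree hsp hdiv k
  rw [hdt i, Bf_conv]
  have hCi : ∑ j, fj k j * cv (fv fun i y => u t y i) (fv fun i y => u t y i) k j i = C i := rfl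
  have hCm : ∑ m, (k m : ℂ) * ∑ j, fj k j * cv (fv fun i y => u t y i) (fv fun i y => u t y i) k j m
      = ∑ m, (k m : ℂ) * C m := rfl
  rw [hCi, hCm]
  by_cases hk : k = 0
  · have hf1 : fj k i = 0 := by rw [hk]; simp [fj]
    have hk0 : (k i : ℂ) = 0 := by rw [hk]; simp
    rw [hf1, hk0]
    ring
  have hsq : ((sq k : ℝ) : ℂ) ≠ 0 := by exact_mod_cast (sq_pos hk).ne'
  have hsum : 0 = -(∑ m, (k m : ℂ) * C m) - 2 * Real.pi * Complex.I * ((sq k : ℝ) : ℂ) * P := by
    rw [← hdiv0]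
    simp only [hdt]
    have e1 : ∀ i, (k i : ℂ) * (-((4 * Real.pi ^ 2 * ν * sq k : ℝ) : ℂ) * fr (f i) k - C i - fj k i * P)
        = -((4 * Real.pi ^ 2 * ν * sq k : ℝ) : ℂ) * ((k i : ℂ) * fr (f i) k) - (k i : ℂ) * C i
          - 2 * Real.pi * Complex.I * ((k i : ℂ) ^ 2) * P := by
      intro i; unfold fj; ring
    simp only [e1]
    rw [Finset.sum_sub_distrib, Finset.sum_sub_distrib, ← Finset.mul_sum, hdf, mul_zero, zero_sub,
      ← Finset.sum_mul, ← Finset.mul_sum]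
    unfold sq
    push_cast
    ring
  have hPe : fj k i * P = -((k i : ℂ) / ((sq k : ℝ) : ℂ) * ∑ m, (k m : ℂ) * C m) := by
    unfold fj
    rw [div_mul_eq_mul_div, ← neg_div, eq_div_iff hsq]
    linear_combination (k i : ℂ) * hsum
  rw [hPe]
  ring

end

end Pool.Agent.H356R3.NS.H1SS
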