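import Pool.Agent.H1SS.Brg2

open MeasureTheory Set Filter Topology
open scoped ENNReal NNReal ContDiff

namespace Pool.Agent.H356R3.NS.H1SS

open H459R3.NS (IsSol SP Per fr ee cube)

/-- Mean-free solutions on the Fourier side, with bounds which are locally uniform in time. -/
structure LSol (c : ℝ) (u : Fam) : Prop where
  cf : CF u
  z : ∀ t, u 0 t = 0
  sym : SymF u
  mx : ∀ k t, u k (max t 0) = u k t
  loc : ∀ (T : ℝ) (m : ℕ), ∃ M : ℝ, 0 ≤ M ∧ ∀ k t, t ≤ T → pw k ^ m * ‖u k t‖ ≤ M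
  eq : ∀ k t, u k t = Real.exp (-(c * sq k * max t 0)) • u k 0 + Duh c (Bt u) k t

lemma cf_min {u : Fam} (hu : CF u) (T : ℝ) : CF (fun k t => u k (min t T)) := fun k =>
  (hu k).comp (by fun_prop)

lemma pb_min {u : Fam} {T : ℝ} {m : ℕ}
    (h : ∃ M : ℝ, 0 ≤ M ∧ ∀ k t, t ≤ T → pw k ^ m * ‖u k t‖ ≤ M) : PB m (fun k t => u k (min t T)) := by
  obtain ⟨M, hM, h⟩ := h
  exact ⟨M, hM, fun k t => h k _ (min_le_right _ _)⟩

lemma Bt_cont_loc {u : Fam} (hu : CF u)
    (h : ∀ T : ℝ, ∃ M : ℝ, 0 ≤ M ∧ ∀ k t, t ≤ T → pw k ^ 4 * ‖u k t‖ ≤ M) : CF (Bt u) := by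
  intro k
  rw [continuous_iff_continuousAt]
  intro t
  set T := t + 1
  have h1 : CF (Bt (fun k t => u k (min t T))) := Bt_cont (cf_min hu T) (dom_of_pb (pb_min (h T)))
  refine (h1 k).continuousAt.congr ?_
  filter_upwards [Iio_mem_nhds (show t < T by simp [T])] with s hs
  show Bf (fun k => u k (min s T)) (fun k => u k (min s T)) k = Bf (at' u s) (at' u s) k
  rw [min_eq_left (le_of_lt hs)]
  rfl

lemma LSol.btc {c : ℝ} {u : Fam} (h : LSol c u) : CF (Bt u) := Bt_cont_loc h.cf fun T => h.loc T 4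

lemma Duh_ofHasDeriv {c : ℝ} {k : K} {F : Fam} (hF : Continuous (F k)) {f : ℝ → C3} (hf : Continuous f)
    (hd : ∀ t, 0 < t → HasDerivAt f (-(c * sq k) • f t + F k t) t) {t : ℝ} (ht : 0 ≤ t) :
    f t = Real.exp (-(c * sq k * t)) • f 0 + Duh c F k t := by
  rw [Duh_eq, max_eq_left ht]
  set lam := c * sq k
  have hc : Continuous fun s => Real.exp (lam * s) • F k s := by fun_prop
  have hd' : ∀ s ∈ Ioo 0 t, HasDerivAt (fun s => Real.exp (lam * s) • f s) (Real.exp (lam * s) • F k s) s := by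
    intro s hs
    have h1 : HasDerivAt (fun s => Real.exp (lam * s)) (Real.exp (lam * s) * lam) s := by
      have : HasDerivAt (fun u : ℝ => lam * u) lam s := by
        simpa using (hasDerivAt_id' s).const_mul lam
      exact this.exp
    refine (h1.fun_smul (hd s hs.1)).congr_deriv ?_
    have : (Real.exp (lam * s) * lam) • f s = -((Real.exp (lam * s) * -lam) • f s) := by
      rw [← neg_smul]; congr 1; ring
    rw [smul_add, smul_smul, this]
    abel
  have h2 := intervalIntegral.integral_eq_sub_of_hasDerivAt_of_le ht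
    ((by fun_prop : Continuous fun s => Real.exp (lam * s) • f s).continuousOn) hd' (hc.intervalIntegrable _ _)
  rw [h2, smul_sub, smul_smul, ← Real.exp_add]
  simp

section
variable {ν : ℝ} {v : R3 → R3} {u : ℝ → R3 → R3} {p : ℝ → R3 → ℝ}

lemma at'_UF (u : ℝ → R3 → R3) {t : ℝ} (ht : 0 ≤ t) : at' (UF u) t = fv fun i y => u t y i := by
  funext k i
  exact UF_eq u k ht i

theorem UF_lsol (h : AdmissiblePeriodic ν v u p) (h0 : ∀ i, ∫ x in Icc (0 : R3) 1, v x i = 0) :
    LSol (4 * Real.pi ^ 2 * ν) (UF u) := by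
  have hcf := UF_cf h
  have hloc := UF_loc h
  have hB : CF (Bt (UF u)) := Bt_cont_loc hcf fun T => hloc T 4
  have hd : ∀ k t, 0 < t → HasDerivAt (UF u k) (-(4 * Real.pi ^ 2 * ν * sq k) • UF u k t + Bt (UF u) k t) t := by
    intro k t ht
    rw [hasDerivAt_pi]
    intro i
    have hs := toSol h (t + 1)
    have hI : t ∈ Ioo 0 (t + 1) := ⟨ht, by linarith⟩
    have h1 := fr_hasDeriv hs hI i k
    rw [ode hs hI i k] at h1
    have h2 : HasDerivAt (fun s => UF u k s i) _ t := h1.congr_of_eventuallyEq (by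
      filter_upwards [Ioi_mem_nhds ht] with s hs'
      exact UF_eq u k (le_of_lt hs') i)
    refine h2.congr_deriv ?_
    show _ = -(4 * Real.pi ^ 2 * ν * sq k) • UF u k t i + Bf (at' (UF u) t) (at' (UF u) t) k i
    rw [at'_UF u ht.le, UF_eq u k ht.le i, Complex.real_smul]
    push_cast
    ring
  have heq : ∀ k t, UF u k t = Real.exp (-(4 * Real.pi ^ 2 * ν * sq k * max t 0)) • UF u k 0
      + Duh (4 * Real.pi ^ 2 * ν) (Bt (UF u)) k t := by
    intro k t
    have h1 := Duh_ofHasDeriv (c := 4 * Real.pi ^ 2 * ν) (k := k) (F := Bt (UF u)) (hB k) (hcf k) (hd k)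
      (le_max_right t 0)
    rw [UF_mx, Duh_max] at h1
    exact h1
  have hz0 : UF u 0 0 = 0 := by
    funext i
    rw [show UF u 0 0 i = fc (u (max 0 0)) 0 i from rfl, max_self, h.initial]
    unfold NS.fc
    have e : ∀ x : R3, ((v x i : ℝ) : ℂ) * Complex.exp (-(2 * Real.pi * Complex.I *
        ∑ j, (((0 : Fin 3 → ℤ) j : ℤ) : ℂ) * (x j : ℂ))) = ((v x i : ℝ) : ℂ) := by
      intro x; simp
    simp only [e]
    rw [integral_complex_ofReal, h0 i]
    simp
  refine ⟨hcf, fun t => ?_, UF_sym u, UF_mx u, hloc, heq⟩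
  rw [heq 0 t, hz0, smul_zero, zero_add]
  exact at'_Duh_zero (fun s => by simp [Bt, Bf_zero]) t

end

end Pool.Agent.H356R3.NS.H1SS
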