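import Pool.Agent.H1SS.Brg3

open MeasureTheory Set Filter Topology
open scoped ENNReal NNReal ContDiff

namespace Pool.Agent.H356R3.NS.H1SS

/-! ### weighted sums -/

section
variable {u : Fam} {a : K → ℝ} {C : ℝ} {n : ℕ}

lemma term_le {x : C3} {k : K} (ha : a k ≤ C * pw k ^ n) {M : ℝ} (hC : 0 ≤ C)
    (hx : pw k ^ (n + 4) * ‖x‖ ≤ M) : a k * ‖x‖ ≤ C * M * (1 / pw k ^ 4) := by
  have hp := pw_pos k
  rw [mul_one_div, le_div_iff₀ (by positivity)]
  calc a k * ‖x‖ * pw k ^ 4 ≤ C * pw k ^ n * ‖x‖ * pw k ^ 4 := by gcongr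
    _ = C * (pw k ^ (n + 4) * ‖x‖) := by rw [pow_add]; ring
    _ ≤ C * M := by gcongr

lemma summ_sum (ha0 : ∀ k, 0 ≤ a k) (hC : 0 ≤ C) (ha : ∀ k, a k ≤ C * pw k ^ n) {x : K → C3} {M : ℝ}
    (hx : ∀ k, pw k ^ (n + 4) * ‖x k‖ ≤ M) : Summable fun k => a k * ‖x k‖ :=
  (summ_pw4.mul_left (C * M)).of_nonneg_of_le (fun k => mul_nonneg (ha0 k) (norm_nonneg _))
    fun k => term_le (ha k) hC (hx k)

lemma sum_le (ha0 : ∀ k, 0 ≤ a k) (hC : 0 ≤ C) (ha : ∀ k, a k ≤ C * pw k ^ n) {x : K → C3} {M : ℝ}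
    (hx : ∀ k, pw k ^ (n + 4) * ‖x k‖ ≤ M) : ∑' k, a k * ‖x k‖ ≤ C * M * S4 := by
  unfold S4
  rw [← tsum_mul_left]
  exact (summ_sum ha0 hC ha hx).tsum_le_tsum (fun k => term_le (ha k) hC (hx k)) (summ_pw4.mul_left (C * M))

lemma NW_ofReal (ha0 : ∀ k, 0 ≤ a k) {x : K → C3} (hs : Summable fun k => a k * ‖x k‖) :
    NW (fun k => ENNReal.ofReal (a k)) x = ENNReal.ofReal (∑' k, a k * ‖x k‖) := by
  rw [ENNReal.ofReal_tsum_of_nonneg (fun k => mul_nonneg (ha0 k) (norm_nonneg _)) hs]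
  unfold NW
  refine tsum_congr fun k => ?_
  rw [ENNReal.ofReal_mul (ha0 k), ofReal_norm]

lemma cont_sum (hu : CF u) (hl : ∀ (T : ℝ) (m : ℕ), ∃ M : ℝ, 0 ≤ M ∧ ∀ k t, t ≤ T → pw k ^ m * ‖u k t‖ ≤ M)
    (ha0 : ∀ k, 0 ≤ a k) (hC : 0 ≤ C) (ha : ∀ k, a k ≤ C * pw k ^ n) :
    Continuous fun t => ∑' k, a k * ‖u k t‖ := by
  rw [continuous_iff_continuousAt]
  intro t
  set T := t + 1
  obtain ⟨M, hM, hb⟩ := hl T (n + 4)
  have h1 : Continuous fun t => ∑' k, a k * ‖u k (min t T)‖ := by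
    refine continuous_tsum (u := fun k => C * M * (1 / pw k ^ 4)) (fun k => ?_) (summ_pw4.mul_left (C * M))
      fun k t => ?_
    · have := hu k
      fun_prop
    · rw [Real.norm_of_nonneg (mul_nonneg (ha0 k) (norm_nonneg _))]
      exact term_le (ha k) hC (hb k _ (min_le_right _ _))
  refine h1.continuousAt.congr ?_
  filter_upwards [Iio_mem_nhds (show t < T by simp [T])] with s hs
  rw [min_eq_left (le_of_lt hs)]

end

/-! ### small data -/

lemma wd_nk_nonneg {δ : ℝ} (hδ : 0 < δ) (k : K) : 0 ≤ wd δ k / nk k := div_nonneg (wd_pos hδ.le k).le (nk_nonneg k)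

lemma wd_div_le {δ : ℝ} (hδ : 0 < δ) (hδ1 : δ ≤ 1) (k : K) : wd δ k / nk k ≤ 1 * pw k ^ 5 := by
  rw [one_mul]
  have h1 := wd_le hδ hδ1 k
  by_cases hk : k = 0
  · subst hk
    rw [nk_zero, div_zero]
    have := pw_pos (0 : K); positivity
  · have h2 := one_le_nk hk
    rw [div_le_iff₀ (by linarith)]
    have := pw_pos k
    have h3 : 0 < pw k ^ 5 := by positivity
    nlinarith

lemma wd_mul_le {δ : ℝ} (hδ : 0 < δ) (hδ1 : δ ≤ 1) (k : K) : wd δ k * nk k ≤ 1 * pw k ^ 6 := by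
  rw [one_mul, pow_succ]
  exact mul_le_mul (wd_le hδ hδ1 k) (nk_le_pw k) (nk_nonneg k) (pow_pos (pw_pos k) 5).le

lemma small {c : ℝ} (hc : 0 < c) {u : Fam} (h : LSol c u) {δ : ℝ} (hδ : 0 < δ) (hδ1 : δ ≤ 1) {x0 : ℝ}
    (hx0 : 0 ≤ x0) (hx : x0 < c / (2 * C0)) (h0 : NW (Vm (wd δ)) (at' u 0) ≤ ENNReal.ofReal x0) :
    ∀ T, 0 ≤ T → NW (Vm (wd δ)) (at' u T) ≤ ENNReal.ofReal x0 ∧
      ENNReal.ofReal (c / 2) * ∫⁻ t in Ioc 0 T, NW (Vp (wd δ)) (at' u t) ≤ ENNReal.ofReal x0 := by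
  have hC := C0_pos
  have hw := wd_wt hδ hδ1
  set w := wd δ with hwdef
  set κ := c / (2 * C0) with hκ
  have hκ0 : 0 < κ := by positivity
  set X : ℝ → ℝ := fun t => ∑' k, w k / nk k * ‖u k t‖ with hX
  have hXc : Continuous X := cont_sum h.cf h.loc (wd_nk_nonneg hδ) zero_le_one (wd_div_le hδ hδ1)
  have hXe : ∀ t, NW (Vm w) (at' u t) = ENNReal.ofReal (X t) := by
    intro t
    obtain ⟨M, hM, hb⟩ := h.loc t 9
    exact NW_ofReal (wd_nk_nonneg hδ) (summ_sum (n := 5) (wd_nk_nonneg hδ) zero_le_one (wd_div_le hδ hδ1)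
      (x := at' u t) fun k => hb k t le_rfl)
  have hfin : ∀ T, 0 ≤ T → ∫⁻ t in Ioc 0 T, NW (Vp w) (at' u t) ≠ ⊤ := by
    intro T hT
    obtain ⟨M, hM, hb⟩ := h.loc T 10
    have hn : ∀ k : K, 0 ≤ w k * nk k := fun k => mul_nonneg (wd_pos hδ.le k).le (nk_nonneg k)
    have h1 : ∀ t ∈ Ioc 0 T, NW (Vp w) (at' u t) ≤ ENNReal.ofReal (1 * M * S4) := by
      intro t ht
      have h2 := NW_ofReal (a := fun k => w k * nk k) hn (summ_sum (n := 6) hn zero_le_one (wd_mul_le hδ hδ1)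
        (x := at' u t) fun k => hb k t ht.2)
      have h3 : NW (Vp w) (at' u t) = NW (fun k => ENNReal.ofReal (w k * nk k)) (at' u t) := rfl
      rw [h3, h2]
      exact ENNReal.ofReal_le_ofReal (sum_le (n := 6) hn zero_le_one (wd_mul_le hδ hδ1) (x := at' u t)
        fun k => hb k t ht.2)
    refine ne_top_of_le_ne_top ?_ (setLIntegral_mono' measurableSet_Ioc h1)
    rw [setLIntegral_const, Real.volume_Ioc]
    exact ENNReal.mul_ne_top ENNReal.ofReal_ne_top ENNReal.ofReal_ne_top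
  -- the basic inequality
  have key : ∀ T, 0 ≤ T → (∀ t ∈ Ico 0 T, X t ≤ κ) →
      NW (Vm w) (at' u T) + ENNReal.ofReal (c / 2) * ∫⁻ t in Ioc 0 T, NW (Vp w) (at' u t) ≤ ENNReal.ofReal x0 := by
    intro T hT hb
    have h1 := ene hc.le hw (g := fun _ => 0) (g' := fun _ => 0) (fun t => hasDerivAt_const t 0)
      continuous_const (fun _ => le_rfl) rfl h.btc h.cf h.eq hT
    unfold Phi at h1
    simp only [neg_zero, Real.exp_zero, ENNReal.ofReal_one, one_mul, ENNReal.ofReal_zero, zero_mul, add_zero] at h1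
    have h2 : ∫⁻ t in Ioc 0 T, NW (Vm w) (at' (Bt u) t) ≤ ENNReal.ofReal (c / 2) *
        ∫⁻ t in Ioc 0 T, NW (Vp w) (at' u t) := by
      rw [← lintegral_const_mul _ (NW_meas _ h.cf), ← restrict_Ioo_eq_restrict_Ioc]
      refine setLIntegral_mono' measurableSet_Ioo fun t ht => ?_
      calc NW (Vm w) (at' (Bt u) t) ≤ ENNReal.ofReal C0 * (NW (Va w) (at' u t) * NW (Va w) (at' u t)) :=
            NV_Bf_le hw _ _
        _ ≤ ENNReal.ofReal C0 * (NW (Vm w) (at' u t) * NW (Vp w) (at' u t)) :=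
            mul_le_mul' le_rfl (NV_interp hw (h.z t))
        _ ≤ ENNReal.ofReal C0 * (ENNReal.ofReal κ * NW (Vp w) (at' u t)) := by
            rw [hXe]
            exact mul_le_mul' le_rfl (mul_le_mul' (ENNReal.ofReal_le_ofReal (hb t ⟨ht.1.le, ht.2⟩)) le_rfl)
        _ = _ := by
            rw [← mul_assoc, ← ENNReal.ofReal_mul hC.le]
            congr 2
            rw [hκ]; field_simp
    set I := ∫⁻ t in Ioc 0 T, NW (Vp w) (at' u t) with hI
    have h3 : ∫⁻ t in Ioc 0 T, ENNReal.ofReal c * NW (Vp w) (at' u t)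
        = ENNReal.ofReal (c / 2) * I + ENNReal.ofReal (c / 2) * I := by
      rw [lintegral_const_mul _ (NW_meas _ h.cf), ← add_mul, ← ENNReal.ofReal_add (by positivity) (by positivity)]
      congr 2; ring
    rw [h3] at h1
    have hIf : ENNReal.ofReal (c / 2) * I ≠ ⊤ := ENNReal.mul_ne_top ENNReal.ofReal_ne_top (hfin T hT)
    have h4 : NW (Vm w) (at' u T) + ENNReal.ofReal (c / 2) * I + ENNReal.ofReal (c / 2) * I
        ≤ ENNReal.ofReal x0 + ENNReal.ofReal (c / 2) * I := by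
      calc _ = NW (Vm w) (at' u T) + (ENNReal.ofReal (c / 2) * I + ENNReal.ofReal (c / 2) * I) := by ring
        _ ≤ _ := h1
        _ ≤ _ := add_le_add h0 h2
    exact (ENNReal.add_le_add_iff_right hIf).1 h4
  -- continuity argument
  have hall : ∀ T, 0 ≤ T → X T < κ := by
    intro T hT
    by_contra hcon
    push Not at hcon
    have hcomp : IsCompact (Icc 0 T ∩ {t | κ ≤ X t}) :=
      isCompact_Icc.inter_right (isClosed_le continuous_const hXc)
    obtain ⟨t0, ht0, hmin⟩ := hcomp.exists_isLeast ⟨T, ⟨hT, le_rfl⟩, hcon⟩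
    have h1 := key t0 ht0.1.1 fun t ht => by
      by_contra h'
      push Not at h'
      have := hmin ⟨⟨ht.1, ht.2.le.trans ht0.1.2⟩, h'.le⟩
      exact absurd ht.2 (not_lt.2 this)
    have h2 : NW (Vm w) (at' u t0) ≤ ENNReal.ofReal x0 := le_self_add.trans h1
    rw [hXe, ENNReal.ofReal_le_ofReal_iff hx0] at h2
    have : κ ≤ X t0 := ht0.2
    linarith
  intro T hT
  have h1 := key T hT fun t ht => (hall t ht.1).le
  exact ⟨le_self_add.trans h1, le_add_self.trans h1⟩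

/-! ### time shift -/

lemma LSol.hd {c : ℝ} {u : Fam} (h : LSol c u) (k : K) {t : ℝ} (ht : 0 < t) :
    HasDerivAt (u k) (-(c * sq k) • u k t + Bt u k t) t := by
  have h1 : HasDerivAt (fun t => Real.exp (-(c * sq k * max t 0)) • u k 0)
      ((Real.exp (-(c * sq k * t)) * -(c * sq k)) • u k 0) t := by
    have h2 : HasDerivAt (fun u => Real.exp (-(c * sq k * u))) (Real.exp (-(c * sq k * t)) * -(c * sq k)) t := by
      have : HasDerivAt (fun u : ℝ => -(c * sq k * u)) (-(c * sq k)) t := by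
        simpa using ((hasDerivAt_id' t).const_mul (c * sq k)).fun_neg
      exact this.exp
    refine (h2.smul_const (u k 0)).congr_of_eventuallyEq ?_
    filter_upwards [lt_mem_nhds ht] with v hv
    rw [max_eq_left hv.le]
  have h3 := h1.fun_add (Duh_hasDeriv h.btc c k ht)
  have e1 : u k = fun t => Real.exp (-(c * sq k * max t 0)) • u k 0 + Duh c (Bt u) k t := by
    funext s; exact h.eq k s
  have e2 : -(c * sq k) • u k t + Bt u k t = (Real.exp (-(c * sq k * t)) * -(c * sq k)) • u k 0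
      + (-(c * sq k) • Duh c (Bt u) k t + Bt u k t) := by
    rw [h.eq k t, max_eq_left ht.le, smul_add, smul_smul, mul_comm]
    abel
  rw [e2]
  exact h3.congr_of_eventuallyEq (Filter.Eventually.of_forall fun s => h.eq k s)

/-- the shifted family -/
def sh (s : ℝ) (u : Fam) : Fam := fun k t => u k (s + max t 0)

lemma LSol.shift {c : ℝ} {u : Fam} (h : LSol c u) {s : ℝ} (hs : 0 ≤ s) : LSol c (sh s u) := by
  have hcf : CF (sh s u) := fun k => (h.cf k).comp (by fun_prop)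
  have hloc : ∀ (T : ℝ) (m : ℕ), ∃ M : ℝ, 0 ≤ M ∧ ∀ k t, t ≤ T → pw k ^ m * ‖sh s u k t‖ ≤ M := by
    intro T m
    obtain ⟨M, hM, hb⟩ := h.loc (s + max T 0) m
    exact ⟨M, hM, fun k t ht => hb k _ (by
      have := max_le_max ht (le_refl (0 : ℝ))
      linarith)⟩
  have hB : CF (Bt (sh s u)) := Bt_cont_loc hcf fun T => hloc T 4
  refine ⟨hcf, fun t => h.z _, fun t => h.sym _, fun k t => ?_, hloc, fun k t => ?_⟩
  · unfold sh; simp
  · have h1 := Duh_ofHasDeriv (c := c) (k := k) (F := Bt (sh s u)) (hB k) (hcf k) (fun t ht => by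
      have h2 := h.hd k (t := s + t) (by linarith)
      have h3 : HasDerivAt (fun t => u k (s + t)) (-(c * sq k) • u k (s + t) + Bt u k (s + t)) t := by
        have := HasDerivAt.comp_const_add s t h2
        exact this
      have e : sh s u k t = u k (s + t) := by unfold sh; rw [max_eq_left ht.le]
      have e' : Bt (sh s u) k t = Bt u k (s + t) := by
        show Bf (at' (sh s u) t) (at' (sh s u) t) k = Bf (at' u (s + t)) (at' u (s + t)) k
        have : at' (sh s u) t = at' u (s + t) := by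
          funext l; unfold at' sh; rw [max_eq_left ht.le]
        rw [this]
      rw [e, e']
      refine h3.congr_of_eventuallyEq ?_
      filter_upwards [Ioi_mem_nhds ht] with r hr
      unfold sh
      rw [max_eq_left (le_of_lt hr)]) (le_max_right t 0)
    have e1 : sh s u k (max t 0) = sh s u k t := by unfold sh; simp
    rw [e1, Duh_max] at h1
    exact h1

end Pool.Agent.H356R3.NS.H1SS
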