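import Pool.Agent.H1SS.Dec

open MeasureTheory Set Filter Topology
open scoped ENNReal NNReal ContDiff

namespace Pool.Agent.H356R3.NS.H1SS

open H459R3.NS (IsSol SP Per fr ee cube enstrophy energy)

lemma wd_lin {δ : ℝ} (hδ : 0 < δ) (hδ1 : δ ≤ 1) (k : K) : wd δ k ≤ 1 + 5 * δ * pw k ^ 5 := by
  have hl := l1_nonneg k
  unfold wd pw
  have hy : 0 ≤ δ * l1 k := by positivity
  set l := l1 k
  have h1 : (1 + δ * l) ^ 5 ≤ 1 + 5 * (δ * l) * (1 + δ * l) ^ 4 := by
    set y := δ * l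
    have : (1 + y) ^ 5 = 1 + y * (1 + (1 + y) + (1 + y) ^ 2 + (1 + y) ^ 3 + (1 + y) ^ 4) := by ring
    rw [this]
    have a1 : 1 ≤ (1 + y) ^ 4 := one_le_pow₀ (by linarith)
    have a2 : (1 + y) ≤ (1 + y) ^ 4 := le_self_pow₀ (by linarith) (by norm_num)
    have a3 : (1 + y) ^ 2 ≤ (1 + y) ^ 4 := pow_le_pow_right₀ (by linarith) (by norm_num)
    have a4 : (1 + y) ^ 3 ≤ (1 + y) ^ 4 := pow_le_pow_right₀ (by linarith) (by norm_num)
    have : y * (1 + (1 + y) + (1 + y) ^ 2 + (1 + y) ^ 3 + (1 + y) ^ 4) ≤ y * (5 * (1 + y) ^ 4) := by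
      apply mul_le_mul_of_nonneg_left _ hy
      linarith
    linarith
  refine h1.trans ?_
  have h2 : (1 + δ * l) ^ 4 ≤ (1 + l) ^ 4 := by
    apply pow_le_pow_left₀ (by positivity)
    nlinarith
  have h3 : 5 * (δ * l) * (1 + δ * l) ^ 4 ≤ 5 * δ * (1 + l) ^ 5 := by
    calc 5 * (δ * l) * (1 + δ * l) ^ 4 ≤ 5 * (δ * (1 + l)) * (1 + l) ^ 4 := by
          have : δ * l ≤ δ * (1 + l) := by nlinarith
          gcongr
      _ = _ := by ring
  linarith

/-- `ℓ¹` norm with weight `1/|k|` -/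
noncomputable def N1 (x : K → C3) : ℝ≥0∞ := NW (fun k => ENNReal.ofReal (1 / nk k)) x

lemma Vm_wd_le {δ : ℝ} (hδ : 0 < δ) (hδ1 : δ ≤ 1) (x : K → C3) (h0 : x 0 = 0) :
    NW (Vm (wd δ)) x ≤ N1 x + ENNReal.ofReal (5 * δ) * NW (fun k => ENNReal.ofReal (pw k ^ 5)) x := by
  unfold N1
  rw [← NW_wmul, ← NW_wadd]
  unfold NW
  refine ENNReal.tsum_le_tsum fun k => ?_
  by_cases hk : k = 0
  · subst hk; rw [h0]; simp
  apply mul_le_mul' _ le_rfl
  unfold Vm
  have hn := one_le_nk hk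
  have hp := pw_pos k
  show ENNReal.ofReal (wd δ k / nk k) ≤ ENNReal.ofReal (1 / nk k) + ENNReal.ofReal (5 * δ) * ENNReal.ofReal (pw k ^ 5)
  rw [← ENNReal.ofReal_mul (by positivity), ← ENNReal.ofReal_add (by positivity) (by positivity)]
  apply ENNReal.ofReal_le_ofReal
  have h1 := wd_lin hδ hδ1 k
  calc wd δ k / nk k ≤ (1 + 5 * δ * pw k ^ 5) / nk k := by gcongr
    _ = 1 / nk k + 5 * δ * pw k ^ 5 / nk k := by ring
    _ ≤ 1 / nk k + 5 * δ * pw k ^ 5 := by
        have : 5 * δ * pw k ^ 5 / nk k ≤ 5 * δ * pw k ^ 5 := div_le_self (by positivity) hn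
        linarith

lemma Va_wd_le {δ : ℝ} (hδ : 0 < δ) (hδ1 : δ ≤ 1) (x : K → C3) :
    NW (Va (wd δ)) x ≤ NW (fun _ => 1) x + ENNReal.ofReal (5 * δ) * NW (fun k => ENNReal.ofReal (pw k ^ 5)) x := by
  rw [← NW_wmul, ← NW_wadd]
  unfold NW
  refine ENNReal.tsum_le_tsum fun k => ?_
  apply mul_le_mul' _ le_rfl
  unfold Va
  have hp := pw_pos k
  show ENNReal.ofReal (wd δ k) ≤ 1 + ENNReal.ofReal (5 * δ) * ENNReal.ofReal (pw k ^ 5)
  rw [← ENNReal.ofReal_mul (by positivity), ← ENNReal.ofReal_one, ← ENNReal.ofReal_add (by positivity) (by positivity)]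
  exact ENNReal.ofReal_le_ofReal (wd_lin hδ hδ1 k)

section
variable {ν : ℝ} {v : R3 → R3} {u : ℝ → R3 → R3} {p : ℝ → R3 → ℝ}

lemma enst_bound (h : AdmissiblePeriodic ν v u p) {t : ℝ} (ht : 0 ≤ t) :
    Summable (fun k => nk k ^ 2 * ‖UF u k t‖ ^ 2) ∧ ∑' k, nk k ^ 2 * ‖UF u k t‖ ^ 2 ≤ enstrophy (u t) := by
  have hs := toSol h (t + 1)
  have hI : t ∈ Ico 0 (t + 1) := ⟨ht, by linarith⟩
  have hsp : ∀ i, SP (fun y => u t y i) := fun i => hs.sp hI i
  set G : Fin 3 → Fin 3 → K → ℝ := fun i j k => ‖fr (H459R3.NS.pd j (fun y => u t y i)) k‖ ^ 2 with hG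
  have hGs : ∀ i j, Summable (G i j) := fun i j =>
    H459R3.NS.summable_sq (H459R3.NS.rap_fr ((hsp i).pd j)).summable
  have hGe : ∀ i j, ∑' k, G i j k = ∫ x in cube, H459R3.NS.pd j (fun y => u t y i) x ^ 2 := by
    intro i j
    rw [← H459R3.NS.n2_fr ((hsp i).pd j), H459R3.NS.n2_sq]
  have hle : ∀ k, nk k ^ 2 * ‖UF u k t‖ ^ 2 ≤ ∑ i, ∑ j, G i j k := by
    intro k
    have h9 : ‖UF u k t‖ ^ 2 ≤ ∑ i, ‖UF u k t i‖ ^ 2 := by
      have h10 : ‖UF u k t‖ ≤ Real.sqrt (∑ i, ‖UF u k t i‖ ^ 2) := by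
        rw [pi_norm_le_iff_of_nonneg (Real.sqrt_nonneg _)]
        intro i
        apply Real.le_sqrt_of_sq_le
        exact Finset.single_le_sum (f := fun i => ‖UF u k t i‖ ^ 2) (fun i _ => by positivity)
          (Finset.mem_univ i)
      calc ‖UF u k t‖ ^ 2 ≤ (Real.sqrt (∑ i, ‖UF u k t i‖ ^ 2)) ^ 2 := by gcongr
        _ = _ := Real.sq_sqrt (by positivity)
    calc nk k ^ 2 * ‖UF u k t‖ ^ 2 ≤ nk k ^ 2 * ∑ i, ‖UF u k t i‖ ^ 2 := by gcongr
      _ = ∑ i, nk k ^ 2 * ‖UF u k t i‖ ^ 2 := by rw [Finset.mul_sum]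
      _ ≤ _ := by
          refine Finset.sum_le_sum fun i _ => ?_
          rw [nk_sq]
          unfold sq
          rw [Finset.sum_mul]
          refine Finset.sum_le_sum fun j _ => ?_
          simp only [hG]
          rw [H459R3.NS.fr_pd (hsp i), UF_eq u k ht i]
          unfold H459R3.NS.D
          rw [norm_mul, mul_pow]
          apply mul_le_mul_of_nonneg_right _ (by positivity)
          rw [norm_mul, norm_mul, norm_mul, Complex.norm_I, Complex.norm_intCast, Complex.norm_real]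
          simp only [Complex.norm_ofNat, Real.norm_eq_abs, abs_of_pos Real.pi_pos, mul_one]
          rw [mul_pow, sq_abs]
          have h3 := Real.pi_gt_three
          exact le_mul_of_one_le_left (by positivity) (one_le_pow₀ (by linarith))
  have hS : Summable fun k => ∑ i, ∑ j, G i j k := summable_sum fun i _ => summable_sum fun j _ => hGs i j
  refine ⟨hS.of_nonneg_of_le (fun k => by positivity) hle, ?_⟩
  calc ∑' k, nk k ^ 2 * ‖UF u k t‖ ^ 2 ≤ ∑' k, ∑ i, ∑ j, G i j k :=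
        (hS.of_nonneg_of_le (fun k => by positivity) hle).tsum_le_tsum hle hS
    _ = enstrophy (u t) := by
        unfold H459R3.NS.enstrophy
        rw [Summable.tsum_finsetSum fun i _ => summable_sum fun j _ => hGs i j]
        refine Finset.sum_congr rfl fun i _ => ?_
        rw [Summable.tsum_finsetSum fun j _ => hGs i j]
        exact Finset.sum_congr rfl fun j _ => hGe i j

lemma small_enst (hν : 0 < ν) (h : AdmissiblePeriodic ν v u p) {ε : ℝ} (hε : 0 < ε) :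
    ∃ s, 0 ≤ s ∧ enstrophy (u s) ≤ ε := by
  by_contra hcon
  push Not at hcon
  set E := energy (u 0) / (2 * ν) with hE
  have hE0 : 0 ≤ E := div_nonneg (H459R3.NS.energy_nonneg _) (by positivity)
  set t := E / ε + 1 with ht
  have ht0 : 0 < t := by positivity
  have hs := toSol h (t + 1)
  have h1 := hs.int_enstrophy hν (t := t) ⟨ht0.le, by linarith⟩
  have hc : ContinuousOn (fun s => enstrophy (u s)) (Icc 0 t) :=
    hs.enstrophy_continuousOn.mono fun s hs => ⟨hs.1, by linarith [hs.2]⟩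
  have h2 : ∫ s in (0 : ℝ)..t, ε ≤ ∫ s in (0 : ℝ)..t, enstrophy (u s) :=
    intervalIntegral.integral_mono_on ht0.le (by simp) (hc.intervalIntegrable_of_Icc ht0.le)
      fun s hs => (hcon s hs.1).le
  rw [intervalIntegral.integral_const, sub_zero, smul_eq_mul] at h2
  have h3 : t * ε = E + ε := by rw [ht]; field_simp
  linarith

lemma small_N1 (hν : 0 < ν) (h : AdmissiblePeriodic ν v u p) {η : ℝ} (hη : 0 < η) :
    ∃ s, 0 ≤ s ∧ N1 (at' (UF u) s) ≤ ENNReal.ofReal η := by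
  set S := ∑' k : K, (1 / nk k) ^ 4 with hS
  have hS0 : 0 ≤ S := tsum_nonneg fun k => by have := nk_nonneg k; positivity
  set θ := η / (S + 1) with hθ
  have hθ0 : 0 < θ := by positivity
  obtain ⟨s, hs0, hs⟩ := small_enst hν h (ε := θ * η) (by positivity)
  refine ⟨s, hs0, ?_⟩
  obtain ⟨hsum, hle⟩ := enst_bound h hs0
  have hpt : ∀ k, 1 / nk k * ‖UF u k s‖ ≤ θ / 2 * (1 / nk k) ^ 4 + 1 / (2 * θ) * (nk k ^ 2 * ‖UF u k s‖ ^ 2) := by
    intro k
    by_cases hk : k = 0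
    · subst hk; rw [nk_zero]; simp
    have hn := nk_pos hk
    have e : 1 / nk k * ‖UF u k s‖ = (1 / nk k) ^ 2 * (nk k * ‖UF u k s‖) := by field_simp
    rw [e]
    set a := (1 / nk k) ^ 2
    set b := nk k * ‖UF u k s‖
    have e1 : (1 / nk k) ^ 4 = a ^ 2 := by simp only [a]; ring
    have e2 : nk k ^ 2 * ‖UF u k s‖ ^ 2 = b ^ 2 := by simp only [b]; ring
    rw [e1, e2]
    have : θ / 2 * a ^ 2 + 1 / (2 * θ) * b ^ 2 - a * b = 1 / (2 * θ) * (θ * a - b) ^ 2 := by
      field_simp; ring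
    have h2 : 0 ≤ 1 / (2 * θ) * (θ * a - b) ^ 2 := by positivity
    linarith
  have hSS : Summable fun k => θ / 2 * (1 / nk k) ^ 4 + 1 / (2 * θ) * (nk k ^ 2 * ‖UF u k s‖ ^ 2) :=
    (summ_nk4.mul_left _).add (hsum.mul_left _)
  have hn0 : ∀ k : K, 0 ≤ 1 / nk k := fun k => one_div_nonneg.2 (nk_nonneg k)
  have hS1 : Summable fun k => 1 / nk k * ‖at' (UF u) s k‖ :=
    hSS.of_nonneg_of_le (fun k => mul_nonneg (hn0 k) (norm_nonneg _)) hpt
  unfold N1
  rw [NW_ofReal hn0 hS1]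
  apply ENNReal.ofReal_le_ofReal
  calc ∑' k, 1 / nk k * ‖at' (UF u) s k‖ ≤ ∑' k, (θ / 2 * (1 / nk k) ^ 4 + 1 / (2 * θ) * (nk k ^ 2 * ‖UF u k s‖ ^ 2)) :=
        hS1.tsum_le_tsum hpt hSS
    _ = θ / 2 * S + 1 / (2 * θ) * ∑' k, (nk k ^ 2 * ‖UF u k s‖ ^ 2) := by
        rw [(summ_nk4.mul_left _).tsum_add (hsum.mul_left _), tsum_mul_left, tsum_mul_left]
    _ ≤ θ / 2 * S + 1 / (2 * θ) * (θ * η) := by
        gcongr
        exact hle.trans hs
    _ = θ / 2 * S + η / 2 := by field_simp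
    _ ≤ η := by
        have : θ * S ≤ η := by
          rw [hθ, div_mul_eq_mul_div, div_le_iff₀ (by positivity)]
          nlinarith
        linarith

/-- Good solutions. -/
structure GSol (c : ℝ) (u : Fam) : Prop where
  ls : LSol c u
  pb : ∀ m, PB m u
  int : ∫⁻ t in Ioi 0, NW (fun k => ENNReal.ofReal (pw k ^ 5)) (at' u t) ≠ ⊤

lemma gsol_of_small {c : ℝ} (hc : 0 < c) {u : Fam} (h : LSol c u) {s : ℝ} (hs0 : 0 ≤ s)
    {η : ℝ} (hη : 0 < η) (hη1 : η < c / (4 * C0)) (hs : N1 (at' u s) ≤ ENNReal.ofReal η) : GSol c u := by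
  have hC := C0_pos
  obtain ⟨M9, hM9, hb9⟩ := h.loc s 9
  have hp5 : ∀ k : K, 0 ≤ pw k ^ 5 := fun k => (pow_pos (pw_pos k) 5).le
  have hp5' : ∀ k : K, pw k ^ 5 ≤ 1 * pw k ^ 5 := fun k => by rw [one_mul]
  -- choose δ
  set B := 1 * M9 * S4 with hB
  have hB0 : 0 ≤ B := by have := S4_nonneg; positivity
  have hN5 : ∀ t, t ≤ s → NW (fun k => ENNReal.ofReal (pw k ^ 5)) (at' u t) ≤ ENNReal.ofReal B := by
    intro t ht
    rw [NW_ofReal hp5 (summ_sum (n := 5) hp5 zero_le_one hp5' (x := at' u t) fun k => hb9 k t ht)]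
    exact ENNReal.ofReal_le_ofReal (sum_le (n := 5) hp5 zero_le_one hp5' (x := at' u t) fun k => hb9 k t ht)
  set δ := min 1 (c / (4 * C0) / (5 * (B + 1)) / 2) with hδdef
  have hδ : 0 < δ := lt_min one_pos (by positivity)
  have hδ1 : δ ≤ 1 := min_le_left _ _
  have hδ2 : 5 * δ * B < c / (4 * C0) := by
    have h1 : δ ≤ c / (4 * C0) / (5 * (B + 1)) / 2 := min_le_right _ _
    have h2 : 5 * δ * B ≤ 5 * δ * (B + 1) := by nlinarith
    have h3 : 5 * δ * (B + 1) ≤ c / (4 * C0) / 2 := by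
      calc 5 * δ * (B + 1) ≤ 5 * (c / (4 * C0) / (5 * (B + 1)) / 2) * (B + 1) := by gcongr
        _ = _ := by field_simp
    have h4 : 0 < c / (4 * C0) := by positivity
    linarith
  set x0 := η + 5 * δ * B with hx0
  have hx00 : 0 ≤ x0 := by positivity
  have hx01 : x0 < c / (2 * C0) := by
    have : c / (2 * C0) = c / (4 * C0) + c / (4 * C0) := by field_simp; ring
    linarith
  have hsh := h.shift hs0
  have hinit : NW (Vm (wd δ)) (at' (sh s u) 0) ≤ ENNReal.ofReal x0 := by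
    have e : at' (sh s u) 0 = at' u s := by funext k; simp [at', sh]
    rw [e]
    refine (Vm_wd_le hδ hδ1 _ (h.z s)).trans ?_
    rw [hx0, ENNReal.ofReal_add hη.le (by positivity), ENNReal.ofReal_mul (q := B) (by positivity)]
    exact add_le_add hs (mul_le_mul' le_rfl (hN5 s le_rfl))
  have hsm := small hc hsh hδ hδ1 hx00 hx01 hinit
  -- PB 4
  have hpb4 : PB 4 u := by
    obtain ⟨M4, hM4, hb4⟩ := h.loc s 4
    refine ⟨M4 + x0 / δ ^ 5, by positivity, fun k t => ?_⟩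
    rcases le_total t s with hts | hts
    · have := hb4 k t hts
      have h2 : 0 ≤ x0 / δ ^ 5 := by positivity
      linarith
    · have h1 := norm_le_of_NVm (wd_wt hδ hδ1) hx00 (x := at' (sh s u) (t - s)) (h.z _)
        ((hsm (t - s) (by linarith)).1) k
      have e : at' (sh s u) (t - s) k = u k t := by
        unfold at' sh
        rw [max_eq_left (by linarith)]
        congr 1; ring
      rw [e] at h1
      have h2 := le_wd hδ hδ1 k
      have hp := pw_pos k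
      have hw := wd_pos hδ.le k
      have h3 : pw k ^ 4 * ‖u k t‖ ≤ x0 / δ ^ 5 := by
        calc pw k ^ 4 * ‖u k t‖ ≤ pw k ^ 4 * (x0 * (nk k / wd δ k)) := by gcongr
          _ ≤ pw k ^ 4 * (x0 * (pw k / (δ ^ 5 * pw k ^ 5))) := by
              have := nk_le_pw k
              have := nk_nonneg k
              gcongr
          _ = _ := by field_simp
      linarith
  have hpb : ∀ m, PB m u := by
    intro m
    refine boot hc (V := fun k => u k 0) h.z (fun m => ?_) h.eq hpb4 m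
    obtain ⟨M, hM, hb⟩ := h.loc 0 m
    exact ⟨M, hM, fun k => hb k 0 le_rfl⟩
  refine ⟨h, hpb, ?_⟩
  -- integrability
  set φ : ℝ → ℝ≥0∞ := fun t => NW (fun k => ENNReal.ofReal (pw k ^ 5)) (at' u t) with hφ
  have hsplit : ∫⁻ t in Ioi 0, φ t ≤ (∫⁻ t in Ioc 0 s, φ t) + ∫⁻ t in Ioi s, φ t := by
    rw [← Ioc_union_Ioi_eq_Ioi hs0]
    exact lintegral_union_le _ _ _
  refine ne_top_of_le_ne_top (ENNReal.add_ne_top.2 ⟨?_, ?_⟩) hsplit
  · have h1 : ∫⁻ t in Ioc 0 s, φ t ≤ ∫⁻ t in Ioc 0 s, ENNReal.ofReal B :=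
      setLIntegral_mono' measurableSet_Ioc fun t ht => hN5 t ht.2
    refine ne_top_of_le_ne_top ?_ h1
    rw [setLIntegral_const, Real.volume_Ioc]
    exact ENNReal.mul_ne_top ENNReal.ofReal_ne_top ENNReal.ofReal_ne_top
  · have hpt : ∀ t, s < t → φ t ≤ ENNReal.ofReal (1 / δ ^ 5) * NW (Vp (wd δ)) (at' (sh s u) (t - s)) := by
      intro t ht
      have e : at' (sh s u) (t - s) = at' u t := by
        funext k
        unfold at' sh
        rw [max_eq_left (by linarith)]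
        congr 1; ring
      rw [e, hφ, ← NW_wmul]
      unfold NW
      refine ENNReal.tsum_le_tsum fun k => ?_
      by_cases hk : k = 0
      · subst hk
        have : at' u t 0 = 0 := h.z t
        rw [this]; simp
      apply mul_le_mul' _ le_rfl
      show ENNReal.ofReal (pw k ^ 5) ≤ ENNReal.ofReal (1 / δ ^ 5) * ENNReal.ofReal (wd δ k * nk k)
      rw [← ENNReal.ofReal_mul (by positivity)]
      apply ENNReal.ofReal_le_ofReal
      have h1 := le_wd hδ hδ1 k
      have h2 := one_le_nk hk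
      have hp := pw_pos k
      have hw := wd_pos hδ.le k
      calc pw k ^ 5 = 1 / δ ^ 5 * (δ ^ 5 * pw k ^ 5) := by field_simp
        _ ≤ 1 / δ ^ 5 * (wd δ k * nk k) := by
            apply mul_le_mul_of_nonneg_left _ (by positivity)
            nlinarith
    have h1 : ∫⁻ t in Ioi s, φ t ≤ ∫⁻ t in Ioi s, ENNReal.ofReal (1 / δ ^ 5) * NW (Vp (wd δ)) (at' (sh s u) (t - s)) :=
      setLIntegral_mono' measurableSet_Ioi hpt
    have h2 : ∫⁻ t in Ioi s, ENNReal.ofReal (1 / δ ^ 5) * NW (Vp (wd δ)) (at' (sh s u) (t - s))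
        = ENNReal.ofReal (1 / δ ^ 5) * ∫⁻ t in Ioi 0, NW (Vp (wd δ)) (at' (sh s u) t) := by
      have hm : Measurable fun t => NW (Vp (wd δ)) (at' (sh s u) t) := NW_meas _ hsh.cf
      have hm' : Measurable fun t => NW (Vp (wd δ)) (at' (sh s u) (t - s)) := hm.comp (measurable_sub_const s)
      rw [lintegral_const_mul _ hm']
      congr 1
      have h3 := (measurePreserving_sub_right volume s).setLIntegral_comp_preimage (s := Ioi 0)
        measurableSet_Ioi hm
      rw [← h3]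
      congr 2
      ext t; simp
    have h4 : ∫⁻ t in Ioi 0, NW (Vp (wd δ)) (at' (sh s u) t) ≤ ENNReal.ofReal (2 / c * x0) := by
      have hm : Measurable fun t => NW (Vp (wd δ)) (at' (sh s u) t) := NW_meas _ hsh.cf
      have h5 : ∀ n : ℕ, ∫⁻ t in Ioc 0 (n : ℝ), NW (Vp (wd δ)) (at' (sh s u) t) ≤ ENNReal.ofReal (2 / c * x0) := by
        intro n
        have h6 := (hsm n (Nat.cast_nonneg n)).2
        calc _ = ENNReal.ofReal (2 / c) * (ENNReal.ofReal (c / 2) *
              ∫⁻ t in Ioc 0 (n : ℝ), NW (Vp (wd δ)) (at' (sh s u) t)) := by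
              rw [← mul_assoc, ← ENNReal.ofReal_mul (by positivity)]
              have : 2 / c * (c / 2) = 1 := by field_simp
              rw [this, ENNReal.ofReal_one, one_mul]
          _ ≤ ENNReal.ofReal (2 / c) * ENNReal.ofReal x0 := mul_le_mul' le_rfl h6
          _ = _ := by rw [← ENNReal.ofReal_mul (by positivity)]
      have hU : Ioi (0 : ℝ) = ⋃ n : ℕ, Ioc 0 (n : ℝ) := by
        ext t
        simp only [mem_Ioi, mem_iUnion, mem_Ioc]
        constructor
        · intro ht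
          obtain ⟨n, hn⟩ := exists_nat_ge t
          exact ⟨n, ht, hn⟩
        · rintro ⟨n, hn, _⟩; exact hn
      rw [hU, setLIntegral_iUnion_of_directed]
      · exact iSup_le h5
      · refine Monotone.directed_le fun m n hmn => Ioc_subset_Ioc_right (by exact_mod_cast hmn)
    refine ne_top_of_le_ne_top ?_ h1
    rw [h2]
    exact ENNReal.mul_ne_top ENNReal.ofReal_ne_top (ne_top_of_le_ne_top ENNReal.ofReal_ne_top h4)

/-- Smooth periodic solutions with mean zero are good. -/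
theorem gsol_of (hν : 0 < ν) (h : AdmissiblePeriodic ν v u p) (h0 : ∀ i, ∫ x in Icc (0 : R3) 1, v x i = 0) :
    GSol (4 * Real.pi ^ 2 * ν) (UF u) := by
  have hC := C0_pos
  have hl := UF_lsol h h0
  have hc : 0 < 4 * Real.pi ^ 2 * ν := by have := Real.pi_pos; positivity
  obtain ⟨s, hs0, hs⟩ := small_N1 hν h (η := 4 * Real.pi ^ 2 * ν / (8 * C0)) (by positivity)
  refine gsol_of_small hc hl hs0 (η := 4 * Real.pi ^ 2 * ν / (8 * C0)) (by positivity) ?_ hs
  apply div_lt_div_of_pos_left hc (by positivity)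
  linarith

end

end Pool.Agent.H356R3.NS.H1SS
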