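import Pool.Agent.H1SS.Wgt

open MeasureTheory Set Filter Topology
open scoped ENNReal NNReal

namespace Pool.Agent.H356R3.NS.H1SS


/-- one mode -/
lemma mode_real {lam : ℝ} {a : C3} {F : ℝ → C3} (hF : Continuous F) {g g' : ℝ → ℝ}
    (hg : ∀ t, HasDerivAt g (g' t) t) (hg' : Continuous g') (hl : 0 ≤ lam) (hp : ∀ t, 0 ≤ g' t) {T : ℝ} (hT : 0 ≤ T)
    {u : ℝ → C3} (hu : ∀ t, 0 ≤ t → u t = Real.exp (-(lam * t)) • a +
      ∫ s in (0 : ℝ)..t, Real.exp (-(lam * (t - s))) • F s) (huc : Continuous u) :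
    Real.exp (-g T) * ‖u T‖ + ∫ t in (0 : ℝ)..T, Real.exp (-g t) * ((lam + g' t) * ‖u t‖)
      ≤ Real.exp (-g 0) * ‖a‖ + ∫ t in (0 : ℝ)..T, Real.exp (-g t) * ‖F t‖ := by
  have hgc : Continuous g := continuous_iff_continuousAt.2 fun s => (hg s).continuousAt
  set J : ℝ → ℝ := fun t => ∫ s in (0 : ℝ)..t, Real.exp (lam * s) * ‖F s‖ with hJ
  have hJc : Continuous fun s => Real.exp (lam * s) * ‖F s‖ := by fun_prop
  have hJd : ∀ t, HasDerivAt J (Real.exp (lam * t) * ‖F t‖) t := fun t =>
    intervalIntegral.integral_hasDerivAt_right (hJc.intervalIntegrable _ _)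
      hJc.aestronglyMeasurable.stronglyMeasurableAtFilter hJc.continuousAt
  set G : ℝ → ℝ := fun t => Real.exp (-(lam * t)) * (‖a‖ + J t) with hG
  have hGd : ∀ t, HasDerivAt G (-(lam * G t) + ‖F t‖) t := by
    intro t
    have h1 : HasDerivAt (fun t : ℝ => Real.exp (-(lam * t))) (Real.exp (-(lam * t)) * -lam) t := by
      have : HasDerivAt (fun u : ℝ => -(lam * u)) (-lam) t := by
        simpa using ((hasDerivAt_id' t).const_mul lam).fun_neg
      exact this.exp
    have h2 := h1.fun_mul ((hJd t).const_add ‖a‖)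
    refine h2.congr_deriv ?_
    have h3 : Real.exp (-(lam * t)) * Real.exp (lam * t) = 1 := by
      rw [← Real.exp_add]; simp
    simp only [hG]
    linear_combination ‖F t‖ * h3
  have hGc : Continuous G := continuous_iff_continuousAt.2 fun s => (hGd s).continuousAt
  have huG : ∀ t, 0 ≤ t → ‖u t‖ ≤ G t := by
    intro t ht
    rw [hu t ht]
    refine (norm_add_le _ _).trans ?_
    rw [norm_smul, Real.norm_of_nonneg (Real.exp_pos _).le]
    simp only [hG, mul_add]
    refine add_le_add le_rfl ?_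
    refine (intervalIntegral.norm_integral_le_integral_norm ht).trans (le_of_eq ?_)
    simp only [hJ]
    rw [← intervalIntegral.integral_const_mul]
    refine intervalIntegral.integral_congr fun s _ => ?_
    simp only [norm_smul, Real.norm_of_nonneg (Real.exp_pos _).le]
    rw [← mul_assoc, ← Real.exp_add]
    congr 2
    ring
  have hHd : ∀ t ∈ uIcc 0 T, HasDerivAt (fun t => Real.exp (-g t) * G t)
      (Real.exp (-g t) * ‖F t‖ - Real.exp (-g t) * ((lam + g' t) * G t)) t := by
    intro t _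
    have h1 : HasDerivAt (fun t => Real.exp (-g t)) (Real.exp (-g t) * -g' t) t := (hg t).fun_neg.exp
    refine (h1.fun_mul (hGd t)).congr_deriv ?_
    ring
  have c1 : Continuous fun t => Real.exp (-g t) * ‖F t‖ := by fun_prop
  have c2 : Continuous fun t => Real.exp (-g t) * ((lam + g' t) * G t) := by fun_prop
  have c3 : Continuous fun t => Real.exp (-g t) * ((lam + g' t) * ‖u t‖) := by fun_prop
  have hI := intervalIntegral.integral_eq_sub_of_hasDerivAt hHd ((c1.sub c2).intervalIntegrable _ _)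
  rw [intervalIntegral.integral_sub (c1.intervalIntegrable _ _) (c2.intervalIntegrable _ _)] at hI
  have hJ0 : J 0 = 0 := by simp [hJ]
  have hG0 : G 0 = ‖a‖ := by simp [hG, hJ0]
  rw [hG0] at hI
  have h5 : Real.exp (-g T) * ‖u T‖ ≤ Real.exp (-g T) * G T :=
    mul_le_mul_of_nonneg_left (huG T hT) (Real.exp_pos _).le
  have h6 : ∫ t in (0 : ℝ)..T, Real.exp (-g t) * ((lam + g' t) * ‖u t‖)
      ≤ ∫ t in (0 : ℝ)..T, Real.exp (-g t) * ((lam + g' t) * G t) := by
    refine intervalIntegral.integral_mono_on hT (c3.intervalIntegrable _ _) (c2.intervalIntegrable _ _) ?_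
    intro t ht
    refine mul_le_mul_of_nonneg_left ?_ (Real.exp_pos _).le
    exact mul_le_mul_of_nonneg_left (huG t ht.1) (add_nonneg hl (hp t))
  linarith

/-- the energy functional of a family -/
noncomputable def Phi (c : ℝ) (w : K → ℝ) (g g' : ℝ → ℝ) (u : Fam) (T : ℝ) : ℝ≥0∞ :=
  ENNReal.ofReal (Real.exp (-g T)) * NW (Vm w) (at' u T) +
    ∫⁻ t in Ioc 0 T, ENNReal.ofReal (Real.exp (-g t)) *
      (ENNReal.ofReal c * NW (Vp w) (at' u t) + ENNReal.ofReal (g' t) * NW (Vm w) (at' u t))

lemma NW_Vp_eq {w : K → ℝ} (hw : Wt w) {c : ℝ} (hc : 0 ≤ c) (x : K → C3) :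
    ENNReal.ofReal c * NW (Vp w) x = ∑' k, Vm w k * (ENNReal.ofReal (c * sq k) * ‖x k‖ₑ) := by
  unfold NW
  rw [← ENNReal.tsum_mul_left]
  refine tsum_congr fun k => ?_
  by_cases hk : k = 0
  · subst hk; simp [Vp, Vm, nk_zero]
  have hn := nk_pos hk
  have hwk := hw.pos k
  rw [← mul_assoc, ← mul_assoc]
  congr 1
  unfold Vp Vm
  rw [← ENNReal.ofReal_mul hc, ← ENNReal.ofReal_mul (by positivity)]
  congr 1
  rw [← nk_mul_self]
  field_simp

lemma ene {c : ℝ} (hc : 0 ≤ c) {w : K → ℝ} (hw : Wt w) {g g' : ℝ → ℝ}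
    (hg : ∀ t, HasDerivAt g (g' t) t) (hg' : Continuous g') (hp : ∀ t, 0 ≤ g' t) (hg0 : g 0 = 0)
    {V : K → C3} {F u : Fam} (hF : CF F) (hu : CF u)
    (he : ∀ k t, u k t = Real.exp (-(c * sq k * max t 0)) • V k + Duh c F k t) {T : ℝ} (hT : 0 ≤ T) :
    Phi c w g g' u T ≤ NW (Vm w) V +
      ∫⁻ t in Ioc 0 T, ENNReal.ofReal (Real.exp (-g t)) * NW (Vm w) (at' F t) := by
  have hgc : Continuous g := continuous_iff_continuousAt.2 fun s => (hg s).continuousAt
  have hmode : ∀ k, ENNReal.ofReal (Real.exp (-g T)) * ‖u k T‖ₑ + ∫⁻ t in Ioc 0 T,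
      ENNReal.ofReal (Real.exp (-g t)) * (ENNReal.ofReal (c * sq k + g' t) * ‖u k t‖ₑ)
      ≤ ‖V k‖ₑ + ∫⁻ t in Ioc 0 T, ENNReal.ofReal (Real.exp (-g t)) * ‖F k t‖ₑ := by
    intro k
    have hl : 0 ≤ c * sq k := mul_nonneg hc (sq_nonneg' k)
    have h1 := mode_real (lam := c * sq k) (a := V k) (hF k) hg hg' hl hp hT (u := u k) (fun t ht => by
      rw [he k t]
      unfold Duh
      rw [max_eq_left ht]) (hu k)
    have c1 : Continuous fun t => Real.exp (-g t) * ‖F k t‖ := by
      have := hF k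
      fun_prop
    have c3 : Continuous fun t => Real.exp (-g t) * ((c * sq k + g' t) * ‖u k t‖) := by
      have := hu k
      fun_prop
    rw [hg0, neg_zero, Real.exp_zero, one_mul] at h1
    have n3 : 0 ≤ ∫ t in (0 : ℝ)..T, Real.exp (-g t) * ((c * sq k + g' t) * ‖u k t‖) :=
      intervalIntegral.integral_nonneg hT fun t _ => by
        have := hp t
        positivity
    have n1 : 0 ≤ ∫ t in (0 : ℝ)..T, Real.exp (-g t) * ‖F k t‖ :=
      intervalIntegral.integral_nonneg hT fun t _ => by positivity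
    have h2 := ENNReal.ofReal_le_ofReal h1
    rw [ENNReal.ofReal_add (by positivity) n3, ENNReal.ofReal_add (norm_nonneg _) n1,
      ENNReal.ofReal_mul (Real.exp_pos _).le, ofReal_norm, ofReal_norm,
      intervalIntegral.integral_of_le hT, intervalIntegral.integral_of_le hT,
      ofReal_integral_eq_lintegral_ofReal, ofReal_integral_eq_lintegral_ofReal] at h2
    · refine le_trans (le_of_eq ?_) (h2.trans (le_of_eq ?_))
      · congr 1
        refine lintegral_congr fun t => ?_
        have := hp t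
        rw [ENNReal.ofReal_mul (Real.exp_pos _).le, ENNReal.ofReal_mul (by positivity), ofReal_norm]
      · congr 1
        refine lintegral_congr fun t => ?_
        rw [ENNReal.ofReal_mul (Real.exp_pos _).le, ofReal_norm]
    · exact (c1.integrableOn_Icc (a := 0) (b := T)).mono_set Ioc_subset_Icc_self
    · exact Filter.Eventually.of_forall fun t => by positivity
    · exact (c3.integrableOn_Icc (a := 0) (b := T)).mono_set Ioc_subset_Icc_self
    · exact Filter.Eventually.of_forall fun t => by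
        have := hp t
        simp only [Pi.zero_apply]; positivity
  have e1 : Phi c w g g' u T = ∑' k, Vm w k * (ENNReal.ofReal (Real.exp (-g T)) * ‖u k T‖ₑ + ∫⁻ t in Ioc 0 T,
      ENNReal.ofReal (Real.exp (-g t)) * (ENNReal.ofReal (c * sq k + g' t) * ‖u k t‖ₑ)) := by
    unfold Phi
    simp only [mul_add]
    rw [ENNReal.tsum_add]
    congr 1
    · unfold NW at'
      rw [← ENNReal.tsum_mul_left]
      exact tsum_congr fun k => by ring
    · have e2 : ∀ t, ENNReal.ofReal (Real.exp (-g t)) * (ENNReal.ofReal c * NW (Vp w) (at' u t))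
          + ENNReal.ofReal (Real.exp (-g t)) * (ENNReal.ofReal (g' t) * NW (Vm w) (at' u t))
          = ∑' k, Vm w k * (ENNReal.ofReal (Real.exp (-g t)) * (ENNReal.ofReal (c * sq k + g' t) * ‖u k t‖ₑ)) := by
        intro t
        rw [NW_Vp_eq hw hc]
        unfold NW at'
        rw [← ENNReal.tsum_mul_left, ← ENNReal.tsum_mul_left, ← ENNReal.tsum_mul_left, ← ENNReal.tsum_add]
        refine tsum_congr fun k => ?_
        rw [ENNReal.ofReal_add (mul_nonneg hc (sq_nonneg' k)) (hp t)]
        ring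
      simp only [e2]
      have hm : ∀ k, Measurable fun t => ENNReal.ofReal (Real.exp (-g t)) *
          (ENNReal.ofReal (c * sq k + g' t) * ‖u k t‖ₑ) := by
        intro k
        have := hu k
        have h3 : Measurable fun t => ENNReal.ofReal (Real.exp (-g t)) := by fun_prop
        have h4 : Measurable fun t => ENNReal.ofReal (c * sq k + g' t) := by fun_prop
        exact h3.mul (h4.mul this.enorm.measurable)
      rw [lintegral_tsum fun k => ((hm k).const_mul _).aemeasurable]
      refine tsum_congr fun k => ?_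
      rw [lintegral_const_mul _ (hm k)]
  rw [e1]
  calc _ ≤ ∑' k, Vm w k * (‖V k‖ₑ + ∫⁻ t in Ioc 0 T, ENNReal.ofReal (Real.exp (-g t)) * ‖F k t‖ₑ) :=
        ENNReal.tsum_le_tsum fun k => mul_le_mul' le_rfl (hmode k)
    _ = _ := by
        simp only [mul_add]
        rw [ENNReal.tsum_add]
        congr 1
        have hm : ∀ k, Measurable fun t => ENNReal.ofReal (Real.exp (-g t)) * ‖F k t‖ₑ := by
          intro k
          have := hF k
          have h3 : Measurable fun t => ENNReal.ofReal (Real.exp (-g t)) := by fun_prop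
          exact h3.mul this.enorm.measurable
        have e3 : ∀ t, ENNReal.ofReal (Real.exp (-g t)) * NW (Vm w) (at' F t)
            = ∑' k, Vm w k * (ENNReal.ofReal (Real.exp (-g t)) * ‖F k t‖ₑ) := by
          intro t
          unfold NW at'
          rw [← ENNReal.tsum_mul_left]
          exact tsum_congr fun k => by ring
        simp only [e3]
        rw [lintegral_tsum fun k => ((hm k).const_mul _).aemeasurable]
        exact tsum_congr fun k => (lintegral_const_mul _ (hm k)).symm

end Pool.Agent.H356R3.NS.H1SS
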