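import Pool.Agent.H1SS.Bil

open MeasureTheory Set Filter Topology
open scoped ENNReal NNReal

namespace Pool.Agent.H356R3.NS.H1SS

/-- threshold for the size of the remainder -/
noncomputable def thr (c D : ℝ) : ℝ := c / (16 * C0) * Real.exp (-(La c * D))

lemma thr_pos {c : ℝ} (hc : 0 < c) (D : ℝ) : 0 < thr c D := by
  have := C0_pos
  unfold thr; positivity

/-- the invariants of the iteration -/
structure InvV (c : ℝ) (w : K → ℝ) (g g' : ℝ → ℝ) (ρ : ℝ) (R : ℕ → Fam) (n : ℕ) : Prop where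
  cf : CF (R n)
  z : ∀ t, R n 0 t = 0
  mx : ∀ k t, R n k (max t 0) = R n k t
  sb : SB c w g g' (R n) (ENNReal.ofReal (ρ * (1 - (1 / 2) ^ n)))
  sbd : SB c w g g' (R (n + 1) - R n) (ENNReal.ofReal (ρ / 2 * (1 / 2) ^ n))

section
variable {c : ℝ} {w : K → ℝ} {A : ℝ → ℝ} {D : ℝ}

lemma gw_le' (hc : 0 < c) (hAi : ∀ t, 0 ≤ t → ∫ s in (0 : ℝ)..t, A s ^ 2 ≤ D) {t : ℝ} (ht : 0 ≤ t) :
    gw (La c) A t ≤ La c * D :=
  mul_le_mul_of_nonneg_left (hAi t ht) (La_pos hc).le

lemma sb_nm {g g' : ℝ → ℝ} {G : ℝ} (hG : ∀ t, 0 ≤ t → g t ≤ G) {x : Fam} {B : ℝ}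
    (hx : SB c w g g' x (ENNReal.ofReal B)) (hm : ∀ k t, x k (max t 0) = x k t) (t : ℝ) :
    NW (Vm w) (at' x t) ≤ ENNReal.ofReal (Real.exp G * B) := by
  have e : at' x t = at' x (max t 0) := by funext k; exact (hm k t).symm
  rw [e]
  have ht : 0 ≤ max t 0 := le_max_right _ _
  set τ := max t 0
  calc NW (Vm w) (at' x τ) = ENNReal.ofReal (Real.exp (g τ)) *
        (ENNReal.ofReal (Real.exp (-g τ)) * NW (Vm w) (at' x τ)) := by
        rw [← mul_assoc, ← ENNReal.ofReal_mul (Real.exp_pos _).le, ← Real.exp_add]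
        simp
    _ ≤ ENNReal.ofReal (Real.exp G) * ENNReal.ofReal B := by
        exact mul_le_mul' (ENNReal.ofReal_le_ofReal (Real.exp_le_exp.2 (hG τ ht))) (hx.sup τ ht)
    _ = _ := by rw [← ENNReal.ofReal_mul (Real.exp_pos _).le]

lemma inv_all_v (hc : 0 < c) (hw : Wt w) (hA : Continuous A)
    (hA0 : ∀ t, 0 ≤ A t) (hAi : ∀ t, 0 ≤ t → ∫ s in (0 : ℝ)..t, A s ^ 2 ≤ D)
    {U FE : Fam} (hU : CF U) (hUd : Dom U)
    (hUA : ∀ t, 0 < t → NW (Va w) (at' U t) ≤ ENNReal.ofReal (A t))
    (hFE : CF FE) (hFE0 : ∀ t, FE 0 t = 0) {ρ : ℝ} (hρ : 0 < ρ) (hρ2 : ρ ≤ thr c D)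
    (hFEi : ∫⁻ s in Ioi 0, NW (Vm w) (at' FE s) ≤ ENNReal.ofReal (ρ / 2)) (n : ℕ) :
    InvV c w (gw (La c) A) (gd c A) ρ (It c U FE) n := by
  have hC := C0_pos
  have hL := La_pos hc
  set g := gw (La c) A with hgdef
  have hgc : Continuous g := continuous_iff_continuousAt.2 fun s => (gw_deriv (La c) hA s).continuousAt
  have hgd : ∀ t, HasDerivAt g (gd c A t) t := fun t => gw_deriv (La c) hA t
  have hg'c : Continuous (gd c A) := by unfold gd; fun_prop
  have hg'0 : ∀ t, 0 ≤ gd c A t := fun t => mul_nonneg hL.le (sq_nonneg _)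
  have hg0 : g 0 = 0 := gw_zero _ _
  have hgn : ∀ t, 0 ≤ t → 0 ≤ g t := fun t ht => gw_nonneg hL.le hA ht
  have hG : ∀ t, 0 ≤ t → g t ≤ La c * D := fun t ht => gw_le' hc hAi ht
  set R := It c U FE with hRdef
  have hR0 : R 0 = 0 := rfl
  have hdom : ∀ n, (∀ t, R n 0 t = 0) → (∀ k t, R n k (max t 0) = R n k t) →
      SB c w g (gd c A) (R n) (ENNReal.ofReal (ρ * (1 - (1 / 2) ^ n))) → Dom (R n) := by
    intro n h0 hm h
    have p0 : (0 : ℝ) ≤ (1 / 2) ^ n := by positivity
    have p1 : (1 / 2 : ℝ) ^ n ≤ 1 := pow_le_one₀ (by norm_num) (by norm_num)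
    refine dom_of_NVm hw (M := Real.exp (La c * D) * (ρ * (1 - (1 / 2) ^ n))) ?_ h0 (sb_nm hG h hm)
    have : 0 ≤ 1 - (1 / 2 : ℝ) ^ n := by linarith
    positivity
  have hFc : ∀ n, CF (R n) → Dom (R n) → CF (FE + (Bt (U + R n) - Bt U)) := by
    intro n h1 h2 k
    have e1 : CF (U + R n) := fun k => (hU k).add (h1 k)
    exact (hFE k).add ((Bt_cont e1 (hUd.add h2) k).sub (Bt_cont hU hUd k))
  have hF0 : ∀ n t, (FE + (Bt (U + R n) - Bt U)) 0 t = 0 := by
    intro n t
    simp [Bt, Bf_zero, hFE0]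
  have hduh : ∀ {F : Fam}, CF F → ∀ {T : ℝ}, 0 ≤ T → Phi c w g (gd c A) (Duh c F) T ≤
      ∫⁻ t in Ioc 0 T, ENNReal.ofReal (Real.exp (-g t)) * NW (Vm w) (at' F t) := by
    intro F hF T hT
    have h1 := ene hc.le hw hgd hg'c hg'0 hg0 (V := 0) (F := F) (u := Duh c F) hF (Duh_cont hF c)
      (fun k t => by simp) hT
    have h2 : NW (Vm w) (0 : K → C3) = 0 := NW_zero _
    rwa [h2, zero_add] at h1
  have hstep : ∀ n, CF (R n) → Dom (R n) → CF (R (n + 1)) ∧ (∀ t, R (n + 1) 0 t = 0) ∧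
      (∀ k t, R (n + 1) k (max t 0) = R (n + 1) k t) := by
    intro n h1 h2
    have h3 := hFc n h1 h2
    exact ⟨Duh_cont h3 c, fun t => at'_Duh_zero (hF0 n) t, fun k t => Duh_max c _ k t⟩
  induction n with
  | zero =>
    have hk : R 1 = Duh c FE := by
      show Duh c (FE + (Bt (U + 0) - Bt U)) = _
      rw [add_zero, sub_self, add_zero]
    refine ⟨?_, ?_, ?_, ?_, ?_⟩
    · intro k; rw [hR0]; exact continuous_const
    · intro t; rw [hR0]; rfl
    · intro k t; rw [hR0]; rfl
    · rw [hR0]; exact SB.zero.mono zero_le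
    · rw [hR0, sub_zero, zero_add, hk]
      refine SB.of_Phi fun T hT => ?_
      refine (hduh hFE hT).trans ?_
      rw [pow_zero, mul_one]
      refine le_trans ?_ hFEi
      calc _ ≤ ∫⁻ t in Ioc 0 T, NW (Vm w) (at' FE t) := by
            refine setLIntegral_mono' measurableSet_Ioc fun s hs => ?_
            calc _ ≤ 1 * NW (Vm w) (at' FE s) := by
                  apply mul_le_mul' _ le_rfl
                  rw [ENNReal.ofReal_le_one, Real.exp_le_one_iff]
                  have := hgn s hs.1.le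
                  linarith
              _ = _ := one_mul _
        _ ≤ _ := lintegral_mono_set fun s hs => hs.1
  | succ n ih =>
    have hd0 := hdom n ih.z ih.mx ih.sb
    obtain ⟨hcf1, hz1, hm1⟩ := hstep n ih.cf hd0
    have hsum : R (n + 1) = R n + (R (n + 1) - R n) := by abel
    have hdn : CF (R (n + 1) - R n) := fun k => (hcf1 k).sub (ih.cf k)
    have p1 : (1 / 2 : ℝ) ^ n ≤ 1 := pow_le_one₀ (by norm_num) (by norm_num)
    have p0 : (0 : ℝ) ≤ (1 / 2) ^ n := by positivity
    have p2 : (1 / 2 : ℝ) ^ (n + 1) ≤ 1 := pow_le_one₀ (by norm_num) (by norm_num)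
    have p3 : (0 : ℝ) ≤ (1 / 2) ^ (n + 1) := by positivity
    have q1 : 0 ≤ 1 - (1 / 2 : ℝ) ^ n := by linarith
    have q2 : 0 ≤ 1 - (1 / 2 : ℝ) ^ (n + 1) := by linarith
    have hsb1 : SB c w g (gd c A) (R (n + 1)) (ENNReal.ofReal (ρ * (1 - (1 / 2) ^ (n + 1)))) := by
      have h1 := SB.add ih.cf hgc hg'c ih.sb ih.sbd
      rw [← hsum] at h1
      refine h1.mono ?_
      rw [← ENNReal.ofReal_add (by positivity) (by positivity)]
      apply ENNReal.ofReal_le_ofReal
      rw [pow_succ]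
      apply le_of_eq; ring
    have hd1 := hdom (n + 1) hz1 hm1 hsb1
    set F0 := FE + (Bt (U + R n) - Bt U)
    set F1 := FE + (Bt (U + R (n + 1)) - Bt U)
    have hF0c : CF F0 := hFc n ih.cf hd0
    have hF1c : CF F1 := hFc (n + 1) hcf1 hd1
    have hdiff : R (n + 1 + 1) - R (n + 1) = Duh c (F1 - F0) := by
      rw [Duh_sub hF1c hF0c]
      rfl
    have hFdc : CF (F1 - F0) := fun k => (hF1c k).sub (hF0c k)
    have hb : ∀ s, 0 < s → NW (Vm w) (at' (F1 - F0) s) ≤
        ENNReal.ofReal C0 * (NW (Va w) (at' (R (n + 1) - R n) s) * (2 * ENNReal.ofReal (A s) +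
          (NW (Va w) (at' (R (n + 1)) s) + NW (Va w) (at' (R n) s)))) := by
      intro s hs
      have s0 := hUd.sn s
      have s1 := hd0.sn s
      have s2 := hd1.sn s
      have e : at' (F1 - F0) s = Bf (at' (R (n + 1) - R n) s) (at' U s + at' (R (n + 1)) s)
          + Bf (at' U s + at' (R n) s) (at' (R (n + 1) - R n) s) := by
        have e1 : at' (F1 - F0) s = Bf (at' U s + at' (R (n + 1)) s) (at' U s + at' (R (n + 1)) s)
            - Bf (at' U s + at' (R n) s) (at' U s + at' (R n) s) := by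
          funext k
          have ea : at' (U + R (n + 1)) s = at' U s + at' (R (n + 1)) s := rfl
          have eb : at' (U + R n) s = at' U s + at' (R n) s := rfl
          simp only [at', Pi.sub_apply, F1, F0, Pi.add_apply, Bt]
          rw [ea, eb]
          abel
        rw [e1, Bf_diff (s0.add s2) (s0.add s1)]
        have : at' U s + at' (R (n + 1)) s - (at' U s + at' (R n) s) = at' (R (n + 1) - R n) s := by
          funext k; simp [at']
        rw [this]
      rw [e]
      calc _ ≤ NW (Vm w) (Bf (at' (R (n + 1) - R n) s) (at' U s + at' (R (n + 1)) s))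
          + NW (Vm w) (Bf (at' U s + at' (R n) s) (at' (R (n + 1) - R n) s)) := NW_add_le _ _ _
        _ ≤ ENNReal.ofReal C0 * (NW (Va w) (at' (R (n + 1) - R n) s) *
              (ENNReal.ofReal (A s) + NW (Va w) (at' (R (n + 1)) s)))
            + ENNReal.ofReal C0 * ((ENNReal.ofReal (A s) + NW (Va w) (at' (R n) s)) *
              NW (Va w) (at' (R (n + 1) - R n) s)) := by
            apply add_le_add
            · refine (NV_Bf_le hw _ _).trans (mul_le_mul' le_rfl (mul_le_mul' le_rfl ?_))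
              exact (NW_add_le _ _ _).trans (add_le_add (hUA s hs) le_rfl)
            · refine (NV_Bf_le hw _ _).trans (mul_le_mul' le_rfl (mul_le_mul' ?_ le_rfl))
              exact (NW_add_le _ _ _).trans (add_le_add (hUA s hs) le_rfl)
        _ = _ := by ring
    refine ⟨hcf1, hz1, hm1, hsb1, ?_⟩
    rw [hdiff]
    refine SB.of_Phi fun T hT => ?_
    refine (hduh hFdc hT).trans ?_
    refine (bil hc hw hA hA0 hG hdn hcf1 ih.cf (fun t => by
      simp only [Pi.sub_apply, hz1, ih.z, sub_self]) hz1 ih.z (by positivity) (by positivity) (by positivity)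
      ih.sbd hsb1 ih.sb hb hT).trans ?_
    apply ENNReal.ofReal_le_ofReal
    have hkey : C0 / c * Real.exp (La c * D) * (ρ * (1 - (1 / 2) ^ (n + 1)) + ρ * (1 - (1 / 2) ^ n)) ≤ 1 / 8 := by
      have h1 : ρ * (1 - (1 / 2) ^ (n + 1)) + ρ * (1 - (1 / 2) ^ n) ≤ 2 * thr c D := by
        have a1 : ρ * (1 - (1 / 2) ^ (n + 1)) ≤ ρ := by nlinarith
        have a2 : ρ * (1 - (1 / 2) ^ n) ≤ ρ := by nlinarith
        linarith
      calc _ ≤ C0 / c * Real.exp (La c * D) * (2 * thr c D) := by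
            apply mul_le_mul_of_nonneg_left h1; positivity
        _ = 1 / 8 * (Real.exp (La c * D) * Real.exp (-(La c * D))) := by
            unfold thr; field_simp; norm_num
        _ = 1 / 8 := by rw [← Real.exp_add]; simp
    calc ρ / 2 * (1 / 2) ^ n * (1 / 8 + C0 / c * Real.exp (La c * D) *
          (ρ * (1 - (1 / 2) ^ (n + 1)) + ρ * (1 - (1 / 2) ^ n)))
        ≤ ρ / 2 * (1 / 2) ^ n * (1 / 8 + 1 / 8) := by
          apply mul_le_mul_of_nonneg_left _ (by positivity)
          linarith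
      _ ≤ ρ / 2 * (1 / 2) ^ (n + 1) := by
          rw [pow_succ]
          nlinarith [mul_nonneg hρ.le p0]

/-- Existence of an exact solution near an approximate one. -/
theorem exist_v (hc : 0 < c) (hw : Wt w) (hA : Continuous A)
    (hA0 : ∀ t, 0 ≤ A t) (hAi : ∀ t, 0 ≤ t → ∫ s in (0 : ℝ)..t, A s ^ 2 ≤ D)
    {U FE : Fam} (hU : CF U) (hUd : Dom U) (hUs : SymF U)
    (hUA : ∀ t, 0 < t → NW (Va w) (at' U t) ≤ ENNReal.ofReal (A t))
    (hFE : CF FE) (hFEs : SymF FE) (hFE0 : ∀ t, FE 0 t = 0) {ρ : ℝ} (hρ : 0 < ρ) (hρ2 : ρ ≤ thr c D)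
    (hFEi : ∫⁻ s in Ioi 0, NW (Vm w) (at' FE s) ≤ ENNReal.ofReal (ρ / 2)) :
    ∃ r : Fam, CF r ∧ (∀ t, r 0 t = 0) ∧ (∀ k t, r k (max t 0) = r k t) ∧
      (∀ t, NW (Vm w) (at' r t) ≤ ENNReal.ofReal (Real.exp (La c * D) * ρ)) ∧
      SB c w (gw (La c) A) (gd c A) r (ENNReal.ofReal ρ) ∧
      r = Duh c (FE + (Bt (U + r) - Bt U)) ∧ SymF r := by
  have hC := C0_pos
  have hL := La_pos hc
  have hinv := inv_all_v hc hw hA hA0 hAi hU hUd hUA hFE hFE0 hρ hρ2 hFEi
  set g := gw (La c) A with hgdef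
  have hgc : Continuous g := continuous_iff_continuousAt.2 fun s => (gw_deriv (La c) hA s).continuousAt
  have hg'c : Continuous (gd c A) := by unfold gd; fun_prop
  have hG : ∀ t, 0 ≤ t → g t ≤ La c * D := fun t ht => gw_le' hc hAi ht
  set R := It c U FE
  have hR0 : R 0 = 0 := rfl
  set q : K → ℝ := fun k => nk k / w k
  have hq : Summable q := hw.summ
  have hq0 : ∀ k, 0 ≤ q k := fun k => div_nonneg (nk_nonneg k) (hw.pos k).le
  set M := Real.exp (La c * D) * ρ with hM
  have hM0 : 0 < M := by positivity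
  have hdm : ∀ n k t, (R (n + 1) - R n) k (max t 0) = (R (n + 1) - R n) k t := by
    intro n k t
    simp only [Pi.sub_apply, (hinv (n + 1)).mx, (hinv n).mx]
  have hd : ∀ n k t, ‖R (n + 1) k t - R n k t‖ ≤ M * (1 / 2) ^ n * q k := by
    intro n k t
    have h1 : NW (Vm w) (at' (R (n + 1) - R n) t) ≤ ENNReal.ofReal (M * (1 / 2) ^ n) := by
      refine (sb_nm hG (hinv n).sbd (hdm n) t).trans (ENNReal.ofReal_le_ofReal ?_)
      have p0 : (0 : ℝ) ≤ (1 / 2) ^ n := by positivity
      simp only [hM]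
      have : 0 ≤ Real.exp (La c * D) * ρ * (1 / 2) ^ n := by positivity
      nlinarith
    exact norm_le_of_NVm hw (M := M * (1 / 2) ^ n) (by positivity)
      (x := at' (R (n + 1) - R n) t) (by
        simp only [at', Pi.sub_apply, (hinv (n + 1)).z, (hinv n).z, sub_self]) h1 k
  have hsbn : ∀ n, SB c w g (gd c A) (R n) (ENNReal.ofReal ρ) := by
    intro n
    refine (hinv n).sb.mono (ENNReal.ofReal_le_ofReal ?_)
    have : (0 : ℝ) ≤ (1 / 2) ^ n := by positivity
    nlinarith
  have hRb : ∀ n k t, ‖R n k t‖ ≤ M * q k := by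
    intro n k t
    exact norm_le_of_NVm hw hM0.le ((hinv n).z t) (sb_nm hG (hsbn n) (hinv n).mx t) k
  have hgeo : ∀ k, Summable fun n : ℕ => M * (1 / 2) ^ n * q k := fun k =>
    ((summable_geometric_of_lt_one (by norm_num) (by norm_num : (1 / 2 : ℝ) < 1)).mul_left M).mul_right _
  set r : Fam := fun k t => ∑' n, (R (n + 1) k t - R n k t)
  have hsm : ∀ k t, Summable fun n => R (n + 1) k t - R n k t := fun k t =>
    Summable.of_norm_bounded (hgeo k) fun n => hd n k t
  have htend : ∀ k t, Tendsto (fun n => R n k t) atTop (𝓝 (r k t)) := by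
    intro k t
    have h1 := (hsm k t).hasSum.tendsto_sum_nat
    have h2 : ∀ n, ∑ j ∈ Finset.range n, (R (j + 1) k t - R j k t) = R n k t := by
      intro n
      rw [Finset.sum_range_sub (fun j => R j k t), hR0]
      simp
    simpa only [h2] using h1
  have hrc : CF r := by
    intro k
    refine continuous_tsum (u := fun n : ℕ => M * (1 / 2) ^ n * q k) (fun n => ?_) (hgeo k)
      fun n t => hd n k t
    exact ((hinv (n + 1)).cf k).sub ((hinv n).cf k)
  have hr0 : ∀ t, r 0 t = 0 := by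
    intro t
    simp only [r, (hinv _).z, sub_self, tsum_zero]
  have hrm : ∀ k t, r k (max t 0) = r k t := by
    intro k t
    simp only [r, (hinv _).mx]
  have hrb : ∀ k t, ‖r k t‖ ≤ M * q k := fun k t =>
    le_of_tendsto ((htend k t).norm) (Filter.Eventually.of_forall fun n => hRb n k t)
  have hrd : Dom r := ⟨_, hq.mul_left M, hrb⟩
  have hRd : ∀ n, Dom (R n) := fun n => ⟨_, hq.mul_left M, hRb n⟩
  have hsb : SB c w g (gd c A) r (ENNReal.ofReal ρ) :=
    SB.lim (fun n => (hinv n).cf) hgc hg'c htend hsbn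
  obtain ⟨bU, hbU, hbU'⟩ := id hUd
  have hbU0 : ∀ k, 0 ≤ bU k := fun k => (norm_nonneg _).trans (hbU' k 0)
  set b : K → ℝ := fun k => bU k + M * q k
  have hb : Summable b := hbU.add (hq.mul_left _)
  have hURb : ∀ n k t, ‖U k t + R n k t‖ ≤ b k := fun n k t =>
    (norm_add_le _ _).trans (add_le_add (hbU' k t) (hRb n k t))
  have hURn : ∀ n, CF (U + R n) := fun n k => (hU k).add ((hinv n).cf k)
  have hfix : r = Duh c (FE + (Bt (U + r) - Bt U)) := by
    funext k t
    have h1 : Tendsto (fun n => R (n + 1) k t) atTop (𝓝 (r k t)) :=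
      (htend k t).comp (tendsto_add_atTop_nat 1)
    have h2 : Tendsto (fun n => Duh c (FE + (Bt (U + R n) - Bt U)) k t) atTop
        (𝓝 (Duh c (FE + (Bt (U + r) - Bt U)) k t)) := by
      unfold Duh
      refine intervalIntegral.tendsto_integral_filter_of_dominated_convergence
        (bound := fun s => ‖FE k s‖ + (C0 * nk k * ((∑' k, b k) * ∑' k, b k) + ‖Bt U k s‖)) ?_ ?_ ?_ ?_
      · refine Filter.Eventually.of_forall fun n => Continuous.aestronglyMeasurable ?_
        have h3 : Continuous ((FE + (Bt (U + R n) - Bt U)) k) :=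
          (hFE k).add ((Bt_cont (hURn n) (hUd.add (hRd n)) k).sub (Bt_cont hU hUd k))
        fun_prop
      · refine Filter.Eventually.of_forall fun n => Filter.Eventually.of_forall fun s hs => ?_
        rw [uIoc_of_le (le_max_right t 0)] at hs
        rw [norm_smul, Real.norm_of_nonneg (Real.exp_pos _).le]
        have h4 : Real.exp (-(c * sq k * (max t 0 - s))) ≤ 1 := by
          rw [Real.exp_le_one_iff]
          have h5 := sq_nonneg' k
          have h6 : 0 ≤ max t 0 - s := sub_nonneg.2 hs.2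
          have : 0 ≤ c * sq k * (max t 0 - s) := by positivity
          linarith
        have h7 : ‖(FE + (Bt (U + R n) - Bt U)) k s‖ ≤
            ‖FE k s‖ + (C0 * nk k * ((∑' k, b k) * ∑' k, b k) + ‖Bt U k s‖) := by
          refine (norm_add_le _ _).trans (add_le_add le_rfl ?_)
          refine (norm_sub_le _ _).trans (add_le_add ?_ le_rfl)
          exact norm_Bf_le hb (fun k => hURb n k s) k
        calc _ ≤ 1 * ‖(FE + (Bt (U + R n) - Bt U)) k s‖ :=
              mul_le_mul_of_nonneg_right h4 (norm_nonneg _)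
          _ ≤ _ := by rw [one_mul]; exact h7
      · apply Continuous.intervalIntegrable
        have h8 := hFE k
        have h9 := Bt_cont hU hUd k
        fun_prop
      · refine Filter.Eventually.of_forall fun s _ => ?_
        refine Tendsto.const_smul ?_ _
        refine Tendsto.const_add _ (Tendsto.sub_const ?_ _)
        exact Bf_tendsto hb (fun n k => hURb n k s) (fun k => (htend k s).const_add _) k
    exact tendsto_nhds_unique h1 h2
  have hRs : ∀ n, SymF (R n) := by
    intro n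
    induction n with
    | zero =>
      rw [hR0]; intro t k i; simp [at']
    | succ n ih =>
      have h3 : CF (FE + (Bt (U + R n) - Bt U)) := fun k =>
          (hFE k).add ((Bt_cont (hURn n) (hUd.add (hRd n)) k).sub (Bt_cont hU hUd k))
      refine Duh_sym ?_ h3
      intro t
      have e1 : SymF (U + R n) := fun t => (hUs t).add (ih t)
      exact (hFEs t).add ((Bt_sym e1 t).sub (Bt_sym hUs t))
  refine ⟨r, hrc, hr0, hrm, fun t => sb_nm hG hsb hrm t, hsb, hfix, ?_⟩
  intro t k i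
  have h1 : Tendsto (fun n => R n (-k) t i) atTop (𝓝 (r (-k) t i)) :=
    ((continuous_apply i).tendsto _).comp (htend (-k) t)
  have h2 : Tendsto (fun n => star (R n k t i)) atTop (𝓝 (star (r k t i))) :=
    ((continuous_star.comp (continuous_apply i)).tendsto _).comp (htend k t)
  have h3 : (fun n => R n (-k) t i) = fun n => star (R n k t i) := by
    funext n
    exact hRs n t k i
  rw [h3] at h1
  exact tendsto_nhds_unique h1 h2

end

end Pool.Agent.H356R3.NS.H1SS
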