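import Pool.Agent.H1SS.HWin

open MeasureTheory Set Filter Topology
open scoped ENNReal NNReal ContDiff

namespace Pool.Agent.H356R3.NS.H1SS

/-- one mode, on `[0, T]` -/
lemma mode_realT {lam : ℝ} {a : C3} {F : ℝ → C3} (hF : Continuous F) {g g' : ℝ → ℝ}
    (hg : ∀ t, HasDerivAt g (g' t) t) (hg' : Continuous g') (hl : 0 ≤ lam) (hp : ∀ t, 0 ≤ g' t) {T : ℝ} (hT : 0 ≤ T)
    {u : ℝ → C3} (hu : ∀ t, 0 ≤ t → t ≤ T → u t = Real.exp (-(lam * t)) • a +
      ∫ s in (0 : ℝ)..t, Real.exp (-(lam * (t - s))) • F s) (huc : Continuous u) :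
    Real.exp (-g T) * ‖u T‖ + ∫ t in (0 : ℝ)..T, Real.exp (-g t) * ((lam + g' t) * ‖u t‖)
      ≤ Real.exp (-g 0) * ‖a‖ + ∫ t in (0 : ℝ)..T, Real.exp (-g t) * ‖F t‖ := by
  have hgc : Continuous g := continuous_iff_continuousAt.2 fun s => (hg s).continuousAt
  set J : ℝ → ℝ := fun t => ∫ s in (0 : ℝ)..t, Real.exp (lam * s) * ‖F s‖ with hJ
  have hJc : Continuous fun s => Real.exp (lam * s) * ‖F s‖ := by fun_prop
  have hJd : ∀ t, HasDerivAt J (Real.exp (lam * t) * ‖F t‖) t := fun t =>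
    intervalIntegral.integral_hasDerivAt_right (hJc.intervalIntegrable _ _)
      hJc.aestronglyMeasurable.stronglyMeasurableAtFilter hJc.continuousAt
  set G : ℝ → ℝ := fun t => Real.exp (-(lam * t)) * (‖a‖ + J t) with hG
  have hGd : ∀ t, HasDerivAt G (-(lam * G t) + ‖F t‖) t := by
    intro t
    have h1 : HasDerivAt (fun t : ℝ => Real.exp (-(lam * t))) (Real.exp (-(lam * t)) * -lam) t := by
      have : HasDerivAt (fun u : ℝ => -(lam * u)) (-lam) t := by
        simpa using ((hasDerivAt_id' t).const_mul lam).fun_neg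
      exact this.exp
    have h2 := h1.fun_mul ((hJd t).const_add ‖a‖)
    refine h2.congr_deriv ?_
    have h3 : Real.exp (-(lam * t)) * Real.exp (lam * t) = 1 := by
      rw [← Real.exp_add]; simp
    simp only [hG]
    linear_combination ‖F t‖ * h3
  have hGc : Continuous G := continuous_iff_continuousAt.2 fun s => (hGd s).continuousAt
  have huG : ∀ t, 0 ≤ t → t ≤ T → ‖u t‖ ≤ G t := by
    intro t ht htT
    rw [hu t ht htT]
    refine (norm_add_le _ _).trans ?_
    rw [norm_smul, Real.norm_of_nonneg (Real.exp_pos _).le]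
    simp only [hG, mul_add]
    refine add_le_add le_rfl ?_
    refine (intervalIntegral.norm_integral_le_integral_norm ht).trans (le_of_eq ?_)
    simp only [hJ]
    rw [← intervalIntegral.integral_const_mul]
    refine intervalIntegral.integral_congr fun s _ => ?_
    simp only [norm_smul, Real.norm_of_nonneg (Real.exp_pos _).le]
    rw [← mul_assoc, ← Real.exp_add]
    congr 2
    ring
  have hHd : ∀ t ∈ uIcc 0 T, HasDerivAt (fun t => Real.exp (-g t) * G t)
      (Real.exp (-g t) * ‖F t‖ - Real.exp (-g t) * ((lam + g' t) * G t)) t := by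
    intro t _
    have h1 : HasDerivAt (fun t => Real.exp (-g t)) (Real.exp (-g t) * -g' t) t := (hg t).fun_neg.exp
    refine (h1.fun_mul (hGd t)).congr_deriv ?_
    ring
  have c1 : Continuous fun t => Real.exp (-g t) * ‖F t‖ := by fun_prop
  have c2 : Continuous fun t => Real.exp (-g t) * ((lam + g' t) * G t) := by fun_prop
  have c3 : Continuous fun t => Real.exp (-g t) * ((lam + g' t) * ‖u t‖) := by fun_prop
  have hI := intervalIntegral.integral_eq_sub_of_hasDerivAt hHd ((c1.sub c2).intervalIntegrable _ _)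
  rw [intervalIntegral.integral_sub (c1.intervalIntegrable _ _) (c2.intervalIntegrable _ _)] at hI
  have hJ0 : J 0 = 0 := by simp [hJ]
  have hG0 : G 0 = ‖a‖ := by simp [hG, hJ0]
  rw [hG0] at hI
  have h5 : Real.exp (-g T) * ‖u T‖ ≤ Real.exp (-g T) * G T :=
    mul_le_mul_of_nonneg_left (huG T hT le_rfl) (Real.exp_pos _).le
  have h6 : ∫ t in (0 : ℝ)..T, Real.exp (-g t) * ((lam + g' t) * ‖u t‖)
      ≤ ∫ t in (0 : ℝ)..T, Real.exp (-g t) * ((lam + g' t) * G t) := by
    refine intervalIntegral.integral_mono_on hT (c3.intervalIntegrable _ _) (c2.intervalIntegrable _ _) ?_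
    intro t ht
    refine mul_le_mul_of_nonneg_left ?_ (Real.exp_pos _).le
    exact mul_le_mul_of_nonneg_left (huG t ht.1 ht.2) (add_nonneg hl (hp t))
  linarith

/-- energy estimate with a general weight -/
lemma eneG {c : ℝ} (hc : 0 ≤ c) (wt : K → ℝ≥0∞) {g g' : ℝ → ℝ}
    (hg : ∀ t, HasDerivAt g (g' t) t) (hg' : Continuous g') (hp : ∀ t, 0 ≤ g' t) (hg0 : g 0 = 0)
    {V : K → C3} {F u : Fam} (hF : CF F) (hu : CF u) {T : ℝ} (hT : 0 ≤ T)
    (he : ∀ k t, 0 ≤ t → t ≤ T → u k t = Real.exp (-(c * sq k * t)) • V k + Duh c F k t) :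
    ENNReal.ofReal (Real.exp (-g T)) * NW wt (at' u T) +
      ∫⁻ t in Ioc 0 T, ENNReal.ofReal (Real.exp (-g t)) *
        (NW (fun k => wt k * ENNReal.ofReal (c * sq k)) (at' u t) + ENNReal.ofReal (g' t) * NW wt (at' u t))
      ≤ NW wt V + ∫⁻ t in Ioc 0 T, ENNReal.ofReal (Real.exp (-g t)) * NW wt (at' F t) := by
  have hgc : Continuous g := continuous_iff_continuousAt.2 fun s => (hg s).continuousAt
  have hmode : ∀ k, ENNReal.ofReal (Real.exp (-g T)) * ‖u k T‖ₑ + ∫⁻ t in Ioc 0 T,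
      ENNReal.ofReal (Real.exp (-g t)) * (ENNReal.ofReal (c * sq k + g' t) * ‖u k t‖ₑ)
      ≤ ‖V k‖ₑ + ∫⁻ t in Ioc 0 T, ENNReal.ofReal (Real.exp (-g t)) * ‖F k t‖ₑ := by
    intro k
    have hl : 0 ≤ c * sq k := mul_nonneg hc (sq_nonneg' k)
    have h1 := mode_realT (lam := c * sq k) (a := V k) (hF k) hg hg' hl hp hT (u := u k) (fun t ht ht1 => by
      rw [he k t ht ht1]
      unfold Duh
      rw [max_eq_left ht]) (hu k)
    have c1 : Continuous fun t => Real.exp (-g t) * ‖F k t‖ := by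
      have := hF k
      fun_prop
    have c3 : Continuous fun t => Real.exp (-g t) * ((c * sq k + g' t) * ‖u k t‖) := by
      have := hu k
      fun_prop
    rw [hg0, neg_zero, Real.exp_zero, one_mul] at h1
    have n3 : 0 ≤ ∫ t in (0 : ℝ)..T, Real.exp (-g t) * ((c * sq k + g' t) * ‖u k t‖) :=
      intervalIntegral.integral_nonneg hT fun t _ => by
        have := hp t
        positivity
    have n1 : 0 ≤ ∫ t in (0 : ℝ)..T, Real.exp (-g t) * ‖F k t‖ :=
      intervalIntegral.integral_nonneg hT fun t _ => by positivity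
    have h2 := ENNReal.ofReal_le_ofReal h1
    rw [ENNReal.ofReal_add (by positivity) n3, ENNReal.ofReal_add (norm_nonneg _) n1,
      ENNReal.ofReal_mul (Real.exp_pos _).le, ofReal_norm, ofReal_norm,
      intervalIntegral.integral_of_le hT, intervalIntegral.integral_of_le hT,
      ofReal_integral_eq_lintegral_ofReal, ofReal_integral_eq_lintegral_ofReal] at h2
    · refine le_trans (le_of_eq ?_) (h2.trans (le_of_eq ?_))
      · congr 1
        refine lintegral_congr fun t => ?_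
        have := hp t
        rw [ENNReal.ofReal_mul (Real.exp_pos _).le, ENNReal.ofReal_mul (by positivity), ofReal_norm]
      · congr 1
        refine lintegral_congr fun t => ?_
        rw [ENNReal.ofReal_mul (Real.exp_pos _).le, ofReal_norm]
    · exact (c1.integrableOn_Icc (a := 0) (b := T)).mono_set Ioc_subset_Icc_self
    · exact Filter.Eventually.of_forall fun t => by positivity
    · exact (c3.integrableOn_Icc (a := 0) (b := T)).mono_set Ioc_subset_Icc_self
    · exact Filter.Eventually.of_forall fun t => by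
        have := hp t
        simp only [Pi.zero_apply]; positivity
  have e1 : ENNReal.ofReal (Real.exp (-g T)) * NW wt (at' u T) +
      ∫⁻ t in Ioc 0 T, ENNReal.ofReal (Real.exp (-g t)) *
        (NW (fun k => wt k * ENNReal.ofReal (c * sq k)) (at' u t) + ENNReal.ofReal (g' t) * NW wt (at' u t))
      = ∑' k, wt k * (ENNReal.ofReal (Real.exp (-g T)) * ‖u k T‖ₑ + ∫⁻ t in Ioc 0 T,
      ENNReal.ofReal (Real.exp (-g t)) * (ENNReal.ofReal (c * sq k + g' t) * ‖u k t‖ₑ)) := by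
    simp only [mul_add]
    rw [ENNReal.tsum_add]
    congr 1
    · unfold NW at'
      rw [← ENNReal.tsum_mul_left]
      exact tsum_congr fun k => by ring
    · have e2 : ∀ t, ENNReal.ofReal (Real.exp (-g t)) * NW (fun k => wt k * ENNReal.ofReal (c * sq k)) (at' u t)
          + ENNReal.ofReal (Real.exp (-g t)) * (ENNReal.ofReal (g' t) * NW wt (at' u t))
          = ∑' k, wt k * (ENNReal.ofReal (Real.exp (-g t)) * (ENNReal.ofReal (c * sq k + g' t) * ‖u k t‖ₑ)) := by
        intro t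
        unfold NW at'
        rw [← ENNReal.tsum_mul_left, ← ENNReal.tsum_mul_left, ← ENNReal.tsum_mul_left, ← ENNReal.tsum_add]
        refine tsum_congr fun k => ?_
        rw [ENNReal.ofReal_add (mul_nonneg hc (sq_nonneg' k)) (hp t)]
        ring
      simp only [e2]
      have hm : ∀ k, Measurable fun t => ENNReal.ofReal (Real.exp (-g t)) *
          (ENNReal.ofReal (c * sq k + g' t) * ‖u k t‖ₑ) := by
        intro k
        have := hu k
        have h3 : Measurable fun t => ENNReal.ofReal (Real.exp (-g t)) := by fun_prop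
        have h4 : Measurable fun t => ENNReal.ofReal (c * sq k + g' t) := by fun_prop
        exact h3.mul (h4.mul this.enorm.measurable)
      rw [lintegral_tsum fun k => ((hm k).const_mul _).aemeasurable]
      refine tsum_congr fun k => ?_
      rw [lintegral_const_mul _ (hm k)]
  rw [e1]
  calc _ ≤ ∑' k, wt k * (‖V k‖ₑ + ∫⁻ t in Ioc 0 T, ENNReal.ofReal (Real.exp (-g t)) * ‖F k t‖ₑ) :=
        ENNReal.tsum_le_tsum fun k => mul_le_mul' le_rfl (hmode k)
    _ = _ := by
        simp only [mul_add]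
        rw [ENNReal.tsum_add]
        congr 1
        have hm : ∀ k, Measurable fun t => ENNReal.ofReal (Real.exp (-g t)) * ‖F k t‖ₑ := by
          intro k
          have := hF k
          have h3 : Measurable fun t => ENNReal.ofReal (Real.exp (-g t)) := by fun_prop
          exact h3.mul this.enorm.measurable
        have e3 : ∀ t, ENNReal.ofReal (Real.exp (-g t)) * NW wt (at' F t)
            = ∑' k, wt k * (ENNReal.ofReal (Real.exp (-g t)) * ‖F k t‖ₑ) := by
          intro t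
          unfold NW at'
          rw [← ENNReal.tsum_mul_left]
          exact tsum_congr fun k => by ring
        simp only [e3]
        rw [lintegral_tsum fun k => ((hm k).const_mul _).aemeasurable]
        exact tsum_congr fun k => (lintegral_const_mul _ (hm k)).symm

/-- the version without time weight -/
lemma eneS {c : ℝ} (hc : 0 ≤ c) (wt : K → ℝ≥0∞) {V : K → C3} {F u : Fam} (hF : CF F) (hu : CF u) {T : ℝ}
    (hT : 0 ≤ T)
    (he : ∀ k t, 0 ≤ t → t ≤ T → u k t = Real.exp (-(c * sq k * t)) • V k + Duh c F k t) :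
    NW wt (at' u T) + ∫⁻ t in Ioc 0 T, NW (fun k => wt k * ENNReal.ofReal (c * sq k)) (at' u t)
      ≤ NW wt V + ∫⁻ t in Ioc 0 T, NW wt (at' F t) := by
  have h := eneG hc wt (g := fun _ => 0) (g' := fun _ => 0) (fun t => hasDerivAt_const t 0)
    continuous_const (fun _ => le_rfl) rfl hF hu hT he
  simpa using h

/-! ### The norms -/

/-- weight `|k|` -/
noncomputable def nP (x : K → C3) : ℝ≥0∞ := NW (fun k => ENNReal.ofReal (nk k)) x
/-- weight `|k|²` -/
noncomputable def nQ (x : K → C3) : ℝ≥0∞ := NW (fun k => ENNReal.ofReal (sq k)) x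

lemma nk_add (l m : K) : nk (l + m) ≤ nk l + nk m := by
  have h1 := nk_nonneg l
  have h2 := nk_nonneg m
  apply Real.sqrt_le_iff.2
  refine ⟨by positivity, ?_⟩
  have h3 : sq (l + m) = sq l + sq m + 2 * ∑ i, (l i : ℝ) * (m i : ℝ) := by
    unfold sq
    rw [Finset.mul_sum, ← Finset.sum_add_distrib, ← Finset.sum_add_distrib]
    refine Finset.sum_congr rfl fun i _ => ?_
    simp only [Pi.add_apply]
    push_cast
    ring
  have h4 : (∑ i, (l i : ℝ) * (m i : ℝ)) ^ 2 ≤ sq l * sq m := by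
    unfold sq
    exact Finset.sum_mul_sq_le_sq_mul_sq _ _ _
  have h5 : ∑ i, (l i : ℝ) * (m i : ℝ) ≤ nk l * nk m := by
    have h6 : (∑ i, (l i : ℝ) * (m i : ℝ)) ^ 2 ≤ (nk l * nk m) ^ 2 := by
      rw [mul_pow, nk_sq, nk_sq]; exact h4
    exact abs_le_of_sq_le_sq' h6 (by positivity) |>.2
  rw [h3, ← nk_sq, ← nk_sq]
  nlinarith

lemma nk_le_add (k l : K) : nk k ≤ nk l + nk (k - l) := by
  have := nk_add l (k - l)
  rwa [add_sub_cancel] at this

/-- The convolution inequality. -/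
lemma conv_tsum (f g : K → ℝ≥0∞) : ∑' k, ∑' l, f l * g (k - l) = (∑' l, f l) * ∑' m, g m := by
  rw [ENNReal.tsum_comm, ← ENNReal.tsum_mul_right]
  refine tsum_congr fun l => ?_
  rw [ENNReal.tsum_mul_left]
  congr 1
  exact (Equiv.subRight l).tsum_eq g

lemma N1_Bf (x y : K → C3) : N1 (Bf x y) ≤ ENNReal.ofReal C0 * (W0 x * W0 y) := by
  have hC := C0_pos
  unfold N1 W0 NW
  rw [← conv_tsum, ← ENNReal.tsum_mul_left]
  refine ENNReal.tsum_le_tsum fun k => ?_
  by_cases hk : k = 0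
  · subst hk; rw [Bf_zero]; simp
  have hn := nk_pos hk
  calc ENNReal.ofReal (1 / nk k) * ‖Bf x y k‖ₑ
      ≤ ENNReal.ofReal (1 / nk k) * (ENNReal.ofReal (C0 * nk k) * ∑' l, ‖x l‖ₑ * ‖y (k - l)‖ₑ) :=
        mul_le_mul' le_rfl (enorm_Bf_le x y k)
    _ = _ := by
        rw [← mul_assoc, ← ENNReal.ofReal_mul (by positivity)]
        congr 2
        field_simp

lemma W0_Bf (x y : K → C3) : W0 (Bf x y) ≤ ENNReal.ofReal C0 * (nP x * W0 y + W0 x * nP y) := by
  have hC := C0_pos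
  unfold nP W0 NW
  rw [← conv_tsum, ← conv_tsum, ← ENNReal.tsum_add, ← ENNReal.tsum_mul_left]
  refine ENNReal.tsum_le_tsum fun k => ?_
  refine (enorm_Bf_le x y k).trans ?_
  rw [ENNReal.ofReal_mul hC.le, mul_assoc]
  apply mul_le_mul' le_rfl
  rw [← ENNReal.tsum_mul_left, ← ENNReal.tsum_add]
  refine ENNReal.tsum_le_tsum fun l => ?_
  calc ENNReal.ofReal (nk k) * (‖x l‖ₑ * ‖y (k - l)‖ₑ)
      ≤ (ENNReal.ofReal (nk l) + ENNReal.ofReal (nk (k - l))) * (‖x l‖ₑ * ‖y (k - l)‖ₑ) := by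
        apply mul_le_mul' _ le_rfl
        rw [← ENNReal.ofReal_add (nk_nonneg _) (nk_nonneg _)]
        exact ENNReal.ofReal_le_ofReal (nk_le_add k l)
    _ = _ := by ring

lemma NW_one (x : K → C3) : NW (fun _ => 1) x = W0 x := (W0_eq x).symm

/-- Interpolation. -/
lemma interp1 {x : K → C3} (h0 : x 0 = 0) : W0 x * W0 x ≤ N1 x * nP x := by
  have key : ∀ k l, ‖x k‖ₑ * ‖x l‖ₑ + ‖x k‖ₑ * ‖x l‖ₑ
      ≤ (ENNReal.ofReal (1 / nk k) * ‖x k‖ₑ) * (ENNReal.ofReal (nk l) * ‖x l‖ₑ)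
        + (ENNReal.ofReal (nk k) * ‖x k‖ₑ) * (ENNReal.ofReal (1 / nk l) * ‖x l‖ₑ) := by
    intro k l
    by_cases hk : k = 0
    · subst hk; simp [h0]
    by_cases hl : l = 0
    · subst hl; simp [h0]
    have hk' := nk_pos hk
    have hl' := nk_pos hl
    have e1 : ‖x k‖ₑ * ‖x l‖ₑ + ‖x k‖ₑ * ‖x l‖ₑ = ENNReal.ofReal 2 * (‖x k‖ₑ * ‖x l‖ₑ) := by
      simp only [ENNReal.ofReal_ofNat]; ring
    have e2 : (ENNReal.ofReal (1 / nk k) * ‖x k‖ₑ) * (ENNReal.ofReal (nk l) * ‖x l‖ₑ)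
        + (ENNReal.ofReal (nk k) * ‖x k‖ₑ) * (ENNReal.ofReal (1 / nk l) * ‖x l‖ₑ)
        = ENNReal.ofReal (1 / nk k * nk l + nk k * (1 / nk l)) * (‖x k‖ₑ * ‖x l‖ₑ) := by
      rw [ENNReal.ofReal_add (by positivity) (by positivity),
        ENNReal.ofReal_mul (p := 1 / nk k) (by positivity),
        ENNReal.ofReal_mul (p := nk k) (by positivity)]
      ring
    rw [e1, e2]
    apply mul_le_mul' _ le_rfl
    apply ENNReal.ofReal_le_ofReal
    have h3 : 1 / nk k * nk l + nk k * (1 / nk l) = (nk l ^ 2 + nk k ^ 2) / (nk k * nk l) := by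
      field_simp
    rw [h3, le_div_iff₀ (by positivity)]
    nlinarith [sq_nonneg (nk k - nk l)]
  have h2 : W0 x * W0 x + W0 x * W0 x ≤ N1 x * nP x + nP x * N1 x := by
    have e : ∀ f g : K → ℝ≥0∞, (∑' k, f k) * (∑' l, g l) = ∑' k, ∑' l, f k * g l := by
      intro f g
      rw [← ENNReal.tsum_mul_right]
      exact tsum_congr fun k => ENNReal.tsum_mul_left.symm
    unfold W0 N1 nP NW
    rw [e, e, e, ← ENNReal.tsum_add, ← ENNReal.tsum_add]
    refine ENNReal.tsum_le_tsum fun k => ?_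
    rw [← ENNReal.tsum_add, ← ENNReal.tsum_add]
    exact ENNReal.tsum_le_tsum fun l => key k l
  rw [mul_comm (nP x), ← two_mul, ← two_mul] at h2
  exact (ENNReal.mul_le_mul_iff_right (by norm_num) (by norm_num)).1 h2

lemma young1 {c : ℝ} (hc : 0 < c) {y : ℝ} (_hy : 0 ≤ y) (x : K → C3) :
    ENNReal.ofReal C0 * (nP x * ENNReal.ofReal y) ≤ NW (fun k => 1 * ENNReal.ofReal (c * sq k)) x
      + ENNReal.ofReal (C0 ^ 2 / (4 * c) * y ^ 2) * W0 x := by
  have hC := C0_pos
  unfold nP W0 NW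
  rw [← ENNReal.tsum_mul_right, ← ENNReal.tsum_mul_left, ← ENNReal.tsum_mul_left, ← ENNReal.tsum_add]
  refine ENNReal.tsum_le_tsum fun k => ?_
  have hn := nk_nonneg k
  have hs := sq_nonneg' k
  have e1 : ENNReal.ofReal C0 * (ENNReal.ofReal (nk k) * ‖x k‖ₑ * ENNReal.ofReal y)
      = ENNReal.ofReal (C0 * (nk k * y)) * ‖x k‖ₑ := by
    rw [ENNReal.ofReal_mul hC.le, ENNReal.ofReal_mul hn]; ring
  have e2 : 1 * ENNReal.ofReal (c * sq k) * ‖x k‖ₑ + ENNReal.ofReal (C0 ^ 2 / (4 * c) * y ^ 2) * ‖x k‖ₑ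
      = ENNReal.ofReal (c * sq k + C0 ^ 2 / (4 * c) * y ^ 2) * ‖x k‖ₑ := by
    rw [ENNReal.ofReal_add (by positivity) (by positivity)]; ring
  rw [e1, e2]
  apply mul_le_mul' _ le_rfl
  apply ENNReal.ofReal_le_ofReal
  rw [← nk_sq]
  have : c * nk k ^ 2 + C0 ^ 2 / (4 * c) * y ^ 2 - C0 * (nk k * y) = 1 / (4 * c) * (2 * c * nk k - C0 * y) ^ 2 := by
    field_simp; ring
  have h2 : 0 ≤ 1 / (4 * c) * (2 * c * nk k - C0 * y) ^ 2 := by positivity
  linarith

lemma young2 {a : ℝ} (ha : 0 < a) (x : K → C3) :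
    nP x ≤ ENNReal.ofReal (a / 2) * nQ x + ENNReal.ofReal (1 / (2 * a)) * W0 x := by
  unfold nP nQ W0 NW
  rw [← ENNReal.tsum_mul_left, ← ENNReal.tsum_mul_left, ← ENNReal.tsum_add]
  refine ENNReal.tsum_le_tsum fun k => ?_
  have hn := nk_nonneg k
  have hs := sq_nonneg' k
  have e2 : ENNReal.ofReal (a / 2) * (ENNReal.ofReal (sq k) * ‖x k‖ₑ) + ENNReal.ofReal (1 / (2 * a)) * ‖x k‖ₑ
      = ENNReal.ofReal (a / 2 * sq k + 1 / (2 * a)) * ‖x k‖ₑ := by
    rw [ENNReal.ofReal_add (by positivity) (by positivity), ENNReal.ofReal_mul (by positivity)]; ring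
  rw [e2]
  apply mul_le_mul' _ le_rfl
  apply ENNReal.ofReal_le_ofReal
  rw [← nk_sq]
  have : a / 2 * nk k ^ 2 + 1 / (2 * a) - nk k = 1 / (2 * a) * (a * nk k - 1) ^ 2 := by
    field_simp; ring
  have h2 : 0 ≤ 1 / (2 * a) * (a * nk k - 1) ^ 2 := by positivity
  linarith

lemma NW_csq {c : ℝ} (hc : 0 ≤ c) (x : K → C3) :
    NW (fun k => 1 * ENNReal.ofReal (c * sq k)) x = ENNReal.ofReal c * nQ x := by
  unfold nQ
  rw [← NW_wmul]
  congr 1
  funext k
  rw [one_mul, ENNReal.ofReal_mul hc]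

lemma NW_cm {c : ℝ} (hc : 0 ≤ c) (x : K → C3) :
    NW (fun k => ENNReal.ofReal (1 / nk k) * ENNReal.ofReal (c * sq k)) x = ENNReal.ofReal c * nP x := by
  unfold nP
  rw [← NW_wmul]
  congr 1
  funext k
  by_cases hk : k = 0
  · subst hk; simp [nk_zero]
  have hn := nk_pos hk
  rw [← ENNReal.ofReal_mul (by positivity), ← ENNReal.ofReal_mul hc]
  congr 1
  rw [← nk_mul_self]
  field_simp

end Pool.Agent.H356R3.NS.H1SS
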