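import Pool.Agent.H1SS.HGron

open MeasureTheory Set Filter Topology
open scoped ENNReal NNReal ContDiff

namespace Pool.Agent.H356R3.NS.H1SS

/-- weight `(1 + |k|)⁵` -/
noncomputable def n5 (x : K → C3) : ℝ≥0∞ := NW (fun k => ENNReal.ofReal (pw k ^ 5)) x

/-- Existence near an approximate solution, in unweighted norms. -/
lemma exX {c : ℝ} (hc : 0 < c) {a FE : Fam} (ca : CF a) (pa : ∀ m, PB m a) (sa : SymF a) (cFE : CF FE)
    (sFE : SymF FE) (zFE : ∀ t, FE 0 t = 0) {D ρ : ℝ} (hD : 0 ≤ D) (hρ : 0 < ρ)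
    (hDi : ∫⁻ t in Ioi 0, W0 (at' a t) ^ 2 ≤ ENNReal.ofReal D)
    (hD5 : ∫⁻ t in Ioi 0, n5 (at' a t) ^ 2 ≠ ⊤)
    (hFi : ∫⁻ t in Ioi 0, N1 (at' FE t) ≤ ENNReal.ofReal (ρ / 4))
    (hF5 : ∫⁻ t in Ioi 0, n5 (at' FE t) ≠ ⊤) (hthr : ρ ≤ thr c (D + 1)) :
    ∃ r : Fam, CF r ∧ (∀ t, r 0 t = 0) ∧ (∀ k t, r k (max t 0) = r k t) ∧ SymF r ∧ PB 4 r ∧
      r = Duh c (FE + (Bt (a + r) - Bt a)) ∧
      (∀ t, N1 (at' r t) ≤ ENNReal.ofReal (Real.exp (La c * (D + 1)) * ρ)) ∧
      ∫⁻ t in Ioi 0, nP (at' r t) ≤ ENNReal.ofReal (Real.exp (La c * (D + 1)) * ρ / c) := by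
  have hC := C0_pos
  have hL := La_pos hc
  have c0 := r0_cont ca pa
  have c5 := r5_cont ca pa
  have n0 := r0_nonneg a
  have n50 := r5_nonneg a
  have le5 := r0_le_r5 pa
  have e5 : ∀ t, n5 (at' a t) ^ 2 = ENNReal.ofReal (r5 a t ^ 2) := by
    intro t
    unfold n5
    rw [N5_r5 pa, ENNReal.ofReal_pow (n50 t)]
  simp only [e5] at hD5
  set J := (∫⁻ t in Ioi 0, ENNReal.ofReal (r5 a t ^ 2)).toReal with hJdef
  have hJ0 : 0 ≤ J := ENNReal.toReal_nonneg
  have hJe : ∫⁻ t in Ioi 0, ENNReal.ofReal (r5 a t ^ 2) = ENNReal.ofReal J := (ENNReal.ofReal_toReal hD5).symm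
  set J' := (∫⁻ t in Ioi 0, n5 (at' FE t)).toReal with hJ'def
  have hJ'0 : 0 ≤ J' := ENNReal.toReal_nonneg
  have hJ'e : ∫⁻ t in Ioi 0, n5 (at' FE t) = ENNReal.ofReal J' := (ENNReal.ofReal_toReal hF5).symm
  -- choice of δ
  set δ := min 1 (min (1 / (35 * (J + 1))) (ρ / (20 * (J' + 1)))) with hδdef
  have hδ : 0 < δ := lt_min one_pos (lt_min (by positivity) (by positivity))
  have hδ1 : δ ≤ 1 := min_le_left _ _
  have hδa : 35 * δ * J ≤ 1 := by
    have h1 : δ ≤ 1 / (35 * (J + 1)) := (min_le_right _ _).trans (min_le_left _ _)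
    calc 35 * δ * J ≤ 35 * (1 / (35 * (J + 1))) * (J + 1) := by gcongr; linarith
      _ = 1 := by field_simp
  have hδb : 5 * δ * J' ≤ ρ / 4 := by
    have h1 : δ ≤ ρ / (20 * (J' + 1)) := (min_le_right _ _).trans (min_le_right _ _)
    calc 5 * δ * J' ≤ 5 * (ρ / (20 * (J' + 1))) * (J' + 1) := by gcongr; linarith
      _ = ρ / 4 := by field_simp; norm_num
  have hw := wd_wt hδ hδ1
  set A : ℝ → ℝ := fun t => r0 a t + 5 * δ * r5 a t with hA
  have hAc : Continuous A := by simp only [hA]; fun_prop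
  have hA0 : ∀ t, 0 ≤ A t := fun t => by
    have := n0 t; have := n50 t
    simp only [hA]; positivity
  have hAi : ∀ t, 0 ≤ t → ∫ s in (0 : ℝ)..t, A s ^ 2 ≤ D + 1 := by
    intro t ht
    have i1 : ∫ s in (0 : ℝ)..t, (r0 a s) ^ 2 ≤ D := by
      refine int_sq_le (by fun_prop) hD ?_ (fun s => sq_nonneg _) ht
      refine le_trans (le_of_eq ?_) hDi
      refine lintegral_congr fun s => ?_
      rw [W0_r0 pa, ENNReal.ofReal_pow (n0 s)]
    have i2 : ∫ s in (0 : ℝ)..t, (r5 a s) ^ 2 ≤ J :=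
      int_sq_le (by fun_prop) hJ0 hJe.le (fun s => sq_nonneg _) ht
    have c1 : Continuous fun s => (r0 a s) ^ 2 := by fun_prop
    have c2 : Continuous fun s => 35 * δ * (r5 a s) ^ 2 := by fun_prop
    calc ∫ s in (0 : ℝ)..t, A s ^ 2 ≤ ∫ s in (0 : ℝ)..t, ((r0 a s) ^ 2 + 35 * δ * (r5 a s) ^ 2) := by
          refine intervalIntegral.integral_mono_on ht ((hAc.pow 2).intervalIntegrable _ _)
            ((c1.add c2).intervalIntegrable _ _) fun s _ => ?_
          have q1 := le5 s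
          have q0 := n0 s
          simp only [hA]
          set x := r0 a s
          set y := r5 a s
          have hy : 0 ≤ y := q0.trans q1
          have hxy : x * y ≤ y ^ 2 := by nlinarith
          have hδy : δ * (δ * y ^ 2) ≤ δ * y ^ 2 := by
            have : 0 ≤ δ * y ^ 2 := by positivity
            nlinarith
          have hδxy : δ * (x * y) ≤ δ * y ^ 2 := mul_le_mul_of_nonneg_left hxy hδ.le
          have e : (x + 5 * δ * y) ^ 2 = x ^ 2 + 10 * (δ * (x * y)) + 25 * (δ * (δ * y ^ 2)) := by ring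
          rw [e]
          linarith
      _ = (∫ s in (0 : ℝ)..t, (r0 a s) ^ 2) + 35 * δ * ∫ s in (0 : ℝ)..t, (r5 a s) ^ 2 := by
          rw [intervalIntegral.integral_add (c1.intervalIntegrable _ _) (c2.intervalIntegrable _ _),
            intervalIntegral.integral_const_mul]
      _ ≤ D + 35 * δ * J := by gcongr
      _ ≤ D + 1 := by linarith
  have hUA : ∀ t, 0 < t → NW (Va (wd δ)) (at' a t) ≤ ENNReal.ofReal (A t) := by
    intro t _
    refine (Va_wd_le hδ hδ1 _).trans ?_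
    rw [← W0_eq, W0_r0 pa, N5_r5 pa, ← ENNReal.ofReal_mul (by positivity),
      ← ENNReal.ofReal_add (n0 t) (mul_nonneg (by positivity) (n50 t))]
  have hFEi : ∫⁻ s in Ioi 0, NW (Vm (wd δ)) (at' FE s) ≤ ENNReal.ofReal (ρ / 2) := by
    have m1 : Measurable fun s => N1 (at' FE s) := NW_meas _ cFE
    have m2 : Measurable fun s => n5 (at' FE s) := NW_meas _ cFE
    calc _ ≤ ∫⁻ s in Ioi 0, (N1 (at' FE s) + ENNReal.ofReal (5 * δ) * n5 (at' FE s)) :=
          lintegral_mono fun s => Vm_wd_le hδ hδ1 _ (zFE s)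
      _ = (∫⁻ s in Ioi 0, N1 (at' FE s)) + ENNReal.ofReal (5 * δ) * ∫⁻ s in Ioi 0, n5 (at' FE s) := by
          rw [lintegral_add_left m1, lintegral_const_mul _ m2]
      _ ≤ ENNReal.ofReal (ρ / 4) + ENNReal.ofReal (ρ / 4) := by
          apply add_le_add hFi
          rw [hJ'e, ← ENNReal.ofReal_mul (by positivity)]
          exact ENNReal.ofReal_le_ofReal hδb
      _ = _ := by
          rw [← ENNReal.ofReal_add (by positivity) (by positivity)]
          congr 1; ring
  obtain ⟨r, rc, rz, rm, rn, rsb, rf, rs⟩ := exist_v hc hw hAc hA0 hAi ca (dom_of_pb (pa 4)) sa hUA cFE sFE zFE hρ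
    hthr hFEi
  set E := Real.exp (La c * (D + 1)) with hE
  have hE0 : 0 < E := Real.exp_pos _
  refine ⟨r, rc, rz, rm, rs, ?_, rf, fun t => ?_, ?_⟩
  · refine ⟨E * ρ / δ ^ 5, by positivity, fun k t => ?_⟩
    have h3 := norm_le_of_NVm hw (by positivity) (x := at' r t) (rz t) (rn t) k
    have h4 := le_wd hδ hδ1 k
    have hp := pw_pos k
    have hwk := wd_pos hδ.le k
    calc pw k ^ 4 * ‖r k t‖ ≤ pw k ^ 4 * (E * ρ * (nk k / wd δ k)) := by
          apply mul_le_mul_of_nonneg_left h3 (by positivity)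
      _ ≤ pw k ^ 4 * (E * ρ * (pw k / (δ ^ 5 * pw k ^ 5))) := by
          have := nk_le_pw k
          have := nk_nonneg k
          gcongr
      _ = _ := by field_simp
  · refine le_trans ?_ (rn t)
    unfold N1
    refine NW_mono (fun k => ENNReal.ofReal_le_ofReal ?_) _
    exact div_le_div_of_nonneg_right (hw.one_le k) (nk_nonneg k)
  · have hm : Measurable fun t => nP (at' r t) := NW_meas _ rc
    have h5 : ∀ n : ℕ, ∫⁻ t in Ioc 0 (n : ℝ), nP (at' r t) ≤ ENNReal.ofReal (E * ρ / c) := by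
      intro n
      have h6 := rsb.int n (Nat.cast_nonneg n)
      have h7 : ∫⁻ t in Ioc 0 (n : ℝ), ENNReal.ofReal (c / E) * nP (at' r t) ≤ ENNReal.ofReal ρ := by
        refine (setLIntegral_mono' measurableSet_Ioc fun t ht => ?_).trans h6
        have hg : gw (La c) A t ≤ La c * (D + 1) := gw_le' hc hAi ht.1.le
        have h8 : ENNReal.ofReal (1 / E) ≤ ENNReal.ofReal (Real.exp (-gw (La c) A t)) := by
          apply ENNReal.ofReal_le_ofReal
          rw [hE, one_div, ← Real.exp_neg]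
          exact Real.exp_le_exp.2 (by linarith)
        calc ENNReal.ofReal (c / E) * nP (at' r t)
            = ENNReal.ofReal (1 / E) * (ENNReal.ofReal c * nP (at' r t)) := by
              rw [← mul_assoc, ← ENNReal.ofReal_mul (by positivity)]
              congr 2; ring
          _ ≤ _ := by
              apply mul_le_mul' h8
              refine le_trans ?_ le_self_add
              apply mul_le_mul' le_rfl
              unfold nP
              refine NW_mono (fun k => ENNReal.ofReal_le_ofReal ?_) _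
              have := hw.one_le k
              have := nk_nonneg k
              nlinarith
      rw [lintegral_const_mul _ hm] at h7
      have h9 := cancel_c (c := c / E) (by positivity) h7
      refine h9.trans (le_of_eq ?_)
      rw [← ENNReal.ofReal_mul (by positivity)]
      congr 1; field_simp
    have hU : Ioi (0 : ℝ) = ⋃ n : ℕ, Ioc 0 (n : ℝ) := by
      ext t
      simp only [mem_Ioi, mem_iUnion, mem_Ioc]
      constructor
      · intro ht
        obtain ⟨n, hn⟩ := exists_nat_ge t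
        exact ⟨n, ht, hn⟩
      · rintro ⟨n, hn, _⟩; exact hn
    rw [hU, setLIntegral_iUnion_of_directed]
    · exact iSup_le h5
    · refine Monotone.directed_le fun m n hmn => Ioc_subset_Ioc_right (by exact_mod_cast hmn)

/-- Regularity on a finite interval. -/
lemma bootH {c T : ℝ} (hc : 0 < c) (hT : 0 ≤ T) {V : K → C3} {u : Fam} (hz : ∀ t, u 0 t = 0) (hV : Nice V)
    (hcl : ∀ k t, u k (clp T t) = u k t)
    (he : ∀ k t, 0 ≤ t → t ≤ T → u k t = Real.exp (-(c * sq k * t)) • V k + Duh c (Bt u) k t) (h4 : PB 4 u)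
    (m : ℕ) : PB m u := by
  have hC := C0_pos
  have hS := S4_nonneg
  have hstep : ∀ m, 4 ≤ m → PB m u → PB (m + 1) u := by
    intro m hm hu
    obtain ⟨M, hM, hu⟩ := hu
    obtain ⟨M', hM', hV'⟩ := hV.pb (m + 1)
    set E := 4 * (C0 * (M ^ 2 * (2 ^ (m + 1) * S4)) / c) with hE
    have hE0 : 0 ≤ E := by positivity
    refine ⟨M' + E, by positivity, fun k t => ?_⟩
    rw [← hcl k t]
    have t0 := clp_nonneg T t
    have t1 := clp_le hT t
    set s := clp T t
    by_cases hk : k = 0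
    · subst hk
      rw [hz, norm_zero, mul_zero]; positivity
    have hn := nk_pos hk
    have hp := pw_pos k
    have hsq := sq_pos hk
    have h1 : ‖Duh c (Bt u) k s‖ ≤ C0 * nk k * (M ^ 2 * (2 ^ (m + 1) * S4 * (1 / pw k ^ m))) / (c * sq k) := by
      refine norm_Duh_le (by positivity) (by positivity) (fun s => ?_) s
      exact norm_Bf_poly hm hM (fun l => hu l s) k
    have h2 : C0 * nk k * (M ^ 2 * (2 ^ (m + 1) * S4 * (1 / pw k ^ m))) / (c * sq k)
        = C0 * (M ^ 2 * (2 ^ (m + 1) * S4)) / c * (1 / pw k ^ m) * (1 / nk k) := by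
      rw [← nk_mul_self]; field_simp
    have h3 : 1 / nk k ≤ 4 / pw k := by
      rw [div_le_div_iff₀ hn hp]
      have := pw_le_nk hk
      linarith
    have h5 : pw k ^ (m + 1) * ‖Duh c (Bt u) k s‖ ≤ E := by
      calc pw k ^ (m + 1) * ‖Duh c (Bt u) k s‖
          ≤ pw k ^ (m + 1) * (C0 * (M ^ 2 * (2 ^ (m + 1) * S4)) / c * (1 / pw k ^ m) * (4 / pw k)) := by
            apply mul_le_mul_of_nonneg_left _ (by positivity)
            rw [h2] at h1
            refine h1.trans ?_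
            exact mul_le_mul_of_nonneg_left h3 (by positivity)
        _ = E := by rw [hE, pow_succ]; field_simp
    have h6 : pw k ^ (m + 1) * ‖Real.exp (-(c * sq k * s)) • V k‖ ≤ M' := by
      refine le_trans ?_ (hV' k)
      apply mul_le_mul_of_nonneg_left _ (by positivity)
      rw [norm_smul, Real.norm_of_nonneg (Real.exp_pos _).le]
      have : Real.exp (-(c * sq k * s)) ≤ 1 := by
        rw [Real.exp_le_one_iff]
        have : 0 ≤ c * sq k * s := by positivity
        linarith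
      calc _ ≤ 1 * ‖V k‖ := mul_le_mul_of_nonneg_right this (norm_nonneg _)
        _ = _ := one_mul _
    rw [he k s t0 t1]
    calc _ ≤ pw k ^ (m + 1) * (‖Real.exp (-(c * sq k * s)) • V k‖ + ‖Duh c (Bt u) k s‖) :=
          mul_le_mul_of_nonneg_left (norm_add_le _ _) (by positivity)
      _ ≤ _ := by rw [mul_add]; exact add_le_add h6 h5
  have hall : ∀ n, PB (4 + n) u := by
    intro n
    induction n with
    | zero => exact h4
    | succ n ih => exact hstep (4 + n) (by omega) ih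
  rcases le_total m 4 with h | h
  · exact h4.le h
  · have := hall (m - 4)
    rwa [show 4 + (m - 4) = m by omega] at this

/-- the cutoff -/
noncomputable def chi (T κ t : ℝ) : ℝ := max 0 (min 1 (1 - (t - T) / κ))

lemma chi_cont (T κ : ℝ) : Continuous (chi T κ) := by unfold chi; fun_prop
lemma chi_nonneg (T κ t : ℝ) : 0 ≤ chi T κ t := le_max_left _ _
lemma chi_le (T κ t : ℝ) : chi T κ t ≤ 1 := max_le zero_le_one (min_le_left _ _)
lemma chi_one {T κ t : ℝ} (hκ : 0 < κ) (ht : t ≤ T) : chi T κ t = 1 := by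
  unfold chi
  have : (t - T) / κ ≤ 0 := div_nonpos_of_nonpos_of_nonneg (by linarith) hκ.le
  rw [min_eq_left (by linarith), max_eq_right zero_le_one]
lemma chi_zero {T κ t : ℝ} (hκ : 0 < κ) (ht : T + κ ≤ t) : chi T κ t = 0 := by
  unfold chi
  have : 1 ≤ (t - T) / κ := by rw [le_div_iff₀ hκ]; linarith
  exact max_eq_left ((min_le_right _ _).trans (by linarith))

/-- multiplication with the cutoff -/
noncomputable def ct (T κ : ℝ) (u : Fam) : Fam := fun k t => chi T κ t • u k t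

section
variable {T κ : ℝ} {u : Fam}

lemma ct_at (t : ℝ) : at' (ct T κ u) t = chi T κ t • at' u t := rfl

lemma NW_smul_le {a : ℝ} (ha : 0 ≤ a) (ha1 : a ≤ 1) (W : K → ℝ≥0∞) (x : K → C3) : NW W (a • x) ≤ NW W x := by
  unfold NW
  refine ENNReal.tsum_le_tsum fun k => mul_le_mul' le_rfl ?_
  rw [Pi.smul_apply, enorm_smul]
  calc _ ≤ 1 * ‖x k‖ₑ := by
        apply mul_le_mul' _ le_rfl
        rw [Real.enorm_of_nonneg ha]
        exact ENNReal.ofReal_le_one.2 ha1
    _ = _ := one_mul _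

lemma NW_ct_le (W : K → ℝ≥0∞) (t : ℝ) : NW W (at' (ct T κ u) t) ≤ NW W (at' u t) :=
  NW_smul_le (chi_nonneg _ _ _) (chi_le _ _ _) W _

lemma NW_ct_zero (hκ : 0 < κ) (W : K → ℝ≥0∞) {t : ℝ} (ht : T + κ ≤ t) : NW W (at' (ct T κ u) t) = 0 := by
  rw [ct_at, chi_zero hκ ht, zero_smul, NW_zero]

lemma ct_eq (hκ : 0 < κ) {t : ℝ} (ht : t ≤ T) : at' (ct T κ u) t = at' u t := by
  rw [ct_at, chi_one hκ ht, one_smul]

lemma ct_cf (hu : CF u) : CF (ct T κ u) := fun k => (chi_cont T κ).smul (hu k)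

lemma ct_pb {m : ℕ} (hu : PB m u) : PB m (ct T κ u) := by
  obtain ⟨M, hM, hb⟩ := hu
  refine ⟨M, hM, fun k t => le_trans ?_ (hb k t)⟩
  apply mul_le_mul_of_nonneg_left _ (pow_pos (pw_pos k) m).le
  show ‖chi T κ t • u k t‖ ≤ _
  rw [norm_smul, Real.norm_of_nonneg (chi_nonneg _ _ _)]
  calc _ ≤ 1 * ‖u k t‖ := mul_le_mul_of_nonneg_right (chi_le _ _ _) (norm_nonneg _)
    _ = _ := one_mul _

lemma ct_sym (hu : SymF u) : SymF (ct T κ u) := by
  intro t k i
  show (chi T κ t • u (-k) t) i = star ((chi T κ t • u k t) i)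
  simp only [Pi.smul_apply, star_smul, star_trivial]
  congr 1
  exact hu t k i

/-- integrals of functions which vanish for large times -/
lemma lint_cut {f φ : ℝ → ℝ≥0∞} {M : ℝ} (hM : 0 ≤ M) (h1 : ∀ t, 0 < t → t ≤ T → f t ≤ φ t)
    (h2 : ∀ t, f t ≤ ENNReal.ofReal M) (h3 : ∀ t, T + κ ≤ t → f t = 0) :
    ∫⁻ t in Ioi 0, f t ≤ (∫⁻ t in Ioc 0 T, φ t) + ENNReal.ofReal (κ * M) := by
  have hsub : Ioi (0 : ℝ) ⊆ Ioc 0 T ∪ (Ioc T (T + κ) ∪ Ioi (T + κ)) := by
    intro t ht
    have ht' : 0 < t := ht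
    by_cases h : t ≤ T
    · exact Or.inl ⟨ht', h⟩
    · by_cases h' : t ≤ T + κ
      · exact Or.inr (Or.inl ⟨not_le.1 h, h'⟩)
      · exact Or.inr (Or.inr (not_le.1 h'))
  refine (lintegral_mono_set hsub).trans ((lintegral_union_le _ _ _).trans (add_le_add ?_ ?_))
  · exact setLIntegral_mono' measurableSet_Ioc fun t ht => h1 t ht.1 ht.2
  · refine (lintegral_union_le _ _ _).trans ?_
    have e1 : ∫⁻ t in Ioi (T + κ), f t = 0 := by
      rw [setLIntegral_congr_fun measurableSet_Ioi (g := fun _ => 0) fun t ht => h3 t (le_of_lt ht)]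
      simp
    rw [e1, add_zero]
    calc _ ≤ ∫⁻ _t in Ioc T (T + κ), ENNReal.ofReal M := setLIntegral_mono' measurableSet_Ioc fun t _ => h2 t
      _ = _ := by
          rw [setLIntegral_const, Real.volume_Ioc, ← ENNReal.ofReal_mul hM]
          congr 1; ring

end

lemma Duh_congr {c : ℝ} {F F' : Fam} {k : K} {t : ℝ} (ht : 0 ≤ t) (h : ∀ s, 0 ≤ s → s ≤ t → F k s = F' k s) :
    Duh c F k t = Duh c F' k t := by
  unfold Duh
  refine intervalIntegral.integral_congr fun s hs => ?_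
  rw [max_eq_left ht, uIcc_of_le ht] at hs
  simp only [h s hs.1 hs.2]

end Pool.Agent.H356R3.NS.H1SS
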