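import Pool.Agent.H1SS.Scl

open MeasureTheory Set Filter Topology
open scoped ENNReal NNReal ContDiff

namespace Pool.Agent.H356R3.NS.H1SS

open H459R3.NS (IsSol SP Per fr ee cube)

section
variable {ν : ℝ} {v : R3 → R3} {u : ℝ → R3 → R3} {p : ℝ → R3 → ℝ}

lemma good_facts (hν : 0 < ν) (h : AdmissiblePeriodic ν v u p) (h0 : ∀ i, ∫ x in Icc (0 : R3) 1, v x i = 0) :
    ∃ B D E : ℝ, 0 ≤ B ∧ 0 ≤ D ∧ 0 ≤ E ∧ (∀ t, 0 ≤ t → wiener (u t) ≤ ENNReal.ofReal B) ∧
      ∫⁻ t in Ioi (0 : ℝ), wiener (u t) ^ 2 ≤ ENNReal.ofReal D ∧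
      ∫⁻ t in Ioi (0 : ℝ), wiener (u t) ≤ ENNReal.ofReal E := by
  have g := gsol_of hν h h0
  obtain ⟨B, hB0, hB⟩ := r5_bdd g.pb
  have hle : ∀ t, 0 ≤ t → wiener (u t) ≤ ENNReal.ofReal (r5 (UF u) t) := by
    intro t ht
    rw [wiener_eq u ht, W0_r0 g.pb]
    exact ENNReal.ofReal_le_ofReal (r0_le_r5 g.pb t)
  have hint := g.int
  simp only [N5_r5 g.pb] at hint
  set E := (∫⁻ t in Ioi 0, ENNReal.ofReal (r5 (UF u) t)).toReal with hE
  have hE0 : 0 ≤ E := ENNReal.toReal_nonneg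
  have hEe : ∫⁻ t in Ioi 0, ENNReal.ofReal (r5 (UF u) t) = ENNReal.ofReal E := (ENNReal.ofReal_toReal hint).symm
  have c5 := r5_cont g.ls.cf g.pb
  refine ⟨B, B * E, E, hB0, by positivity, hE0, fun t ht => (hle t ht).trans (ENNReal.ofReal_le_ofReal (hB t)), ?_, ?_⟩
  · calc ∫⁻ t in Ioi (0 : ℝ), wiener (u t) ^ 2
        ≤ ∫⁻ t in Ioi (0 : ℝ), ENNReal.ofReal B * ENNReal.ofReal (r5 (UF u) t) := by
          refine setLIntegral_mono' measurableSet_Ioi fun t ht => ?_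
          rw [pow_two]
          have h1 := hle t (le_of_lt ht)
          exact mul_le_mul' (h1.trans (ENNReal.ofReal_le_ofReal (hB t))) h1
      _ = ENNReal.ofReal B * ENNReal.ofReal E := by
          rw [lintegral_const_mul _ (by fun_prop), hEe]
      _ = _ := by rw [← ENNReal.ofReal_mul hB0]
  · rw [← hEe]
    exact setLIntegral_mono' measurableSet_Ioi fun t ht => hle t (le_of_lt ht)

lemma wiener_meas (h : AdmissiblePeriodic ν v u p) : Measurable fun t : ℝ => wiener (u (max t 0)) := by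
  have e : (fun t : ℝ => wiener (u (max t 0))) = fun t => NW (fun _ => 1) (at' (UF u) t) := by
    funext t
    rw [wiener_eq u (le_max_right t 0), W0_eq]
    congr 1
    funext k
    exact UF_mx u k t
  rw [e]
  exact NW_meas _ (UF_cf h)

/-- Criterion for a rescaled second solution. -/
lemma scaled_crit (hν : 0 < ν) {w : R3 → R3} {om : ℝ → R3 → R3} {q : ℝ → R3 → ℝ}
    (hu : AdmissiblePeriodic ν v u p) (hw : AdmissiblePeriodic ν w om q)
    (hv0 : ∀ i, ∫ x in Icc (0 : R3) 1, v x i = 0) (hw0 : ∀ i, ∫ x in Icc (0 : R3) 1, w x i = 0)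
    {B D E F ε : ℝ} (hB : 0 ≤ B) (hD : 0 ≤ D) (hE : 0 ≤ E) (hF : 0 ≤ F)
    (hBi : ∀ t, 0 ≤ t → wiener (u t) ≤ ENNReal.ofReal B)
    (hDi : ∫⁻ t in Ioi (0 : ℝ), wiener (u t) ^ 2 ≤ ENNReal.ofReal D)
    (hEi : ∫⁻ t in Ioi (0 : ℝ), wiener (om t) ≤ ENNReal.ofReal E)
    (hFi : ∫⁻ t in Ioi (0 : ℝ), wiener (om t) ^ 2 ≤ ENNReal.ofReal F)
    {N : ℕ} (hN : 1 ≤ N) (b : R3)
    (h1 : 20736 * (B * E / N) < ν * Real.exp (-(20736 * (2 * D + 2 * F) / ν)))
    (h2 : 144 * Real.pi * (B * E / N) * Real.exp (20736 * (2 * D + 2 * F) / ν) < ε) :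
    ∃ U P, AdmissiblePeriodic ν (fun x => v x + (N : ℝ) • w ((N : ℝ) • x + b)) U P ∧
      ∀ t, 0 ≤ t → leiLin (fun k => fc (U t) k - fc (u t) k
        - fc (fun x => (N : ℝ) • om ((N : ℝ) ^ 2 * t) ((N : ℝ) • x + b)) k) ≤ ENNReal.ofReal ε := by
  have hN0 : (0 : ℝ) < N := by exact_mod_cast hN
  have hN2 : (0 : ℝ) < (N : ℝ) ^ 2 := by positivity
  have hs := scale hw hN b
  have spw : ∀ t, 0 ≤ t → ∀ i, SP (fun x => om t x i) := fun t ht i => adm_sp hw ht i
  have spw0 : ∀ i, SP (fun x => w x i) := fun i => by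
    have := adm_sp hw le_rfl i
    rwa [hw.initial] at this
  have hm0 : ∀ i, ∫ x in Icc (0 : R3) 1, ((N : ℝ) • w ((N : ℝ) • x + b)) i = 0 := fun i =>
    mean_scale spw0 hw0 hN b N i
  set f : ℝ → ℝ≥0∞ := fun t => wiener (om (max t 0)) with hf
  have hfm : Measurable f := wiener_meas hw
  have hfu : Measurable fun t : ℝ => wiener (u (max t 0)) := wiener_meas hu
  have hfe : ∀ t, 0 ≤ t → f t = wiener (om t) := fun t ht => by simp only [hf]; rw [max_eq_left ht]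
  have hwn : ∀ t, 0 ≤ t → wiener ((fun t x => (N : ℝ) • om ((N : ℝ) ^ 2 * t) ((N : ℝ) • x + b)) t)
      = ENNReal.ofReal N * f ((N : ℝ) ^ 2 * t) := by
    intro t ht
    have ht' : 0 ≤ (N : ℝ) ^ 2 * t := by positivity
    rw [hfe _ ht']
    have := wiener_scale (v := om ((N : ℝ) ^ 2 * t)) (spw _ ht') hN b (N : ℝ)
    rw [abs_of_pos hN0] at this
    exact this
  have hfN : Measurable fun t => f ((N : ℝ) ^ 2 * t) := hfm.comp (measurable_const_mul _)
  have e1 : ∫⁻ t in Ioi (0 : ℝ), ENNReal.ofReal N * f ((N : ℝ) ^ 2 * t) ≤ ENNReal.ofReal (E / N) := by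
    rw [lintegral_const_mul _ hfN, lint_scale hN2 f, ← mul_assoc,
      ← ENNReal.ofReal_mul hN0.le]
    have e2 : ∫⁻ t in Ioi (0 : ℝ), f t ≤ ENNReal.ofReal E := by
      refine le_trans (le_of_eq ?_) hEi
      exact setLIntegral_congr_fun measurableSet_Ioi fun t ht => hfe t (le_of_lt ht)
    refine (mul_le_mul' le_rfl e2).trans (le_of_eq ?_)
    rw [← ENNReal.ofReal_mul (by positivity)]
    congr 1
    field_simp
  have e3 : ∫⁻ t in Ioi (0 : ℝ), (ENNReal.ofReal N * f ((N : ℝ) ^ 2 * t)) ^ 2 ≤ ENNReal.ofReal F := by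
    have e4 : ∀ t, (ENNReal.ofReal N * f ((N : ℝ) ^ 2 * t)) ^ 2
        = ENNReal.ofReal ((N : ℝ) ^ 2) * f ((N : ℝ) ^ 2 * t) ^ 2 := by
      intro t
      rw [mul_pow, ENNReal.ofReal_pow hN0.le]
    simp only [e4]
    rw [lintegral_const_mul _ (hfN.pow_const 2), lint_scale hN2 (fun s => f s ^ 2),
      ← mul_assoc, ← ENNReal.ofReal_mul hN2.le]
    have e5 : (N : ℝ) ^ 2 * (1 / (N : ℝ) ^ 2) = 1 := by field_simp
    rw [e5, ENNReal.ofReal_one, one_mul]
    refine le_trans (le_of_eq ?_) hFi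
    exact setLIntegral_congr_fun measurableSet_Ioi fun t ht => by
      show f t ^ 2 = _
      rw [hfe t (le_of_lt ht)]
  have hDD : ∫⁻ t in Ioi (0 : ℝ), (wiener (u t) +
      wiener ((fun t x => (N : ℝ) • om ((N : ℝ) ^ 2 * t) ((N : ℝ) • x + b)) t)) ^ 2 ≤ ENNReal.ofReal (2 * D + 2 * F) := by
    calc _ ≤ ∫⁻ t in Ioi (0 : ℝ), (2 * wiener (u (max t 0)) ^ 2 + 2 * (ENNReal.ofReal N * f ((N : ℝ) ^ 2 * t)) ^ 2) := by
          refine setLIntegral_mono' measurableSet_Ioi fun t ht => ?_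
          rw [hwn t (le_of_lt ht), max_eq_left (le_of_lt ht)]
          set x := wiener (u t)
          set y := ENNReal.ofReal N * f ((N : ℝ) ^ 2 * t)
          have h3 : 2 * (x * y) ≤ x ^ 2 + y ^ 2 := by
            rcases le_total x y with hxy | hxy
            · obtain ⟨d, hd⟩ := exists_add_of_le hxy
              rw [hd]
              calc 2 * (x * (x + d)) ≤ 2 * (x * (x + d)) + d ^ 2 := le_self_add
                _ = x ^ 2 + (x + d) ^ 2 := by ring
            · obtain ⟨d, hd⟩ := exists_add_of_le hxy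
              rw [hd]
              calc 2 * ((y + d) * y) ≤ 2 * ((y + d) * y) + d ^ 2 := le_self_add
                _ = (y + d) ^ 2 + y ^ 2 := by ring
          calc (x + y) ^ 2 = x ^ 2 + y ^ 2 + 2 * (x * y) := by ring
            _ ≤ x ^ 2 + y ^ 2 + (x ^ 2 + y ^ 2) := add_le_add le_rfl h3
            _ = _ := by ring
      _ = 2 * (∫⁻ t in Ioi (0 : ℝ), wiener (u (max t 0)) ^ 2)
          + 2 * ∫⁻ t in Ioi (0 : ℝ), (ENNReal.ofReal N * f ((N : ℝ) ^ 2 * t)) ^ 2 := by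
          have m1 : Measurable fun t : ℝ => wiener (u (max t 0)) ^ 2 := hfu.pow_const 2
          have m2 : Measurable fun t : ℝ => (ENNReal.ofReal N * f ((N : ℝ) ^ 2 * t)) ^ 2 :=
            (hfN.const_mul _).pow_const 2
          rw [lintegral_add_left (m1.const_mul _), lintegral_const_mul _ m1, lintegral_const_mul _ m2]
      _ ≤ 2 * ENNReal.ofReal D + 2 * ENNReal.ofReal F := by
          refine add_le_add (mul_le_mul' le_rfl ?_) (mul_le_mul' le_rfl e3)
          refine le_trans (le_of_eq ?_) hDi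
          exact setLIntegral_congr_fun measurableSet_Ioi fun t ht => by
            show wiener (u (max t 0)) ^ 2 = _
            rw [max_eq_left (le_of_lt ht)]
      _ = _ := by
          rw [ENNReal.ofReal_add (by positivity) (by positivity), ENNReal.ofReal_mul (by norm_num),
            ENNReal.ofReal_mul (by norm_num)]
          simp
  have hII : ∫⁻ t in Ioi (0 : ℝ), wiener (u t) *
      wiener ((fun t x => (N : ℝ) • om ((N : ℝ) ^ 2 * t) ((N : ℝ) • x + b)) t) ≤ ENNReal.ofReal (B * E / N) := by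
    calc _ ≤ ∫⁻ t in Ioi (0 : ℝ), ENNReal.ofReal B * (ENNReal.ofReal N * f ((N : ℝ) ^ 2 * t)) := by
          refine setLIntegral_mono' measurableSet_Ioi fun t ht => ?_
          rw [hwn t (le_of_lt ht)]
          exact mul_le_mul' (hBi t (le_of_lt ht)) le_rfl
      _ = ENNReal.ofReal B * ∫⁻ t in Ioi (0 : ℝ), (ENNReal.ofReal N * f ((N : ℝ) ^ 2 * t)) := by
          rw [lintegral_const_mul _ (hfN.const_mul _)]
      _ ≤ ENNReal.ofReal B * ENNReal.ofReal (E / N) := mul_le_mul' le_rfl e1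
      _ = _ := by rw [← ENNReal.ofReal_mul hB]; congr 1; ring
  exact criterion hν hu hs hv0 hm0 (D := 2 * D + 2 * F) (I := B * E / N) (by positivity) (by positivity)
    hDD hII h1 h2

/-- Superposition of solutions at different scales. -/
theorem scales (hν : 0 < ν) {w : R3 → R3} {om : ℝ → R3 → R3} {q : ℝ → R3 → ℝ}
    (hu : AdmissiblePeriodic ν v u p) (hw : AdmissiblePeriodic ν w om q)
    (hv0 : ∀ i, ∫ x in Icc (0 : R3) 1, v x i = 0) (hw0 : ∀ i, ∫ x in Icc (0 : R3) 1, w x i = 0)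
    {ε : ℝ} (hε : 0 < ε) :
    ∃ N0 : ℕ, ∀ N : ℕ, N0 ≤ N → ∀ b : R3,
      ∃ U P, AdmissiblePeriodic ν (fun x => v x + (N : ℝ) • w ((N : ℝ) • x + b)) U P ∧
        ∀ t, 0 ≤ t → leiLin (fun k => fc (U t) k - fc (u t) k
          - fc (fun x => (N : ℝ) • om ((N : ℝ) ^ 2 * t) ((N : ℝ) • x + b)) k) ≤ ENNReal.ofReal ε := by
  obtain ⟨B, D, -, hB, hD, -, hBi, hDi, -⟩ := good_facts hν hu hv0
  obtain ⟨-, F, E, -, hF, hE, -, hFi, hEi⟩ := good_facts hν hw hw0
  set M := Real.exp (20736 * (2 * D + 2 * F) / ν) with hM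
  have hM0 : 0 < M := Real.exp_pos _
  have t1 : Tendsto (fun N : ℕ => 20736 * (B * E / (N : ℝ))) atTop (𝓝 0) := by
    have := (tendsto_const_div_atTop_nhds_zero_nat (B * E)).const_mul 20736
    simpa using this
  have t2 : Tendsto (fun N : ℕ => 144 * Real.pi * (B * E / (N : ℝ)) * M) atTop (𝓝 0) := by
    have := ((tendsto_const_div_atTop_nhds_zero_nat (B * E)).const_mul (144 * Real.pi)).mul_const M
    simpa using this
  have ev1 := t1.eventually_lt_const (show 0 < ν * Real.exp (-(20736 * (2 * D + 2 * F) / ν)) by positivity)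
  have ev2 := t2.eventually_lt_const hε
  obtain ⟨N0, hN0⟩ := ((ev1.and ev2).and (eventually_ge_atTop 1)).exists_forall_of_atTop
  refine ⟨N0, fun N hN b => ?_⟩
  obtain ⟨⟨h1, h2⟩, h3⟩ := hN0 N hN
  exact scaled_crit hν hu hw hv0 hw0 hB hD hE hF hBi hDi hEi hFi h3 b h1 h2

end

end Pool.Agent.H356R3.NS.H1SS
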