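import Pool.Agent.H1SS.HGlob
import Pool.Agent.H1SS.Thm

open MeasureTheory Set Filter Topology
open scoped ENNReal NNReal ContDiff

namespace Pool.Agent.H356R3.NS.H1SS

open H459R3.NS (IsSol SP Per fr ee cube)

section
variable {c β L θ ρ η δ R : ℝ}

lemma Chain.one_le {N : ℕ} {V : K → C3} (h : Chain c β R N V) : 1 ≤ N := by
  cases h with
  | nil hN => exact hN
  | cons hN => exact hN

/-- the bound of the integral of the Wiener norm -/
noncomputable def bB (c β ρ η : ℝ) : ℝ := (β + 1) + (2 * η / c + Real.exp (La c * 2) * ρ / c)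

theorem Chain.glob (P : UP c β L θ ρ η δ R) {N : ℕ} {V : K → C3} (h : Chain c β R N V) {C : K → C3} (hC : Nice C)
    (hCW : W0 C ≤ ENNReal.ofReal (min δ (η / (2 * pK c β)))) :
    ∃ U, MSol c (V + C) U ∧ ∫⁻ t in Ioi 0, W0 (at' U t) ≤ ENNReal.ofReal (bB c β ρ η) := by
  have hc := P.hc
  have hβ := P.hβ
  have hL := P.hL
  have hδ := P.hδ
  have hη := P.hη
  have hρ := P.hρ
  have hθ := P.hθ
  have hC0 := C0_pos
  have hK := pK_pos c β
  have hN := h.one_le
  have hN0 : (0 : ℝ) < N := by exact_mod_cast hN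
  have hN1 : (1 : ℝ) ≤ N := by exact_mod_cast hN
  have g := h.good P
  set T := L / (N : ℝ) ^ 2 with hT
  have hT0 : 0 < T := by positivity
  have hCs : W0 C ≤ ENNReal.ofReal (δ * N) := by
    refine hCW.trans (ENNReal.ofReal_le_ofReal ((min_le_left _ _).trans ?_))
    nlinarith
  have hz : W0 (0 : K → C3) ≤ ENNReal.ofReal (δ * N) := by rw [W0_zero]; exact zero_le
  obtain ⟨u, hu, hui⟩ := g.ex C hC hCs
  obtain ⟨u0, hu0, hui0⟩ := g.ex 0 Nice.zero hz
  have hd := (g.lip C 0 hC Nice.zero hCs hz u u0 hu hu0 hui hui0).2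
  rw [sub_zero] at hd
  have hdec := g.dec u0 hu0 (by rw [hui0, add_zero])
  have hi := g.int C hC hCs u hu hui
  have hx : N1 (at' u T) ≤ ENNReal.ofReal (2 * η) := by
    have l1 : N1 (at' u0 T) ≤ ENNReal.ofReal η := by
      have hl : Lat N (at' u0 T) := hu0.lat hc hT0.le hN (by rw [hui0, add_zero]; exact g.lat) T
      refine (N1_le_of_lat hN (hu0.z T) hl).trans ((mul_le_mul' le_rfl hdec).trans (le_of_eq ?_))
      rw [← ENNReal.ofReal_mul (by positivity)]
      congr 1; field_simp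
    have l2 : N1 (at' (u - u0) T) ≤ ENNReal.ofReal η := by
      refine N1_le_W0.trans (hd.trans ((mul_le_mul' le_rfl hCW).trans ?_))
      rw [← ENNReal.ofReal_mul (by positivity)]
      apply ENNReal.ofReal_le_ofReal
      calc 2 * pK c β * min δ (η / (2 * pK c β)) ≤ 2 * pK c β * (η / (2 * pK c β)) := by
            gcongr
            exact min_le_right _ _
        _ = η := by field_simp
    have e : at' u T = at' u0 T + at' (u - u0) T := by rw [at'_sub]; abel
    rw [e]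
    refine (NW_add_le _ _ _).trans ((add_le_add l1 l2).trans (le_of_eq ?_))
    rw [← ENNReal.ofReal_add hη.le hη.le]
    congr 1; ring
  -- small data
  have q1 : 8 * η ^ 2 / c ≤ θ ^ 2 := by
    have := P.a3
    have h2 : 0 ≤ 2 * (L * δ ^ 2) := by positivity
    linarith
  have q2 : θ ^ 2 ≤ θ := by
    have := P.hθ1
    nlinarith
  have q3 : C0 * θ * 2 < ρ / 4 := by
    have := P.a1
    have h2 : C0 * (θ * (β ^ 2 + 2)) = C0 * θ * β ^ 2 + C0 * θ * 2 := by ring
    have h3 : 0 ≤ C0 * θ * β ^ 2 := by positivity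
    linarith
  have q4 : (2 * η) ^ 2 / c = (8 * η ^ 2 / c) / 2 := by ring
  obtain ⟨U, hU, pU, mU, iU⟩ := small_global hc (hu.nice T) (x := 2 * η) (by positivity)
    (by rw [q4]; have := P.hθ1; linarith) hx hρ (by
      rw [q4]
      have h1 : C0 * (8 * η ^ 2 / c / 2) ≤ C0 * θ := by
        apply mul_le_mul_of_nonneg_left _ hC0.le
        linarith
      have h2 : 0 < C0 * θ := by positivity
      linarith) (by
      refine P.a2.trans ?_
      unfold thr
      have hLa := La_pos hc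
      apply mul_le_mul_of_nonneg_left _ (by positivity)
      apply Real.exp_le_exp.2
      have : 0 ≤ La c * (2 * β ^ 2 + 2) := by positivity
      linarith)
  obtain ⟨hM, pW, eL, eR⟩ := glueG hT0.le hu hU pU mU
  rw [hui] at hM
  refine ⟨_, hM, ?_⟩
  have hsub : Ioi (0 : ℝ) = Ioc 0 T ∪ Ioi T := (Ioc_union_Ioi_eq_Ioi hT0.le).symm
  rw [hsub]
  refine (lintegral_union_le _ _ _).trans ?_
  have i1 : ∫⁻ t in Ioc 0 T, W0 (at' (gl T u U) t) ≤ ENNReal.ofReal (β + 1) := by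
    rw [setLIntegral_congr_fun measurableSet_Ioc (g := fun t => W0 (at' u t)) fun t ht => by
      show W0 (at' (gl T u U) t) = _
      rw [eL t ht.2]]
    refine hi.trans (ENNReal.ofReal_le_ofReal ?_)
    exact div_le_self (by positivity) hN1
  have i2 : ∫⁻ t in Ioi T, W0 (at' (gl T u U) t) ≤ ENNReal.ofReal (2 * η / c + Real.exp (La c * 2) * ρ / c) := by
    rw [setLIntegral_congr_fun measurableSet_Ioi (g := fun t => W0 (at' U (t - T))) fun t ht => by
      show W0 (at' (gl T u U) t) = _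
      rw [eR t (le_of_lt ht)], lint_shift (f := fun t => W0 (at' U t)) (meas_W0 hU.cf) T]
    exact (lintegral_mono fun t => W0_le_nP (hU.z t)).trans iU
  refine (add_le_add i1 i2).trans (le_of_eq ?_)
  have hexp := Real.exp_pos (La c * 2)
  rw [← ENNReal.ofReal_add (by positivity) (by positivity)]
  rfl

end

/-! ### Physical space -/

/-- `β` bounds the size of a global solution: `∑_k |û(t,k)| ≤ β` for all `t ≥ 0`, and
`∫_0^∞ ∑_k |û(t,k)| dt ≤ β`. -/
def SizeLE (β : ℝ) (u : ℝ → R3 → R3) : Prop :=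
  (∀ t, 0 ≤ t → wiener (u t) ≤ ENNReal.ofReal β) ∧ ∫⁻ t in Ioi (0 : ℝ), wiener (u t) ≤ ENNReal.ofReal β

section
variable {ν : ℝ}

lemma size_exists (hν : 0 < ν) {v : R3 → R3} {u : ℝ → R3 → R3} {p : ℝ → R3 → ℝ} (h : AdmissiblePeriodic ν v u p)
    (h0 : ∀ i, ∫ x in Icc (0 : R3) 1, v x i = 0) : ∃ β : ℝ, 0 ≤ β ∧ SizeLE β u := by
  obtain ⟨B, D, E, hB, hD, hE, hBi, hDi, hEi⟩ := good_facts hν h h0
  exact ⟨max B E, le_max_of_le_left hB, fun t ht => (hBi t ht).trans (ENNReal.ofReal_le_ofReal (le_max_left _ _)),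
    hEi.trans (ENNReal.ofReal_le_ofReal (le_max_right _ _))⟩

/-- scaled profile -/
noncomputable def scl (N : ℕ) (b : R3) (u : ℝ → R3 → R3) : ℝ → R3 → R3 :=
  fun t x => (N : ℝ) • u ((N : ℝ) ^ 2 * t) ((N : ℝ) • x + b)

lemma prof_of (hν : 0 < ν) {w : R3 → R3} {om : ℝ → R3 → R3} {q : ℝ → R3 → ℝ} (h : AdmissiblePeriodic ν w om q)
    (h0 : ∀ i, ∫ x in Icc (0 : R3) 1, w x i = 0) {β : ℝ} (hβ : 0 ≤ β) (hs : SizeLE β om) {N : ℕ} (hN : 1 ≤ N)
    (b : R3) : Prof (4 * Real.pi ^ 2 * ν) β N (UF (scl N b om)) := by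
  have hN0 : (0 : ℝ) < N := by exact_mod_cast hN
  have hN2 : (0 : ℝ) < (N : ℝ) ^ 2 := by positivity
  have hsc := scale h hN b
  have spw : ∀ t, 0 ≤ t → ∀ i, SP (fun x => om t x i) := fun t ht i => adm_sp h ht i
  have spw0 : ∀ i, SP (fun x => w x i) := fun i => by
    have := adm_sp h le_rfl i
    rwa [h.initial] at this
  have hm0 : ∀ i, ∫ x in Icc (0 : R3) 1, ((N : ℝ) • w ((N : ℝ) • x + b)) i = 0 := fun i =>
    mean_scale spw0 h0 hN b N i
  have hT : ∀ {t : ℝ}, 0 ≤ t → 0 ≤ (N : ℝ) ^ 2 * t := fun ht => by positivity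
  set f : ℝ → ℝ≥0∞ := fun t => wiener (om (max t 0)) with hf
  have hfm : Measurable f := wiener_meas h
  have hfe : ∀ t, 0 ≤ t → f t = wiener (om t) := fun t ht => by simp only [hf]; rw [max_eq_left ht]
  have hwn : ∀ t, 0 ≤ t → W0 (at' (UF (scl N b om)) t) = ENNReal.ofReal N * f ((N : ℝ) ^ 2 * t) := by
    intro t ht
    rw [← wiener_eq _ ht, hfe _ (hT ht)]
    have := wiener_scale (v := om ((N : ℝ) ^ 2 * t)) (spw _ (hT ht)) hN b (N : ℝ)
    rw [abs_of_pos hN0] at this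
    exact this
  have hfN : Measurable fun t => f ((N : ℝ) ^ 2 * t) := hfm.comp (measurable_const_mul _)
  refine ⟨gsol_of hν hsc hm0, fun t ht => ?_, ?_, fun t ht => ?_⟩
  · rw [hwn t ht, hfe _ (hT ht), mul_comm β, ENNReal.ofReal_mul hN0.le]
    exact mul_le_mul' le_rfl (hs.1 _ (hT ht))
  · rw [setLIntegral_congr_fun measurableSet_Ioi (g := fun t => ENNReal.ofReal N * f ((N : ℝ) ^ 2 * t))
      fun t ht => hwn t (le_of_lt ht), lintegral_const_mul _ hfN, lint_scale hN2 f, ← mul_assoc,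
      ← ENNReal.ofReal_mul hN0.le]
    have e2 : ∫⁻ t in Ioi (0 : ℝ), f t ≤ ENNReal.ofReal β := by
      refine le_trans (le_of_eq ?_) hs.2
      exact setLIntegral_congr_fun measurableSet_Ioi fun t ht => hfe t (le_of_lt ht)
    refine (mul_le_mul' le_rfl e2).trans (le_of_eq ?_)
    rw [← ENNReal.ofReal_mul (by positivity)]
    congr 1
    field_simp
  · intro k hk i
    have hinj := mulK_inj hN
    obtain ⟨j, hj⟩ := Function.ne_iff.1 hk
    have h1 : UF (scl N b om) k t j = Function.extend (mulK N)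
        (fun k => ((N : ℝ) : ℂ) * (fr (fun x => om ((N : ℝ) ^ 2 * t) x j) k * ee k b)) 0 k := by
      rw [UF_eq _ k ht]
      exact congrFun (fr_scale (spw _ (hT ht) j) hN b (N : ℝ)) k
    by_contra hcon
    apply hj
    show UF (scl N b om) k t j = 0
    rw [h1, Function.extend_apply']
    · rfl
    · rintro ⟨l, rfl⟩
      exact hcon ⟨l i, rfl⟩

lemma nice_fc {v : R3 → R3} (hv : ContDiff ℝ ∞ v) (hp : ∀ x j, v (x + Pi.single j 1) = v x)
    (h0 : ∀ i, ∫ x in Icc (0 : R3) 1, v x i = 0) : Nice (fc v) where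
  z := by
    funext i
    unfold NS.fc
    have e : ∀ x : R3, ((v x i : ℝ) : ℂ) * Complex.exp (-(2 * Real.pi * Complex.I *
        ∑ j, (((0 : Fin 3 → ℤ) j : ℤ) : ℂ) * (x j : ℂ))) = ((v x i : ℝ) : ℂ) := by
      intro x; simp
    simp only [e]
    rw [integral_complex_ofReal, h0 i]
    simp
  sym := fc_sym v
  pb := fun m => by
    have hsp := sp_of v hv hp
    have hr := fun i => H459R3.NS.rap_fr (hsp i)
    set S : ℕ → Fin 3 → ℝ := fun n i => ∑' k, (H459R3.NS.N k : ℝ) ^ n * ‖fr (fun x => v x i) k‖ with hS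
    have hS0 : ∀ n i, 0 ≤ S n i := fun n i => tsum_nonneg fun k => by positivity
    have hle : ∀ n i k, (H459R3.NS.N k : ℝ) ^ n * ‖fr (fun x => v x i) k‖ ≤ S n i := fun n i k =>
      (hr i n).le_tsum k fun _ _ => by positivity
    refine ⟨∑ i, 4 ^ m * (S 0 i + S m i), Finset.sum_nonneg fun i _ => by
      have := hS0 0 i; have := hS0 m i; positivity, fun k => ?_⟩
    calc pw k ^ m * ‖fc v k‖ ≤ pw k ^ m * ∑ i, ‖fc v k i‖ :=
          mul_le_mul_of_nonneg_left (norm_le_sum _) (pow_pos (pw_pos k) m).le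
      _ = ∑ i, pw k ^ m * ‖fc v k i‖ := by rw [Finset.mul_sum]
      _ ≤ _ := Finset.sum_le_sum fun i _ => by
          rw [fc_fr]
          have q0 := hle 0 i k
          have qm := hle m i k
          rw [pow_zero, one_mul] at q0
          calc pw k ^ m * ‖fr (fun x => v x i) k‖
              ≤ 4 ^ m * (1 + (H459R3.NS.N k : ℝ) ^ m) * ‖fr (fun x => v x i) k‖ :=
                mul_le_mul_of_nonneg_right (pw_le_N k m) (norm_nonneg _)
            _ = 4 ^ m * (‖fr (fun x => v x i) k‖ + (H459R3.NS.N k : ℝ) ^ m * ‖fr (fun x => v x i) k‖) := by ring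
            _ ≤ _ := by gcongr

/-- The chain of a finite family of profiles. -/
lemma chain_of (hν : 0 < ν) {β : ℝ} (hβ : 0 ≤ β) {R : ℕ} (hR : 1 ≤ R) : ∀ (n : ℕ) (N : Fin n → ℕ)
    (w : Fin n → R3 → R3) (om : Fin n → ℝ → R3 → R3) (q : Fin n → ℝ → R3 → ℝ) (b : Fin n → R3),
    (∀ j, 1 ≤ N j) → (∀ i j : Fin n, (i : ℕ) + 1 = j → N i ∣ N j ∧ R * N i ≤ N j) →
    (∀ j, AdmissiblePeriodic ν (w j) (om j) (q j)) → (∀ j i, ∫ x in Icc (0 : R3) 1, w j x i = 0) →
    (∀ j, SizeLE β (om j)) → ∃ N0 : ℕ, (∀ j : Fin n, (j : ℕ) = 0 → N j = N0) ∧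
      Chain (4 * Real.pi ^ 2 * ν) β R N0 (∑ j, at' (UF (scl (N j) (b j) (om j))) 0) := by
  intro n
  induction n with
  | zero =>
    intro N w om q b _ _ _ _ _
    refine ⟨1, fun j => j.elim0, ?_⟩
    rw [Finset.univ_eq_empty, Finset.sum_empty]
    exact Chain.nil le_rfl
  | succ n ih =>
    intro N w om q b h1 h2 h3 h4 h5
    obtain ⟨N1, e1, c1⟩ := ih (fun j => N j.succ) (fun j => w j.succ) (fun j => om j.succ) (fun j => q j.succ)
      (fun j => b j.succ) (fun j => h1 _) (fun i j hij => h2 i.succ j.succ (by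
        rw [Fin.val_succ, Fin.val_succ]; omega)) (fun j => h3 _) (fun j => h4 _) fun j => h5 _
    refine ⟨N 0, fun j hj => by congr 1; exact Fin.ext hj, ?_⟩
    rw [Fin.sum_univ_succ]
    have hp := prof_of hν (h3 0) (h4 0) hβ (h5 0) (h1 0) (b 0)
    rcases Nat.eq_zero_or_pos n with hn | hn
    · subst hn
      have hz : (∑ j : Fin 0, at' (UF (scl (N j.succ) (b j.succ) (om j.succ))) 0) = 0 := by
        rw [Finset.univ_eq_empty, Finset.sum_empty]
      rw [hz]
      refine Chain.cons (h1 0) (Dvd.intro_left R rfl) (M := R * N 0) ?_ hp (Chain.nil ?_)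
      · push_cast; exact le_rfl
      · exact Nat.one_le_iff_ne_zero.2 (by
          have := h1 0
          have : 0 < R * N 0 := Nat.mul_pos (by omega) (by omega)
          omega)
    · have hN1 : N (Fin.succ ⟨0, hn⟩) = N1 := e1 ⟨0, hn⟩ rfl
      have h6 := h2 0 (Fin.succ ⟨0, hn⟩) (by simp)
      rw [hN1] at h6
      refine Chain.cons (h1 0) h6.1 ?_ hp c1
      exact_mod_cast h6.2

/-- Uniform superposition of lacunary scales. -/
theorem uniform (hν : 0 < ν) {β : ℝ} (hβ : 0 ≤ β) : ∃ (R : ℕ) (δ B : ℝ), 0 < δ ∧ ∀ (n : ℕ) (N : Fin n → ℕ)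
    (w : Fin n → R3 → R3) (om : Fin n → ℝ → R3 → R3) (q : Fin n → ℝ → R3 → ℝ) (b : Fin n → R3) (v : R3 → R3),
    (∀ j, 1 ≤ N j) → (∀ i j : Fin n, (i : ℕ) + 1 = j → N i ∣ N j ∧ R * N i ≤ N j) →
    (∀ j, AdmissiblePeriodic ν (w j) (om j) (q j)) → (∀ j i, ∫ x in Icc (0 : R3) 1, w j x i = 0) →
    (∀ j, SizeLE β (om j)) → ContDiff ℝ ∞ v → (∀ x j, v (x + Pi.single j 1) = v x) →
    (∀ x, ∑ i, pd i (fun y => v y i) x = 0) → (∀ i, ∫ x in Icc (0 : R3) 1, v x i = 0) →
    wiener v ≤ ENNReal.ofReal δ →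
    ∃ U P, AdmissiblePeriodic ν (fun x => v x + ∑ j, (N j : ℝ) • w j ((N j : ℝ) • x + b j)) U P ∧
      ∫⁻ t in Ioi (0 : ℝ), wiener (U t) ≤ ENNReal.ofReal B := by
  have hpi := Real.pi_pos
  have hc : 0 < 4 * Real.pi ^ 2 * ν := by positivity
  obtain ⟨L, θ, ρ, η, δ, R0, hP⟩ := exists_par hc hβ
  obtain ⟨R, hR⟩ := exists_nat_ge (max R0 1)
  have P := hP R ((le_max_left _ _).trans hR)
  have hR1 : 1 ≤ R := by exact_mod_cast (le_max_right R0 1).trans hR
  have hη := P.hη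
  have hδ := P.hδ
  have hK := pK_pos (4 * Real.pi ^ 2 * ν) β
  refine ⟨R, min δ (η / (2 * pK (4 * Real.pi ^ 2 * ν) β)), bB (4 * Real.pi ^ 2 * ν) β ρ η,
    lt_min hδ (by positivity), fun n N w om q b v h1 h2 h3 h4 h5 hv hvp hvd hv0 hvW => ?_⟩
  obtain ⟨N0, -, hch⟩ := chain_of hν hβ hR1 n N w om q b h1 h2 h3 h4 h5
  have hC := nice_fc hv hvp hv0
  have hW : W0 (fc v) = wiener v := rfl
  obtain ⟨z, hz, hzi⟩ := hch.glob P hC (by rw [hW]; exact hvW)
  set V : K → C3 := (∑ j, at' (UF (scl (N j) (b j) (om j))) 0) + fc v with hV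
  have spv : ∀ i, SP (fun x => v x i) := sp_of v hv hvp
  have adm : ∀ j, AdmissiblePeriodic ν (fun x => (N j : ℝ) • w j ((N j : ℝ) • x + b j)) (scl (N j) (b j) (om j))
      (fun t x => (N j : ℝ) ^ 2 * q j ((N j : ℝ) ^ 2 * t) ((N j : ℝ) • x + b j)) := fun j => scale (h3 j) (h1 j) (b j)
  have e1 : ∀ j k i, at' (UF (scl (N j) (b j) (om j))) 0 k i
      = fr (fun x => ((N j : ℝ) • w j ((N j : ℝ) • x + b j)) i) k := by
    intro j k i
    show UF (scl (N j) (b j) (om j)) k 0 i = _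
    rw [UF_eq _ k le_rfl i, (adm j).initial]
  have spw : ∀ j i, SP (fun x => ((N j : ℝ) • w j ((N j : ℝ) • x + b j)) i) := fun j i => by
    have := adm_sp (adm j) le_rfl i
    rwa [(adm j).initial] at this
  have dw : ∀ j x, ∑ i, H459R3.NS.pd i (fun y => ((N j : ℝ) • w j ((N j : ℝ) • y + b j)) i) x = 0 := by
    intro j x
    have := (adm j).divFree 0 le_rfl x
    rwa [(adm j).initial] at this
  have hVk : ∀ k i, V k i = (∑ j, fr (fun x => ((N j : ℝ) • w j ((N j : ℝ) • x + b j)) i) k)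
      + fr (fun x => v x i) k := by
    intro k i
    rw [hV, Pi.add_apply, Pi.add_apply, Finset.sum_apply, Finset.sum_apply, fc_fr]
    simp only [e1]
  have hdt : ∀ k, dt k (V k) = 0 := by
    intro k
    unfold dt
    simp only [hVk, mul_add, Finset.mul_sum]
    rw [Finset.sum_add_distrib, Finset.sum_comm]
    have d1 : ∀ j, ∑ i, (k i : ℂ) * fr (fun x => ((N j : ℝ) • w j ((N j : ℝ) • x + b j)) i) k = 0 := fun j =>
      fr_divfree (spw j) (dw j) k
    simp only [d1, Finset.sum_const_zero, zero_add]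
    exact fr_divfree spv hvd k
  have hphys := hz.physical hdt (0 : E3)
  have hdata : (fun (x : R3) i => (0 : E3) i + (∑' k, V k i * ex k x).re)
      = fun x => v x + ∑ j, (N j : ℝ) • w j ((N j : ℝ) • x + b j) := by
    funext x i
    simp only [Pi.zero_apply, zero_add, hVk, add_mul, Finset.sum_mul]
    have s1 : Summable fun k => fr (fun x => v x i) k * ex k x := by
      simp only [ex_eq_ee]
      exact H459R3.NS.summable_term (H459R3.NS.rap_fr (spv i)).summable x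
    have s2 : ∀ j, Summable fun k => fr (fun x => ((N j : ℝ) • w j ((N j : ℝ) • x + b j)) i) k * ex k x := by
      intro j
      simp only [ex_eq_ee]
      exact H459R3.NS.summable_term (H459R3.NS.rap_fr (spw j i)).summable x
    rw [(summable_sum fun j _ => s2 j).tsum_add s1, inv_real (spv i), Summable.tsum_finsetSum fun j _ => s2 j]
    have s3 : ∀ j, ∑' k, fr (fun x => ((N j : ℝ) • w j ((N j : ℝ) • x + b j)) i) k * ex k x
        = ((((N j : ℝ) • w j ((N j : ℝ) • x + b j)) i : ℝ) : ℂ) := fun j => inv_real (spw j i) x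
    simp only [s3]
    rw [← Complex.ofReal_sum, ← Complex.ofReal_add, Complex.ofReal_re, Pi.add_apply, Finset.sum_apply, add_comm]
  rw [hdata] at hphys
  refine ⟨_, _, hphys, le_trans (le_of_eq ?_) hzi⟩
  refine setLIntegral_congr_fun measurableSet_Ioi fun t ht => ?_
  have ht0 : 0 ≤ t := le_of_lt ht
  show wiener _ = _
  unfold wiener W0
  have e2 : fc ((fun (t : ℝ) (x : R3) i => (0 : E3) i + (GS 0 (cf' z i) t x).re) t) = at' z t := fc_phys hz ht0
  rw [e2]

end

end Pool.Agent.H356R3.NS.H1SS
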