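import Pool.Agent.H1SS.HInd

open MeasureTheory Set Filter Topology
open scoped ENNReal NNReal ContDiff

namespace Pool.Agent.H356R3.NS.H1SS

lemma lint_Ioi_le {f : ℝ → ℝ≥0∞} {B : ℝ≥0∞} (h : ∀ n : ℕ, ∫⁻ t in Ioc 0 (n : ℝ), f t ≤ B) :
    ∫⁻ t in Ioi 0, f t ≤ B := by
  have hU : Ioi (0 : ℝ) = ⋃ n : ℕ, Ioc 0 (n : ℝ) := by
    ext t
    simp only [mem_Ioi, mem_iUnion, mem_Ioc]
    constructor
    · intro ht
      obtain ⟨n, hn⟩ := exists_nat_ge t
      exact ⟨n, ht, hn⟩
    · rintro ⟨n, hn, _⟩; exact hn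
  rw [hU, setLIntegral_iUnion_of_directed]
  · exact iSup_le h
  · exact Monotone.directed_le fun m n hmn => Ioc_subset_Ioc_right (by exact_mod_cast hmn)

/-- polynomial weights -/
noncomputable def nm (m : ℕ) (x : K → C3) : ℝ≥0∞ := NW (fun k => ENNReal.ofReal (pw k ^ m)) x

lemma nm_fin (m : ℕ) {V : K → C3} (hV : Nice V) : nm m V ≠ ⊤ := by
  obtain ⟨M, hM, hb⟩ := hV.pb (m + 4)
  have ha0 : ∀ k : K, 0 ≤ pw k ^ m := fun k => (pow_pos (pw_pos k) m).le
  have h1 : ∀ k : K, pw k ^ m ≤ 1 * pw k ^ m := fun k => by rw [one_mul]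
  unfold nm
  rw [NW_ofReal ha0 (summ_sum (n := m) ha0 zero_le_one h1 hb)]
  exact ENNReal.ofReal_ne_top

lemma pw_mul (k l : K) : pw k ≤ pw l * pw (k - l) := by
  have h1 := l1_add l (k - l)
  rw [add_sub_cancel] at h1
  have h2 := l1_nonneg l
  have h3 := l1_nonneg (k - l)
  unfold pw
  nlinarith [mul_nonneg h2 h3]

lemma n5_Bf (x y : K → C3) : n5 (Bf x y) ≤ ENNReal.ofReal C0 * (nm 6 x * nm 6 y) := by
  have hC := C0_pos
  unfold n5 nm NW
  rw [← conv_tsum, ← ENNReal.tsum_mul_left]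
  refine ENNReal.tsum_le_tsum fun k => ?_
  have hp := pw_pos k
  have hn := nk_nonneg k
  calc ENNReal.ofReal (pw k ^ 5) * ‖Bf x y k‖ₑ
      ≤ ENNReal.ofReal (pw k ^ 5) * (ENNReal.ofReal (C0 * nk k) * ∑' l, ‖x l‖ₑ * ‖y (k - l)‖ₑ) :=
        mul_le_mul' le_rfl (enorm_Bf_le x y k)
    _ = ENNReal.ofReal C0 * (ENNReal.ofReal (pw k ^ 5 * nk k) * ∑' l, ‖x l‖ₑ * ‖y (k - l)‖ₑ) := by
        rw [← mul_assoc, ← mul_assoc, ← ENNReal.ofReal_mul (by positivity), ← ENNReal.ofReal_mul hC.le]
        congr 2; ring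
    _ ≤ _ := by
        apply mul_le_mul' le_rfl
        rw [← ENNReal.tsum_mul_left]
        refine ENNReal.tsum_le_tsum fun l => ?_
        have hl := pw_pos l
        have hkl := pw_pos (k - l)
        calc ENNReal.ofReal (pw k ^ 5 * nk k) * (‖x l‖ₑ * ‖y (k - l)‖ₑ)
            ≤ (ENNReal.ofReal (pw l ^ 6) * ENNReal.ofReal (pw (k - l) ^ 6)) * (‖x l‖ₑ * ‖y (k - l)‖ₑ) := by
              apply mul_le_mul' _ le_rfl
              rw [← ENNReal.ofReal_mul (by positivity)]
              apply ENNReal.ofReal_le_ofReal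
              calc pw k ^ 5 * nk k ≤ pw k ^ 5 * pw k := by
                    have := nk_le_pw k
                    gcongr
                _ = pw k ^ 6 := by ring
                _ ≤ (pw l * pw (k - l)) ^ 6 := pow_le_pow_left₀ hp.le (pw_mul k l) 6
                _ = _ := mul_pow _ _ _
          _ = _ := by ring

section
variable {c : ℝ}

lemma heat_nm (hc : 0 < c) (m : ℕ) {V : K → C3} (hV : V 0 = 0) {T : ℝ} (hT : 0 ≤ T) :
    ∫⁻ t in Ioc 0 T, nm m (at' (Ht c V) t) ≤ ENNReal.ofReal (1 / c) * nm m V := by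
  have h := heat_ene hc.le (fun k => ENNReal.ofReal (pw k ^ m)) V hT
  have h2 := le_add_self.trans h
  have hm : Measurable fun t => nm m (at' (Ht c V) t) := NW_meas _ (Ht_cf c V)
  apply cancel_c hc
  refine le_trans ?_ h2
  rw [← lintegral_const_mul _ hm]
  refine lintegral_mono fun t => ?_
  unfold nm NW
  rw [← ENNReal.tsum_mul_left]
  refine ENNReal.tsum_le_tsum fun k => ?_
  by_cases hk : k = 0
  · subst hk
    have : at' (Ht c V) t 0 = 0 := by unfold at' Ht; rw [hV, smul_zero]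
    rw [this]; simp
  have h1 := one_le_sq hk
  calc ENNReal.ofReal c * (ENNReal.ofReal (pw k ^ m) * ‖at' (Ht c V) t k‖ₑ)
      = ENNReal.ofReal (pw k ^ m) * ENNReal.ofReal c * ‖at' (Ht c V) t k‖ₑ := by ring
    _ ≤ _ := by
        apply mul_le_mul' _ le_rfl
        apply mul_le_mul' le_rfl
        apply ENNReal.ofReal_le_ofReal
        nlinarith

lemma W0_le_nP {x : K → C3} (h0 : x 0 = 0) : W0 x ≤ nP x := by
  unfold W0 nP NW
  refine ENNReal.tsum_le_tsum fun k => ?_
  by_cases hk : k = 0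
  · subst hk; rw [h0]; simp
  calc ‖x k‖ₑ = 1 * ‖x k‖ₑ := (one_mul _).symm
    _ ≤ _ := by
        apply mul_le_mul' _ le_rfl
        rw [← ENNReal.ofReal_one]
        exact ENNReal.ofReal_le_ofReal (one_le_nk hk)

/-- Global solutions for small data. -/
theorem small_global (hc : 0 < c) {h : K → C3} (hh : Nice h) {x : ℝ} (hx : 0 < x) (hx1 : x ^ 2 / c ≤ 1)
    (hN : N1 h ≤ ENNReal.ofReal x) {ρ : ℝ} (hρ : 0 < ρ) (h2 : C0 * (x ^ 2 / c) ≤ ρ / 4) (h3 : ρ ≤ thr c 2) :
    ∃ U, MSol c h U ∧ (∀ m, PB m U) ∧ (∀ k t, U k (max t 0) = U k t) ∧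
      ∫⁻ t in Ioi 0, nP (at' U t) ≤ ENNReal.ofReal (x / c + Real.exp (La c * 2) * ρ / c) := by
  have hC := C0_pos
  set H := Ht c h with hH
  have cH : CF H := Ht_cf c h
  have pH : ∀ m, PB m H := fun m => Ht_pb hc.le hh m
  have sH : SymF H := Ht_sym hh
  have zH : ∀ t, H 0 t = 0 := fun t => Ht_z hh t
  have mW := meas_W0 cH
  have iW : ∫⁻ t in Ioi 0, W0 (at' H t) ^ 2 ≤ ENNReal.ofReal (x ^ 2 / c) := by
    refine lint_Ioi_le fun n => (heat_W0sq hc hh.z (Nat.cast_nonneg n)).trans ?_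
    refine (mul_le_mul' le_rfl (pow_le_pow_left₀ zero_le hN 2)).trans (le_of_eq ?_)
    rw [← ENNReal.ofReal_pow hx.le, ← ENNReal.ofReal_mul (by positivity)]
    congr 1; ring
  have inm : ∀ m, ∫⁻ t in Ioi 0, nm m (at' H t) ^ 2 ≠ ⊤ := by
    intro m
    have hm : Measurable fun t => nm m (at' H t) := NW_meas _ cH
    have hle : ∫⁻ t in Ioi 0, nm m (at' H t) ^ 2 ≤ nm m h * (ENNReal.ofReal (1 / c) * nm m h) := by
      refine lint_Ioi_le fun n => ?_
      calc _ ≤ ∫⁻ t in Ioc 0 (n : ℝ), nm m h * nm m (at' H t) := by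
            refine setLIntegral_mono' measurableSet_Ioc fun t ht => ?_
            rw [pow_two]
            exact mul_le_mul' (heat_le hc.le _ h ht.1.le) le_rfl
        _ = nm m h * ∫⁻ t in Ioc 0 (n : ℝ), nm m (at' H t) := lintegral_const_mul _ hm
        _ ≤ _ := mul_le_mul' le_rfl (heat_nm hc m hh.z (Nat.cast_nonneg n))
    have := nm_fin m hh
    exact ne_top_of_le_ne_top (ENNReal.mul_ne_top this (ENNReal.mul_ne_top ENNReal.ofReal_ne_top this)) hle
  have cB : CF (Bt H) := Bt_cont cH (dom_of_pb (pH 4))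
  obtain ⟨r, rc, rz, rm, rs, rpb, rf, -, rP⟩ := exX hc (a := H) (FE := Bt H) cH pH sH cB (Bt_sym sH)
    (fun t => by simp [Bt, Bf_zero]) (D := 1) (ρ := ρ) zero_le_one hρ
    (iW.trans (ENNReal.ofReal_le_ofReal hx1)) (inm 5) (by
      calc _ ≤ ∫⁻ t in Ioi 0, ENNReal.ofReal C0 * W0 (at' H t) ^ 2 := by
            refine lintegral_mono fun t => ?_
            rw [pow_two]; exact N1_Bf _ _
        _ = ENNReal.ofReal C0 * ∫⁻ t in Ioi 0, W0 (at' H t) ^ 2 := lintegral_const_mul _ (mW.pow_const 2)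
        _ ≤ ENNReal.ofReal C0 * ENNReal.ofReal (x ^ 2 / c) := mul_le_mul' le_rfl iW
        _ ≤ _ := by
            rw [← ENNReal.ofReal_mul hC.le]
            exact ENNReal.ofReal_le_ofReal h2) (by
      have hm : Measurable fun t => nm 6 (at' H t) := NW_meas _ cH
      have hle : ∫⁻ t in Ioi 0, n5 (at' (Bt H) t) ≤ ENNReal.ofReal C0 * ∫⁻ t in Ioi 0, nm 6 (at' H t) ^ 2 := by
        rw [← lintegral_const_mul _ (hm.pow_const 2)]
        refine lintegral_mono fun t => ?_
        rw [pow_two]; exact n5_Bf _ _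
      exact ne_top_of_le_ne_top (ENNReal.mul_ne_top ENNReal.ofReal_ne_top (inm 6)) hle) (by
      rw [show (1 : ℝ) + 1 = 2 by norm_num]; exact h3)
  rw [show (1 : ℝ) + 1 = 2 by norm_num] at rP
  set U : Fam := H + r with hU
  have cU : CF U := fun k => (cH k).add (rc k)
  have zU : ∀ t, U 0 t = 0 := fun t => by
    show H 0 t + r 0 t = 0
    rw [zH, rz, add_zero]
  have sU : SymF U := SymF_add sH rs
  have p4 : PB 4 U := PB_add (pH 4) rpb
  have hr : r = Duh c (Bt U) := by
    have e : Bt H + (Bt (H + r) - Bt H) = Bt U := by rw [hU]; abel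
    rw [e] at rf
    exact rf
  have heq : ∀ k t, U k t = Real.exp (-(c * sq k * max t 0)) • h k + Duh c (Bt U) k t := by
    intro k t
    rw [← hr]; rfl
  have pU : ∀ m, PB m U := boot hc zU (fun m => hh.pb m) heq p4
  refine ⟨U, ⟨cU, zU, sU, rd_of_pb pU, heq⟩, pU, fun k t => ?_, ?_⟩
  · show H k (max t 0) + r k (max t 0) = H k t + r k t
    rw [rm]
    congr 1
    rw [hH]
    unfold Ht; simp
  · have mH : Measurable fun t => nP (at' H t) := NW_meas _ cH
    calc _ ≤ ∫⁻ t in Ioi 0, (nP (at' H t) + nP (at' r t)) := lintegral_mono fun t => nP_add _ _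
      _ = (∫⁻ t in Ioi 0, nP (at' H t)) + ∫⁻ t in Ioi 0, nP (at' r t) := lintegral_add_left mH _
      _ ≤ ENNReal.ofReal (1 / c) * ENNReal.ofReal x + ENNReal.ofReal (Real.exp (La c * 2) * ρ / c) := by
          refine add_le_add (lint_Ioi_le fun n => ?_) rP
          exact (heat_nP hc h (Nat.cast_nonneg n)).trans (mul_le_mul' le_rfl hN)
      _ = _ := by
          rw [← ENNReal.ofReal_mul (by positivity), ← ENNReal.ofReal_add (by positivity) (by positivity)]
          congr 1; ring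

lemma MSol.hsol' {V : K → C3} {U : Fam} (h : MSol c V U) (p : ∀ m, PB m U) {S : ℝ} (hS : 0 ≤ S) :
    HSol c S (rs S U) where
  cf := fun k => (h.cf k).comp (clp_cont S)
  z := fun t => h.z _
  sym := fun t => h.sym _
  cl := fun k t => by unfold rs; rw [clp_cl hS]
  pb := fun m => pb_comp (p m) _
  eq := fun k t ht0 ht1 => by
    have e : ∀ s, 0 ≤ s → s ≤ S → rs S U k s = U k s := fun s a b => by unfold rs; rw [clp_id a b]
    have cB : CF (Bt U) := Bt_cont h.cf h.dom
    have h1 := h.cf k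
    have h2 := cB k
    have hc : Continuous fun s => -(c * sq k) • U k s + Bt U k s := by fun_prop
    rw [e t ht0 ht1, e 0 le_rfl hS, int_of_deriv (T := S) (h.cf k) hc (fun t h0 hS' => by
      refine hasDeriv_of_mild (T := S) cB (v := V k) (fun t t0 _ => ?_) h0 hS'
      rw [h.eq k t, max_eq_left t0]) ht0 ht1]
    congr 1
    refine intervalIntegral.integral_congr fun s hs => ?_
    rw [uIcc_of_le ht0] at hs
    have e2 : clp S s = s := clp_id hs.1 (hs.2.trans ht1)
    show _ = -(c * sq k) • U k (clp S s) + Bt U k (clp S s)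
    rw [e2]

/-- Gluing a solution on a finite interval and a global one. -/
theorem glueG {T : ℝ} (hT : 0 ≤ T) {u U : Fam} (hu : HSol c T u) (hU : MSol c (at' u T) U) (pU : ∀ m, PB m U)
    (mU : ∀ k t, U k (max t 0) = U k t) : MSol c (at' u 0) (gl T u U) ∧ (∀ m, PB m (gl T u U)) ∧
      (∀ t, t ≤ T → at' (gl T u U) t = at' u t) ∧ (∀ t, T ≤ t → at' (gl T u U) t = at' U (t - T)) := by
  have hU0 : ∀ k, U k 0 = u k T := by
    intro k
    rw [hU.eq k 0, Duh_at_zero]
    simp [at']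
  have eL : ∀ k t, t ≤ T → gl T u U k t = u k t := by
    intro k t ht
    unfold gl
    rw [← mU k (t - T), max_eq_right (by linarith), hU0]
    abel
  have eR : ∀ k t, T ≤ t → gl T u U k t = U k (t - T) := by
    intro k t ht
    unfold gl
    rw [← hu.cl k t, clp_big hT ht]
    abel
  -- comparison with solutions on finite intervals
  have hS : ∀ S, 0 ≤ S → HSol c (T + S) (gl T u (rs S U)) ∧ ∀ t, t ≤ T + S → at' (gl T u (rs S U)) t = at' (gl T u U) t := by
    intro S hS
    refine ⟨hu.glue (hU.hsol' pU hS) hT hS fun k => ?_, fun t ht => ?_⟩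
    · unfold rs
      rw [clp_id le_rfl hS, hU0]
    · funext k
      show u k t + U k (clp S (t - T)) - u k T = u k t + U k (t - T) - u k T
      have : U k (clp S (t - T)) = U k (t - T) := by
        rw [← mU k (t - T)]
        unfold clp
        rw [min_eq_left (by linarith), max_comm]
      rw [this]
  have cW : CF (gl T u U) := fun k => ((hu.cf k).add ((hU.cf k).comp (by fun_prop))).sub continuous_const
  have pW : ∀ m, PB m (gl T u U) := by
    intro m
    obtain ⟨M, hM, hb⟩ := hu.pb m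
    obtain ⟨M', hM', hb'⟩ := pU m
    refine ⟨M + M', by positivity, fun k t => ?_⟩
    rcases le_total t T with h | h
    · rw [eL k t h]
      have := hb k t
      linarith
    · rw [eR k t h]
      have := hb' k (t - T)
      linarith
  refine ⟨⟨cW, fun t => ?_, fun t => ?_, rd_of_pb pW, fun k t => ?_⟩, pW, fun t ht => funext fun k => eL k t ht,
    fun t ht => funext fun k => eR k t ht⟩
  · unfold gl; simp [hu.z, hU.z]
  · rcases le_total t T with h | h
    · have : at' (gl T u U) t = at' u t := funext fun k => eL k t h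
      rw [this]; exact hu.sym t
    · have : at' (gl T u U) t = at' U (t - T) := funext fun k => eR k t h
      rw [this]; exact hU.sym _
  · rcases le_total t 0 with ht | ht
    · rw [max_eq_right ht, mul_zero, neg_zero, Real.exp_zero, one_smul, ← Duh_max, max_eq_right ht, Duh_at_zero,
        add_zero, eL k t (ht.trans hT)]
      show u k t = u k 0
      rw [← hu.cl k t, clp_neg hT ht]
    · obtain ⟨h1, h2⟩ := hS t ht
      have h3 := h1.mild k ht (by linarith)
      have e1 : gl T u (rs t U) k t = gl T u U k t := congrFun (h2 t (by linarith)) k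
      have e2 : gl T u (rs t U) k 0 = u k 0 := by
        have := congrFun (h2 0 (by linarith)) k
        exact this.trans (eL k 0 hT)
      rw [e1, e2] at h3
      rw [h3, max_eq_left ht]
      congr 1
      refine Duh_congr ht fun s s0 s1 => ?_
      show Bf (at' (gl T u (rs t U)) s) (at' (gl T u (rs t U)) s) k = Bf (at' (gl T u U) s) (at' (gl T u U) s) k
      rw [h2 s (by linarith)]

lemma lint_shift {f : ℝ → ℝ≥0∞} (hf : Measurable f) (T : ℝ) :
    ∫⁻ t in Ioi T, f (t - T) = ∫⁻ t in Ioi 0, f t := by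
  have h3 := (measurePreserving_sub_right volume T).setLIntegral_comp_preimage (s := Ioi 0)
    measurableSet_Ioi hf
  rw [← h3]
  congr 2
  ext t; simp

end

end Pool.Agent.H356R3.NS.H1SS
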