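import Pool.Agent.H1SS.HEne

open MeasureTheory Set Filter Topology
open scoped ENNReal NNReal ContDiff

namespace Pool.Agent.H356R3.NS.H1SS

lemma PB_neg {m : ℕ} {u : Fam} (hu : PB m u) : PB m (-u) := by
  obtain ⟨M, hM, q⟩ := hu
  exact ⟨M, hM, fun k t => by simpa using q k t⟩

lemma PB_sub {m : ℕ} {u v : Fam} (hu : PB m u) (hv : PB m v) : PB m (u - v) := by
  rw [sub_eq_add_neg]; exact PB_add hu (PB_neg hv)

/-- bounds for weighted sums -/
lemma nw_bdd {a : K → ℝ} {C : ℝ} {n : ℕ} (ha0 : ∀ k, 0 ≤ a k) (hC : 0 ≤ C) (ha : ∀ k, a k ≤ C * pw k ^ n)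
    {u : Fam} (h : ∀ m, PB m u) : ∃ B : ℝ, 0 ≤ B ∧ ∀ t, NW (fun k => ENNReal.ofReal (a k)) (at' u t) ≤ ENNReal.ofReal B := by
  obtain ⟨M, hM, hb⟩ := h (n + 4)
  refine ⟨C * M * S4, by have := S4_nonneg; positivity, fun t => ?_⟩
  rw [NW_ofReal ha0 (summ_sum ha0 hC ha (x := at' u t) fun k => hb k t)]
  exact ENNReal.ofReal_le_ofReal (sum_le ha0 hC ha (x := at' u t) fun k => hb k t)

lemma nk_le_pw1 (k : K) : nk k ≤ 1 * pw k ^ 1 := by rw [one_mul, pow_one]; exact nk_le_pw k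
lemma sq_le_pw2 (k : K) : sq k ≤ 1 * pw k ^ 2 := by
  rw [one_mul, ← nk_sq]
  exact pow_le_pow_left₀ (nk_nonneg k) (nk_le_pw k) 2

lemma csq_le_pw2 {c : ℝ} (hc : 0 ≤ c) (k : K) : c * sq k ≤ c * pw k ^ 2 := by
  have := sq_le_pw2 k
  rw [one_mul] at this
  gcongr

/-- real version of the norm with weight `|k|` -/
noncomputable def rP (u : Fam) (t : ℝ) : ℝ := ∑' k, nk k * ‖u k t‖

section
variable {u v : Fam}

lemma rP_cont (hu : CF u) (h : ∀ m, PB m u) : Continuous (rP u) :=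
  cont_sum hu (loc_of_pb h) nk_nonneg zero_le_one nk_le_pw1

lemma rP_nonneg (u : Fam) (t : ℝ) : 0 ≤ rP u t := tsum_nonneg fun k => mul_nonneg (nk_nonneg k) (norm_nonneg _)

lemma nP_rP (h : ∀ m, PB m u) (t : ℝ) : nP (at' u t) = ENNReal.ofReal (rP u t) := by
  obtain ⟨M, _, hb⟩ := h 5
  exact NW_ofReal nk_nonneg (x := at' u t) (summ_sum (n := 1) nk_nonneg zero_le_one nk_le_pw1 (x := at' u t)
    fun k => hb k t)

/-- the growth rate -/
noncomputable def gf (c : ℝ) (u : Fam) (t : ℝ) : ℝ := C0 ^ 2 / (2 * c) * r0 u t ^ 2 + C0 * rP u t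

lemma gf_cont {c : ℝ} (hu : CF u) (h : ∀ m, PB m u) : Continuous (gf c u) := by
  have h1 := r0_cont hu h
  have h2 := rP_cont hu h
  unfold gf; fun_prop

lemma gf_nonneg {c : ℝ} (hc : 0 < c) (u : Fam) (t : ℝ) : 0 ≤ gf c u t := by
  have h1 := r0_nonneg u t
  have h2 := rP_nonneg u t
  have h3 := C0_pos
  unfold gf; positivity

end

section
variable {c T : ℝ} {u v : Fam}

lemma HSol.diff (hu : HSol c T u) (hv : HSol c T v) (k : K) {t : ℝ} (h0 : 0 ≤ t) (h1 : t ≤ T) :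
    (u - v) k t = Real.exp (-(c * sq k * t)) • (u k 0 - v k 0) + Duh c (Bt u - Bt v) k t := by
  rw [Duh_sub hu.btc hv.btc]
  show u k t - v k t = _ + (Duh c (Bt u) k t - Duh c (Bt v) k t)
  rw [hu.mild k h0 h1, hv.mild k h0 h1, smul_sub]
  abel

lemma at'_sub (u v : Fam) (t : ℝ) : at' (u - v) t = at' u t - at' v t := rfl

lemma bt_diff (hu : Dom u) (hv : Dom v) (t : ℝ) : at' (Bt u - Bt v) t
    = Bf (at' (u - v) t) (at' u t) + Bf (at' v t) (at' (u - v) t) := by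
  rw [at'_sub (u := u)]
  exact Bf_diff (hu.sn t) (hv.sn t)

lemma W0_add (x y : K → C3) : W0 (x + y) ≤ W0 x + W0 y := by
  simp only [W0_eq]; exact NW_add_le _ _ _

lemma W0_sub (x y : K → C3) : W0 (x - y) ≤ W0 x + W0 y := by
  simp only [W0_eq]; exact NW_sub_le _ _ _

lemma W0_btdiff (hu : Dom u) (hv : Dom v) (t : ℝ) : W0 (at' (Bt u - Bt v) t) ≤
    ENNReal.ofReal C0 * (nP (at' (u - v) t) * (W0 (at' u t) + W0 (at' v t)))
      + ENNReal.ofReal C0 * (nP (at' u t) + nP (at' v t)) * W0 (at' (u - v) t) := by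
  rw [bt_diff hu hv]
  refine (W0_add _ _).trans ((add_le_add (W0_Bf _ _) (W0_Bf _ _)).trans (le_of_eq ?_))
  ring

lemma N1_btdiff (hu : Dom u) (hv : Dom v) (t : ℝ) : N1 (at' (Bt u - Bt v) t) ≤
    ENNReal.ofReal C0 * (W0 (at' (u - v) t) * (W0 (at' u t) + W0 (at' v t))) := by
  rw [bt_diff hu hv]
  refine (NW_add_le _ _ _).trans ((add_le_add (N1_Bf _ _) (N1_Bf _ _)).trans (le_of_eq ?_))
  ring

/-- Gronwall estimate in the `ℓ¹` norm. -/
lemma gron0 (hc : 0 < c) (hT : 0 ≤ T) (hu : HSol c T u) (hv : HSol c T v) {Λ : ℝ}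
    (hΛ : ∫ s in (0 : ℝ)..T, (gf c u s + gf c v s) ≤ Λ) :
    W0 (at' (u - v) T) ≤ ENNReal.ofReal (Real.exp Λ) * W0 (at' (u - v) 0) := by
  have hC := C0_pos
  have cg : Continuous fun s => gf c u s + gf c v s := (gf_cont hu.cf hu.pb).add (gf_cont hv.cf hv.pb)
  set g' : ℝ → ℝ := fun s => gf c u s + gf c v s with hg'
  set g : ℝ → ℝ := fun t => ∫ s in (0 : ℝ)..t, g' s with hg
  have hgd : ∀ t, HasDerivAt g (g' t) t := fun t =>
    intervalIntegral.integral_hasDerivAt_right (cg.intervalIntegrable _ _)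
      cg.aestronglyMeasurable.stronglyMeasurableAtFilter cg.continuousAt
  have hg'0 : ∀ t, 0 ≤ g' t := fun t => add_nonneg (gf_nonneg hc u t) (gf_nonneg hc v t)
  have hg0 : g 0 = 0 := by simp [hg]
  have hgn : ∀ t, 0 ≤ t → 0 ≤ g t := fun t ht => intervalIntegral.integral_nonneg ht fun s _ => hg'0 s
  set d : Fam := u - v with hd
  have dc : CF d := fun k => (hu.cf k).sub (hv.cf k)
  have dpb : ∀ m, PB m d := fun m => PB_sub (hu.pb m) (hv.pb m)
  have cF : CF (Bt u - Bt v) := fun k => (hu.btc k).sub (hv.btc k)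
  have h1 := eneG hc.le (fun _ => 1) (g := g) (g' := g') hgd cg hg'0 hg0 (V := at' d 0) cF dc hT
    (fun k t h0 h1 => hu.diff hv k h0 h1)
  simp only [NW_one] at h1
  set X := ∫⁻ t in Ioc 0 T, ENNReal.ofReal (Real.exp (-g t)) *
    (NW (fun k => 1 * ENNReal.ofReal (c * sq k)) (at' d t) + ENNReal.ofReal (g' t) * W0 (at' d t)) with hX
  -- pointwise bound
  have hpt : ∀ t, W0 (at' (Bt u - Bt v) t) ≤
      NW (fun k => 1 * ENNReal.ofReal (c * sq k)) (at' d t) + ENNReal.ofReal (g' t) * W0 (at' d t) := by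
    intro t
    have a0 := r0_nonneg u t
    have b0 := r0_nonneg v t
    have a1 := rP_nonneg u t
    have b1 := rP_nonneg v t
    refine (W0_btdiff hu.dom hv.dom t).trans ?_
    rw [W0_r0 hu.pb, W0_r0 hv.pb, nP_rP hu.pb, nP_rP hv.pb, ← ENNReal.ofReal_add a0 b0,
      ← ENNReal.ofReal_add a1 b1, ← ENNReal.ofReal_mul hC.le]
    have h2 := young1 hc (y := r0 u t + r0 v t) (by positivity) (at' d t)
    calc _ ≤ (NW (fun k => 1 * ENNReal.ofReal (c * sq k)) (at' d t)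
          + ENNReal.ofReal (C0 ^ 2 / (4 * c) * (r0 u t + r0 v t) ^ 2) * W0 (at' d t))
          + ENNReal.ofReal (C0 * (rP u t + rP v t)) * W0 (at' d t) := add_le_add h2 le_rfl
      _ = NW (fun k => 1 * ENNReal.ofReal (c * sq k)) (at' d t) +
          ENNReal.ofReal (C0 ^ 2 / (4 * c) * (r0 u t + r0 v t) ^ 2 + C0 * (rP u t + rP v t)) * W0 (at' d t) := by
          rw [ENNReal.ofReal_add (by positivity) (by positivity)]; ring
      _ ≤ _ := by
          apply add_le_add le_rfl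
          apply mul_le_mul' _ le_rfl
          apply ENNReal.ofReal_le_ofReal
          simp only [hg', gf]
          have e : C0 ^ 2 / (4 * c) * (r0 u t + r0 v t) ^ 2 ≤ C0 ^ 2 / (4 * c) * (2 * (r0 u t ^ 2 + r0 v t ^ 2)) := by
            apply mul_le_mul_of_nonneg_left _ (by positivity)
            nlinarith [sq_nonneg (r0 u t - r0 v t)]
          have e2 : C0 ^ 2 / (4 * c) * (2 * (r0 u t ^ 2 + r0 v t ^ 2))
              = C0 ^ 2 / (2 * c) * r0 u t ^ 2 + C0 ^ 2 / (2 * c) * r0 v t ^ 2 := by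
            field_simp; ring
          linarith
  have hXf : X ≠ ⊤ := by
    obtain ⟨B1, hB1, hb1⟩ := nw_bdd (a := fun k => c * sq k) (fun k => mul_nonneg hc.le (sq_nonneg' k)) hc.le
      (csq_le_pw2 hc.le) dpb
    obtain ⟨B2, hB2, hb2⟩ := r5_bdd dpb
    have h3 : ∀ t ∈ Ioc 0 T, ENNReal.ofReal (Real.exp (-g t)) *
        (NW (fun k => 1 * ENNReal.ofReal (c * sq k)) (at' d t) + ENNReal.ofReal (g' t) * W0 (at' d t))
        ≤ ENNReal.ofReal B1 + ENNReal.ofReal B2 * ENNReal.ofReal (g' t) := by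
      intro t ht
      calc _ ≤ 1 * (NW (fun k => 1 * ENNReal.ofReal (c * sq k)) (at' d t) + ENNReal.ofReal (g' t) * W0 (at' d t)) := by
            apply mul_le_mul' _ le_rfl
            rw [ENNReal.ofReal_le_one, Real.exp_le_one_iff]
            have := hgn t ht.1.le
            linarith
        _ ≤ _ := by
            rw [one_mul]
            apply add_le_add
            · simp only [one_mul]
              exact hb1 t
            · rw [mul_comm, W0_r0 dpb]
              exact mul_le_mul' (ENNReal.ofReal_le_ofReal ((r0_le_r5 dpb t).trans (hb2 t))) le_rfl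
    refine ne_top_of_le_ne_top ?_ (setLIntegral_mono' measurableSet_Ioc h3)
    rw [lintegral_add_left measurable_const, lintegral_const_mul _ (by fun_prop), setLIntegral_const, Real.volume_Ioc]
    refine ENNReal.add_ne_top.2 ⟨ENNReal.mul_ne_top ENNReal.ofReal_ne_top ENNReal.ofReal_ne_top,
      ENNReal.mul_ne_top ENNReal.ofReal_ne_top ?_⟩
    have hint : IntegrableOn g' (Ioc 0 T) :=
      (cg.integrableOn_Icc (a := 0) (b := T)).mono_set Ioc_subset_Icc_self
    rw [← ofReal_integral_eq_lintegral_ofReal hint (Filter.Eventually.of_forall hg'0)]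
    exact ENNReal.ofReal_ne_top
  have h4 : ∫⁻ t in Ioc 0 T, ENNReal.ofReal (Real.exp (-g t)) * W0 (at' (Bt u - Bt v) t) ≤ X :=
    lintegral_mono fun t => mul_le_mul' le_rfl (hpt t)
  have h5 : ENNReal.ofReal (Real.exp (-g T)) * W0 (at' d T) ≤ W0 (at' d 0) := by
    have h6 := h1.trans (add_le_add le_rfl h4)
    exact (ENNReal.add_le_add_iff_right hXf).1 h6
  calc W0 (at' d T) = ENNReal.ofReal (Real.exp (g T)) * (ENNReal.ofReal (Real.exp (-g T)) * W0 (at' d T)) := by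
        rw [← mul_assoc, ← ENNReal.ofReal_mul (Real.exp_pos _).le, ← Real.exp_add]
        simp
    _ ≤ _ := mul_le_mul' (ENNReal.ofReal_le_ofReal (Real.exp_le_exp.2 hΛ)) h5

lemma gf_comp (c : ℝ) (u : Fam) (φ : ℝ → ℝ) (t : ℝ) : gf c (fun k t => u k (φ t)) t = gf c u (φ t) := rfl

lemma gron (hc : 0 < c) (hu : HSol c T u) (hv : HSol c T v) {s t : ℝ} (hs : 0 ≤ s) (hst : s ≤ t) (htT : t ≤ T)
    {Λ : ℝ} (hΛ : ∫ x in s..t, (gf c u x + gf c v x) ≤ Λ) :
    W0 (at' (u - v) t) ≤ ENNReal.ofReal (Real.exp Λ) * W0 (at' (u - v) s) := by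
  have h1 := (hu.restrict (hs.trans hst) htT).shift hs hst
  have h2 := (hv.restrict (hs.trans hst) htT).shift hs hst
  have hts : 0 ≤ t - s := by linarith
  have e0 : ∀ (w : Fam) x, 0 ≤ x → x ≤ t - s → at' (sf s (t - s) (rs t w)) x = at' w (s + x) := by
    intro w x a b
    rw [sf_eq a b, rs_eq (by linarith) (by linarith)]
  have h3 := gron0 hc hts h1 h2 (Λ := Λ) (by
    refine le_trans (le_of_eq ?_) hΛ
    have e1 : ∫ x in (0 : ℝ)..(t - s), (gf c (sf s (t - s) (rs t u)) x + gf c (sf s (t - s) (rs t v)) x)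
        = ∫ x in (0 : ℝ)..(t - s), (gf c u (s + x) + gf c v (s + x)) := by
      refine intervalIntegral.integral_congr fun x hx => ?_
      rw [uIcc_of_le hts] at hx
      have e2 : s + clp (t - s) x = s + x := by rw [clp_id hx.1 hx.2]
      have e3 : clp t (s + x) = s + x := clp_id (by linarith [hx.1]) (by linarith [hx.2])
      show gf c u (clp t (s + clp (t - s) x)) + gf c v (clp t (s + clp (t - s) x)) = _
      rw [e2, e3]
    rw [e1, intervalIntegral.integral_comp_add_left (fun x => gf c u x + gf c v x)]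
    congr 1
    · ring
    · ring)
  rw [at'_sub, at'_sub, e0 u _ hts le_rfl, e0 v _ hts le_rfl, e0 u _ le_rfl hts, e0 v _ le_rfl hts] at h3
  rw [add_zero, show s + (t - s) = t by ring] at h3
  exact h3

lemma eq_of_W0 {x y : K → C3} (h : W0 (x - y) ≤ 0) : x = y := by
  funext k
  have h1 : ‖(x - y) k‖ₑ ≤ 0 := (ENNReal.le_tsum k).trans h
  have h2 : (x - y) k = 0 := by simpa using h1
  exact sub_eq_zero.1 h2

lemma HSol.unique (hc : 0 < c) (hT : 0 ≤ T) (hu : HSol c T u) (hv : HSol c T v) (h0 : at' u 0 = at' v 0) : u = v := by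
  funext k t
  rw [← hu.cl k t, ← hv.cl k t]
  have h1 := gron hc hu hv le_rfl (clp_nonneg T t) (clp_le hT t) le_rfl
  rw [at'_sub, at'_sub, h0, sub_self] at h1
  have h2 : W0 (0 : K → C3) = 0 := by rw [W0_eq, NW_zero]
  rw [h2, mul_zero] at h1
  exact congrFun (eq_of_W0 h1) k

/-- bounding the growth -/
lemma gf_int (hc : 0 < c) (hu : CF u) (pu : ∀ m, PB m u) {A B : ℝ} (hA : 0 ≤ A) (hB : 0 ≤ B)
    (h1 : ∫⁻ t in Ioc 0 T, W0 (at' u t) ^ 2 ≤ ENNReal.ofReal A)
    (h2 : ∫⁻ t in Ioc 0 T, nP (at' u t) ≤ ENNReal.ofReal B) {s t : ℝ} (hs : 0 ≤ s) (hst : s ≤ t) (htT : t ≤ T) :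
    ∫ x in s..t, gf c u x ≤ C0 ^ 2 / (2 * c) * A + C0 * B := by
  have hC := C0_pos
  have c0 := r0_cont hu pu
  have cP := rP_cont hu pu
  have aux : ∀ {f : ℝ → ℝ} (hf : Continuous f) (hf0 : ∀ t, 0 ≤ f t) {D : ℝ} (hD : 0 ≤ D)
      (h : ∫⁻ t in Ioc 0 T, ENNReal.ofReal (f t) ≤ ENNReal.ofReal D), ∫ x in s..t, f x ≤ D := by
    intro f hf hf0 D hD h
    rw [intervalIntegral.integral_of_le hst]
    have h1 : ENNReal.ofReal (∫ x in Ioc s t, f x) = ∫⁻ x in Ioc s t, ENNReal.ofReal (f x) := by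
      rw [ofReal_integral_eq_lintegral_ofReal]
      · exact (hf.integrableOn_Icc (a := s) (b := t)).mono_set Ioc_subset_Icc_self
      · exact Filter.Eventually.of_forall fun s => hf0 s
    have h2 : ENNReal.ofReal (∫ x in Ioc s t, f x) ≤ ENNReal.ofReal D := by
      rw [h1]
      exact (lintegral_mono_set (Ioc_subset_Ioc hs htT)).trans h
    exact (ENNReal.ofReal_le_ofReal_iff hD).1 h2
  have i1 := aux (f := fun x => r0 u x ^ 2) (by fun_prop) (fun t => by positivity) hA (by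
    refine le_trans (le_of_eq ?_) h1
    refine lintegral_congr fun t => ?_
    rw [W0_r0 pu, ENNReal.ofReal_pow (r0_nonneg u t)])
  have i2 := aux (f := rP u) cP (rP_nonneg u) hB (by
    refine le_trans (le_of_eq ?_) h2
    refine lintegral_congr fun t => ?_
    rw [nP_rP pu])
  unfold gf
  have j1 : Continuous fun x => C0 ^ 2 / (2 * c) * r0 u x ^ 2 := by fun_prop
  have j2 : Continuous fun x => C0 * rP u x := by fun_prop
  rw [intervalIntegral.integral_add (j1.intervalIntegrable _ _) (j2.intervalIntegrable _ _),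
    intervalIntegral.integral_const_mul, intervalIntegral.integral_const_mul]
  gcongr

/-- bound for two solutions -/
lemma gron2 (hc : 0 < c) (hu : HSol c T u) (hv : HSol c T v) {A B : ℝ} (hA : 0 ≤ A) (hB : 0 ≤ B)
    (h1 : ∫⁻ t in Ioc 0 T, W0 (at' u t) ^ 2 ≤ ENNReal.ofReal A)
    (h2 : ∫⁻ t in Ioc 0 T, nP (at' u t) ≤ ENNReal.ofReal B)
    (h3 : ∫⁻ t in Ioc 0 T, W0 (at' v t) ^ 2 ≤ ENNReal.ofReal A)
    (h4 : ∫⁻ t in Ioc 0 T, nP (at' v t) ≤ ENNReal.ofReal B) {s t : ℝ} (hs : 0 ≤ s) (hst : s ≤ t) (htT : t ≤ T) :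
    W0 (at' (u - v) t) ≤ ENNReal.ofReal (Real.exp (2 * (C0 ^ 2 / (2 * c) * A + C0 * B))) * W0 (at' (u - v) s) := by
  refine gron hc hu hv hs hst htT ?_
  have cu := gf_cont (c := c) hu.cf hu.pb
  have cv := gf_cont (c := c) hv.cf hv.pb
  rw [intervalIntegral.integral_add (cu.intervalIntegrable _ _) (cv.intervalIntegrable _ _)]
  have i1 := gf_int hc hu.cf hu.pb hA hB h1 h2 hs hst htT
  have i2 := gf_int hc hv.cf hv.pb hA hB h3 h4 hs hst htT
  linarith

end

/-! ### Duhamel integrals and the heat flow -/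

/-- heat flow -/
noncomputable def Ht (c : ℝ) (V : K → C3) : Fam := fun k t => Real.exp (-(c * sq k * max t 0)) • V k

section
variable {c T : ℝ}

lemma Ht_cf (c : ℝ) (V : K → C3) : CF (Ht c V) := fun k => by unfold Ht; fun_prop

lemma Ht_pb (hc : 0 ≤ c) {V : K → C3} (hV : Nice V) (m : ℕ) : PB m (Ht c V) := by
  obtain ⟨M, hM, hb⟩ := hV.pb m
  refine ⟨M, hM, fun k t => le_trans ?_ (hb k)⟩
  apply mul_le_mul_of_nonneg_left _ (pow_pos (pw_pos k) m).le
  unfold Ht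
  rw [norm_smul, Real.norm_of_nonneg (Real.exp_pos _).le]
  have : Real.exp (-(c * sq k * max t 0)) ≤ 1 := by
    rw [Real.exp_le_one_iff]
    have h1 := le_max_right t 0
    have h2 := sq_nonneg' k
    have : 0 ≤ c * sq k * max t 0 := by positivity
    linarith
  calc _ ≤ 1 * ‖V k‖ := mul_le_mul_of_nonneg_right this (norm_nonneg _)
    _ = _ := one_mul _

lemma Ht_z {V : K → C3} (hV : Nice V) (t : ℝ) : Ht c V 0 t = 0 := by unfold Ht; rw [hV.z, smul_zero]

lemma Ht_sym {V : K → C3} (hV : Nice V) : SymF (Ht c V) := by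
  intro t k i
  show (Real.exp (-(c * sq (-k) * max t 0)) • V (-k)) i = star ((Real.exp (-(c * sq k * max t 0)) • V k) i)
  rw [sq_neg]
  simp only [Pi.smul_apply, star_smul, star_trivial]
  congr 1
  exact hV.sym k i

lemma Ht_mild (V : K → C3) (k : K) {t : ℝ} (h0 : 0 ≤ t) : Ht c V k t
    = Real.exp (-(c * sq k * t)) • V k + Duh c 0 k t := by
  rw [Duh_zero]
  show Real.exp (-(c * sq k * max t 0)) • V k = _ + 0
  rw [max_eq_left h0, add_zero]

lemma heat_ene (hc : 0 ≤ c) (wt : K → ℝ≥0∞) (V : K → C3) (hT : 0 ≤ T) : NW wt (at' (Ht c V) T) +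
    ∫⁻ t in Ioc 0 T, NW (fun k => wt k * ENNReal.ofReal (c * sq k)) (at' (Ht c V) t) ≤ NW wt V := by
  have h := eneS hc wt (V := V) (F := 0) (u := Ht c V) (fun k => continuous_const) (Ht_cf c V) hT
    (fun k t h0 _ => Ht_mild V k h0)
  have e : ∀ t, NW wt (at' (0 : Fam) t) = 0 := fun t => NW_zero _
  simpa [e] using h

lemma heat_le (hc : 0 ≤ c) (wt : K → ℝ≥0∞) (V : K → C3) {t : ℝ} (ht : 0 ≤ t) :
    NW wt (at' (Ht c V) t) ≤ NW wt V := le_self_add.trans (heat_ene hc wt V ht)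

lemma heat_W0_le (hc : 0 ≤ c) (V : K → C3) {t : ℝ} (ht : 0 ≤ t) : W0 (at' (Ht c V) t) ≤ W0 V := by
  simp only [W0_eq]; exact heat_le hc _ V ht

lemma cancel_c (hc : 0 < c) {x y : ℝ≥0∞} (h : ENNReal.ofReal c * x ≤ y) : x ≤ ENNReal.ofReal (1 / c) * y := by
  calc x = ENNReal.ofReal (1 / c) * (ENNReal.ofReal c * x) := by
        rw [← mul_assoc, ← ENNReal.ofReal_mul (by positivity), one_div, inv_mul_cancel₀ hc.ne',
          ENNReal.ofReal_one, one_mul]
    _ ≤ _ := mul_le_mul' le_rfl h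

lemma heat_nP (hc : 0 < c) (V : K → C3) (hT : 0 ≤ T) :
    ∫⁻ t in Ioc 0 T, nP (at' (Ht c V) t) ≤ ENNReal.ofReal (1 / c) * N1 V := by
  have h := heat_ene hc.le (fun k => ENNReal.ofReal (1 / nk k)) V hT
  simp only [NW_cm hc.le] at h
  have h2 := le_add_self.trans h
  have hm : Measurable fun t => nP (at' (Ht c V) t) := NW_meas _ (Ht_cf c V)
  rw [lintegral_const_mul _ hm] at h2
  exact cancel_c hc h2

lemma heat_nQ (hc : 0 < c) (V : K → C3) (hT : 0 ≤ T) :
    ∫⁻ t in Ioc 0 T, nQ (at' (Ht c V) t) ≤ ENNReal.ofReal (1 / c) * W0 V := by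
  have h := heat_ene hc.le (fun _ => 1) V hT
  simp only [NW_csq hc.le] at h
  have h2 := le_add_self.trans h
  have hm : Measurable fun t => nQ (at' (Ht c V) t) := NW_meas _ (Ht_cf c V)
  rw [lintegral_const_mul _ hm, NW_one] at h2
  exact cancel_c hc h2

lemma heat_W0sq (hc : 0 < c) {V : K → C3} (hV : V 0 = 0) (hT : 0 ≤ T) :
    ∫⁻ t in Ioc 0 T, W0 (at' (Ht c V) t) ^ 2 ≤ ENNReal.ofReal (1 / c) * N1 V ^ 2 := by
  have hz : ∀ t, at' (Ht c V) t 0 = 0 := fun t => by unfold at' Ht; rw [hV, smul_zero]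
  have hm : Measurable fun t => nP (at' (Ht c V) t) := NW_meas _ (Ht_cf c V)
  calc _ ≤ ∫⁻ t in Ioc 0 T, N1 V * nP (at' (Ht c V) t) := by
        refine setLIntegral_mono' measurableSet_Ioc fun t ht => ?_
        rw [pow_two]
        exact (interp1 (hz t)).trans (mul_le_mul' (heat_le hc.le _ V ht.1.le) le_rfl)
    _ = N1 V * ∫⁻ t in Ioc 0 T, nP (at' (Ht c V) t) := lintegral_const_mul _ hm
    _ ≤ N1 V * (ENNReal.ofReal (1 / c) * N1 V) := mul_le_mul' le_rfl (heat_nP hc V hT)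
    _ = _ := by ring

lemma heat_W0sq' (hc : 0 < c) (V : K → C3) (_hT : 0 ≤ T) :
    ∫⁻ t in Ioc 0 T, W0 (at' (Ht c V) t) ^ 2 ≤ ENNReal.ofReal T * W0 V ^ 2 := by
  calc _ ≤ ∫⁻ _t in Ioc 0 T, W0 V ^ 2 := by
        refine setLIntegral_mono' measurableSet_Ioc fun t ht => ?_
        exact pow_le_pow_left₀ zero_le (heat_W0_le hc.le V ht.1.le) 2
    _ = _ := by rw [setLIntegral_const, Real.volume_Ioc, sub_zero, mul_comm]

lemma heat_nP' (hc : 0 < c) (V : K → C3) (hT : 0 < T) :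
    ∫⁻ t in Ioc 0 T, nP (at' (Ht c V) t) ≤ ENNReal.ofReal (Real.sqrt (T / c)) * W0 V := by
  set a := Real.sqrt (c * T) with ha
  have ha0 : 0 < a := Real.sqrt_pos.2 (by positivity)
  have ha2 : a ^ 2 = c * T := Real.sq_sqrt (by positivity)
  have hm : Measurable fun t => nQ (at' (Ht c V) t) := NW_meas _ (Ht_cf c V)
  have hm0 : Measurable fun t => W0 (at' (Ht c V) t) := by
    simp only [W0_eq]; exact NW_meas _ (Ht_cf c V)
  calc _ ≤ ∫⁻ t in Ioc 0 T, (ENNReal.ofReal (a / 2) * nQ (at' (Ht c V) t)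
        + ENNReal.ofReal (1 / (2 * a)) * W0 (at' (Ht c V) t)) := lintegral_mono fun t => young2 ha0 _
    _ = ENNReal.ofReal (a / 2) * (∫⁻ t in Ioc 0 T, nQ (at' (Ht c V) t))
        + ENNReal.ofReal (1 / (2 * a)) * ∫⁻ t in Ioc 0 T, W0 (at' (Ht c V) t) := by
        rw [lintegral_add_left (hm.const_mul _), lintegral_const_mul _ hm, lintegral_const_mul _ hm0]
    _ ≤ ENNReal.ofReal (a / 2) * (ENNReal.ofReal (1 / c) * W0 V)
        + ENNReal.ofReal (1 / (2 * a)) * (ENNReal.ofReal T * W0 V) := by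
        refine add_le_add (mul_le_mul' le_rfl (heat_nQ hc V hT.le)) (mul_le_mul' le_rfl ?_)
        calc _ ≤ ∫⁻ _t in Ioc 0 T, W0 V := setLIntegral_mono' measurableSet_Ioc fun t ht =>
              heat_W0_le hc.le V ht.1.le
          _ = _ := by rw [setLIntegral_const, Real.volume_Ioc, sub_zero, mul_comm]
    _ = _ := by
        rw [← mul_assoc, ← mul_assoc, ← ENNReal.ofReal_mul (by positivity), ← ENNReal.ofReal_mul (by positivity),
          ← add_mul, ← ENNReal.ofReal_add (by positivity) (by positivity)]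
        congr 2
        have h1 : Real.sqrt (T / c) = a / c := by
          rw [Real.sqrt_eq_iff_mul_self_eq (by positivity) (by positivity)]
          have : a / c * (a / c) = a ^ 2 / c ^ 2 := by ring
          rw [this, ha2]; field_simp
        rw [h1]
        have : 1 / (2 * a) * T = a / (2 * c) := by
          rw [div_mul_eq_mul_div, div_eq_div_iff (by positivity) (by positivity)]
          linear_combination (-2 : ℝ) * ha2
        rw [this]; field_simp; ring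

lemma duh_N1 (hc : 0 < c) {F : Fam} (hF : CF F) (hT : 0 ≤ T) :
    N1 (at' (Duh c F) T) ≤ (∫⁻ t in Ioc 0 T, N1 (at' F t)) ∧
      ∫⁻ t in Ioc 0 T, nP (at' (Duh c F) t) ≤ ENNReal.ofReal (1 / c) * ∫⁻ t in Ioc 0 T, N1 (at' F t) := by
  have h := eneS hc.le (fun k => ENNReal.ofReal (1 / nk k)) (V := 0) (F := F) (u := Duh c F) hF
    (Duh_cont hF c) hT (fun k t _ _ => by simp)
  simp only [NW_cm hc.le] at h
  have e : NW (fun k => ENNReal.ofReal (1 / nk k)) (0 : K → C3) = 0 := NW_zero _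
  rw [e, zero_add] at h
  refine ⟨le_self_add.trans h, ?_⟩
  have h2 := le_add_self.trans h
  have hm : Measurable fun t => nP (at' (Duh c F) t) := NW_meas _ (Duh_cont hF c)
  rw [lintegral_const_mul _ hm] at h2
  exact cancel_c hc h2

lemma duh_W0sq (hc : 0 < c) {F : Fam} (hF : CF F) (hz : ∀ t, F 0 t = 0) (hT : 0 ≤ T) :
    ∫⁻ t in Ioc 0 T, W0 (at' (Duh c F) t) ^ 2 ≤ ENNReal.ofReal (1 / c) * (∫⁻ t in Ioc 0 T, N1 (at' F t)) ^ 2 := by
  set X := ∫⁻ t in Ioc 0 T, N1 (at' F t) with hX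
  have hz' : ∀ t, at' (Duh c F) t 0 = 0 := fun t => at'_Duh_zero hz t
  have hm : Measurable fun t => nP (at' (Duh c F) t) := NW_meas _ (Duh_cont hF c)
  calc _ ≤ ∫⁻ t in Ioc 0 T, X * nP (at' (Duh c F) t) := by
        refine setLIntegral_mono' measurableSet_Ioc fun t ht => ?_
        rw [pow_two]
        refine (interp1 (hz' t)).trans (mul_le_mul' ?_ le_rfl)
        exact (duh_N1 hc hF ht.1.le).1.trans (lintegral_mono_set (Ioc_subset_Ioc_right ht.2))
    _ = X * ∫⁻ t in Ioc 0 T, nP (at' (Duh c F) t) := lintegral_const_mul _ hm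
    _ ≤ X * (ENNReal.ofReal (1 / c) * X) := mul_le_mul' le_rfl (duh_N1 hc hF hT).2
    _ = _ := by ring

lemma exists_time {f : ℝ → ℝ≥0∞} {a b X Y : ℝ} (hab : a < b) (hX : 0 ≤ X) (hY : X < Y * (b - a))
    (h : ∫⁻ t in Ioc a b, f t ≤ ENNReal.ofReal X) : ∃ t ∈ Ioc a b, f t ≤ ENNReal.ofReal Y := by
  by_contra hcon
  push Not at hcon
  have hba : 0 < b - a := by linarith
  have hY0 : 0 ≤ Y := by
    by_contra hn
    push Not at hn
    nlinarith
  have h1 : ENNReal.ofReal (Y * (b - a)) ≤ ∫⁻ t in Ioc a b, f t := by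
    calc ENNReal.ofReal (Y * (b - a)) = ∫⁻ _t in Ioc a b, ENNReal.ofReal Y := by
          rw [setLIntegral_const, Real.volume_Ioc, ← ENNReal.ofReal_mul hY0]
      _ ≤ _ := setLIntegral_mono' measurableSet_Ioc fun t ht => (hcon t ht).le
  have h2 := (ENNReal.ofReal_le_ofReal_iff hX).1 (h1.trans h)
  linarith

end

end Pool.Agent.H356R3.NS.H1SS
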