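import Pool.Agent.H1SS.HPar

open MeasureTheory Set Filter Topology
open scoped ENNReal NNReal ContDiff

namespace Pool.Agent.H356R3.NS.H1SS

/-- The induction hypothesis: the data `V`, supported on the lattice `N ℤ³`, plus small data can be solved
on the time interval `[0, L/N²]`, with uniform bounds. -/
structure Good (c β L η δ : ℝ) (N : ℕ) (V : K → C3) : Prop where
  nice : Nice V
  lat : Lat N V
  ex : ∀ C, Nice C → W0 C ≤ ENNReal.ofReal (δ * N) → ∃ u, HSol c (L / (N : ℝ) ^ 2) u ∧ at' u 0 = V + C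
  int : ∀ C, Nice C → W0 C ≤ ENNReal.ofReal (δ * N) → ∀ u, HSol c (L / (N : ℝ) ^ 2) u → at' u 0 = V + C →
    ∫⁻ t in Ioc 0 (L / (N : ℝ) ^ 2), W0 (at' u t) ≤ ENNReal.ofReal ((β + 1) / N)
  lip : ∀ C C', Nice C → Nice C' → W0 C ≤ ENNReal.ofReal (δ * N) → W0 C' ≤ ENNReal.ofReal (δ * N) →
    ∀ u u', HSol c (L / (N : ℝ) ^ 2) u → HSol c (L / (N : ℝ) ^ 2) u' → at' u 0 = V + C → at' u' 0 = V + C' →
    (∀ t, 0 ≤ t → t ≤ L / (N : ℝ) ^ 2 → W0 (at' (u - u') t) ≤
      ENNReal.ofReal (pK c β * (2 * pK c β)) * W0 (C - C')) ∧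
      W0 (at' (u - u') (L / (N : ℝ) ^ 2)) ≤ ENNReal.ofReal (2 * pK c β) * W0 (C - C')
  dec : ∀ u, HSol c (L / (N : ℝ) ^ 2) u → at' u 0 = V → W0 (at' u (L / (N : ℝ) ^ 2)) ≤ ENNReal.ofReal (η * N)

lemma W0_zero : W0 (0 : K → C3) = 0 := by rw [W0_eq, NW_zero]
lemma N1_zero : N1 (0 : K → C3) = 0 := NW_zero _
lemma nP_zero : nP (0 : K → C3) = 0 := NW_zero _

lemma lint_sf {f : ℝ → ℝ≥0∞} (hf : Measurable f) (τ T : ℝ) :
    ∫⁻ t in Ioc 0 (T - τ), f (τ + t) = ∫⁻ t in Ioc τ T, f t := by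
  have h := (measurePreserving_add_left volume τ).setLIntegral_comp_preimage (s := Ioc τ T) measurableSet_Ioc hf
  rw [← h]
  congr 2
  ext t
  simp only [mem_preimage, mem_Ioc]
  constructor
  · rintro ⟨a, b⟩; exact ⟨by linarith, by linarith⟩
  · rintro ⟨a, b⟩; exact ⟨by linarith, by linarith⟩

section
variable {c β L θ ρ η δ R : ℝ}

lemma WB.gron {N T : ℝ} (P : UP c β L θ ρ η δ R) {u v : Fam} (hu : HSol c T u) (hv : HSol c T v)
    (bu : WB c β N T u) (bv : WB c β N T v) {s t : ℝ} (hs : 0 ≤ s) (hst : s ≤ t) (htT : t ≤ T) :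
    W0 (at' (u - v) t) ≤ ENNReal.ofReal (pK c β) * W0 (at' (u - v) s) :=
  gron2 P.hc hu hv (pA_nonneg β) (pB_nonneg P.hc P.hβ) bu.i2 bu.iP bv.i2 bv.iP hs hst htT

lemma WB.gron' {N T : ℝ} (P : UP c β L θ ρ η δ R) (hT : 0 ≤ T) {u : Fam} (hu : HSol c T u)
    (bu : WB c β N T u) {s t : ℝ} (hs : 0 ≤ s) (hst : s ≤ t) (htT : t ≤ T) :
    W0 (at' u t) ≤ ENNReal.ofReal (pK c β) * W0 (at' u s) := by
  have z : ∀ t, at' (0 : Fam) t = 0 := fun _ => rfl
  have h := gron2 P.hc hu (HSol.zero hT) (pA_nonneg β) (pB_nonneg P.hc P.hβ) bu.i2 bu.iP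
    (by simp [z, W0_zero]) (by simp [z, nP_zero]) hs hst htT
  rw [at'_sub, at'_sub, z, z, sub_zero, sub_zero] at h
  exact h

theorem good_zero (P : UP c β L θ ρ η δ R) {N : ℕ} (hN : 1 ≤ N) : Good c β L η δ N 0 := by
  have hc := P.hc
  have hβ := P.hβ
  have hN0 : (0 : ℝ) < N := by exact_mod_cast hN
  have hT : 0 < L / (N : ℝ) ^ 2 := by have := P.hL; positivity
  have hη := P.hη
  have z : ∀ t, at' (0 : Fam) t = 0 := fun _ => rfl
  have hw : ∀ {C : K → C3}, Nice C → W0 C ≤ ENNReal.ofReal (δ * N) →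
      (∃ u, HSol c (L / (N : ℝ) ^ 2) u ∧ at' u 0 = 0 + C) ∧
      ∀ u, HSol c (L / (N : ℝ) ^ 2) u → at' u 0 = 0 + C → WB c β N (L / (N : ℝ) ^ 2) u := by
    intro C hC hCW
    have h := win P hN0 hT le_rfl (HSol.zero hT.le) (fun t _ _ => by rw [z, W0_zero]; exact zero_le)
      (by simp [z, W0_zero]) (by rw [z, N1_zero]; exact zero_le) hC Nice.zero hCW
      (by rw [N1_zero]; exact zero_le)
    rwa [z, add_zero] at h
  have K1 := P.K1
  refine ⟨Nice.zero, Lat.zero, fun C hC hCW => (hw hC hCW).1, fun C hC hCW u hu hui => ?_,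
    fun C C' hC hC' hCW hCW' u u' hu hu' hui hui' => ?_, fun u hu hui => ?_⟩
  · refine ((hw hC hCW).2 u hu hui).i1.trans (ENNReal.ofReal_le_ofReal ?_)
    gcongr
    norm_num
  · have b1 := (hw hC hCW).2 u hu hui
    have b2 := (hw hC' hCW').2 u' hu' hui'
    have h0 : at' (u - u') 0 = C - C' := by rw [at'_sub, hui, hui']; abel
    have hg : ∀ t, 0 ≤ t → t ≤ L / (N : ℝ) ^ 2 → W0 (at' (u - u') t) ≤ ENNReal.ofReal (pK c β) * W0 (C - C') := by
      intro t t0 t1
      have := b1.gron P hu hu' b2 le_rfl t0 t1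
      rwa [h0] at this
    refine ⟨fun t t0 t1 => (hg t t0 t1).trans (mul_le_mul' (ENNReal.ofReal_le_ofReal ?_) le_rfl),
      (hg _ hT.le le_rfl).trans (mul_le_mul' (ENNReal.ofReal_le_ofReal ?_) le_rfl)⟩
    · nlinarith
    · linarith
  · have b1 := (hw Nice.zero (by rw [W0_zero]; exact zero_le)).2 u hu (by rw [hui, add_zero])
    have := b1.gron' P hT.le hu le_rfl hT.le le_rfl
    rw [hui, W0_zero, mul_zero] at this
    exact this.trans zero_le

lemma GSol.nice {om : Fam} (h : GSol c om) (t : ℝ) : Nice (at' om t) where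
  z := h.ls.z t
  sym := h.ls.sym t
  pb := fun m => by
    obtain ⟨M, hM, hb⟩ := h.pb m
    exact ⟨M, hM, fun k => hb k t⟩

lemma Ht_nice (hc : 0 ≤ c) {C : K → C3} (hC : Nice C) (t : ℝ) : Nice (at' (Ht c C) t) where
  z := Ht_z hC t
  sym := Ht_sym hC t
  pb := fun m => by
    obtain ⟨M, hM, hb⟩ := Ht_pb hc hC m
    exact ⟨M, hM, fun k => hb k t⟩

/-- a profile at scale `N` -/
structure Prof (c β : ℝ) (N : ℕ) (om : Fam) : Prop where
  gs : GSol c om
  sup : ∀ t, 0 ≤ t → W0 (at' om t) ≤ ENNReal.ofReal (β * N)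
  int : ∫⁻ t in Ioi 0, W0 (at' om t) ≤ ENNReal.ofReal (β / N)
  lat : ∀ t, 0 ≤ t → Lat N (at' om t)

/-- The state at the end of the first window. -/
lemma split (P : UP c β L θ ρ η δ R) {N M : ℕ} (hN : 1 ≤ N) (hR : R * N ≤ M) {V : K → C3}
    (hV : Good c β L η δ M V) {om : Fam} (ho : Prof c β N om) {C : K → C3} (hC : Nice C)
    (hCW : W0 C ≤ ENNReal.ofReal (δ * N)) {uA : Fam} (hA : HSol c (L / (M : ℝ) ^ 2) uA)
    (hA0 : at' uA 0 = V + (at' om 0 + C)) :
    ∃ ξ, Nice ξ ∧ N1 ξ ≤ ENNReal.ofReal (2 * η) ∧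
      at' uA (L / (M : ℝ) ^ 2) = at' om (L / (M : ℝ) ^ 2) + (at' (Ht c C) (L / (M : ℝ) ^ 2) + ξ) := by
  have hc := P.hc
  have hβ := P.hβ
  have hL := P.hL
  have hδ := P.hδ
  have hη := P.hη
  have hR2 := P.hR
  have hC0 := C0_pos
  have hK := pK_pos c β
  have hN0 : (0 : ℝ) < N := by exact_mod_cast hN
  have hM0 : (0 : ℝ) < M := lt_of_lt_of_le (by positivity) hR
  have hM1 : 1 ≤ M := by
    have : (0 : ℝ) < (M : ℝ) := hM0
    exact_mod_cast Nat.one_le_iff_ne_zero.2 (by rintro rfl; simp at this)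
  set τ := L / (M : ℝ) ^ 2 with hτ
  have hτ0 : 0 < τ := by positivity
  set K1 := pK c β * (2 * pK c β) with hK1
  have hK10 : 0 < K1 := by positivity
  -- small data
  have hsm : ENNReal.ofReal ((β + δ) * N) ≤ ENNReal.ofReal (δ * M) := by
    apply ENNReal.ofReal_le_ofReal
    calc (β + δ) * N ≤ δ * R * N := by
          have := P.r1
          gcongr
      _ = δ * (R * N) := by ring
      _ ≤ δ * M := by gcongr
  have hW1 : W0 (at' om 0 + C) ≤ ENNReal.ofReal ((β + δ) * N) := by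
    refine (W0_add _ _).trans ((add_le_add (ho.sup 0 le_rfl) hCW).trans (le_of_eq ?_))
    rw [← ENNReal.ofReal_add (by positivity) (by positivity)]
    congr 1; ring
  have hn1 : Nice (at' om 0 + C) := (ho.gs.nice 0).add hC
  have hz : W0 (0 : K → C3) ≤ ENNReal.ofReal (δ * M) := by rw [W0_zero]; exact zero_le
  obtain ⟨u0, h0, h0i⟩ := hV.ex 0 Nice.zero hz
  have hlip := (hV.lip _ _ hn1 Nice.zero (hW1.trans hsm) hz uA u0 hA h0 hA0 h0i).1
  have hiA := hV.int _ hn1 (hW1.trans hsm) uA hA hA0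
  have hi0 := hV.int _ Nice.zero hz u0 h0 h0i
  have hd0 := hV.dec u0 h0 (by rw [h0i, add_zero])
  rw [sub_zero] at hlip
  set F : Fam := Bt uA - Bt u0 with hF
  have cF : CF F := fun k => (hA.btc k).sub (h0.btc k)
  have mA := meas_W0 hA.cf
  have m0 := meas_W0 h0.cf
  have hFi : ∫⁻ t in Ioc 0 τ, N1 (at' F t) ≤ ENNReal.ofReal (2 * (C0 * K1 * (β + 1)) * (β + δ) / R) := by
    calc _ ≤ ∫⁻ t in Ioc 0 τ, ENNReal.ofReal (C0 * (K1 * ((β + δ) * N))) * (W0 (at' uA t) + W0 (at' u0 t)) := by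
          refine setLIntegral_mono' measurableSet_Ioc fun t ht => ?_
          refine (N1_btdiff hA.dom h0.dom t).trans ?_
          rw [ENNReal.ofReal_mul hC0.le, mul_assoc]
          refine mul_le_mul' le_rfl (mul_le_mul' ?_ le_rfl)
          refine (hlip t ht.1.le ht.2).trans ?_
          rw [ENNReal.ofReal_mul hK10.le]
          exact mul_le_mul' le_rfl hW1
      _ = ENNReal.ofReal (C0 * (K1 * ((β + δ) * N))) * ((∫⁻ t in Ioc 0 τ, W0 (at' uA t))
          + ∫⁻ t in Ioc 0 τ, W0 (at' u0 t)) := by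
          rw [lintegral_const_mul _ (by fun_prop), lintegral_add_left mA]
      _ ≤ ENNReal.ofReal (C0 * (K1 * ((β + δ) * N))) * (ENNReal.ofReal ((β + 1) / M) + ENNReal.ofReal ((β + 1) / M)) :=
          mul_le_mul' le_rfl (add_le_add hiA hi0)
      _ = ENNReal.ofReal (C0 * (K1 * ((β + δ) * N)) * ((β + 1) / M + (β + 1) / M)) := by
          rw [← ENNReal.ofReal_add (by positivity) (by positivity), ← ENNReal.ofReal_mul (by positivity)]
      _ ≤ _ := by
          apply ENNReal.ofReal_le_ofReal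
          have e1 : C0 * (K1 * ((β + δ) * N)) * ((β + 1) / M + (β + 1) / M)
              = 2 * (C0 * K1 * (β + 1)) * (β + δ) * (N / M) := by ring
          have e2 : 2 * (C0 * K1 * (β + 1)) * (β + δ) / R = 2 * (C0 * K1 * (β + 1)) * (β + δ) * (1 / R) := by ring
          rw [e1, e2]
          apply mul_le_mul_of_nonneg_left _ (by positivity)
          rw [div_le_div_iff₀ hM0 (by linarith)]
          linarith
  have hoi : ∫⁻ t in Ioc 0 τ, N1 (at' (Bt om) t) ≤ ENNReal.ofReal (C0 * β ^ 2 * L / R ^ 2) := by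
    calc _ ≤ ∫⁻ _t in Ioc 0 τ, ENNReal.ofReal (C0 * (β * N) ^ 2) := by
          refine setLIntegral_mono' measurableSet_Ioc fun t ht => ?_
          refine (N1_Bf _ _).trans ?_
          rw [ENNReal.ofReal_mul hC0.le, pow_two, ENNReal.ofReal_mul (by positivity)]
          exact mul_le_mul' le_rfl (mul_le_mul' (ho.sup t ht.1.le) (ho.sup t ht.1.le))
      _ = ENNReal.ofReal (C0 * (β * N) ^ 2 * τ) := by
          rw [setLIntegral_const, Real.volume_Ioc, sub_zero, ← ENNReal.ofReal_mul (by positivity)]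
      _ ≤ _ := by
          apply ENNReal.ofReal_le_ofReal
          have e1 : C0 * (β * N) ^ 2 * τ = C0 * β ^ 2 * L * ((N : ℝ) ^ 2 / (M : ℝ) ^ 2) := by rw [hτ]; ring
          have e2 : C0 * β ^ 2 * L / R ^ 2 = C0 * β ^ 2 * L * (1 / R ^ 2) := by ring
          rw [e1, e2]
          apply mul_le_mul_of_nonneg_left _ (by positivity)
          rw [div_le_div_iff₀ (by positivity) (by positivity), one_mul, ← mul_pow]
          have : (N : ℝ) * R ≤ M := by linarith
          gcongr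
  -- the remainder
  set ξ := at' uA τ - at' om τ - at' (Ht c C) τ with hξ
  have hid : ξ = at' u0 τ + at' (Duh c F) τ - at' (Duh c (Bt om)) τ := by
    funext k
    have q1 := hA.diff h0 k hτ0.le le_rfl
    have q2 := ho.gs.ls.eq k τ
    have q3 : uA k 0 - u0 k 0 = om k 0 + C k := by
      have a1 := congrFun hA0 k
      have a2 := congrFun h0i k
      show at' uA 0 k - at' u0 0 k = _
      rw [a1, a2]
      show V k + (om k 0 + C k) - (V k + 0) = _
      abel
    rw [max_eq_left hτ0.le] at q2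
    have q4 : uA k τ = u0 k τ + (Real.exp (-(c * sq k * τ)) • (om k 0 + C k) + Duh c F k τ) := by
      have q5 : uA k τ - u0 k τ = Real.exp (-(c * sq k * τ)) • (uA k 0 - u0 k 0) + Duh c F k τ := q1
      rw [q3] at q5
      rw [← q5]; abel
    show uA k τ - om k τ - Real.exp (-(c * sq k * max τ 0)) • C k = u0 k τ + Duh c F k τ - Duh c (Bt om) k τ
    rw [q4, q2, max_eq_left hτ0.le, smul_add]
    abel
  refine ⟨ξ, ((hA.nice τ).sub (ho.gs.nice τ)).sub (Ht_nice hc.le hC τ), ?_, ?_⟩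
  · rw [hid]
    have l1 : N1 (at' u0 τ) ≤ ENNReal.ofReal η := by
      have hl : Lat M (at' u0 τ) := h0.lat hc hτ0.le hM1 (by rw [h0i, add_zero]; exact hV.lat) τ
      refine (N1_le_of_lat hM1 (h0.z τ) hl).trans ((mul_le_mul' le_rfl hd0).trans (le_of_eq ?_))
      rw [← ENNReal.ofReal_mul (by positivity)]
      congr 1; field_simp
    have l2 := (duh_N1 hc cF hτ0.le).1.trans hFi
    have l3 := (duh_N1 hc ho.gs.ls.btc hτ0.le).1.trans hoi
    calc _ ≤ N1 (at' u0 τ) + N1 (at' (Duh c F) τ) + N1 (at' (Duh c (Bt om)) τ) :=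
          (NW_sub_le _ _ _).trans (add_le_add (NW_add_le _ _ _) le_rfl)
      _ ≤ ENNReal.ofReal η + ENNReal.ofReal (2 * (C0 * K1 * (β + 1)) * (β + δ) / R)
          + ENNReal.ofReal (C0 * β ^ 2 * L / R ^ 2) := add_le_add (add_le_add l1 l2) l3
      _ = ENNReal.ofReal (η + 2 * (C0 * K1 * (β + 1)) * (β + δ) / R + C0 * β ^ 2 * L / R ^ 2) := by
          have : 0 < R := by linarith
          rw [← ENNReal.ofReal_add (by positivity) (by positivity), ← ENNReal.ofReal_add (by positivity) (by positivity)]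
      _ ≤ _ := by
          apply ENNReal.ofReal_le_ofReal
          have := P.r3
          linarith
  · rw [hξ]; abel

/-- The induction step. -/
theorem Good.step (P : UP c β L θ ρ η δ R) {N M : ℕ} (hN : 1 ≤ N) (hdvd : N ∣ M) (hR : R * N ≤ M) {V : K → C3}
    (hV : Good c β L η δ M V) {om : Fam} (ho : Prof c β N om) : Good c β L η δ N (at' om 0 + V) := by
  have hc := P.hc
  have hβ := P.hβ
  have hL := P.hL
  have hδ := P.hδ
  have hη := P.hη
  have hR2 := P.hR
  have hC0 := C0_pos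
  have hK := pK_pos c β
  have hK1 := P.K1
  have hN0 : (0 : ℝ) < N := by exact_mod_cast hN
  have hM0 : (0 : ℝ) < M := lt_of_lt_of_le (by positivity) hR
  have h2N : 2 * (N : ℝ) ≤ M := le_trans (by gcongr) hR
  set T := L / (N : ℝ) ^ 2 with hT
  set τ := L / (M : ℝ) ^ 2 with hτ
  have hT0 : 0 < T := by positivity
  have hτ0 : 0 < τ := by positivity
  have hτT : τ ≤ T / 4 := by
    rw [hτ, hT, div_div, mul_comm]
    apply div_le_div_of_nonneg_left hL.le (by positivity)
    nlinarith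
  have hτT' : τ ≤ T := by linarith
  have hS0 : 0 < T - τ := by linarith
  have hsm : ENNReal.ofReal ((β + δ) * N) ≤ ENNReal.ofReal (δ * M) := by
    apply ENNReal.ofReal_le_ofReal
    calc (β + δ) * N ≤ δ * R * N := by
          have := P.r1
          gcongr
      _ = δ * (R * N) := by ring
      _ ≤ δ * M := by gcongr
  have hW1 : ∀ {C : K → C3}, W0 C ≤ ENNReal.ofReal (δ * N) → W0 (at' om 0 + C) ≤ ENNReal.ofReal (δ * M) := by
    intro C hCW
    refine le_trans ((W0_add _ _).trans ((add_le_add (ho.sup 0 le_rfl) hCW).trans (le_of_eq ?_))) hsm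
    rw [← ENNReal.ofReal_add (by positivity) (by positivity)]
    congr 1; ring
  have hn1 : ∀ {C : K → C3}, Nice C → Nice (at' om 0 + C) := fun hC => (ho.gs.nice 0).add hC
  -- the base solution on the second window
  set b := sf τ (T - τ) (rs T om) with hb
  have hbs : HSol c (T - τ) b := (ho.gs.hsol hT0.le).shift hτ0.le hτT'
  have hbt : ∀ t, 0 ≤ t → t ≤ T - τ → at' b t = at' om (τ + t) := fun t t0 t1 => by
    rw [hb, sf_eq t0 t1, rs_eq (by linarith) (by linarith)]
  have hb1 : ∀ t, 0 < t → t ≤ T - τ → W0 (at' b t) ≤ ENNReal.ofReal (β * N) := fun t t0 t1 => by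
    rw [hbt t t0.le t1]
    exact ho.sup _ (by linarith)
  have hb2 : ∫⁻ t in Ioc 0 (T - τ), W0 (at' b t) ≤ ENNReal.ofReal (β / N) := by
    rw [setLIntegral_congr_fun measurableSet_Ioc (g := fun t => W0 (at' om (τ + t))) fun t ht => by
      show W0 (at' b t) = _
      rw [hbt t ht.1.le ht.2], lint_sf (f := fun t => W0 (at' om t)) (meas_W0 ho.gs.ls.cf) τ T]
    exact (lintegral_mono_set fun t ht => lt_of_le_of_lt hτ0.le ht.1).trans ho.int
  have hb3 : N1 (at' b 0) ≤ ENNReal.ofReal β := by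
    rw [hbt 0 le_rfl hS0.le, add_zero]
    refine (N1_le_of_lat hN (ho.gs.ls.z τ) (ho.lat τ hτ0.le)).trans
      ((mul_le_mul' le_rfl (ho.sup τ hτ0.le)).trans (le_of_eq ?_))
    rw [← ENNReal.ofReal_mul (by positivity)]
    congr 1; field_simp
  have hTL : T - τ ≤ L / (N : ℝ) ^ 2 := by rw [← hT]; linarith
  -- the second window
  have key : ∀ {C : K → C3}, Nice C → W0 C ≤ ENNReal.ofReal (δ * N) → ∀ uA, HSol c τ uA →
      at' uA 0 = V + (at' om 0 + C) →
      (∃ u, HSol c (T - τ) u ∧ at' u 0 = at' uA τ) ∧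
      ∀ u, HSol c (T - τ) u → at' u 0 = at' uA τ → WB c β N (T - τ) u := by
    intro C hC hCW uA hA hA0
    obtain ⟨ξ, hξn, hξ1, hξe⟩ := split P hN hR hV ho hC hCW hA hA0
    have h := win P hN0 hS0 hTL hbs hb1 hb2 hb3 (Ht_nice hc.le hC τ) hξn
      ((heat_W0_le hc.le C hτ0.le).trans hCW) hξ1
    rw [hbt 0 le_rfl hS0.le, add_zero, ← hξe] at h
    exact h
  -- properties of solutions on the whole interval
  have key2 : ∀ {C : K → C3}, Nice C → W0 C ≤ ENNReal.ofReal (δ * N) → ∀ u, HSol c T u →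
      at' u 0 = at' om 0 + V + C → HSol c τ (rs τ u) ∧ at' (rs τ u) 0 = V + (at' om 0 + C) ∧
      HSol c (T - τ) (sf τ (T - τ) u) ∧ WB c β N (T - τ) (sf τ (T - τ) u) := by
    intro C hC hCW u hu hui
    have h1 := hu.restrict hτ0.le hτT'
    have h2 : at' (rs τ u) 0 = V + (at' om 0 + C) := by
      rw [rs_eq le_rfl hτ0.le, hui]; abel
    have h3 := hu.shift hτ0.le hτT'
    refine ⟨h1, h2, h3, (key hC hCW _ h1 h2).2 _ h3 ?_⟩
    rw [sf_eq le_rfl hS0.le, rs_eq hτ0.le le_rfl, add_zero]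
  have int' : ∀ {C : K → C3}, Nice C → W0 C ≤ ENNReal.ofReal (δ * N) → ∀ u, HSol c T u →
      at' u 0 = at' om 0 + V + C → ∫⁻ t in Ioc 0 T, W0 (at' u t) ≤ ENNReal.ofReal ((β + 1) / N) := by
    intro C hC hCW u hu hui
    obtain ⟨h1, h2, h3, h4⟩ := key2 hC hCW u hu hui
    rw [← Ioc_union_Ioc_eq_Ioc hτ0.le hτT']
    refine (lintegral_union_le _ _ _).trans ?_
    have i1 : ∫⁻ t in Ioc 0 τ, W0 (at' u t) ≤ ENNReal.ofReal (1 / 2 / N) := by
      have := hV.int _ (hn1 hC) (hW1 hCW) _ h1 h2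
      rw [setLIntegral_congr_fun measurableSet_Ioc (g := fun t => W0 (at' u t)) fun t ht => by
        show W0 (at' (rs τ u) t) = _
        rw [rs_eq ht.1.le ht.2]] at this
      refine this.trans (ENNReal.ofReal_le_ofReal ?_)
      rw [div_div, div_le_div_iff₀ hM0 (by positivity)]
      have := P.r2
      have : 2 * (β + 1) * N ≤ R * N := by gcongr
      linarith
    have i2 : ∫⁻ t in Ioc τ T, W0 (at' u t) ≤ ENNReal.ofReal ((β + 1 / 2) / N) := by
      have := h4.i1
      rwa [setLIntegral_congr_fun measurableSet_Ioc (g := fun t => W0 (at' u (τ + t))) fun t ht => by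
        show W0 (at' (sf τ (T - τ) u) t) = _
        rw [sf_eq ht.1.le ht.2], lint_sf (f := fun t => W0 (at' u t)) (meas_W0 hu.cf) τ T] at this
    refine (add_le_add i1 i2).trans (le_of_eq ?_)
    rw [← ENNReal.ofReal_add (by positivity) (by positivity)]
    congr 1; ring
  refine ⟨(ho.gs.nice 0).add hV.nice, (ho.lat 0 le_rfl).add (hV.lat.mono hdvd), fun C hC hCW => ?_,
    fun C hC hCW u hu hui => int' hC hCW u hu hui, fun C C' hC hC' hCW hCW' u u' hu hu' hui hui' => ?_,
    fun u hu hui => ?_⟩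
  · -- existence
    obtain ⟨uA, hA, hA0⟩ := hV.ex _ (hn1 hC) (hW1 hCW)
    obtain ⟨uB, hB, hB0⟩ := (key hC hCW uA hA hA0).1
    have hAB : ∀ k, uB k 0 = uA k τ := fun k => congrFun hB0 k
    have hg := hA.glue hB hτ0.le hS0.le hAB
    rw [add_sub_cancel] at hg
    refine ⟨_, hg, ?_⟩
    have : at' (gl τ uA uB) 0 = at' uA 0 := funext fun k => gl_left hB hS0.le hAB hτ0.le k
    rw [this, hA0]; abel
  · -- Lipschitz estimates
    obtain ⟨h1, h2, h3, h4⟩ := key2 hC hCW u hu hui
    obtain ⟨h1', h2', h3', h4'⟩ := key2 hC' hCW' u' hu' hui'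
    obtain ⟨l1, l2⟩ := hV.lip _ _ (hn1 hC) (hn1 hC') (hW1 hCW) (hW1 hCW') _ _ h1 h1' h2 h2'
    have ed : at' om 0 + C - (at' om 0 + C') = C - C' := by abel
    rw [ed] at l1 l2
    have e1 : ∀ t, 0 ≤ t → t ≤ τ → at' (rs τ u - rs τ u') t = at' (u - u') t := fun t t0 t1 => by
      rw [at'_sub, rs_eq t0 t1, rs_eq t0 t1]; rfl
    have e2 : ∀ t, 0 ≤ t → t ≤ T - τ → at' (sf τ (T - τ) u - sf τ (T - τ) u') t = at' (u - u') (τ + t) :=
      fun t t0 t1 => by rw [at'_sub, sf_eq t0 t1, sf_eq t0 t1]; rfl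
    rw [e1 τ hτ0.le le_rfl] at l2
    -- Gronwall on the second window
    have gr : ∀ s t, τ ≤ s → s ≤ t → t ≤ T → W0 (at' (u - u') t) ≤ ENNReal.ofReal (pK c β) * W0 (at' (u - u') s) := by
      intro s t s0 st t1
      have := h4.gron P h3 h3' h4' (s := s - τ) (t := t - τ) (by linarith) (by linarith) (by linarith)
      rwa [e2 _ (by linarith) (by linarith), e2 _ (by linarith) (by linarith), add_sub_cancel,
        add_sub_cancel] at this
    have sup : ∀ t, 0 ≤ t → t ≤ T → W0 (at' (u - u') t) ≤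
        ENNReal.ofReal (pK c β * (2 * pK c β)) * W0 (C - C') := by
      intro t t0 t1
      rcases le_total t τ with h | h
      · have := l1 t t0 h
        rwa [e1 t t0 h] at this
      · refine (gr τ t le_rfl h t1).trans ((mul_le_mul' le_rfl l2).trans (le_of_eq ?_))
        rw [← mul_assoc, ← ENNReal.ofReal_mul hK.le]
    refine ⟨sup, ?_⟩
    -- the final time
    by_cases hz : W0 (C - C') = 0
    · have := sup T hT0.le le_rfl
      rw [hz, mul_zero] at this
      exact this.trans zero_le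
    have hfin : W0 (C - C') ≠ ⊤ :=
      ne_top_of_le_ne_top (ENNReal.add_ne_top.2 ⟨ne_top_of_le_ne_top ENNReal.ofReal_ne_top hCW,
        ne_top_of_le_ne_top ENNReal.ofReal_ne_top hCW'⟩) (W0_sub C C')
    set d := (W0 (C - C')).toReal with hd
    have hde : W0 (C - C') = ENNReal.ofReal d := (ENNReal.ofReal_toReal hfin).symm
    have hd0 : 0 < d := ENNReal.toReal_pos hz hfin
    set F : Fam := Bt u - Bt u' with hF
    have cF : CF F := fun k => (hu.btc k).sub (hu'.btc k)
    have zF : ∀ t, F 0 t = 0 := fun t => by simp [hF, Bt, Bf_zero]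
    have mu := meas_W0 hu.cf
    have mu' := meas_W0 hu'.cf
    set K1 := pK c β * (2 * pK c β) with hK1def
    have hK10 : 0 < K1 := by positivity
    set X := 2 * (C0 * K1 * (β + 1)) * d / N with hX
    have hX0 : 0 < X := by positivity
    have hFi : ∫⁻ t in Ioc 0 T, N1 (at' F t) ≤ ENNReal.ofReal X := by
      calc _ ≤ ∫⁻ t in Ioc 0 T, ENNReal.ofReal (C0 * (K1 * d)) * (W0 (at' u t) + W0 (at' u' t)) := by
            refine setLIntegral_mono' measurableSet_Ioc fun t ht => ?_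
            refine (N1_btdiff hu.dom hu'.dom t).trans ?_
            rw [ENNReal.ofReal_mul hC0.le, mul_assoc]
            refine mul_le_mul' le_rfl (mul_le_mul' ?_ le_rfl)
            refine (sup t ht.1.le ht.2).trans ?_
            rw [hde, ← ENNReal.ofReal_mul hK10.le]
        _ = ENNReal.ofReal (C0 * (K1 * d)) * ((∫⁻ t in Ioc 0 T, W0 (at' u t))
            + ∫⁻ t in Ioc 0 T, W0 (at' u' t)) := by
            rw [lintegral_const_mul _ (by fun_prop), lintegral_add_left mu]
        _ ≤ ENNReal.ofReal (C0 * (K1 * d)) * (ENNReal.ofReal ((β + 1) / N) + ENNReal.ofReal ((β + 1) / N)) :=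
            mul_le_mul' le_rfl (add_le_add (int' hC hCW u hu hui) (int' hC' hCW' u' hu' hui'))
        _ = _ := by
            rw [← ENNReal.ofReal_add (by positivity) (by positivity), ← ENNReal.ofReal_mul (by positivity)]
            congr 1
            rw [hX]; ring
    have hW := (duh_W0sq hc cF zF hT0.le).trans (mul_le_mul' le_rfl (pow_le_pow_left₀ zero_le hFi 2))
    rw [← ENNReal.ofReal_pow hX0.le, ← ENNReal.ofReal_mul (by positivity)] at hW
    have hW2 : ∫⁻ t in Ioc (T / 2) T, W0 (at' (Duh c F) t) ^ 2 ≤ ENNReal.ofReal (1 / c * X ^ 2) :=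
      (lintegral_mono_set (Ioc_subset_Ioc_left (by positivity))).trans hW
    obtain ⟨s, hs, hsW⟩ := exists_time (Y := d ^ 2) (by linarith) (by positivity) (by
      have h9 := P.a9
      have e : T - T / 2 = T / 2 := by ring
      rw [e]
      have e3 : 1 / c * X ^ 2 = 4 * (C0 * K1 * (β + 1)) ^ 2 * d ^ 2 / (c * (N : ℝ) ^ 2) := by
        rw [hX]; field_simp; norm_num
      have e4 : d ^ 2 * (T / 2) = (c * L) / 2 * d ^ 2 / (c * (N : ℝ) ^ 2) := by
        rw [hT]; field_simp
      rw [e3, e4]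
      apply div_lt_div_of_pos_right _ (by positivity)
      apply mul_lt_mul_of_pos_right _ (by positivity)
      linarith) hW2
    have hsW' : W0 (at' (Duh c F) s) ≤ ENNReal.ofReal d := by
      rw [ENNReal.ofReal_pow hd0.le] at hsW
      exact (ENNReal.pow_le_pow_left_iff (by norm_num)).1 hsW
    have hs0 : 0 ≤ s := by
      have := hs.1
      linarith
    have hds : W0 (at' (u - u') s) ≤ ENNReal.ofReal (2 * d) := by
      have e5 : at' (u - u') s = at' (Ht c (C - C')) s + at' (Duh c F) s := by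
        funext k
        have q1 := hu.diff hu' k hs0 hs.2
        have q2 : u k 0 - u' k 0 = C k - C' k := by
          have a1 := congrFun hui k
          have a2 := congrFun hui' k
          show at' u 0 k - at' u' 0 k = _
          rw [a1, a2]
          show (om k 0 + V k + C k) - (om k 0 + V k + C' k) = _
          abel
        rw [q2] at q1
        show (u - u') k s = Real.exp (-(c * sq k * max s 0)) • (C k - C' k) + Duh c F k s
        rw [q1, max_eq_left hs0]
      rw [e5]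
      refine (W0_add _ _).trans ((add_le_add (heat_W0_le hc.le _ hs0) hsW').trans (le_of_eq ?_))
      rw [hde, ← ENNReal.ofReal_add hd0.le hd0.le]
      congr 1; ring
    refine (gr s T (by have := hs.1; linarith) hs.2 le_rfl).trans ((mul_le_mul' le_rfl hds).trans (le_of_eq ?_))
    rw [hde, ← ENNReal.ofReal_mul hK.le, ← ENNReal.ofReal_mul (by positivity)]
    congr 1; ring
  · -- decay
    have hz : W0 (0 : K → C3) ≤ ENNReal.ofReal (δ * N) := by rw [W0_zero]; exact zero_le
    have hui' : at' u 0 = at' om 0 + V + 0 := by rw [hui, add_zero]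
    obtain ⟨h1, h2, h3, h4⟩ := key2 Nice.zero hz u hu hui'
    have hi := int' Nice.zero hz u hu hui'
    have hi2 : ∫⁻ t in Ioc (T / 2) T, W0 (at' u t) ≤ ENNReal.ofReal ((β + 1) / N) :=
      (lintegral_mono_set (Ioc_subset_Ioc_left (by positivity))).trans hi
    obtain ⟨s, hs, hsW⟩ := exists_time (Y := η * N / pK c β) (by linarith) (by positivity) (by
      have h8 := P.a8
      have e : T - T / 2 = T / 2 := by ring
      rw [e, hT]
      have e4 : η * N / pK c β * (L / (N : ℝ) ^ 2 / 2) = (η * L) / (2 * pK c β) / N := by field_simp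
      rw [e4]
      apply div_lt_div_of_pos_right _ hN0
      rw [lt_div_iff₀ (by positivity)]
      linarith) hi2
    have := h4.gron' P hS0.le h3 (s := s - τ) (t := T - τ) (by have := hs.1; linarith) (by linarith [hs.2]) le_rfl
    rw [sf_eq (t := s - τ) (by have := hs.1; linarith) (by linarith [hs.2]), sf_eq (t := T - τ) (by linarith) le_rfl,
      add_sub_cancel, add_sub_cancel] at this
    refine this.trans ((mul_le_mul' le_rfl hsW).trans (le_of_eq ?_))
    rw [← ENNReal.ofReal_mul hK.le]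
    congr 1; field_simp

/-- Chains of profiles. -/
inductive Chain (c β R : ℝ) : ℕ → (K → C3) → Prop
  | nil {N : ℕ} (hN : 1 ≤ N) : Chain c β R N 0
  | cons {N M : ℕ} {V : K → C3} {om : Fam} (hN : 1 ≤ N) (hd : N ∣ M) (hR : R * N ≤ M) (ho : Prof c β N om)
      (h : Chain c β R M V) : Chain c β R N (at' om 0 + V)

theorem Chain.good (P : UP c β L θ ρ η δ R) {N : ℕ} {V : K → C3} (h : Chain c β R N V) : Good c β L η δ N V := by
  induction h with
  | nil hN => exact good_zero P hN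
  | cons hN hd hR ho _ ih => exact ih.step P hN hd hR ho

end

end Pool.Agent.H356R3.NS.H1SS
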