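import Pool.Agent.H1SS.HWinX

open MeasureTheory Set Filter Topology
open scoped ENNReal NNReal ContDiff

namespace Pool.Agent.H356R3.NS.H1SS

/-- supported on the lattice `N ℤ³` -/
def Lat (N : ℕ) (V : K → C3) : Prop := ∀ k, V k ≠ 0 → ∀ i, (N : ℤ) ∣ k i

lemma Lat.add {N : ℕ} {V V' : K → C3} (h : Lat N V) (h' : Lat N V') : Lat N (V + V') := by
  intro k hk i
  by_cases h1 : V k = 0
  · refine h' k ?_ i
    intro h2
    apply hk
    show V k + V' k = 0
    rw [h1, h2, add_zero]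
  · exact h k h1 i

lemma Lat.zero {N : ℕ} : Lat N 0 := fun _ hk => absurd rfl hk

lemma Lat.mono {N M : ℕ} (h : N ∣ M) {V : K → C3} (hV : Lat M V) : Lat N V :=
  fun k hk i => (Int.natCast_dvd_natCast.2 h).trans (hV k hk i)

lemma nk_ge_of_lat {N : ℕ} {k : K} (hk : k ≠ 0) (h : ∀ i, (N : ℤ) ∣ k i) : (N : ℝ) ≤ nk k := by
  obtain ⟨i, hi⟩ := Function.ne_iff.1 hk
  have h1 : (N : ℤ) ≤ |k i| := by
    have h2 : (N : ℤ) ∣ |k i| := (dvd_abs _ _).2 (h i)
    exact Int.le_of_dvd (abs_pos.2 hi) h2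
  have h3 : (N : ℝ) ≤ |(k i : ℝ)| := by exact_mod_cast h1
  exact h3.trans (abs_le_nk k i)

lemma N1_le_of_lat {N : ℕ} (hN : 1 ≤ N) {V : K → C3} (h0 : V 0 = 0) (h : Lat N V) :
    N1 V ≤ ENNReal.ofReal (1 / N) * W0 V := by
  have hN0 : (0 : ℝ) < N := by exact_mod_cast hN
  unfold N1 W0 NW
  rw [← ENNReal.tsum_mul_left]
  refine ENNReal.tsum_le_tsum fun k => ?_
  by_cases hk : V k = 0
  · rw [hk]; simp
  apply mul_le_mul' _ le_rfl
  apply ENNReal.ofReal_le_ofReal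
  have hk0 : k ≠ 0 := by
    intro h'; subst h'; exact hk h0
  exact one_div_le_one_div_of_le hN0 (nk_ge_of_lat hk0 (h k hk))

lemma N1_le_W0 {V : K → C3} : N1 V ≤ W0 V := by
  unfold N1 W0 NW
  refine ENNReal.tsum_le_tsum fun k => ?_
  calc ENNReal.ofReal (1 / nk k) * ‖V k‖ₑ ≤ 1 * ‖V k‖ₑ := by
        apply mul_le_mul' _ le_rfl
        rw [ENNReal.ofReal_le_one]
        by_cases hk : k = 0
        · subst hk; simp [nk_zero]
        · rw [div_le_one (nk_pos hk)]; exact one_le_nk hk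
    _ = _ := one_mul _

/-- phase -/
noncomputable def ph (N : ℕ) (i : Fin 3) (k : K) : ℂ := Complex.exp (2 * Real.pi * Complex.I * ((k i : ℂ) / (N : ℂ)))

lemma ph_mul (N : ℕ) (i : Fin 3) (k l : K) : ph N i l * ph N i (k - l) = ph N i k := by
  unfold ph
  rw [← Complex.exp_add]
  congr 1
  simp only [Pi.sub_apply]
  push_cast
  ring

lemma ph_norm (N : ℕ) (i : Fin 3) (k : K) : ‖ph N i k‖ = 1 := by
  unfold ph
  have e : 2 * Real.pi * Complex.I * ((k i : ℂ) / (N : ℂ)) = ((2 * Real.pi * ((k i : ℝ) / (N : ℝ)) : ℝ) : ℂ) * Complex.I := by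
    push_cast; ring
  rw [e]
  exact Complex.norm_exp_ofReal_mul_I _

lemma ph_neg (N : ℕ) (i : Fin 3) (k : K) : ph N i (-k) = star (ph N i k) := by
  unfold ph
  rw [Complex.star_def, ← Complex.exp_conj]
  congr 1
  simp only [map_mul, map_div₀, Complex.conj_I, Complex.conj_ofReal, Pi.neg_apply, Int.cast_neg]
  have h1 : (starRingEnd ℂ) (k i : ℂ) = (k i : ℂ) := by
    simp
  have h2 : (starRingEnd ℂ) (N : ℂ) = (N : ℂ) := by
    simp
  have h3 : (starRingEnd ℂ) (2 : ℂ) = 2 := Complex.conj_ofNat 2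
  rw [h1, h2, h3]
  ring

lemma ph_one {N : ℕ} (hN : 1 ≤ N) {i : Fin 3} {k : K} (h : (N : ℤ) ∣ k i) : ph N i k = 1 := by
  obtain ⟨n, hn⟩ := h
  have hN0 : (N : ℂ) ≠ 0 := by exact_mod_cast (by omega : N ≠ 0)
  unfold ph
  rw [Complex.exp_eq_one_iff]
  refine ⟨n, ?_⟩
  rw [hn]
  push_cast
  field_simp

lemma dvd_of_ph {N : ℕ} (hN : 1 ≤ N) {i : Fin 3} {k : K} (h : ph N i k = 1) : (N : ℤ) ∣ k i := by
  have hN0 : (N : ℂ) ≠ 0 := by exact_mod_cast (by omega : N ≠ 0)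
  unfold ph at h
  rw [Complex.exp_eq_one_iff] at h
  obtain ⟨n, hn⟩ := h
  refine ⟨n, ?_⟩
  have h2 : (2 * Real.pi * Complex.I : ℂ) ≠ 0 := by
    have : (Real.pi : ℂ) ≠ 0 := by exact_mod_cast Real.pi_ne_zero
    simp [this, Complex.I_ne_zero]
  have h3 : (k i : ℂ) / (N : ℂ) = n := by
    have h4 : 2 * Real.pi * Complex.I * ((k i : ℂ) / (N : ℂ)) = 2 * Real.pi * Complex.I * (n : ℂ) := by
      rw [hn]; ring
    exact mul_left_cancel₀ h2 h4
  rw [div_eq_iff hN0] at h3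
  have h5 : (k i : ℂ) = ((n * (N : ℤ) : ℤ) : ℂ) := by rw [h3]; push_cast; ring
  have h6 : k i = n * (N : ℤ) := by exact_mod_cast h5
  rw [h6, mul_comm]

lemma Bf_ph (N : ℕ) (i : Fin 3) (x y : K → C3) (k : K) :
    Bf (fun k => ph N i k • x k) (fun k => ph N i k • y k) k = ph N i k • Bf x y k := by
  funext m
  unfold Bf cv
  rw [Pi.smul_apply, smul_eq_mul, Finset.mul_sum]
  refine Finset.sum_congr rfl fun j _ => ?_
  rw [Finset.mul_sum]
  refine Finset.sum_congr rfl fun n _ => ?_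
  have e : ∀ l, (ph N i l • x l) j * (ph N i (k - l) • y (k - l)) n = ph N i k * (x l j * y (k - l) n) := by
    intro l
    rw [← ph_mul N i k l]
    simp only [Pi.smul_apply, smul_eq_mul]
    ring
  simp only [e]
  rw [tsum_mul_left]
  ring

lemma HSol.phase {c T : ℝ} {u : Fam} (h : HSol c T u) (N : ℕ) (i : Fin 3) :
    HSol c T (fun k t => ph N i k • u k t) where
  cf := fun k => by
    have := h.cf k
    show Continuous fun t => ph N i k • u k t
    exact this.const_smul (ph N i k)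
  z := fun t => by simp only [h.z, smul_zero]
  sym := fun t k j => by
    show (ph N i (-k) • u (-k) t) j = star ((ph N i k • u k t) j)
    rw [ph_neg, Pi.smul_apply, Pi.smul_apply, smul_eq_mul, smul_eq_mul, star_mul', show u (-k) t j = _ from h.sym t k j]
    rfl
  cl := fun k t => by simp only [h.cl]
  pb := fun m => by
    obtain ⟨M, hM, hb⟩ := h.pb m
    refine ⟨M, hM, fun k t => ?_⟩
    rw [norm_smul, ph_norm, one_mul]
    exact hb k t
  eq := fun k t t0 t1 => by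
    have e : ∀ s, GG c (fun k t => ph N i k • u k t) k s = ph N i k • GG c u k s := by
      intro s
      show -(c * sq k) • (ph N i k • u k s) + Bf (fun k => ph N i k • u k s) (fun k => ph N i k • u k s) k
        = ph N i k • (-(c * sq k) • u k s + Bf (fun k => u k s) (fun k => u k s) k)
      rw [Bf_ph, smul_add, smul_comm]
    simp only [e]
    rw [intervalIntegral.integral_smul, ← smul_add, ← h.eq k t t0 t1]

lemma HSol.lat {c T : ℝ} (hc : 0 < c) (hT : 0 ≤ T) {u : Fam} (h : HSol c T u) {N : ℕ} (hN : 1 ≤ N)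
    (h0 : Lat N (at' u 0)) (t : ℝ) : Lat N (at' u t) := by
  intro k hk i
  have h1 := (h.phase N i).unique hc hT h (by
    funext k
    show ph N i k • u k 0 = u k 0
    by_cases hk : u k 0 = 0
    · rw [hk, smul_zero]
    · rw [ph_one hN (h0 k hk i), one_smul])
  have h2 : ph N i k • u k t = u k t := congrFun (congrFun h1 k) t
  apply dvd_of_ph hN
  have hk' : u k t ≠ 0 := hk
  obtain ⟨j, hj⟩ := Function.ne_iff.1 hk'
  have h3 := congrFun h2 j
  rw [Pi.smul_apply, smul_eq_mul] at h3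
  have h4 : u k t j ≠ 0 := hj
  exact mul_right_cancel₀ h4 (by rw [h3, one_mul])

/-! ### Elementary inequalities in `[0, ∞]` -/

lemma two_mul_le_sq (x y : ℝ≥0∞) : 2 * (x * y) ≤ x ^ 2 + y ^ 2 := by
  rcases le_total x y with hxy | hxy
  · obtain ⟨d, hd⟩ := exists_add_of_le hxy
    rw [hd]
    calc 2 * (x * (x + d)) ≤ 2 * (x * (x + d)) + d ^ 2 := le_self_add
      _ = x ^ 2 + (x + d) ^ 2 := by ring
  · obtain ⟨d, hd⟩ := exists_add_of_le hxy
    rw [hd]
    calc 2 * ((y + d) * y) ≤ 2 * ((y + d) * y) + d ^ 2 := le_self_add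
      _ = (y + d) ^ 2 + y ^ 2 := by ring

lemma sq2 (x y : ℝ≥0∞) : (x + y) ^ 2 ≤ 2 * (x ^ 2 + y ^ 2) := by
  calc (x + y) ^ 2 = x ^ 2 + y ^ 2 + 2 * (x * y) := by ring
    _ ≤ x ^ 2 + y ^ 2 + (x ^ 2 + y ^ 2) := add_le_add le_rfl (two_mul_le_sq x y)
    _ = _ := by ring

lemma sq3 (x y z : ℝ≥0∞) : (x + y + z) ^ 2 ≤ 3 * (x ^ 2 + y ^ 2 + z ^ 2) := by
  calc (x + y + z) ^ 2 = x ^ 2 + y ^ 2 + z ^ 2 + 2 * (x * y) + 2 * (y * z) + 2 * (x * z) := by ring
    _ ≤ x ^ 2 + y ^ 2 + z ^ 2 + (x ^ 2 + y ^ 2) + (y ^ 2 + z ^ 2) + (x ^ 2 + z ^ 2) := by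
        gcongr <;> exact two_mul_le_sq _ _
    _ = _ := by ring

lemma yng {s : ℝ} (hs : 0 < s) (f : ℝ≥0∞) : f ≤ ENNReal.ofReal (s / 2) * f ^ 2 + ENNReal.ofReal (1 / (2 * s)) := by
  by_cases hf : f = ⊤
  · subst hf
    have h1 : ENNReal.ofReal (s / 2) ≠ 0 := by simpa using hs
    rw [ENNReal.top_pow (by norm_num), ENNReal.mul_top h1]
    simp
  · obtain ⟨x, hx, rfl⟩ : ∃ x : ℝ, 0 ≤ x ∧ f = ENNReal.ofReal x :=
      ⟨f.toReal, ENNReal.toReal_nonneg, (ENNReal.ofReal_toReal hf).symm⟩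
    rw [← ENNReal.ofReal_pow hx, ← ENNReal.ofReal_mul (by positivity), ← ENNReal.ofReal_add (by positivity) (by positivity)]
    apply ENNReal.ofReal_le_ofReal
    have : s / 2 * x ^ 2 + 1 / (2 * s) - x = 1 / (2 * s) * (s * x - 1) ^ 2 := by field_simp; ring
    have h2 : 0 ≤ 1 / (2 * s) * (s * x - 1) ^ 2 := by positivity
    linarith

/-- Cauchy-Schwarz in time -/
lemma cs {f : ℝ → ℝ≥0∞} (hf : Measurable f) {T X : ℝ} (hT : 0 < T) (hX : 0 < X)
    (h : ∫⁻ t in Ioc 0 T, f t ^ 2 ≤ ENNReal.ofReal (X ^ 2)) :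
    ∫⁻ t in Ioc 0 T, f t ≤ ENNReal.ofReal (Real.sqrt T * X) := by
  have hs : 0 < Real.sqrt T := Real.sqrt_pos.2 hT
  have hss : Real.sqrt T * Real.sqrt T = T := Real.mul_self_sqrt hT.le
  set s := Real.sqrt T / X with hsd
  have hs0 : 0 < s := by positivity
  calc _ ≤ ∫⁻ t in Ioc 0 T, (ENNReal.ofReal (s / 2) * f t ^ 2 + ENNReal.ofReal (1 / (2 * s))) :=
        lintegral_mono fun t => yng hs0 _
    _ = ENNReal.ofReal (s / 2) * (∫⁻ t in Ioc 0 T, f t ^ 2) + ENNReal.ofReal (1 / (2 * s)) * ENNReal.ofReal T := by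
        rw [lintegral_add_left ((hf.pow_const 2).const_mul _), lintegral_const_mul _ (hf.pow_const 2),
          setLIntegral_const, Real.volume_Ioc, sub_zero]
    _ ≤ ENNReal.ofReal (s / 2) * ENNReal.ofReal (X ^ 2) + ENNReal.ofReal (1 / (2 * s)) * ENNReal.ofReal T :=
        add_le_add (mul_le_mul' le_rfl h) le_rfl
    _ = _ := by
        rw [← ENNReal.ofReal_mul (by positivity), ← ENNReal.ofReal_mul (by positivity),
          ← ENNReal.ofReal_add (by positivity) (by positivity)]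
        congr 1
        rw [hsd]
        have : 1 / (2 * (Real.sqrt T / X)) * T = Real.sqrt T * X / 2 := by
          have e1 : 1 / (2 * (Real.sqrt T / X)) * T = X * T / (2 * Real.sqrt T) := by field_simp
          rw [e1, div_eq_div_iff (by positivity) (by norm_num)]
          linear_combination (-2 * X) * hss
        rw [this]; field_simp; ring

end Pool.Agent.H356R3.NS.H1SS
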