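import Pool.Agent.H1SS.HLat

open MeasureTheory Set Filter Topology
open scoped ENNReal NNReal ContDiff

namespace Pool.Agent.H356R3.NS.H1SS

/-- bound for the square integral -/
noncomputable def pA (β : ℝ) : ℝ := 3 * (β ^ 2 + 2)
/-- bound for the integral of the norm with weight `|k|` -/
noncomputable def pB (c β : ℝ) : ℝ := (β + 1) / c + 1 + C0 / c * pA β
/-- the growth factor on a window -/
noncomputable def pK (c β : ℝ) : ℝ := Real.exp (2 * (C0 ^ 2 / (2 * c) * pA β + C0 * pB c β))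
/-- the factor of the remainder -/
noncomputable def pE (c β : ℝ) : ℝ := Real.exp (La c * (2 * β ^ 2 + 4))

/-- the parameters -/
structure UP (c β L θ ρ η δ R : ℝ) : Prop where
  hc : 0 < c
  hβ : 0 ≤ β
  hL : 0 < L
  hθ : 0 < θ
  hθ1 : θ ≤ 1
  hρ : 0 < ρ
  hη : 0 < η
  hη1 : η ≤ 1 / 2
  hδ : 0 < δ
  hR : 2 ≤ R
  a1 : C0 * (θ * (β ^ 2 + 2)) < ρ / 4
  a2 : ρ ≤ thr c (2 * β ^ 2 + 4)
  a3 : 2 * (L * δ ^ 2) + 8 * η ^ 2 / c ≤ θ ^ 2
  a4 : Real.sqrt L * (θ + pE c β * ρ / Real.sqrt c) ≤ 1 / 2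
  a5 : pE c β * ρ / Real.sqrt c ≤ 1
  a6 : Real.sqrt (L / c) * δ ≤ 1
  a8 : 2 * (β + 1) * pK c β < η * L
  a9 : 8 * (C0 * (pK c β * (2 * pK c β)) * (β + 1)) ^ 2 < c * L
  r1 : β + δ ≤ δ * R
  r2 : 2 * (β + 1) ≤ R
  r3 : 2 * (C0 * (pK c β * (2 * pK c β)) * (β + 1)) * (β + δ) / R + C0 * β ^ 2 * L / R ^ 2 ≤ η

lemma pA_nonneg (β : ℝ) : 0 ≤ pA β := by unfold pA; positivity
lemma pB_nonneg {c β : ℝ} (hc : 0 < c) (hβ : 0 ≤ β) : 0 ≤ pB c β := by
  have := pA_nonneg β
  have := C0_pos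
  unfold pB; positivity
lemma pK_pos (c β : ℝ) : 0 < pK c β := Real.exp_pos _
lemma one_le_pK {c β : ℝ} (hc : 0 < c) (hβ : 0 ≤ β) : 1 ≤ pK c β := by
  unfold pK
  rw [Real.one_le_exp_iff]
  have := pA_nonneg β
  have := pB_nonneg hc hβ
  have := C0_pos
  positivity
lemma pE_pos (c β : ℝ) : 0 < pE c β := Real.exp_pos _

/-- The parameters exist. -/
theorem exists_par {c β : ℝ} (hc : 0 < c) (hβ : 0 ≤ β) : ∃ L θ ρ η δ R0 : ℝ, ∀ R, R0 ≤ R → UP c β L θ ρ η δ R := by
  have hC := C0_pos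
  have hK := pK_pos c β
  have hE := pE_pos c β
  have hsc : 0 < Real.sqrt c := Real.sqrt_pos.2 hc
  have hsc2 : Real.sqrt c ^ 2 = c := Real.sq_sqrt hc.le
  -- as functions of L
  set a := 4 * (β + 1) * pK c β with ha
  have ha0 : 0 < a := by positivity
  set bt := 4 * a / Real.sqrt c with hbt
  have hbt0 : 0 < bt := by positivity
  set br := 8 * C0 * (β ^ 2 + 2) * bt with hbr
  have hbr0 : 0 < br := by positivity
  have t0 : Tendsto (fun L : ℝ => 1 / L) atTop (𝓝 0) := by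
    simpa using tendsto_inv_atTop_zero (𝕜 := ℝ)
  have tm : ∀ x : ℝ, Tendsto (fun L : ℝ => x * (1 / L)) atTop (𝓝 0) := fun x => by
    have := t0.const_mul x
    rwa [mul_zero] at this
  have ts : Tendsto (fun L : ℝ => Real.sqrt L * (1 / L)) atTop (𝓝 0) := by
    have h1 : Tendsto (fun L : ℝ => 1 / Real.sqrt L) atTop (𝓝 0) := by
      have := tendsto_inv_atTop_zero.comp Real.tendsto_sqrt_atTop
      simpa [Function.comp_def] using this
    refine h1.congr' ?_
    filter_upwards [eventually_gt_atTop 0] with L hL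
    have h2 : Real.sqrt L * Real.sqrt L = L := Real.mul_self_sqrt hL.le
    have h3 : 0 < Real.sqrt L := Real.sqrt_pos.2 hL
    rw [mul_one_div, div_eq_div_iff h3.ne' hL.ne']
    rw [one_mul, h2]
  have e1 := (tm a).eventually_le_const (show (0 : ℝ) < 1 / 2 by norm_num)
  have e2 := (tm bt).eventually_le_const (show (0 : ℝ) < 1 by norm_num)
  have e3 := (tm br).eventually_le_const (thr_pos hc (2 * β ^ 2 + 4))
  have e4 : ∀ᶠ L : ℝ in atTop, (bt + pE c β * br / Real.sqrt c) * (Real.sqrt L * (1 / L)) ≤ 1 / 2 := by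
    have := ts.const_mul (bt + pE c β * br / Real.sqrt c)
    rw [mul_zero] at this
    exact this.eventually_le_const (by norm_num)
  have e5 := (tm (pE c β * br / Real.sqrt c)).eventually_le_const (show (0 : ℝ) < 1 by norm_num)
  have e6 := eventually_gt_atTop (8 * (C0 * (pK c β * (2 * pK c β)) * (β + 1)) ^ 2 / c)
  have e7 := eventually_gt_atTop (0 : ℝ)
  obtain ⟨L, ⟨⟨⟨⟨⟨h1, h2⟩, h3⟩, h4⟩, h5⟩, h6⟩, hL⟩ :=
    ((((((e1.and e2).and e3).and e4).and e5).and e6).and e7).exists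
  set η := a * (1 / L) with hη
  set θ := bt * (1 / L) with hθ
  set ρ := br * (1 / L) with hρ
  have hη0 : 0 < η := by positivity
  have hθ0 : 0 < θ := by positivity
  have hρ0 : 0 < ρ := by positivity
  have hsL : 0 < Real.sqrt (L / c) := Real.sqrt_pos.2 (by positivity)
  set δ := min (1 / Real.sqrt (L / c)) (θ / (2 * Real.sqrt L)) with hδ
  have hsL' : 0 < Real.sqrt L := Real.sqrt_pos.2 hL
  have hsL2 : Real.sqrt L ^ 2 = L := Real.sq_sqrt hL.le
  have hδ0 : 0 < δ := lt_min (by positivity) (by positivity)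
  -- large R
  have tR : Tendsto (fun R : ℝ => 2 * (C0 * (pK c β * (2 * pK c β)) * (β + 1)) * (β + δ) / R
      + C0 * β ^ 2 * L / R ^ 2) atTop (𝓝 0) := by
    have q1 : Tendsto (fun R : ℝ => 2 * (C0 * (pK c β * (2 * pK c β)) * (β + 1)) * (β + δ) / R) atTop (𝓝 0) :=
      tendsto_const_nhds.div_atTop tendsto_id
    have q2 : Tendsto (fun R : ℝ => C0 * β ^ 2 * L / R ^ 2) atTop (𝓝 0) :=
      tendsto_const_nhds.div_atTop (tendsto_pow_atTop (by norm_num))
    have := q1.add q2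
    rwa [add_zero] at this
  have f1 := tR.eventually_le_const hη0
  have f2 := eventually_ge_atTop (2 : ℝ)
  have f3 := eventually_ge_atTop ((β + δ) / δ)
  have f4 := eventually_ge_atTop (2 * (β + 1))
  obtain ⟨R0, hR0⟩ := (((f1.and f2).and f3).and f4).exists_forall_of_atTop
  refine ⟨L, θ, ρ, η, δ, R0, fun R hR => ?_⟩
  obtain ⟨⟨⟨g1, g2⟩, g3⟩, g4⟩ := hR0 R hR
  refine ⟨hc, hβ, hL, hθ0, h2, hρ0, hη0, h1, hδ0, g2, ?_, h3, ?_, ?_, ?_, ?_, ?_, ?_, ?_, g4, g1⟩
  · -- a1
    have : ρ = 8 * C0 * (β ^ 2 + 2) * θ := by rw [hρ, hbr, hθ]; ring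
    rw [this]
    have : 0 < C0 * (θ * (β ^ 2 + 2)) := by positivity
    nlinarith
  · -- a3
    have q1 : δ ≤ θ / (2 * Real.sqrt L) := min_le_right _ _
    have q2 : L * δ ^ 2 ≤ θ ^ 2 / 4 := by
      calc L * δ ^ 2 ≤ L * (θ / (2 * Real.sqrt L)) ^ 2 := by gcongr
        _ = Real.sqrt L ^ 2 * (θ / (2 * Real.sqrt L)) ^ 2 := by rw [hsL2]
        _ = θ ^ 2 / 4 := by field_simp; norm_num
    have q3 : 8 * η ^ 2 / c = θ ^ 2 / 2 := by
      have q4 : bt ^ 2 = 16 * a ^ 2 / c := by rw [hbt, div_pow, hsc2]; ring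
      have q5 : θ ^ 2 = bt ^ 2 * (1 / L) ^ 2 := by rw [hθ]; ring
      rw [q5, q4, hη]
      ring
    linarith
  · -- a4
    refine le_trans (le_of_eq ?_) h4
    rw [hθ, hρ]; ring
  · -- a5
    refine le_trans (le_of_eq ?_) h5
    rw [hρ]; ring
  · -- a6
    have q1 : δ ≤ 1 / Real.sqrt (L / c) := min_le_left _ _
    calc Real.sqrt (L / c) * δ ≤ Real.sqrt (L / c) * (1 / Real.sqrt (L / c)) := by gcongr
      _ = 1 := by field_simp
  · -- a8
    have : η * L = a := by rw [hη]; field_simp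
    rw [this, ha]
    have : 0 < (β + 1) * pK c β := by positivity
    linarith
  · -- a9
    have := (div_lt_iff₀ hc).1 h6
    linarith
  · -- r1
    rw [div_le_iff₀ hδ0] at g3
    linarith

section
variable {c β L θ ρ η δ R : ℝ}

lemma UP.K1 (P : UP c β L θ ρ η δ R) : 1 ≤ pK c β := one_le_pK P.hc P.hβ

/-- the estimates on a window -/
structure WB (c β N T : ℝ) (u : Fam) : Prop where
  i1 : ∫⁻ t in Ioc 0 T, W0 (at' u t) ≤ ENNReal.ofReal ((β + 1 / 2) / N)
  i2 : ∫⁻ t in Ioc 0 T, W0 (at' u t) ^ 2 ≤ ENNReal.ofReal (pA β)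
  iP : ∫⁻ t in Ioc 0 T, nP (at' u t) ≤ ENNReal.ofReal (pB c β)

lemma Ht_add (V V' : K → C3) (t : ℝ) : at' (Ht c (V + V')) t = at' (Ht c V) t + at' (Ht c V') t := by
  funext k
  show Real.exp (-(c * sq k * max t 0)) • (V k + V' k) = _ + _
  rw [smul_add]; rfl

lemma nP_add (x y : K → C3) : nP (x + y) ≤ nP x + nP y := NW_add_le _ _ _

theorem win (P : UP c β L θ ρ η δ R) {N : ℝ} (hN : 0 < N) {T : ℝ} (hT : 0 < T) (hTL : T ≤ L / N ^ 2)
    {b : Fam} (hb : HSol c T b) (hb1 : ∀ t, 0 < t → t ≤ T → W0 (at' b t) ≤ ENNReal.ofReal (β * N))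
    (hb2 : ∫⁻ t in Ioc 0 T, W0 (at' b t) ≤ ENNReal.ofReal (β / N)) (hb3 : N1 (at' b 0) ≤ ENNReal.ofReal β)
    {C ξ : K → C3} (hC : Nice C) (hξ : Nice ξ) (hCW : W0 C ≤ ENNReal.ofReal (δ * N))
    (hξN : N1 ξ ≤ ENNReal.ofReal (2 * η)) :
    (∃ u, HSol c T u ∧ at' u 0 = at' b 0 + (C + ξ)) ∧
      ∀ u, HSol c T u → at' u 0 = at' b 0 + (C + ξ) → WB c β N T u := by
  have hc := P.hc
  have hβ := P.hβ
  have hL := P.hL
  have hθ := P.hθ
  have hρ := P.hρ
  have hη := P.hη
  have hδ := P.hδ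
  have hC0 := C0_pos
  have hE := pE_pos c β
  have hsc : 0 < Real.sqrt c := Real.sqrt_pos.2 hc
  have hsc2 : Real.sqrt c ^ 2 = c := Real.sq_sqrt hc.le
  set H := Ht c (C + ξ) with hH
  have hTN : T * N ^ 2 ≤ L := by rwa [le_div_iff₀ (by positivity)] at hTL
  -- the base solution
  have k1 : ∫⁻ t in Ioc 0 T, W0 (at' b t) ^ 2 ≤ ENNReal.ofReal (β ^ 2) := by
    calc _ ≤ ∫⁻ t in Ioc 0 T, ENNReal.ofReal (β * N) * W0 (at' b t) := by
          refine setLIntegral_mono' measurableSet_Ioc fun t ht => ?_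
          rw [pow_two]
          exact mul_le_mul' (hb1 t ht.1 ht.2) le_rfl
      _ = ENNReal.ofReal (β * N) * ∫⁻ t in Ioc 0 T, W0 (at' b t) := lintegral_const_mul _ (meas_W0 hb.cf)
      _ ≤ ENNReal.ofReal (β * N) * ENNReal.ofReal (β / N) := mul_le_mul' le_rfl hb2
      _ = _ := by
          rw [← ENNReal.ofReal_mul (by positivity)]
          congr 1; field_simp
  -- the heat flow
  have k2 : ∫⁻ t in Ioc 0 T, W0 (at' H t) ^ 2 ≤ ENNReal.ofReal (θ ^ 2) := by
    have m1 : Measurable fun t => W0 (at' (Ht c C) t) ^ 2 := (meas_W0 (Ht_cf c C)).pow_const 2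
    have m2 : Measurable fun t => W0 (at' (Ht c ξ) t) ^ 2 := (meas_W0 (Ht_cf c ξ)).pow_const 2
    have m12 : Measurable fun t => W0 (at' (Ht c C) t) ^ 2 + W0 (at' (Ht c ξ) t) ^ 2 := m1.add m2
    calc _ ≤ ∫⁻ t in Ioc 0 T, 2 * (W0 (at' (Ht c C) t) ^ 2 + W0 (at' (Ht c ξ) t) ^ 2) := by
          refine lintegral_mono fun t => ?_
          rw [hH]
          simp only [Ht_add]
          exact (pow_le_pow_left₀ zero_le (W0_add _ _) 2).trans (sq2 _ _)
      _ = 2 * ((∫⁻ t in Ioc 0 T, W0 (at' (Ht c C) t) ^ 2) + ∫⁻ t in Ioc 0 T, W0 (at' (Ht c ξ) t) ^ 2) := by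
          rw [lintegral_const_mul _ m12, lintegral_add_left m1]
      _ ≤ 2 * (ENNReal.ofReal T * ENNReal.ofReal (δ * N) ^ 2 + ENNReal.ofReal (1 / c) * ENNReal.ofReal (2 * η) ^ 2) := by
          gcongr
          · exact (heat_W0sq' hc C hT.le).trans (mul_le_mul' le_rfl (pow_le_pow_left₀ zero_le hCW 2))
          · exact (heat_W0sq hc hξ.z hT.le).trans (mul_le_mul' le_rfl (pow_le_pow_left₀ zero_le hξN 2))
      _ = ENNReal.ofReal (2 * (T * (δ * N) ^ 2 + 1 / c * (2 * η) ^ 2)) := by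
          rw [← ENNReal.ofReal_pow (by positivity), ← ENNReal.ofReal_pow (by positivity),
            ← ENNReal.ofReal_mul (by positivity), ← ENNReal.ofReal_mul (by positivity),
            ← ENNReal.ofReal_add (by positivity) (by positivity), ENNReal.ofReal_mul (by norm_num)]
          simp
      _ ≤ _ := by
          apply ENNReal.ofReal_le_ofReal
          refine le_trans ?_ P.a3
          have e1 : 2 * (T * (δ * N) ^ 2 + 1 / c * (2 * η) ^ 2) = 2 * (T * N ^ 2 * δ ^ 2) + 8 * η ^ 2 / c := by ring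
          rw [e1]
          gcongr
  obtain ⟨u0, r, hu0, rc, rz, ui, ue, rI⟩ := winX hc hT hb (hC.add hξ) (D1 := β ^ 2) (by positivity) hθ P.hθ1 hρ k1 k2
    P.a1 P.a2
  have hi0 : at' u0 0 = at' b 0 + (C + ξ) := funext ui
  refine ⟨⟨u0, hu0, hi0⟩, fun u hu hui => ?_⟩
  have huu : u = u0 := hu.unique hc hT.le hu0 (hui.trans hi0.symm)
  subst huu
  clear hu0
  have mb := meas_W0 hb.cf
  have mH : Measurable fun t => W0 (at' H t) := meas_W0 (Ht_cf c _)
  have mr := meas_W0 rc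
  set X := pE c β * ρ / Real.sqrt c with hX
  have hX0 : 0 < X := by positivity
  have k3 : ∫⁻ t in Ioc 0 T, W0 (at' r t) ^ 2 ≤ ENNReal.ofReal (X ^ 2) := by
    refine rI.trans (le_of_eq ?_)
    congr 1
    rw [hX, div_pow, hsc2]; rfl
  have hs1 : Real.sqrt T ≤ Real.sqrt L / N := by
    rw [le_div_iff₀ hN]
    have : Real.sqrt T * N = Real.sqrt (T * N ^ 2) := by
      rw [Real.sqrt_mul hT.le, Real.sqrt_sq hN.le]
    rw [this]
    exact Real.sqrt_le_sqrt hTN
  have i2 : ∫⁻ t in Ioc 0 T, W0 (at' u t) ^ 2 ≤ ENNReal.ofReal (pA β) := by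
    calc _ ≤ ∫⁻ t in Ioc 0 T, 3 * (W0 (at' b t) ^ 2 + W0 (at' H t) ^ 2 + W0 (at' r t) ^ 2) := by
          refine setLIntegral_mono' measurableSet_Ioc fun t ht => ?_
          rw [ue t ht.1.le ht.2]
          refine le_trans (pow_le_pow_left₀ zero_le ?_ 2) (sq3 _ _ _)
          exact (W0_add _ _).trans (add_le_add (W0_add _ _) le_rfl)
      _ = 3 * ((∫⁻ t in Ioc 0 T, W0 (at' b t) ^ 2) + (∫⁻ t in Ioc 0 T, W0 (at' H t) ^ 2)
          + ∫⁻ t in Ioc 0 T, W0 (at' r t) ^ 2) := by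
          rw [lintegral_const_mul _ (by fun_prop), lintegral_add_left (by fun_prop), lintegral_add_left (by fun_prop)]
      _ ≤ 3 * (ENNReal.ofReal (β ^ 2) + ENNReal.ofReal (θ ^ 2) + ENNReal.ofReal (X ^ 2)) := by gcongr
      _ = ENNReal.ofReal (3 * (β ^ 2 + θ ^ 2 + X ^ 2)) := by
          rw [← ENNReal.ofReal_add (by positivity) (by positivity), ← ENNReal.ofReal_add (by positivity) (by positivity),
            ENNReal.ofReal_mul (by norm_num)]
          simp
      _ ≤ _ := by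
          apply ENNReal.ofReal_le_ofReal
          unfold pA
          have q1 : θ ^ 2 ≤ 1 := pow_le_one₀ hθ.le P.hθ1
          have q2 : X ^ 2 ≤ 1 := pow_le_one₀ hX0.le P.a5
          linarith
  refine ⟨?_, i2, ?_⟩
  · calc _ ≤ ∫⁻ t in Ioc 0 T, (W0 (at' b t) + W0 (at' H t) + W0 (at' r t)) := by
          refine setLIntegral_mono' measurableSet_Ioc fun t ht => ?_
          rw [ue t ht.1.le ht.2]
          exact (W0_add _ _).trans (add_le_add (W0_add _ _) le_rfl)
      _ = (∫⁻ t in Ioc 0 T, W0 (at' b t)) + (∫⁻ t in Ioc 0 T, W0 (at' H t)) + ∫⁻ t in Ioc 0 T, W0 (at' r t) := by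
          rw [lintegral_add_left (by fun_prop), lintegral_add_left (by fun_prop)]
      _ ≤ ENNReal.ofReal (β / N) + ENNReal.ofReal (Real.sqrt T * θ) + ENNReal.ofReal (Real.sqrt T * X) :=
          add_le_add (add_le_add hb2 (cs mH hT hθ k2)) (cs mr hT hX0 k3)
      _ = ENNReal.ofReal (β / N + Real.sqrt T * θ + Real.sqrt T * X) := by
          rw [← ENNReal.ofReal_add (by positivity) (by positivity), ← ENNReal.ofReal_add (by positivity) (by positivity)]
      _ ≤ _ := by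
          apply ENNReal.ofReal_le_ofReal
          have q1 : Real.sqrt T * (θ + X) ≤ 1 / 2 / N := by
            calc Real.sqrt T * (θ + X) ≤ Real.sqrt L / N * (θ + X) := by gcongr
              _ = Real.sqrt L * (θ + X) / N := by ring
              _ ≤ _ := by
                  apply div_le_div_of_nonneg_right _ hN.le
                  exact P.a4
          have q2 : (β + 1 / 2) / N = β / N + 1 / 2 / N := by ring
          rw [q2]
          linarith
  · have cD : CF (Duh c (Bt u)) := Duh_cont hu.btc c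
    have mD : Measurable fun t => nP (at' (Duh c (Bt u)) t) := NW_meas _ cD
    have mb' : Measurable fun t => nP (at' (Ht c (at' b 0)) t) := NW_meas _ (Ht_cf c _)
    have mC' : Measurable fun t => nP (at' (Ht c C) t) := NW_meas _ (Ht_cf c _)
    have mξ' : Measurable fun t => nP (at' (Ht c ξ) t) := NW_meas _ (Ht_cf c _)
    have hpt : ∀ t, 0 < t → t ≤ T → nP (at' u t) ≤ nP (at' (Ht c (at' b 0)) t) + (nP (at' (Ht c C) t)
        + (nP (at' (Ht c ξ) t) + nP (at' (Duh c (Bt u)) t))) := by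
      intro t t0 t1
      have e : at' u t = at' (Ht c (at' b 0)) t + (at' (Ht c C) t + (at' (Ht c ξ) t + at' (Duh c (Bt u)) t)) := by
        have e1 : at' u t = at' (Ht c (at' u 0)) t + at' (Duh c (Bt u)) t := by
          funext k
          show u k t = Real.exp (-(c * sq k * max t 0)) • u k 0 + Duh c (Bt u) k t
          rw [max_eq_left t0.le]
          exact hu.mild k t0.le t1
        rw [e1, hui, Ht_add, Ht_add]
        abel
      rw [e]
      exact (nP_add _ _).trans (add_le_add le_rfl ((nP_add _ _).trans (add_le_add le_rfl (nP_add _ _))))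
    have hB : ∫⁻ t in Ioc 0 T, N1 (at' (Bt u) t) ≤ ENNReal.ofReal C0 * ENNReal.ofReal (pA β) := by
      calc _ ≤ ∫⁻ t in Ioc 0 T, ENNReal.ofReal C0 * W0 (at' u t) ^ 2 := by
            refine lintegral_mono fun t => ?_
            rw [pow_two]
            exact N1_Bf _ _
        _ = ENNReal.ofReal C0 * ∫⁻ t in Ioc 0 T, W0 (at' u t) ^ 2 :=
            lintegral_const_mul _ ((meas_W0 hu.cf).pow_const 2)
        _ ≤ _ := mul_le_mul' le_rfl i2
    have hsT : Real.sqrt (T / c) * N ≤ Real.sqrt (L / c) := by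
      have : Real.sqrt (T / c) * N = Real.sqrt (T / c * N ^ 2) := by
        rw [Real.sqrt_mul (by positivity), Real.sqrt_sq hN.le]
      rw [this]
      apply Real.sqrt_le_sqrt
      rw [div_mul_eq_mul_div]
      gcongr
    calc _ ≤ ∫⁻ t in Ioc 0 T, (nP (at' (Ht c (at' b 0)) t) + (nP (at' (Ht c C) t)
        + (nP (at' (Ht c ξ) t) + nP (at' (Duh c (Bt u)) t)))) :=
          setLIntegral_mono' measurableSet_Ioc fun t ht => hpt t ht.1 ht.2
      _ = (∫⁻ t in Ioc 0 T, nP (at' (Ht c (at' b 0)) t)) + ((∫⁻ t in Ioc 0 T, nP (at' (Ht c C) t))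
        + ((∫⁻ t in Ioc 0 T, nP (at' (Ht c ξ) t)) + ∫⁻ t in Ioc 0 T, nP (at' (Duh c (Bt u)) t))) := by
          rw [lintegral_add_left mb', lintegral_add_left mC', lintegral_add_left mξ']
      _ ≤ ENNReal.ofReal (1 / c) * ENNReal.ofReal β + (ENNReal.ofReal (Real.sqrt (T / c)) * ENNReal.ofReal (δ * N)
        + (ENNReal.ofReal (1 / c) * ENNReal.ofReal (2 * η) + ENNReal.ofReal (1 / c) *
          (ENNReal.ofReal C0 * ENNReal.ofReal (pA β)))) := by
          refine add_le_add ((heat_nP hc _ hT.le).trans (mul_le_mul' le_rfl hb3)) (add_le_add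
            ((heat_nP' hc _ hT).trans (mul_le_mul' le_rfl hCW)) (add_le_add
            ((heat_nP hc _ hT.le).trans (mul_le_mul' le_rfl hξN)) ?_))
          exact (duh_N1 hc hu.btc hT.le).2.trans (mul_le_mul' le_rfl hB)
      _ = ENNReal.ofReal (1 / c * β + (Real.sqrt (T / c) * (δ * N) + (1 / c * (2 * η) + 1 / c * (C0 * pA β)))) := by
          have := pA_nonneg β
          rw [← ENNReal.ofReal_mul hC0.le, ← ENNReal.ofReal_mul (by positivity), ← ENNReal.ofReal_mul (by positivity),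
            ← ENNReal.ofReal_mul (by positivity), ← ENNReal.ofReal_mul (by positivity),
            ← ENNReal.ofReal_add (by positivity) (by positivity), ← ENNReal.ofReal_add (by positivity) (by positivity),
            ← ENNReal.ofReal_add (by positivity) (by positivity)]
      _ ≤ _ := by
          apply ENNReal.ofReal_le_ofReal
          unfold pB
          have q1 : Real.sqrt (T / c) * (δ * N) ≤ 1 := by
            calc Real.sqrt (T / c) * (δ * N) = Real.sqrt (T / c) * N * δ := by ring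
              _ ≤ Real.sqrt (L / c) * δ := by gcongr
              _ ≤ 1 := P.a6
          have q2 : 1 / c * (2 * η) ≤ 1 / c * 1 := by
            apply mul_le_mul_of_nonneg_left _ (by positivity)
            have := P.hη1
            linarith
          have q3 : (β + 1) / c + 1 + C0 / c * pA β = 1 / c * β + (1 + (1 / c * 1 + 1 / c * (C0 * pA β))) := by ring
          rw [q3]
          linarith

end

end Pool.Agent.H356R3.NS.H1SS
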