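import Pool.Agent.H1SS.SupF

open MeasureTheory Set Filter Topology
open scoped ENNReal NNReal ContDiff

namespace Pool.Agent.H356R3.NS.H1SS

/-! ### Solutions on finite time intervals -/

/-- clamping of time -/
noncomputable def clp (T t : ℝ) : ℝ := max 0 (min t T)

lemma clp_cont (T : ℝ) : Continuous (clp T) := by unfold clp; fun_prop

lemma clp_id {T t : ℝ} (h0 : 0 ≤ t) (h1 : t ≤ T) : clp T t = t := by
  unfold clp; rw [min_eq_left h1, max_eq_right h0]

lemma clp_nonneg (T t : ℝ) : 0 ≤ clp T t := le_max_left _ _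

lemma clp_le {T : ℝ} (hT : 0 ≤ T) (t : ℝ) : clp T t ≤ T := max_le hT (min_le_right _ _)

lemma clp_cl {T : ℝ} (hT : 0 ≤ T) (t : ℝ) : clp T (clp T t) = clp T t := clp_id (clp_nonneg _ _) (clp_le hT t)

lemma clp_neg {T t : ℝ} (_hT : 0 ≤ T) (ht : t ≤ 0) : clp T t = 0 := by
  unfold clp
  exact max_eq_left ((min_le_left _ _).trans ht)

lemma clp_big {T t : ℝ} (hT : 0 ≤ T) (ht : T ≤ t) : clp T t = T := by
  unfold clp
  rw [min_eq_right ht, max_eq_right hT]

/-- the right side of the equation -/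
noncomputable def GG (c : ℝ) (u : Fam) : Fam := fun k t => -(c * sq k) • u k t + Bt u k t

/-- nice data -/
structure Nice (V : K → C3) : Prop where
  z : V 0 = 0
  sym : Sym V
  pb : ∀ m : ℕ, ∃ M : ℝ, 0 ≤ M ∧ ∀ k, pw k ^ m * ‖V k‖ ≤ M

/-- Solutions on `[0, T]`. -/
structure HSol (c T : ℝ) (u : Fam) : Prop where
  cf : CF u
  z : ∀ t, u 0 t = 0
  sym : SymF u
  cl : ∀ k t, u k (clp T t) = u k t
  pb : ∀ m, PB m u
  eq : ∀ k t, 0 ≤ t → t ≤ T → u k t = u k 0 + ∫ s in (0 : ℝ)..t, GG c u k s

section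
variable {c T : ℝ} {u : Fam}

lemma HSol.dom (h : HSol c T u) : Dom u := dom_of_pb (h.pb 4)

lemma HSol.btc (h : HSol c T u) : CF (Bt u) := Bt_cont h.cf h.dom

lemma HSol.ggc (h : HSol c T u) : CF (GG c u) := fun k => by
  have h1 := h.cf k
  have h2 := h.btc k
  exact (by fun_prop : Continuous fun t => -(c * sq k) • u k t + Bt u k t)

lemma HSol.nice (h : HSol c T u) (t : ℝ) : Nice (at' u t) where
  z := h.z t
  sym := h.sym t
  pb := fun m => by
    obtain ⟨M, hM, hb⟩ := h.pb m
    exact ⟨M, hM, fun k => hb k t⟩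

lemma int_of_deriv {f g : ℝ → C3} (hf : Continuous f) (hg : Continuous g)
    (h : ∀ t, 0 < t → t < T → HasDerivAt f (g t) t) {t : ℝ} (h0 : 0 ≤ t) (h1 : t ≤ T) :
    f t = f 0 + ∫ s in (0 : ℝ)..t, g s := by
  have := intervalIntegral.integral_eq_sub_of_hasDerivAt_of_le h0 hf.continuousOn
    (fun s hs => h s hs.1 (lt_of_lt_of_le hs.2 h1)) (hg.intervalIntegrable _ _)
  rw [this]; abel

lemma deriv_of_int {f g : ℝ → C3} (hg : Continuous g)
    (h : ∀ t, 0 ≤ t → t ≤ T → f t = f 0 + ∫ s in (0 : ℝ)..t, g s) {t : ℝ} (h0 : 0 < t) (h1 : t < T) :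
    HasDerivAt f (g t) t := by
  have h2 : HasDerivAt (fun t => f 0 + ∫ s in (0 : ℝ)..t, g s) (g t) t :=
    (intervalIntegral.integral_hasDerivAt_right (hg.intervalIntegrable _ _)
      hg.aestronglyMeasurable.stronglyMeasurableAtFilter hg.continuousAt).const_add _
  refine h2.congr_of_eventuallyEq ?_
  filter_upwards [Ioo_mem_nhds h0 h1] with s hs
  exact h s hs.1.le hs.2.le

lemma HSol.hd (h : HSol c T u) (k : K) {t : ℝ} (h0 : 0 < t) (h1 : t < T) :
    HasDerivAt (u k) (GG c u k t) t := deriv_of_int (h.ggc k) (h.eq k) h0 h1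

lemma hasDeriv_of_mild {F : Fam} (hF : CF F) {k : K} {v : C3} {f : ℝ → C3}
    (h : ∀ t, 0 ≤ t → t ≤ T → f t = Real.exp (-(c * sq k * t)) • v + Duh c F k t) {t : ℝ}
    (h0 : 0 < t) (h1 : t < T) : HasDerivAt f (-(c * sq k) • f t + F k t) t := by
  have h2 : HasDerivAt (fun t => Real.exp (-(c * sq k * t)) • v)
      ((Real.exp (-(c * sq k * t)) * -(c * sq k)) • v) t := by
    have h2 : HasDerivAt (fun u => Real.exp (-(c * sq k * u))) (Real.exp (-(c * sq k * t)) * -(c * sq k)) t := by
      have : HasDerivAt (fun u : ℝ => -(c * sq k * u)) (-(c * sq k)) t := by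
        simpa using ((hasDerivAt_id' t).const_mul (c * sq k)).fun_neg
      exact this.exp
    exact h2.smul_const v
  have h3 := h2.fun_add (Duh_hasDeriv hF c k h0)
  refine (h3.congr_of_eventuallyEq ?_).congr_deriv ?_
  · filter_upwards [Ioo_mem_nhds h0 h1] with s hs
    exact h s hs.1.le hs.2.le
  · rw [h t h0.le h1.le, smul_add, smul_smul, mul_comm]
    abel

lemma mild_of_deriv {F : Fam} {k : K} (hF : Continuous (F k)) {f : ℝ → C3} (hf : Continuous f)
    (hd : ∀ t, 0 < t → t < T → HasDerivAt f (-(c * sq k) • f t + F k t) t) {t : ℝ} (ht : 0 ≤ t) (ht1 : t ≤ T) :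
    f t = Real.exp (-(c * sq k * t)) • f 0 + Duh c F k t := by
  rw [Duh_eq, max_eq_left ht]
  set lam := c * sq k
  have hc : Continuous fun s => Real.exp (lam * s) • F k s := by fun_prop
  have hd' : ∀ s ∈ Ioo 0 t, HasDerivAt (fun s => Real.exp (lam * s) • f s) (Real.exp (lam * s) • F k s) s := by
    intro s hs
    have h1 : HasDerivAt (fun s => Real.exp (lam * s)) (Real.exp (lam * s) * lam) s := by
      have : HasDerivAt (fun u : ℝ => lam * u) lam s := by
        simpa using (hasDerivAt_id' s).const_mul lam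
      exact this.exp
    refine (h1.fun_smul (hd s hs.1 (lt_of_lt_of_le hs.2 ht1))).congr_deriv ?_
    have : (Real.exp (lam * s) * lam) • f s = -((Real.exp (lam * s) * -lam) • f s) := by
      rw [← neg_smul]; congr 1; ring
    rw [smul_add, smul_smul, this]
    abel
  have h2 := intervalIntegral.integral_eq_sub_of_hasDerivAt_of_le ht
    ((by fun_prop : Continuous fun s => Real.exp (lam * s) • f s).continuousOn) hd' (hc.intervalIntegrable _ _)
  rw [h2, smul_sub, smul_smul, ← Real.exp_add]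
  simp

lemma HSol.mild (h : HSol c T u) (k : K) {t : ℝ} (h0 : 0 ≤ t) (h1 : t ≤ T) :
    u k t = Real.exp (-(c * sq k * t)) • u k 0 + Duh c (Bt u) k t :=
  mild_of_deriv (h.btc k) (h.cf k) (fun _ h0 h1 => h.hd k h0 h1) h0 h1

/-- restriction to a shorter interval -/
noncomputable def rs (τ : ℝ) (u : Fam) : Fam := fun k t => u k (clp τ t)

/-- shift in time -/
noncomputable def sf (τ S : ℝ) (u : Fam) : Fam := fun k t => u k (τ + clp S t)

/-- gluing -/
noncomputable def gl (τ : ℝ) (uA uB : Fam) : Fam := fun k t => uA k t + uB k (t - τ) - uA k τ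

lemma pb_comp {m : ℕ} (h : PB m u) (φ : ℝ → ℝ) : PB m (fun k t => u k (φ t)) := by
  obtain ⟨M, hM, hb⟩ := h
  exact ⟨M, hM, fun k t => hb k _⟩

lemma rs_eq {τ t : ℝ} (h0 : 0 ≤ t) (h1 : t ≤ τ) : at' (rs τ u) t = at' u t := by
  funext k; unfold at' rs; rw [clp_id h0 h1]

lemma sf_eq {τ S t : ℝ} (h0 : 0 ≤ t) (h1 : t ≤ S) : at' (sf τ S u) t = at' u (τ + t) := by
  funext k; unfold at' sf; rw [clp_id h0 h1]

lemma HSol.restrict (h : HSol c T u) {τ : ℝ} (h0 : 0 ≤ τ) (h1 : τ ≤ T) : HSol c τ (rs τ u) where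
  cf := fun k => (h.cf k).comp (clp_cont τ)
  z := fun t => h.z _
  sym := fun t => h.sym _
  cl := fun k t => by unfold rs; rw [clp_cl h0]
  pb := fun m => pb_comp (h.pb m) _
  eq := fun k t ht0 ht1 => by
    have e : ∀ s, 0 ≤ s → s ≤ τ → rs τ u k s = u k s := fun s a b => by unfold rs; rw [clp_id a b]
    rw [e t ht0 ht1, e 0 le_rfl h0, h.eq k t ht0 (ht1.trans h1)]
    congr 1
    refine intervalIntegral.integral_congr fun s hs => ?_
    rw [uIcc_of_le ht0] at hs
    have e2 : clp τ s = s := clp_id hs.1 (hs.2.trans ht1)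
    show GG c u k s = -(c * sq k) • u k (clp τ s) + Bt u k (clp τ s)
    rw [e2]; rfl

lemma HSol.shift (h : HSol c T u) {τ : ℝ} (h0 : 0 ≤ τ) (h1 : τ ≤ T) : HSol c (T - τ) (sf τ (T - τ) u) where
  cf := fun k => (h.cf k).comp ((clp_cont (T - τ)).const_add τ)
  z := fun t => h.z _
  sym := fun t => h.sym _
  cl := fun k t => by unfold sf; rw [clp_cl (by linarith)]
  pb := fun m => pb_comp (h.pb m) _
  eq := fun k t ht0 ht1 => by
    have hT : 0 ≤ T - τ := by linarith
    have e : ∀ s, 0 ≤ s → s ≤ T - τ → sf τ (T - τ) u k s = u k (τ + s) := fun s a b => by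
      unfold sf; rw [clp_id a b]
    rw [e t ht0 ht1, e 0 le_rfl hT, add_zero, h.eq k (τ + t) (by linarith) (by linarith), h.eq k τ h0 h1]
    have hc := h.ggc k
    have e2 : ∫ s in (0 : ℝ)..t, GG c (sf τ (T - τ) u) k s = ∫ s in τ..(τ + t), GG c u k s := by
      have e3 : ∫ s in (0 : ℝ)..t, GG c (sf τ (T - τ) u) k s = ∫ s in (0 : ℝ)..t, GG c u k (τ + s) := by
        refine intervalIntegral.integral_congr fun s hs => ?_
        rw [uIcc_of_le ht0] at hs
        have e4 : clp (T - τ) s = s := clp_id hs.1 (hs.2.trans ht1)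
        show -(c * sq k) • u k (τ + clp (T - τ) s) + Bt u k (τ + clp (T - τ) s) = _
        rw [e4]; rfl
      rw [e3, intervalIntegral.integral_comp_add_left (fun s => GG c u k s), add_zero]
    rw [e2, add_assoc, intervalIntegral.integral_add_adjacent_intervals (hc.intervalIntegrable _ _)
      (hc.intervalIntegrable _ _)]

lemma gl_left {τ S t : ℝ} {uA uB : Fam} (hB : HSol c S uB) (hS : 0 ≤ S) (hAB : ∀ k, uB k 0 = uA k τ)
    (ht : t ≤ τ) (k : K) : gl τ uA uB k t = uA k t := by
  unfold gl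
  rw [← hB.cl k (t - τ), clp_neg hS (by linarith), hAB]
  abel

lemma gl_right {τ t : ℝ} {uA uB : Fam} (hA : HSol c τ uA) (hτ : 0 ≤ τ) (ht : τ ≤ t) (k : K) :
    gl τ uA uB k t = uB k (t - τ) := by
  unfold gl
  rw [← hA.cl k t, clp_big hτ ht]
  abel

lemma HSol.glue {τ S : ℝ} {uA uB : Fam} (hA : HSol c τ uA) (hB : HSol c S uB) (hτ : 0 ≤ τ) (hS : 0 ≤ S)
    (hAB : ∀ k, uB k 0 = uA k τ) : HSol c (τ + S) (gl τ uA uB) := by
  have eL : ∀ t, t ≤ τ → at' (gl τ uA uB) t = at' uA t := fun t ht => funext fun k => gl_left hB hS hAB ht k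
  have eR : ∀ t, τ ≤ t → at' (gl τ uA uB) t = at' uB (t - τ) := fun t ht => funext fun k => gl_right hA hτ ht k
  have gL : ∀ k t, t ≤ τ → GG c (gl τ uA uB) k t = GG c uA k t := by
    intro k t ht
    show -(c * sq k) • at' (gl τ uA uB) t k + Bf (at' (gl τ uA uB) t) (at' (gl τ uA uB) t) k = _
    rw [eL t ht]; rfl
  have gR : ∀ k t, τ ≤ t → GG c (gl τ uA uB) k t = GG c uB k (t - τ) := by
    intro k t ht
    show -(c * sq k) • at' (gl τ uA uB) t k + Bf (at' (gl τ uA uB) t) (at' (gl τ uA uB) t) k = _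
    rw [eR t ht]; rfl
  refine ⟨fun k => ?_, fun t => ?_, fun t => ?_, fun k t => ?_, fun m => ?_, fun k t h0 h1 => ?_⟩
  · exact ((hA.cf k).add ((hB.cf k).comp (by fun_prop))).sub continuous_const
  · unfold gl; simp [hA.z, hB.z]
  · rcases le_total t τ with h | h
    · rw [eL t h]; exact hA.sym t
    · rw [eR t h]; exact hB.sym _
  · rcases le_total t (τ + S) with h | h
    · rcases le_total 0 t with h' | h'
      · rw [clp_id h' h]
      · rw [clp_neg (by linarith) h', gl_left hB hS hAB hτ, gl_left hB hS hAB (h'.trans hτ),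
          ← hA.cl k t, clp_neg hτ h']
    · rw [clp_big (by linarith) h, gl_right hA hτ (by linarith), gl_right hA hτ (by linarith),
        ← hB.cl k (t - τ), clp_big hS (by linarith)]
      congr 1; ring
  · obtain ⟨M, hM, hb⟩ := hA.pb m
    obtain ⟨M', hM', hb'⟩ := hB.pb m
    refine ⟨M + M', by positivity, fun k t => ?_⟩
    rcases le_total t τ with h | h
    · rw [gl_left hB hS hAB h]
      have := hb k t
      linarith
    · rw [gl_right hA hτ h]
      have := hb' k (t - τ)
      linarith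
  · rcases le_total t τ with h | h
    · rw [gl_left hB hS hAB h, gl_left hB hS hAB hτ, hA.eq k t h0 h]
      congr 1
      refine intervalIntegral.integral_congr fun s hs => ?_
      rw [uIcc_of_le h0] at hs
      exact (gL k s (hs.2.trans h)).symm
    · have hG : Continuous (GG c (gl τ uA uB) k) := by
        have e : GG c (gl τ uA uB) k = fun t => GG c uA k (min t τ) + GG c uB k (max (t - τ) 0) - GG c uA k τ := by
          funext s
          rcases le_total s τ with hs | hs
          · rw [gL k s hs, min_eq_left hs, max_eq_right (by linarith)]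
            have : GG c uB k 0 = GG c uA k τ := by
              have e1 : at' uB 0 = at' uA τ := funext hAB
              show -(c * sq k) • at' uB 0 k + Bf (at' uB 0) (at' uB 0) k = _
              rw [e1]; rfl
            rw [this]; abel
          · rw [gR k s hs, min_eq_right hs, max_eq_left (by linarith)]
            abel
        rw [e]
        have h1 := hA.ggc k
        have h2 := hB.ggc k
        fun_prop
      rw [gl_right hA hτ h, gl_left hB hS hAB hτ, hB.eq k (t - τ) (by linarith) (by linarith), hAB,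
        hA.eq k τ hτ le_rfl, add_assoc,
        ← intervalIntegral.integral_add_adjacent_intervals (hG.intervalIntegrable 0 τ) (hG.intervalIntegrable τ t)]
      congr 1
      congr 1
      · refine intervalIntegral.integral_congr fun s hs => ?_
        rw [uIcc_of_le hτ] at hs
        exact (gL k s hs.2).symm
      · have e1 : ∫ s in τ..t, GG c (gl τ uA uB) k s = ∫ s in τ..t, GG c uB k (s - τ) := by
          refine intervalIntegral.integral_congr fun s hs => ?_
          rw [uIcc_of_le h] at hs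
          exact gR k s hs.1
        rw [e1, intervalIntegral.integral_comp_sub_right (fun s => GG c uB k s), sub_self]

lemma HSol.zero (_hT : 0 ≤ T) : HSol c T 0 where
  cf := fun k => continuous_const
  z := fun t => rfl
  sym := SymF_zero
  cl := fun k t => rfl
  pb := fun m => PB_zero m
  eq := fun k t _ _ => by
    have : ∀ s, GG c 0 k s = 0 := by
      intro s
      unfold GG Bt
      have : at' (0 : Fam) s = 0 := rfl
      rw [this, Bf_zero_left]
      simp
    simp [this]

lemma GSol.hsol (h : GSol c u) (hT : 0 ≤ T) : HSol c T (rs T u) where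
  cf := fun k => (h.ls.cf k).comp (clp_cont T)
  z := fun t => h.ls.z _
  sym := fun t => h.ls.sym _
  cl := fun k t => by unfold rs; rw [clp_cl hT]
  pb := fun m => pb_comp (h.pb m) _
  eq := fun k t ht0 ht1 => by
    have e : ∀ s, 0 ≤ s → s ≤ T → rs T u k s = u k s := fun s a b => by unfold rs; rw [clp_id a b]
    have hc : Continuous fun s => -(c * sq k) • u k s + Bt u k s := by
      have h1 := h.ls.cf k
      have h2 := h.ls.btc k
      fun_prop
    rw [e t ht0 ht1, e 0 le_rfl hT, int_of_deriv (T := T) (h.ls.cf k) hc (fun t h0 _ => h.ls.hd k h0) ht0 ht1]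
    congr 1
    refine intervalIntegral.integral_congr fun s hs => ?_
    rw [uIcc_of_le ht0] at hs
    have e2 : clp T s = s := clp_id hs.1 (hs.2.trans ht1)
    show _ = -(c * sq k) • u k (clp T s) + Bt u k (clp T s)
    rw [e2]

end

end Pool.Agent.H356R3.NS.H1SS
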