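import Pool.Agent.H1SS.HEx

open MeasureTheory Set Filter Topology
open scoped ENNReal NNReal ContDiff

namespace Pool.Agent.H356R3.NS.H1SS

lemma pb_Bt {u : Fam} (h : ∀ m, PB m u) (m : ℕ) : PB m (Bt u) := by
  obtain ⟨M, hM, hb⟩ := h (m + 4)
  have hC := C0_pos
  have hS := S4_nonneg
  refine ⟨C0 * (M ^ 2 * (2 ^ (m + 4 + 1) * S4)), by positivity, fun k t => ?_⟩
  have h1 := norm_Bf_poly (m := m + 4) (by omega) hM (x := at' u t) (fun k => hb k t) k
  have hp := pw_pos k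
  have hp1 := one_le_pw k
  have h2 := nk_le_pw k
  have hn := nk_nonneg k
  calc pw k ^ m * ‖Bt u k t‖ ≤ pw k ^ m * (C0 * pw k * (M ^ 2 * (2 ^ (m + 4 + 1) * S4 * (1 / pw k ^ (m + 4))))) := by
        apply mul_le_mul_of_nonneg_left _ (by positivity)
        refine h1.trans ?_
        gcongr
    _ = C0 * (M ^ 2 * (2 ^ (m + 4 + 1) * S4)) * (1 / pw k ^ 3) := by
        rw [pow_add (pw k) m 4]; field_simp
    _ ≤ C0 * (M ^ 2 * (2 ^ (m + 4 + 1) * S4)) * 1 := by
        apply mul_le_mul_of_nonneg_left _ (by positivity)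
        rw [div_le_one (by positivity)]
        exact one_le_pow₀ hp1
    _ = _ := mul_one _

lemma Nice.add {V V' : K → C3} (h : Nice V) (h' : Nice V') : Nice (V + V') where
  z := by simp [h.z, h'.z]
  sym := h.sym.add h'.sym
  pb := fun m => by
    obtain ⟨M, hM, hb⟩ := h.pb m
    obtain ⟨M', hM', hb'⟩ := h'.pb m
    refine ⟨M + M', by positivity, fun k => ?_⟩
    have hp := pow_pos (pw_pos k) m
    calc pw k ^ m * ‖V k + V' k‖ ≤ pw k ^ m * (‖V k‖ + ‖V' k‖) := by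
          gcongr
          exact norm_add_le _ _
      _ ≤ _ := by rw [mul_add]; exact add_le_add (hb k) (hb' k)

lemma Nice.zero : Nice 0 where
  z := rfl
  sym := fun k i => by simp
  pb := fun m => ⟨0, le_rfl, fun k => by simp⟩

lemma Nice.sub {V V' : K → C3} (h : Nice V) (h' : Nice V') : Nice (V - V') where
  z := by simp [h.z, h'.z]
  sym := h.sym.sub h'.sym
  pb := fun m => by
    obtain ⟨M, hM, hb⟩ := h.pb m
    obtain ⟨M', hM', hb'⟩ := h'.pb m
    refine ⟨M + M', by positivity, fun k => ?_⟩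
    have hp := pow_pos (pw_pos k) m
    calc pw k ^ m * ‖V k - V' k‖ ≤ pw k ^ m * (‖V k‖ + ‖V' k‖) := by
          gcongr
          exact norm_sub_le _ _
      _ ≤ _ := by rw [mul_add]; exact add_le_add (hb k) (hb' k)

lemma n1_bdd {u : Fam} (h : ∀ m, PB m u) : ∃ B : ℝ, 0 ≤ B ∧ ∀ t, N1 (at' u t) ≤ ENNReal.ofReal B :=
  nw_bdd (a := fun k => 1 / nk k) (n := 0) (fun k => one_div_nonneg.2 (nk_nonneg k)) zero_le_one (fun k => by
    rw [pow_zero, mul_one]
    by_cases hk : k = 0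
    · subst hk; simp [nk_zero]
    · rw [div_le_one (nk_pos hk)]; exact one_le_nk hk) h

lemma n5_bdd {u : Fam} (h : ∀ m, PB m u) : ∃ B : ℝ, 0 ≤ B ∧ ∀ t, n5 (at' u t) ≤ ENNReal.ofReal B :=
  nw_bdd pw5_nonneg zero_le_one pw5_le h

lemma W0_bdd {u : Fam} (h : ∀ m, PB m u) : ∃ B : ℝ, 0 ≤ B ∧ ∀ t, W0 (at' u t) ≤ ENNReal.ofReal B := by
  obtain ⟨B, hB, hb⟩ := r5_bdd h
  refine ⟨B, hB, fun t => ?_⟩
  rw [W0_r0 h]
  exact ENNReal.ofReal_le_ofReal ((r0_le_r5 h t).trans (hb t))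

lemma meas_W0 {u : Fam} (h : CF u) : Measurable fun t => W0 (at' u t) := by
  simp only [W0_eq]; exact NW_meas _ h

/-- Existence on a window. -/
theorem winX {c T : ℝ} (hc : 0 < c) (hT : 0 < T) {b : Fam} (hb : HSol c T b) {h0 : K → C3} (hh : Nice h0)
    {D1 θ ρ : ℝ} (hD1 : 0 ≤ D1) (hθ : 0 < θ) (hθ1 : θ ≤ 1) (hρ : 0 < ρ)
    (h1 : ∫⁻ t in Ioc 0 T, W0 (at' b t) ^ 2 ≤ ENNReal.ofReal D1)
    (h2 : ∫⁻ t in Ioc 0 T, W0 (at' (Ht c h0) t) ^ 2 ≤ ENNReal.ofReal (θ ^ 2))
    (h3 : C0 * (θ * (D1 + 2)) < ρ / 4) (h4 : ρ ≤ thr c (2 * D1 + 4)) :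
    ∃ u r : Fam, HSol c T u ∧ CF r ∧ (∀ t, r 0 t = 0) ∧ (∀ k, u k 0 = b k 0 + h0 k) ∧
      (∀ t, 0 ≤ t → t ≤ T → at' u t = at' b t + at' (Ht c h0) t + at' r t) ∧
      ∫⁻ t in Ioc 0 T, W0 (at' r t) ^ 2 ≤ ENNReal.ofReal ((Real.exp (La c * (2 * D1 + 4)) * ρ) ^ 2 / c) := by
  have hC := C0_pos
  set H := Ht c h0 with hH
  have hHpb : ∀ m, PB m H := fun m => Ht_pb hc.le hh m
  have hHcf : CF H := Ht_cf c h0
  set a : Fam := b + rs T H with ha
  have ca : CF a := fun k => (hb.cf k).add ((hHcf k).comp (clp_cont T))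
  have pa : ∀ m, PB m a := fun m => PB_add (hb.pb m) (pb_comp (hHpb m) _)
  have sa : SymF a := SymF_add hb.sym (fun t => Ht_sym hh _)
  have za : ∀ t, a 0 t = 0 := fun t => by
    show b 0 t + H 0 _ = 0
    rw [hb.z, hH, Ht_z hh, add_zero]
  have ea : ∀ t, 0 ≤ t → t ≤ T → at' a t = at' b t + at' H t := fun t t0 t1 => by
    show at' b t + at' (rs T H) t = _
    rw [rs_eq t0 t1]
  set F0 : Fam := Bt a - Bt b with hF0
  have cF0 : CF F0 := fun k => (Bt_cont ca (dom_of_pb (pa 4)) k).sub (hb.btc k)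
  have pF0 : ∀ m, PB m F0 := fun m => PB_sub (pb_Bt pa m) (pb_Bt hb.pb m)
  have sF0 : SymF F0 := fun t => (Bt_sym sa t).sub (Bt_sym hb.sym t)
  have zF0 : ∀ t, F0 0 t = 0 := fun t => by simp [hF0, Bt, Bf_zero]
  obtain ⟨B, hB0, hB⟩ := W0_bdd pa
  obtain ⟨B5, hB50, hB5⟩ := n5_bdd pa
  obtain ⟨M, hM0, hM⟩ := n1_bdd pF0
  obtain ⟨M5, hM50, hM5⟩ := n5_bdd pF0
  set sl := ρ / 4 - C0 * (θ * (D1 + 2)) with hsl
  have hsl0 : 0 < sl := by linarith
  set κ := min 1 (min (1 / (B ^ 2 + 1)) (sl / (M + 1))) with hκdef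
  have hκ : 0 < κ := lt_min one_pos (lt_min (by positivity) (by positivity))
  have hκ1 : κ * B ^ 2 ≤ 1 := by
    have h5 : κ ≤ 1 / (B ^ 2 + 1) := (min_le_right _ _).trans (min_le_left _ _)
    calc κ * B ^ 2 ≤ 1 / (B ^ 2 + 1) * (B ^ 2 + 1) := by gcongr; linarith
      _ = 1 := by field_simp
  have hκ2 : κ * M ≤ sl := by
    have h5 : κ ≤ sl / (M + 1) := (min_le_right _ _).trans (min_le_right _ _)
    calc κ * M ≤ sl / (M + 1) * (M + 1) := by gcongr; linarith
      _ = sl := by field_simp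
  -- pointwise bounds
  have rb : ∀ t, W0 (at' b t) = ENNReal.ofReal (r0 b t) := W0_r0 hb.pb
  have rH : ∀ t, W0 (at' H t) = ENNReal.ofReal (r0 H t) := W0_r0 hHpb
  have nb := r0_nonneg b
  have nH := r0_nonneg H
  have cb := r0_cont hb.cf hb.pb
  have cH := r0_cont hHcf hHpb
  have ra : ∀ t, 0 ≤ t → t ≤ T → W0 (at' a t) ≤ ENNReal.ofReal (r0 b t + r0 H t) := fun t t0 t1 => by
    rw [ea t t0 t1, ENNReal.ofReal_add (nb t) (nH t), ← rb, ← rH]
    exact W0_add _ _
  have i1 : ∫⁻ t in Ioc 0 T, ENNReal.ofReal (r0 b t ^ 2) ≤ ENNReal.ofReal D1 := by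
    refine le_trans (le_of_eq ?_) h1
    exact lintegral_congr fun t => by rw [rb, ENNReal.ofReal_pow (nb t)]
  have i2 : ∫⁻ t in Ioc 0 T, ENNReal.ofReal (r0 H t ^ 2) ≤ ENNReal.ofReal (θ ^ 2) := by
    refine le_trans (le_of_eq ?_) h2
    exact lintegral_congr fun t => by rw [rH, ENNReal.ofReal_pow (nH t)]
  have hsum : ∀ {x y : ℝ}, 0 ≤ x → 0 ≤ y → ∫⁻ t in Ioc 0 T, ENNReal.ofReal (x * r0 b t ^ 2 + y * r0 H t ^ 2)
      ≤ ENNReal.ofReal (x * D1 + y * θ ^ 2) := by
    intro x y hx hy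
    have e : ∀ t, ENNReal.ofReal (x * r0 b t ^ 2 + y * r0 H t ^ 2)
        = ENNReal.ofReal x * ENNReal.ofReal (r0 b t ^ 2) + ENNReal.ofReal y * ENNReal.ofReal (r0 H t ^ 2) := by
      intro t
      rw [ENNReal.ofReal_add (by positivity) (by positivity), ENNReal.ofReal_mul hx, ENNReal.ofReal_mul hy]
    simp only [e]
    rw [lintegral_add_left (by fun_prop), lintegral_const_mul _ (by fun_prop), lintegral_const_mul _ (by fun_prop),
      ENNReal.ofReal_add (by positivity) (by positivity), ENNReal.ofReal_mul hx, ENNReal.ofReal_mul hy]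
    gcongr
  -- integrals with cutoff
  have hDi : ∫⁻ t in Ioi 0, W0 (at' (ct T κ a) t) ^ 2 ≤ ENNReal.ofReal (2 * D1 + 3) := by
    refine (lint_cut (T := T) (κ := κ) (φ := fun t => ENNReal.ofReal (2 * r0 b t ^ 2 + 2 * r0 H t ^ 2)) (M := B ^ 2)
      (by positivity) (fun t t0 t1 => ?_) (fun t => ?_) fun t ht => ?_).trans ?_
    · rw [ct_eq hκ t1]
      refine (pow_le_pow_left₀ zero_le (ra t t0.le t1) 2).trans ?_
      rw [← ENNReal.ofReal_pow (add_nonneg (nb t) (nH t))]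
      apply ENNReal.ofReal_le_ofReal
      nlinarith [sq_nonneg (r0 b t - r0 H t)]
    · rw [ENNReal.ofReal_pow hB0]
      refine pow_le_pow_left₀ zero_le ?_ 2
      refine le_trans ?_ (hB t)
      simp only [W0_eq]; exact NW_ct_le _ _
    · rw [W0_eq, NW_ct_zero hκ _ ht]; simp
    · refine (add_le_add (hsum (by norm_num) (by norm_num)) le_rfl).trans ?_
      rw [← ENNReal.ofReal_add (by positivity) (by positivity)]
      apply ENNReal.ofReal_le_ofReal
      have : θ ^ 2 ≤ 1 := pow_le_one₀ hθ.le hθ1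
      linarith
  have hD5 : ∫⁻ t in Ioi 0, n5 (at' (ct T κ a) t) ^ 2 ≠ ⊤ := by
    refine ne_top_of_le_ne_top ?_ (lint_cut (T := T) (κ := κ) (φ := fun t => ENNReal.ofReal (B5 ^ 2)) (M := B5 ^ 2)
      (by positivity) (fun t _ _ => ?_) (fun t => ?_) fun t ht => ?_)
    · rw [setLIntegral_const, Real.volume_Ioc]
      exact ENNReal.add_ne_top.2 ⟨ENNReal.mul_ne_top ENNReal.ofReal_ne_top ENNReal.ofReal_ne_top,
        ENNReal.ofReal_ne_top⟩
    · rw [ENNReal.ofReal_pow hB50]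
      exact pow_le_pow_left₀ zero_le ((NW_ct_le _ _).trans (hB5 t)) 2
    · rw [ENNReal.ofReal_pow hB50]
      exact pow_le_pow_left₀ zero_le ((NW_ct_le _ _).trans (hB5 t)) 2
    · unfold n5; rw [NW_ct_zero hκ _ ht]; simp
  have hFi : ∫⁻ t in Ioi 0, N1 (at' (ct T κ F0) t) ≤ ENNReal.ofReal (ρ / 4) := by
    refine (lint_cut (T := T) (κ := κ) (φ := fun t => ENNReal.ofReal C0 *
        ENNReal.ofReal (θ * r0 b t ^ 2 + (1 / θ + 1) * r0 H t ^ 2)) (M := M)
      hM0 (fun t t0 t1 => ?_) (fun t => ?_) fun t ht => ?_).trans ?_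
    · rw [ct_eq hκ t1]
      refine (N1_btdiff (dom_of_pb (pa 4)) hb.dom t).trans (mul_le_mul' le_rfl ?_)
      have e1 : at' (a - b) t = at' H t := by
        rw [at'_sub, ea t t0.le t1]; abel
      rw [e1, rH]
      calc _ ≤ ENNReal.ofReal (r0 H t) * (ENNReal.ofReal (r0 b t + r0 H t) + ENNReal.ofReal (r0 b t)) := by
            rw [rb]
            exact mul_le_mul' le_rfl (add_le_add (ra t t0.le t1) le_rfl)
        _ = ENNReal.ofReal (r0 H t * (r0 b t + r0 H t + r0 b t)) := by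
            have := nb t
            have := nH t
            rw [← ENNReal.ofReal_add (by positivity) (by positivity), ← ENNReal.ofReal_mul (nH t)]
        _ ≤ _ := by
            apply ENNReal.ofReal_le_ofReal
            have e2 : θ * r0 b t ^ 2 + (1 / θ + 1) * r0 H t ^ 2 - r0 H t * (r0 b t + r0 H t + r0 b t)
                = 1 / θ * (θ * r0 b t - r0 H t) ^ 2 := by
              field_simp; ring
            have : 0 ≤ 1 / θ * (θ * r0 b t - r0 H t) ^ 2 := by positivity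
            linarith
    · exact (NW_ct_le _ _).trans (hM t)
    · unfold N1; exact NW_ct_zero hκ _ ht
    · have hm : Measurable fun t => ENNReal.ofReal (θ * r0 b t ^ 2 + (1 / θ + 1) * r0 H t ^ 2) := by fun_prop
      rw [lintegral_const_mul _ hm]
      refine (add_le_add (mul_le_mul' le_rfl (hsum hθ.le (by positivity))) le_rfl).trans ?_
      rw [← ENNReal.ofReal_mul hC.le, ← ENNReal.ofReal_add (by positivity) (by positivity)]
      apply ENNReal.ofReal_le_ofReal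
      have e3 : (1 / θ + 1) * θ ^ 2 = θ + θ ^ 2 := by field_simp
      have e4 : θ ^ 2 ≤ θ := by nlinarith
      have e5 : C0 * (θ * D1 + (1 / θ + 1) * θ ^ 2) ≤ C0 * (θ * (D1 + 2)) := by
        apply mul_le_mul_of_nonneg_left _ hC.le
        rw [e3]; linarith
      linarith
  have hF5 : ∫⁻ t in Ioi 0, n5 (at' (ct T κ F0) t) ≠ ⊤ := by
    refine ne_top_of_le_ne_top ?_ (lint_cut (T := T) (κ := κ) (φ := fun t => ENNReal.ofReal M5) (M := M5)
      (by positivity) (fun t _ _ => ?_) (fun t => ?_) fun t ht => ?_)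
    · rw [setLIntegral_const, Real.volume_Ioc]
      exact ENNReal.add_ne_top.2 ⟨ENNReal.mul_ne_top ENNReal.ofReal_ne_top ENNReal.ofReal_ne_top,
        ENNReal.ofReal_ne_top⟩
    · exact (NW_ct_le _ _).trans (hM5 t)
    · exact (NW_ct_le _ _).trans (hM5 t)
    · unfold n5; exact NW_ct_zero hκ _ ht
  have caχ := ct_cf (T := T) (κ := κ) ca
  obtain ⟨r, rc, rz, rm, rs', rpb, rf, rN, rP⟩ := exX hc (a := ct T κ a) (FE := ct T κ F0) caχ
    (fun m => ct_pb (pa m)) (ct_sym sa) (ct_cf cF0) (ct_sym sF0) (fun t => by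
      show chi T κ t • F0 0 t = 0
      rw [zF0, smul_zero]) (D := 2 * D1 + 3) (ρ := ρ) (by positivity) hρ hDi hD5 hFi hF5 (by
      rw [show 2 * D1 + 3 + 1 = 2 * D1 + 4 by ring]; exact h4)
  rw [show 2 * D1 + 3 + 1 = 2 * D1 + 4 by ring] at rP rN
  set E := Real.exp (La c * (2 * D1 + 4)) with hE
  -- the solution
  set u : Fam := a + rs T r with hu
  have cu : CF u := fun k => (ca k).add ((rc k).comp (clp_cont T))
  have zu : ∀ t, u 0 t = 0 := fun t => by
    show a 0 t + r 0 _ = 0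
    rw [za, rz, add_zero]
  have su : SymF u := SymF_add sa (fun t => rs' _)
  have p4u : PB 4 u := PB_add (pa 4) (pb_comp rpb _)
  have hcl : ∀ k t, u k (clp T t) = u k t := by
    intro k t
    show b k (clp T t) + H k (clp T (clp T t)) + r k (clp T (clp T t)) = b k t + H k (clp T t) + r k (clp T t)
    rw [clp_cl hT.le, hb.cl]
  have eu : ∀ t, 0 ≤ t → t ≤ T → at' u t = at' a t + at' r t := fun t t0 t1 => by
    show at' a t + at' (rs T r) t = _
    rw [rs_eq t0 t1]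
  have cBu : CF (Bt u) := Bt_cont cu (dom_of_pb p4u)
  have cX : CF (ct T κ F0 + (Bt (ct T κ a + r) - Bt (ct T κ a))) := by
    intro k
    have q1 : CF (ct T κ a + r) := fun k => (caχ k).add (rc k)
    exact (ct_cf cF0 k).add ((Bt_cont q1 (dom_of_pb (PB_add (ct_pb (pa 4)) rpb)) k).sub
      (Bt_cont caχ (dom_of_pb (ct_pb (pa 4))) k))
  have mild : ∀ k t, 0 ≤ t → t ≤ T →
      u k t = Real.exp (-(c * sq k * t)) • (at' b 0 + h0) k + Duh c (Bt u) k t := by
    intro k t t0 t1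
    have e1 : u k t = b k t + H k t + r k t := by
      have q1 := congrFun (eu t t0 t1) k
      have q2 := congrFun (ea t t0 t1) k
      show at' u t k = _
      rw [q1, Pi.add_apply, q2]; rfl
    have e2 : r k t = Duh c (ct T κ F0 + (Bt (ct T κ a + r) - Bt (ct T κ a))) k t :=
      congrFun (congrFun rf k) t
    have e3 : H k t = Real.exp (-(c * sq k * t)) • h0 k := by
      show Real.exp (-(c * sq k * max t 0)) • h0 k = _
      rw [max_eq_left t0]
    have e4 : Duh c (Bt u) k t = Duh c (Bt b + (ct T κ F0 + (Bt (ct T κ a + r) - Bt (ct T κ a)))) k t := by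
      refine Duh_congr t0 fun s s0 s1 => ?_
      have sT : s ≤ T := s1.trans t1
      have q1 : at' (ct T κ a) s = at' a s := ct_eq hκ sT
      have q2 : at' (ct T κ a + r) s = at' u s := by
        rw [eu s s0 sT, ← q1]; rfl
      show Bf (at' u s) (at' u s) k = Bf (at' b s) (at' b s) k + (at' (ct T κ F0) s k
        + (Bf (at' (ct T κ a + r) s) (at' (ct T κ a + r) s) k - Bf (at' (ct T κ a) s) (at' (ct T κ a) s) k))
      rw [ct_eq hκ sT, q1, q2]
      show _ = _ + ((Bf (at' a s) (at' a s) k - Bf (at' b s) (at' b s) k) + _)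
      abel
    rw [e1, hb.mild k t0 t1, e2, e3, e4, Duh_add hb.btc cX]
    show _ = Real.exp (-(c * sq k * t)) • (b k 0 + h0 k) + (Duh c (Bt b) k t + _)
    rw [smul_add]
    abel
  have hN : Nice (at' b 0 + h0) := (hb.nice 0).add hh
  have pu : ∀ m, PB m u := bootH hc hT.le zu hN hcl mild p4u
  have hsol : HSol c T u := by
    refine ⟨cu, zu, su, hcl, pu, fun k t t0 t1 => ?_⟩
    have q1 := cu k
    have q2 := cBu k
    exact int_of_deriv (T := T) (cu k) (by fun_prop : Continuous fun t => -(c * sq k) • u k t + Bt u k t)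
      (fun t h0 h1 => hasDeriv_of_mild cBu (mild k) h0 h1) t0 t1
  refine ⟨u, r, hsol, rc, rz, fun k => ?_, fun t t0 t1 => ?_, ?_⟩
  · rw [mild k 0 le_rfl hT.le, Duh_at_zero]
    simp [at']
  · rw [eu t t0 t1, ea t t0 t1]
  · have hm : Measurable fun t => nP (at' r t) := NW_meas _ rc
    calc _ ≤ ∫⁻ t in Ioc 0 T, ENNReal.ofReal (E * ρ) * nP (at' r t) := by
          refine lintegral_mono fun t => ?_
          rw [pow_two]
          exact (interp1 (rz t)).trans (mul_le_mul' (rN t) le_rfl)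
      _ = ENNReal.ofReal (E * ρ) * ∫⁻ t in Ioc 0 T, nP (at' r t) := lintegral_const_mul _ hm
      _ ≤ ENNReal.ofReal (E * ρ) * ENNReal.ofReal (E * ρ / c) :=
          mul_le_mul' le_rfl ((lintegral_mono_set fun t ht => ht.1).trans rP)
      _ = _ := by
          rw [← ENNReal.ofReal_mul (by positivity)]
          congr 1; ring

end Pool.Agent.H356R3.NS.H1SS
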