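import Pool.Agent.H1SS.FixV

open MeasureTheory Set Filter Topology
open scoped ENNReal NNReal ContDiff

namespace Pool.Agent.H356R3.NS.H1SS

/-- Mean-free solutions on the Fourier side, rapidly decreasing uniformly in time. -/
structure MSol (c : ℝ) (V : K → C3) (u : Fam) : Prop where
  cf : CF u
  z : ∀ t, u 0 t = 0
  sym : SymF u
  rd : ∀ i, RD (cf' u i)
  eq : ∀ k t, u k t = Real.exp (-(c * sq k * max t 0)) • V k + Duh c (Bt u) k t

lemma norm_le_sum (v : C3) : ‖v‖ ≤ ∑ i, ‖v i‖ := by
  rw [pi_norm_le_iff_of_nonneg (Finset.sum_nonneg fun _ _ => norm_nonneg _)]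
  intro i
  exact Finset.single_le_sum (f := fun i => ‖v i‖) (fun _ _ => norm_nonneg _) (Finset.mem_univ i)

lemma dom_of_rd {u : Fam} (h : ∀ i, RD (cf' u i)) : Dom u := by
  choose b hb hb' using fun i => (h i).summ
  refine ⟨fun k => ∑ i, b i k, summable_sum fun i _ => hb i, fun k t => ?_⟩
  exact (norm_le_sum _).trans (Finset.sum_le_sum fun i _ => hb' i k t)

lemma MSol.dom {c : ℝ} {V : K → C3} {u : Fam} (h : MSol c V u) : Dom u := dom_of_rd h.rd

lemma MSol.deriv {c : ℝ} {V : K → C3} {u : Fam} (h : MSol c V u) (i : Fin 3) (k : K)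
    {t : ℝ} (ht : 0 < t) : HasDerivAt (fun t => u k t i) (dU c u i k t) t := by
  have hud : Dom u := h.dom
  have hBc := Bt_cont h.cf hud
  have h1 : HasDerivAt (fun t => Real.exp (-(c * sq k * max t 0)) • V k)
      ((Real.exp (-(c * sq k * t)) * -(c * sq k)) • V k) t := by
    have h2 : HasDerivAt (fun u => Real.exp (-(c * sq k * u))) (Real.exp (-(c * sq k * t)) * -(c * sq k)) t := by
      have : HasDerivAt (fun u : ℝ => -(c * sq k * u)) (-(c * sq k)) t := by
        simpa using ((hasDerivAt_id' t).const_mul (c * sq k)).fun_neg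
      exact this.exp
    refine (h2.smul_const (V k)).congr_of_eventuallyEq ?_
    filter_upwards [lt_mem_nhds ht] with v hv
    rw [max_eq_left hv.le]
  have h3 := h1.fun_add (Duh_hasDeriv hBc c k ht)
  have h4 : HasDerivAt (u k) (-(c * sq k) • u k t + Bt u k t) t := by
    have e1 : u k = fun t => Real.exp (-(c * sq k * max t 0)) • V k + Duh c (Bt u) k t := by
      funext s; exact h.eq k s
    have e2 : -(c * sq k) • u k t + Bt u k t = (Real.exp (-(c * sq k * t)) * -(c * sq k)) • V k
        + (-(c * sq k) • Duh c (Bt u) k t + Bt u k t) := by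
      rw [h.eq k t, max_eq_left ht.le, smul_add, smul_smul, mul_comm]
      abel
    rw [e2]
    rw [e1]
    exact h3
  have h5 := (hasDerivAt_pi.1 h4) i
  refine h5.congr_deriv ?_
  unfold dU Bt Bf cvv cv at'
  simp only [Pi.add_apply, Pi.smul_apply, Complex.real_smul]
  push_cast
  ring

lemma MSol.TT {c : ℝ} {V : K → C3} {u : Fam} (h : MSol c V u) (n : ℕ) :
    ∀ i : Fin 3, TT n (fun k t => u k t i) := by
  have hc : ∀ i k, Continuous fun t => u k t i := fun i k => (continuous_apply i).comp (h.cf k)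
  induction n with
  | zero => intro i; exact ⟨h.rd i, hc i⟩
  | succ n ih =>
    intro i
    refine ⟨h.rd i, hc i, dU c u i, fun k t ht => h.deriv i k ht, ?_⟩
    exact TT_dU ih i

lemma MSol.div {c : ℝ} {V : K → C3} {u : Fam} (hV : ∀ k, dt k (V k) = 0) (h : MSol c V u) (k : K) (t : ℝ) :
    dt k (u k t) = 0 := by
  have hud : Dom u := h.dom
  have hBc := Bt_cont h.cf hud
  let L : C3 →L[ℝ] ℂ := ∑ j, ((k j : ℝ) • (ContinuousLinearMap.proj (R := ℝ) (φ := fun _ : Fin 3 => ℂ) j))
  have hL : ∀ v, L v = dt k v := by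
    intro v
    simp [L, dt]
  rw [h.eq k t, ← hL, map_add, map_smul]
  have h1 : L (V k) = 0 := by rw [hL, hV]
  have h2 : L (Duh c (Bt u) k t) = 0 := by
    unfold Duh
    rw [← ContinuousLinearMap.intervalIntegral_comp_comm]
    · have : ∀ s, L (Real.exp (-(c * sq k * (max t 0 - s))) • Bt u k s) = 0 := by
        intro s
        rw [map_smul, hL]
        have : dt k (Bt u k s) = 0 := Bf_div _ _ k
        rw [this, smul_zero]
      simp [this]
    · have := hBc k
      exact (by fun_prop : Continuous fun s => Real.exp (-(c * sq k * (max t 0 - s))) • Bt u k s).intervalIntegrable _ _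
  rw [h1, h2]; simp

theorem MSol.physical {ν : ℝ} {V : K → C3} (hV : ∀ k, dt k (V k) = 0) {u : Fam}
    (h : MSol (4 * Real.pi ^ 2 * ν) V u) (m : E3) :
    AdmissiblePeriodic ν (fun x i => m i + (∑' k, V k i * ex k x).re)
      (fun t x i => m i + (GS m (cf' u i) t x).re) (fun t x => (GS m (PF u) t x).re) := by
  have hT : ∀ n i, NS.TT n (cf' u i) := fun n i => h.TT n i
  have hP : ∀ n, NS.TT n (PF u) := fun n => TT_PF (hT n)
  have hdT : ∀ n i, NS.TT n (dU (4 * Real.pi ^ 2 * ν) u i) := fun n i => TT_dU (hT n) i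
  have hsym : ∀ i k t, cf' u i (-k) t = star (cf' u i k t) := fun i k t => h.sym t k i
  have hdiv := h.div hV
  have hre : ∀ i t x, (GS m (cf' u i) t x).im = 0 := fun i t x => SF_real (hsym i) _
  refine ⟨?_, ?_, ?_, ?_, ?_, ?_, ?_⟩
  · rw [contDiffOn_pi]
    intro i
    exact contDiffOn_const.add (GS_smooth_re m fun n => hT n i)
  · exact GS_smooth_re m hP
  · intro t _ x j
    funext i
    simp only [GS_periodic]
  · intro t _ x j
    simp only [GS_periodic]
  · intro t ht x i
    have hd0 : HasDerivWithinAt (fun s => m i + (GS m (cf' u i) s x).re)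
        (GS m (dU (4 * Real.pi ^ 2 * ν) u i) t x
          + ∑ j, GS m (dS j (cf' u i)) t x * (-(m j) : ℝ)).re (Ici 0) t := by
      have h1 := GS_dt m (hT 1 i) (fun k t ht => h.deriv i k ht) (hdT 0 i) ht x
      have h2 := (Complex.reCLM.hasFDerivAt.comp_hasDerivWithinAt t h1).const_add (m i)
      exact h2
    have hd := hd0.derivWithin (uniqueDiffOn_Ici (0 : ℝ) t ht)
    have e1 : ∀ j, pd j (fun y => m i + (GS m (cf' u i) t y).re) = fun x => (GS m (dS j (cf' u i)) t x).re :=
      fun j => funext fun x => pd_GS m (hT 1 i) ht (m i) j x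
    have e2 : ∀ j, pd j (fun x => (GS m (dS j (cf' u i)) t x).re) x = (GS m (dS j (dS j (cf' u i))) t x).re :=
      fun j => pd_GS' m ((hT 1 i).dS j) ht j x
    have e3 : pd i (fun x => (GS m (PF u) t x).re) x = (GS m (dS i (PF u)) t x).re := pd_GS' m (hP 1) ht i x
    rw [hd]
    simp only [e1, e2, e3]
    have key : GS m (dU (4 * Real.pi ^ 2 * ν) u i) t x + ∑ j, GS m (cf' u j) t x * GS m (dS j (cf' u i)) t x
        = (ν : ℂ) * ∑ j, GS m (dS j (dS j (cf' u i))) t x + (-1) * GS m (dS i (PF u)) t x := by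
      have hU : ∀ i, RD (cf' u i) := fun i => (hT 0 i).rd
      have hdS : ∀ j, RD (dS j (cf' u i)) := fun j => ((hT 0 i).dS j).rd
      have hdd : ∀ j, RD (dS j (dS j (cf' u i))) := fun j => (((hT 0 i).dS j).dS j).rd
      have hdP : RD (dS i (PF u)) := ((hP 0).dS i).rd
      have hcv : ∀ j, RD (cvv (cf' u j) (dS j (cf' u i))) := fun j => (hU j).conv (hdS j)
      have hsum1 : RD fun k t => ∑ j, cvv (cf' u j) (dS j (cf' u i)) k t :=
        (TT.sum (n := 0) Finset.univ fun j _ => (hT 0 j).conv ((hT 0 i).dS j)).rd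
      have hsum2 : RD fun k t => ∑ j, dS j (dS j (cf' u i)) k t :=
        (TT.sum (n := 0) Finset.univ fun j _ => ((hT 0 i).dS j).dS j).rd
      have hone : ∀ (z : ℂ) {c : SFam}, RD c → RD fun k t => z * c k t := fun z c hc =>
        hc.mul (C := ‖z‖) (r := 0) (p := fun _ => z) fun k => by simp
      unfold GS
      have m1 : ∀ j, SF (cf' u j) (t, x - t • m) * SF (dS j (cf' u i)) (t, x - t • m)
          = SF (cvv (cf' u j) (dS j (cf' u i))) (t, x - t • m) := fun j => SF_mul (hU j) (hdS j) _
      simp only [m1]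
      rw [← SF_sum hcv, ← SF_sum hdd, ← SF_const_mul, ← SF_const_mul, ← SF_add (hdT 0 i).rd hsum1,
        ← SF_add (hone _ hsum2) (hone _ hdP)]
      congr 1
      funext k t
      exact fourier_eq hU hdiv i k t
    have keyre := congrArg Complex.re key
    simp only [Complex.add_re, Complex.re_sum, Complex.mul_re, hre, Complex.ofReal_re, Complex.ofReal_im,
      Complex.neg_re, Complex.one_re, Complex.neg_im, Complex.one_im] at keyre ⊢
    have e4 : ∑ j, (m j + (GS m (cf' u j) t x).re) * (GS m (dS j (cf' u i)) t x).re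
        = ∑ j, m j * (GS m (dS j (cf' u i)) t x).re
          + ∑ j, (GS m (cf' u j) t x).re * (GS m (dS j (cf' u i)) t x).re := by
      rw [← Finset.sum_add_distrib]; exact Finset.sum_congr rfl fun j _ => by ring
    have e5 : ∑ j, ((GS m (dS j (cf' u i)) t x).re * -m j - (GS m (dS j (cf' u i)) t x).im * 0)
        = -∑ j, m j * (GS m (dS j (cf' u i)) t x).re := by
      rw [← Finset.sum_neg_distrib]; exact Finset.sum_congr rfl fun j _ => by ring
    rw [e4, e5]
    simp only [zero_mul, sub_zero, neg_zero] at keyre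
    linarith
  · intro t ht x
    have e1 : ∀ i, pd i (fun y => m i + (GS m (cf' u i) t y).re) x = (GS m (dS i (cf' u i)) t x).re :=
      fun i => pd_GS m (hT 1 i) ht (m i) i x
    simp only [e1]
    rw [← Complex.re_sum]
    have : ∑ i, GS m (dS i (cf' u i)) t x = 0 := by
      unfold GS
      rw [← SF_sum fun i => ((hT 0 i).dS i).rd]
      have h0 : (fun k t => ∑ j, dS j (cf' u j) k t) = fun _ _ => (0 : ℂ) := by
        funext k t
        have := hdiv k t
        unfold dt at this
        unfold dS fj cf'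
        calc ∑ j, 2 * Real.pi * Complex.I * (k j : ℂ) * u k t j
            = 2 * Real.pi * Complex.I * ∑ j, (k j : ℂ) * u k t j := by
              rw [Finset.mul_sum]; exact Finset.sum_congr rfl fun j _ => by ring
          _ = 0 := by rw [this, mul_zero]
      rw [h0]
      simp [SF]
    rw [this]; rfl
  · funext x i
    have h0 : ∀ k, u k 0 = V k := by
      intro k
      rw [h.eq k 0, Duh_at_zero]
      simp
    show m i + (GS m (cf' u i) 0 x).re = m i + (∑' k, V k i * ex k x).re
    unfold GS SF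
    simp only [zero_smul, sub_zero, cf', h0]

end Pool.Agent.H356R3.NS.H1SS
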