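import Pool.Agent.H1SS.Sup
import Pool.Agent.H356R3.NS.Defs2

open MeasureTheory Set Filter Topology
open scoped ENNReal NNReal ContDiff

namespace Pool.Agent.H356R3.NS.H1SS

open H459R3.NS (IsSol SP Per fr ee cube)

/-- The Wiener norm `∑_k |a(k)|` of the Fourier coefficients of a field, with `|a(k)|` the maximum norm
on `ℂ³`. -/
noncomputable def wiener (v : R3 → R3) : ℝ≥0∞ := ∑' k : Fin 3 → ℤ, ‖fc v k‖ₑ

lemma wiener_eq (u : ℝ → R3 → R3) {t : ℝ} (ht : 0 ≤ t) : wiener (u t) = W0 (at' (UF u) t) := by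
  unfold wiener W0
  refine tsum_congr fun k => ?_
  have : at' (UF u) t k = fc (u t) k := by
    funext i
    show fc (u (max t 0)) k i = _
    rw [max_eq_left ht]
  rw [this]

lemma leiLin_eq (a : K → C3) : leiLin a = N1 a := by
  unfold leiLin N1 NW
  refine tsum_congr fun k => ?_
  by_cases hk : k = 0
  · subst hk; simp [nk_zero]
  rw [if_neg hk]
  have hn := nk_pos hk
  show ‖a k‖ₑ / ENNReal.ofReal (nk k) = ENNReal.ofReal (1 / nk k) * ‖a k‖ₑ
  rw [ENNReal.ofReal_div_of_pos hn, ENNReal.ofReal_one, one_div, mul_comm, ← div_eq_mul_inv]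

lemma ex_eq_ee (k : K) (x : E3) : ex k x = ee k x := by
  unfold ex H459R3.NS.ee H459R3.NS.ph
  push_cast
  rfl

/-- Fourier inversion for smooth periodic functions -/
lemma inv_real {f : R3 → ℝ} (hf : SP f) (x : R3) : (∑' k, fr f k * ex k x) = (f x : ℂ) := by
  simp only [ex_eq_ee]
  exact H459R3.NS.S_fr hf x

lemma fc_of_series {c : K → ℂ} (hc : Summable c) (f : R3 → ℝ) (hf : ∀ x, (f x : ℂ) = ∑' k, c k * ex k x) :
    fr f = c := by
  funext k
  unfold H459R3.NS.fr H459R3.NS.fc
  have h := H459R3.NS.integral_ee_S (-k) hc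
  rw [neg_neg] at h
  rw [← h]
  congr 1
  funext x
  show ee (-k) x * (f x : ℂ) = _
  rw [hf x]
  simp only [ex_eq_ee]
  rfl

lemma sp_of (v : R3 → R3) (hv : ContDiff ℝ ∞ v) (hp : ∀ x j, v (x + Pi.single j 1) = v x) (i : Fin 3) :
    SP (fun x => v x i) where
  smooth := (contDiff_pi.1 hv) i
  per := fun j x => by simp only [hp x j]

section
variable {ν : ℝ} {v : R3 → R3} {u : ℝ → R3 → R3} {p : ℝ → R3 → ℝ}

lemma adm_sp (h : AdmissiblePeriodic ν v u p) {t : ℝ} (ht : 0 ≤ t) (i : Fin 3) : SP (fun x => u t x i) :=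
  (toSol h (t + 1)).sp ⟨ht, by linarith⟩ i

lemma fc_phys {c : ℝ} {V : K → C3} {z : Fam} (h : MSol c V z) {t : ℝ} (_ht : 0 ≤ t) :
    fc (fun (x : R3) i => (0 : ℝ) + (GS 0 (cf' z i) t x).re) = at' z t := by
  funext k i
  rw [fc_fr]
  have hrd := h.rd i
  obtain ⟨b, hb, hb'⟩ := hrd.summ
  have hc : Summable fun k => z k t i := Summable.of_norm_bounded hb fun k => hb' k t
  have hsym : ∀ k t, cf' z i (-k) t = star (cf' z i k t) := fun k t => h.sym t k i
  have := fc_of_series (c := fun k => z k t i) hc (fun x => 0 + (GS 0 (cf' z i) t x).re) (fun x => by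
    have him : (GS 0 (cf' z i) t x).im = 0 := SF_real hsym _
    have e : ((0 + (GS 0 (cf' z i) t x).re : ℝ) : ℂ) = GS 0 (cf' z i) t x := by
      apply Complex.ext
      · simp
      · simp [him]
    rw [e]
    unfold GS SF
    simp only [smul_zero, sub_zero]
    rfl)
  exact congrFun this k

/-- the criterion -/
theorem criterion (hν : 0 < ν) {w : R3 → R3} {om : ℝ → R3 → R3} {q : ℝ → R3 → ℝ}
    (hu : AdmissiblePeriodic ν v u p) (hw : AdmissiblePeriodic ν w om q)
    (hv0 : ∀ i, ∫ x in Icc (0 : R3) 1, v x i = 0) (hw0 : ∀ i, ∫ x in Icc (0 : R3) 1, w x i = 0)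
    {D I ε : ℝ} (hD : 0 ≤ D) (hI : 0 ≤ I)
    (hDi : ∫⁻ t in Ioi (0 : ℝ), (wiener (u t) + wiener (om t)) ^ 2 ≤ ENNReal.ofReal D)
    (hIi : ∫⁻ t in Ioi (0 : ℝ), wiener (u t) * wiener (om t) ≤ ENNReal.ofReal I)
    (h1 : 20736 * I < ν * Real.exp (-(20736 * D / ν)))
    (h2 : 144 * Real.pi * I * Real.exp (20736 * D / ν) < ε) :
    ∃ U P, AdmissiblePeriodic ν (fun x => v x + w x) U P ∧
      ∀ t, 0 ≤ t → leiLin (fun k => fc (U t) k - fc (u t) k - fc (om t) k) ≤ ENNReal.ofReal ε := by
  have hpi := Real.pi_pos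
  have hc : 0 < 4 * Real.pi ^ 2 * ν := by positivity
  have gu := gsol_of hν hu hv0
  have gw := gsol_of hν hw hw0
  have hLa : La (4 * Real.pi ^ 2 * ν) = 20736 / ν := by
    unfold La C0; field_simp; norm_num
  have hthr : thr (4 * Real.pi ^ 2 * ν) D = Real.pi * ν / 144 * Real.exp (-(20736 * D / ν)) := by
    unfold thr
    rw [hLa]
    congr 1
    · unfold C0; field_simp; norm_num
    · congr 1; ring
  have hDi' : ∫⁻ t in Ioi 0, (W0 (at' (UF u) t) + W0 (at' (UF om) t)) ^ 2 ≤ ENNReal.ofReal D := by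
    refine le_trans (le_of_eq ?_) hDi
    refine setLIntegral_congr_fun measurableSet_Ioi fun t ht => ?_
    rw [wiener_eq u (le_of_lt ht), wiener_eq om (le_of_lt ht)]
  have hIi' : ∫⁻ t in Ioi 0, W0 (at' (UF u) t) * W0 (at' (UF om) t) ≤ ENNReal.ofReal I := by
    refine le_trans (le_of_eq ?_) hIi
    refine setLIntegral_congr_fun measurableSet_Ioi fun t ht => ?_
    rw [wiener_eq u (le_of_lt ht), wiener_eq om (le_of_lt ht)]
  obtain ⟨r, hm, hr⟩ := super hc gu gw hD hI hDi' hIi' (by
      rw [hthr]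
      unfold C0
      have h3 : Real.pi / 144 * (20736 * I) < Real.pi / 144 * (ν * Real.exp (-(20736 * D / ν))) :=
        mul_lt_mul_of_pos_left h1 (by positivity)
      calc 4 * (36 * Real.pi) * I = Real.pi / 144 * (20736 * I) := by ring
        _ < _ := h3
        _ = _ := by ring) (ε := ε) (by
      rw [hLa]
      unfold C0
      calc 4 * (36 * Real.pi) * I * Real.exp (20736 / ν * D) = 144 * Real.pi * I * Real.exp (20736 * D / ν) := by
            congr 1
            · ring
            · congr 1; ring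
        _ < ε := h2)
  set z := UF u + UF om + r with hz
  have e0 : ∀ k i, UF u k 0 i = fr (fun x => v x i) k := by
    intro k i
    rw [UF_eq u k le_rfl i, hu.initial]
  have e1 : ∀ k i, UF om k 0 i = fr (fun x => w x i) k := by
    intro k i
    rw [UF_eq om k le_rfl i, hw.initial]
  have spv : ∀ i, SP (fun x => v x i) := fun i => by
    have := adm_sp hu le_rfl i
    rwa [hu.initial] at this
  have spw : ∀ i, SP (fun x => w x i) := fun i => by
    have := adm_sp hw le_rfl i
    rwa [hw.initial] at this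
  have dv : ∀ x, ∑ i, H459R3.NS.pd i (fun y => v y i) x = 0 := by
    intro x
    have := hu.divFree 0 le_rfl x
    rwa [hu.initial] at this
  have dw : ∀ x, ∑ i, H459R3.NS.pd i (fun y => w y i) x = 0 := by
    intro x
    have := hw.divFree 0 le_rfl x
    rwa [hw.initial] at this
  have hV : ∀ k, dt k ((fun k => UF u k 0 + UF om k 0) k) = 0 := by
    intro k
    unfold dt
    simp only [Pi.add_apply, mul_add, Finset.sum_add_distrib, e0, e1]
    rw [fr_divfree spv dv k, fr_divfree spw dw k, add_zero]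
  have hphys := hm.physical hV (0 : E3)
  have hdata : (fun (x : R3) i => (0 : E3) i + (∑' k, (fun k => UF u k 0 + UF om k 0) k i * ex k x).re)
      = fun x => v x + w x := by
    funext x i
    simp only [Pi.zero_apply, zero_add, Pi.add_apply, add_mul, e0, e1]
    have s1 : Summable fun k => fr (fun x => v x i) k * ex k x := by
      simp only [ex_eq_ee]
      exact H459R3.NS.summable_term (H459R3.NS.rap_fr (spv i)).summable x
    have s2 : Summable fun k => fr (fun x => w x i) k * ex k x := by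
      simp only [ex_eq_ee]
      exact H459R3.NS.summable_term (H459R3.NS.rap_fr (spw i)).summable x
    rw [s1.tsum_add s2, inv_real (spv i), inv_real (spw i)]
    simp
  rw [hdata] at hphys
  refine ⟨_, _, hphys, fun t ht => ?_⟩
  have e2 : fc ((fun (t : ℝ) (x : R3) i => (0 : E3) i + (GS 0 (cf' z i) t x).re) t) = at' z t := fc_phys hm ht
  rw [leiLin_eq]
  refine le_trans (le_of_eq ?_) (hr t)
  congr 1
  funext k
  rw [e2]
  have e3 : at' (UF u) t k = fc (u t) k := by
    funext i
    show fc (u (max t 0)) k i = _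
    rw [max_eq_left ht]
  have e4 : at' (UF om) t k = fc (om t) k := by
    funext i
    show fc (om (max t 0)) k i = _
    rw [max_eq_left ht]
  rw [← e3, ← e4, hz]
  show UF u k t + UF om k t + r k t - UF u k t - UF om k t = r k t
  abel

end

end Pool.Agent.H356R3.NS.H1SS
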