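import Pool.Agent.H1SS.MSol

open MeasureTheory Set Filter Topology
open scoped ENNReal NNReal ContDiff

namespace Pool.Agent.H356R3.NS.H1SS

/-! ### Polynomial weights -/

lemma summ_pw4 : Summable fun k : K => 1 / pw k ^ 4 := by
  have h2 : Summable fun k : K => if k = 0 then (1 : ℝ) else 0 :=
    summable_of_ne_finset_zero (s := {0}) fun n hn => by rw [if_neg (by simpa using hn)]
  refine (summ_nk4.add h2).of_nonneg_of_le (fun k => by have := pw_pos k; positivity) fun k => ?_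
  by_cases hk : k = 0
  · subst hk
    simp [pw, l1, nk_zero]
  · have hn := nk_pos hk
    have h1 := nk_le_pw k
    rw [if_neg hk, add_zero, div_pow, one_pow]
    exact one_div_le_one_div_of_le (by positivity) (pow_le_pow_left₀ hn.le h1 4)

/-- `∑ 1/pw⁴` -/
noncomputable def S4 : ℝ := ∑' k : K, 1 / pw k ^ 4

lemma S4_nonneg : 0 ≤ S4 := tsum_nonneg fun k => by have := pw_pos k; positivity

lemma l1_le_nk (k : K) : l1 k ≤ 3 * nk k := by
  unfold l1
  calc ∑ i, |(k i : ℝ)| ≤ ∑ _i : Fin 3, nk k := Finset.sum_le_sum fun i _ => abs_le_nk k i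
    _ = 3 * nk k := by simp

lemma pw_le_nk {k : K} (hk : k ≠ 0) : pw k ≤ 4 * nk k := by
  have h1 := l1_le_nk k
  have h2 := one_le_nk hk
  unfold pw; linarith

/-- the weight `(1 + δ |k|)⁵` -/
noncomputable def wd (δ : ℝ) (k : K) : ℝ := (1 + δ * l1 k) ^ 5

lemma wd_pos {δ : ℝ} (hδ : 0 ≤ δ) (k : K) : 0 < wd δ k := by
  have := l1_nonneg k
  unfold wd; positivity

lemma le_wd {δ : ℝ} (hδ : 0 < δ) (hδ1 : δ ≤ 1) (k : K) : δ ^ 5 * pw k ^ 5 ≤ wd δ k := by
  rw [← mul_pow]
  unfold wd pw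
  have := l1_nonneg k
  apply pow_le_pow_left₀ (by positivity)
  nlinarith

lemma wd_le {δ : ℝ} (hδ : 0 < δ) (hδ1 : δ ≤ 1) (k : K) : wd δ k ≤ pw k ^ 5 := by
  unfold wd pw
  have := l1_nonneg k
  apply pow_le_pow_left₀ (by positivity)
  nlinarith

lemma wd_wt {δ : ℝ} (hδ : 0 < δ) (hδ1 : δ ≤ 1) : Wt (wd δ) := by
  refine ⟨fun k => ?_, fun k l => ?_, ?_⟩
  · have := l1_nonneg k
    unfold wd
    exact one_le_pow₀ (by nlinarith)
  · unfold wd
    rw [← mul_pow]
    have h1 := l1_add l (k - l)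
    rw [add_sub_cancel] at h1
    have h2 := l1_nonneg l
    have h3 := l1_nonneg (k - l)
    have h4 := l1_nonneg k
    apply pow_le_pow_left₀ (by positivity)
    nlinarith [mul_nonneg h2 h3, mul_nonneg hδ.le h2, mul_nonneg hδ.le h3, mul_nonneg (mul_nonneg hδ.le h2) (mul_nonneg hδ.le h3)]
  · have h := summ_pw4.mul_left (1 / δ ^ 5)
    refine h.of_nonneg_of_le (fun k => div_nonneg (nk_nonneg k) (wd_pos hδ.le k).le) fun k => ?_
    have h1 := le_wd hδ hδ1 k
    have h2 := nk_le_pw k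
    have hp := pw_pos k
    have hn := nk_nonneg k
    have hw := wd_pos hδ.le k
    calc nk k / wd δ k ≤ pw k / (δ ^ 5 * pw k ^ 5) := by
          exact div_le_div₀ hp.le h2 (by positivity) h1
      _ = 1 / δ ^ 5 * (1 / pw k ^ 4) := by field_simp

/-- polynomial bounds, uniform in time -/
def PB (m : ℕ) (u : Fam) : Prop := ∃ M : ℝ, 0 ≤ M ∧ ∀ k t, pw k ^ m * ‖u k t‖ ≤ M

lemma PB.le {m n : ℕ} (h : n ≤ m) {u : Fam} (hu : PB m u) : PB n u := by
  obtain ⟨M, hM, hu⟩ := hu
  refine ⟨M, hM, fun k t => le_trans ?_ (hu k t)⟩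
  exact mul_le_mul_of_nonneg_right (pow_le_pow_right₀ (one_le_pw k) h) (norm_nonneg _)

lemma rd_of_pb {u : Fam} (h : ∀ m, PB m u) (i : Fin 3) : RD (cf' u i) := by
  intro m
  obtain ⟨M, hM, hu⟩ := h (m + 4)
  refine ⟨fun k => M * (1 / pw k ^ 4), summ_pw4.mul_left M, fun k t => ?_⟩
  have hp := pw_pos k
  have h1 := hu k t
  show _ ≤ M * (1 / pw k ^ 4)
  rw [mul_one_div, le_div_iff₀ (by positivity)]
  calc pw k ^ m * ‖cf' u i k t‖ * pw k ^ 4 ≤ pw k ^ m * ‖u k t‖ * pw k ^ 4 := by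
        have : ‖cf' u i k t‖ ≤ ‖u k t‖ := norm_le_pi_norm _ i
        gcongr
    _ = pw k ^ (m + 4) * ‖u k t‖ := by rw [pow_add]; ring
    _ ≤ M := h1

lemma pb_of_rd {u : Fam} (h : ∀ i, RD (cf' u i)) (m : ℕ) : PB m u := by
  choose b hb hb' using fun i => h i m
  have hb0 : ∀ i k, 0 ≤ b i k := fun i k =>
    (mul_nonneg (pow_pos (pw_pos k) m).le (norm_nonneg _)).trans (hb' i k 0)
  refine ⟨∑ i, ∑' k, b i k, Finset.sum_nonneg fun i _ => tsum_nonneg (hb0 i), fun k t => ?_⟩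
  calc pw k ^ m * ‖u k t‖ ≤ pw k ^ m * ∑ i, ‖u k t i‖ :=
        mul_le_mul_of_nonneg_left (norm_le_sum _) (pow_pos (pw_pos k) m).le
    _ = ∑ i, pw k ^ m * ‖u k t i‖ := by rw [Finset.mul_sum]
    _ ≤ _ := Finset.sum_le_sum fun i _ => (hb' i k t).trans ((hb i).le_tsum k fun _ _ => hb0 i _)

lemma dom_of_pb {u : Fam} (h : PB 4 u) : Dom u := by
  obtain ⟨M, hM, hu⟩ := h
  refine ⟨fun k => M * (1 / pw k ^ 4), summ_pw4.mul_left M, fun k t => ?_⟩
  have hp := pw_pos k
  show _ ≤ M * (1 / pw k ^ 4)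
  rw [mul_one_div, le_div_iff₀ (by positivity), mul_comm]
  exact hu k t

/-- convolution of polynomial weights -/
lemma conv_pw {m : ℕ} (hm : 4 ≤ m) (k : K) :
    ∑' l, ENNReal.ofReal (1 / pw l ^ m) * ENNReal.ofReal (1 / pw (k - l) ^ m)
      ≤ ENNReal.ofReal (2 ^ (m + 1) * S4 * (1 / pw k ^ m)) := by
  have hpt : ∀ l, ENNReal.ofReal (1 / pw l ^ m) * ENNReal.ofReal (1 / pw (k - l) ^ m)
      ≤ ENNReal.ofReal (2 ^ m * (1 / pw k ^ m)) * (ENNReal.ofReal (1 / pw l ^ 4) + ENNReal.ofReal (1 / pw (k - l) ^ 4)) := by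
    intro l
    have p1 := pw_pos l
    have p2 := pw_pos (k - l)
    have p3 := pw_pos k
    rw [← ENNReal.ofReal_mul (by positivity), ← ENNReal.ofReal_add (by positivity) (by positivity),
      ← ENNReal.ofReal_mul (by positivity)]
    apply ENNReal.ofReal_le_ofReal
    have h1 : pw k ≤ pw l + pw (k - l) := by
      have h1 := l1_add l (k - l)
      rw [add_sub_cancel] at h1
      unfold pw; linarith
    have key : pw k ^ m ≤ 2 ^ m * (pw l ^ m + pw (k - l) ^ m) := by
      rcases le_total (pw l) (pw (k - l)) with h | h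
      · calc pw k ^ m ≤ (2 * pw (k - l)) ^ m := pow_le_pow_left₀ p3.le (by linarith) m
          _ = 2 ^ m * pw (k - l) ^ m := mul_pow _ _ _
          _ ≤ _ := by
              apply mul_le_mul_of_nonneg_left _ (by positivity)
              have : 0 < pw l ^ m := by positivity
              linarith
      · calc pw k ^ m ≤ (2 * pw l) ^ m := pow_le_pow_left₀ p3.le (by linarith) m
          _ = 2 ^ m * pw l ^ m := mul_pow _ _ _
          _ ≤ _ := by
              apply mul_le_mul_of_nonneg_left _ (by positivity)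
              have : 0 < pw (k - l) ^ m := by positivity
              linarith
    have h4 : 1 / pw l ^ m ≤ 1 / pw l ^ 4 :=
      one_div_le_one_div_of_le (by positivity) (pow_le_pow_right₀ (one_le_pw l) hm)
    have h5 : 1 / pw (k - l) ^ m ≤ 1 / pw (k - l) ^ 4 :=
      one_div_le_one_div_of_le (by positivity) (pow_le_pow_right₀ (one_le_pw _) hm)
    calc 1 / pw l ^ m * (1 / pw (k - l) ^ m)
        = pw k ^ m * (1 / pw k ^ m) * (1 / pw l ^ m * (1 / pw (k - l) ^ m)) := by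
          field_simp
      _ ≤ 2 ^ m * (pw l ^ m + pw (k - l) ^ m) * (1 / pw k ^ m) * (1 / pw l ^ m * (1 / pw (k - l) ^ m)) := by
          gcongr
      _ = 2 ^ m * (1 / pw k ^ m) * (1 / pw (k - l) ^ m + 1 / pw l ^ m) := by field_simp
      _ ≤ _ := by
          apply mul_le_mul_of_nonneg_left _ (by positivity)
          linarith
  have hS : ∑' l : K, ENNReal.ofReal (1 / pw l ^ 4) = ENNReal.ofReal S4 := by
    unfold S4
    rw [ENNReal.ofReal_tsum_of_nonneg (fun l => by have := pw_pos l; positivity) summ_pw4]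
  have hS' : ∑' l : K, ENNReal.ofReal (1 / pw (k - l) ^ 4) = ENNReal.ofReal S4 := by
    rw [← hS]
    exact (Equiv.subLeft k).tsum_eq fun l => ENNReal.ofReal (1 / pw l ^ 4)
  refine (ENNReal.tsum_le_tsum hpt).trans ?_
  rw [ENNReal.tsum_mul_left, ENNReal.tsum_add, hS, hS']
  have := S4_nonneg
  have hp := pw_pos k
  rw [← ENNReal.ofReal_add this this, ← ENNReal.ofReal_mul (by positivity)]
  apply ENNReal.ofReal_le_ofReal
  rw [pow_succ]
  apply le_of_eq; ring

lemma norm_Bf_poly {m : ℕ} (hm : 4 ≤ m) {x : K → C3} {M : ℝ} (hM : 0 ≤ M) (hx : ∀ k, pw k ^ m * ‖x k‖ ≤ M) (k : K) :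
    ‖Bf x x k‖ ≤ C0 * nk k * (M ^ 2 * (2 ^ (m + 1) * S4 * (1 / pw k ^ m))) := by
  have hC := C0_pos
  have hn := nk_nonneg k
  have hS := S4_nonneg
  have hp := pw_pos k
  have h1 := enorm_Bf_le x x k
  have hb : ∀ l, ‖x l‖ₑ ≤ ENNReal.ofReal M * ENNReal.ofReal (1 / pw l ^ m) := by
    intro l
    have hl := pw_pos l
    rw [← ENNReal.ofReal_mul hM, ← ofReal_norm]
    apply ENNReal.ofReal_le_ofReal
    rw [mul_one_div, le_div_iff₀ (by positivity), mul_comm]
    exact hx l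
  have h2 : ∑' l, ‖x l‖ₑ * ‖x (k - l)‖ₑ ≤ ENNReal.ofReal (M ^ 2 * (2 ^ (m + 1) * S4 * (1 / pw k ^ m))) := by
    calc ∑' l, ‖x l‖ₑ * ‖x (k - l)‖ₑ
        ≤ ∑' l, ENNReal.ofReal (M ^ 2) * (ENNReal.ofReal (1 / pw l ^ m) * ENNReal.ofReal (1 / pw (k - l) ^ m)) := by
          refine ENNReal.tsum_le_tsum fun l => ?_
          refine (mul_le_mul' (hb l) (hb (k - l))).trans (le_of_eq ?_)
          rw [pow_two, ENNReal.ofReal_mul hM]; ring
      _ ≤ _ := by
          rw [ENNReal.tsum_mul_left, ENNReal.ofReal_mul (by positivity)]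
          exact mul_le_mul' le_rfl (conv_pw hm k)
  have h3 : ‖Bf x x k‖ₑ ≤ ENNReal.ofReal (C0 * nk k * (M ^ 2 * (2 ^ (m + 1) * S4 * (1 / pw k ^ m)))) := by
    rw [ENNReal.ofReal_mul (by positivity)]
    exact h1.trans (mul_le_mul' le_rfl h2)
  rw [← ofReal_norm] at h3
  exact (ENNReal.ofReal_le_ofReal_iff (by positivity)).1 h3

lemma norm_Duh_le {c : ℝ} {k : K} (hl : 0 < c * sq k) {F : Fam} {B : ℝ} (hB : 0 ≤ B)
    (h : ∀ s, ‖F k s‖ ≤ B) (t : ℝ) : ‖Duh c F k t‖ ≤ B / (c * sq k) := by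
  unfold Duh
  set lam := c * sq k
  have hτ : 0 ≤ max t 0 := le_max_right _ _
  set τ := max t 0
  have hc : Continuous fun s => B * Real.exp (-(lam * (τ - s))) := by fun_prop
  have h1 : ‖∫ s in (0 : ℝ)..τ, Real.exp (-(lam * (τ - s))) • F k s‖
      ≤ ∫ s in (0 : ℝ)..τ, B * Real.exp (-(lam * (τ - s))) := by
    refine intervalIntegral.norm_integral_le_of_norm_le hτ ?_ (hc.intervalIntegrable _ _)
    refine Filter.Eventually.of_forall fun s _ => ?_
    rw [norm_smul, Real.norm_of_nonneg (Real.exp_pos _).le, mul_comm]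
    exact mul_le_mul_of_nonneg_right (h s) (Real.exp_pos _).le
  refine h1.trans ?_
  have hd : ∀ s ∈ uIcc 0 τ, HasDerivAt (fun s => B / lam * Real.exp (-(lam * (τ - s))))
      (B * Real.exp (-(lam * (τ - s)))) s := by
    intro s _
    have h2 : HasDerivAt (fun s : ℝ => -(lam * (τ - s))) lam s := by
      have := (((hasDerivAt_id' s).const_sub τ).const_mul lam).fun_neg
      simpa using this
    refine ((h2.exp).const_mul (B / lam)).congr_deriv ?_
    field_simp
  rw [intervalIntegral.integral_eq_sub_of_hasDerivAt hd (hc.intervalIntegrable _ _)]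
  simp only [sub_self, mul_zero, neg_zero, Real.exp_zero, mul_one]
  have : 0 ≤ B / lam * Real.exp (-(lam * (τ - 0))) := by positivity
  linarith

/-- Regularity. -/
lemma boot {c : ℝ} (hc : 0 < c) {V : K → C3} {u : Fam} (hz : ∀ t, u 0 t = 0)
    (hV : ∀ m : ℕ, ∃ M : ℝ, 0 ≤ M ∧ ∀ k, pw k ^ m * ‖V k‖ ≤ M)
    (he : ∀ k t, u k t = Real.exp (-(c * sq k * max t 0)) • V k + Duh c (Bt u) k t) (h4 : PB 4 u) (m : ℕ) :
    PB m u := by
  have hC := C0_pos
  have hS := S4_nonneg
  have hstep : ∀ m, 4 ≤ m → PB m u → PB (m + 1) u := by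
    intro m hm hu
    obtain ⟨M, hM, hu⟩ := hu
    obtain ⟨M', hM', hV'⟩ := hV (m + 1)
    set E := 4 * (C0 * (M ^ 2 * (2 ^ (m + 1) * S4)) / c) with hE
    have hE0 : 0 ≤ E := by positivity
    refine ⟨M' + E, by positivity, fun k t => ?_⟩
    by_cases hk : k = 0
    · subst hk
      rw [hz, norm_zero, mul_zero]; positivity
    have hn := nk_pos hk
    have hp := pw_pos k
    have hsq := sq_pos hk
    have h1 : ‖Duh c (Bt u) k t‖ ≤ C0 * nk k * (M ^ 2 * (2 ^ (m + 1) * S4 * (1 / pw k ^ m))) / (c * sq k) := by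
      refine norm_Duh_le (by positivity) (by positivity) (fun s => ?_) t
      exact norm_Bf_poly hm hM (fun l => hu l s) k
    have h2 : C0 * nk k * (M ^ 2 * (2 ^ (m + 1) * S4 * (1 / pw k ^ m))) / (c * sq k)
        = C0 * (M ^ 2 * (2 ^ (m + 1) * S4)) / c * (1 / pw k ^ m) * (1 / nk k) := by
      rw [← nk_mul_self]; field_simp
    have h3 : 1 / nk k ≤ 4 / pw k := by
      rw [div_le_div_iff₀ hn hp]
      have := pw_le_nk hk
      linarith
    have h5 : pw k ^ (m + 1) * ‖Duh c (Bt u) k t‖ ≤ E := by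
      calc pw k ^ (m + 1) * ‖Duh c (Bt u) k t‖
          ≤ pw k ^ (m + 1) * (C0 * (M ^ 2 * (2 ^ (m + 1) * S4)) / c * (1 / pw k ^ m) * (4 / pw k)) := by
            apply mul_le_mul_of_nonneg_left _ (by positivity)
            rw [h2] at h1
            refine h1.trans ?_
            exact mul_le_mul_of_nonneg_left h3 (by positivity)
        _ = E := by rw [hE, pow_succ]; field_simp
    have h6 : pw k ^ (m + 1) * ‖Real.exp (-(c * sq k * max t 0)) • V k‖ ≤ M' := by
      refine le_trans ?_ (hV' k)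
      apply mul_le_mul_of_nonneg_left _ (by positivity)
      rw [norm_smul, Real.norm_of_nonneg (Real.exp_pos _).le]
      have : Real.exp (-(c * sq k * max t 0)) ≤ 1 := by
        rw [Real.exp_le_one_iff]
        have : 0 ≤ c * sq k * max t 0 := by
          have := le_max_right t 0
          positivity
        linarith
      calc _ ≤ 1 * ‖V k‖ := mul_le_mul_of_nonneg_right this (norm_nonneg _)
        _ = _ := one_mul _
    rw [he k t]
    calc _ ≤ pw k ^ (m + 1) * (‖Real.exp (-(c * sq k * max t 0)) • V k‖ + ‖Duh c (Bt u) k t‖) :=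
          mul_le_mul_of_nonneg_left (norm_add_le _ _) (by positivity)
      _ ≤ _ := by rw [mul_add]; exact add_le_add h6 h5
  have hall : ∀ n, PB (4 + n) u := by
    intro n
    induction n with
    | zero => exact h4
    | succ n ih => exact hstep (4 + n) (by omega) ih
  rcases le_total m 4 with h | h
  · exact h4.le h
  · have := hall (m - 4)
    rwa [show 4 + (m - 4) = m by omega] at this

end Pool.Agent.H356R3.NS.H1SS
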