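import Pool.Agent.H1SS.HFin

set_option autoImplicit false

/-!
# Global smooth solutions from arbitrarily many scales

Rescaled copies `N_j w_j(N_j x + b_j)` of initial data with global smooth solutions of size at most `β`
may be added up without loss of global regularity, for any number `n` of scales `N_1 | N_2 | … | N_n`,
as soon as `N_{j+1} ≥ R N_j`, with a ratio `R` which depends only on `β` and the viscosity and not on `n`.
-/

open MeasureTheory Set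
open scoped ContDiff ENNReal

namespace Pool.Agent.H1SS.ScaleSuperpositionKept

open Pool.Agent.H356R3.NS Pool.Agent.H356R3.NS.H1SS

lemma SizeLE.mono {β γ : ℝ} (h : β ≤ γ) {u : ℝ → R3 → R3} (hu : SizeLE β u) : SizeLE γ u :=
  ⟨fun t ht => (hu.1 t ht).trans (ENNReal.ofReal_le_ofReal h), hu.2.trans (ENNReal.ofReal_le_ofReal h)⟩

theorem result (ν : ℝ) (hν : 0 < ν) (S : Set (ℝ → R3 → R3))
    (hS : S.Finite ∨ ∃ β : ℝ, ∀ u ∈ S, SizeLE β u) :
    ∃ (R : ℕ) (δ B : ℝ), 0 < δ ∧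
      ∀ (n : ℕ) (N : Fin n → ℕ) (w : Fin n → R3 → R3) (om : Fin n → ℝ → R3 → R3) (q : Fin n → ℝ → R3 → ℝ)
        (b : Fin n → R3) (v : R3 → R3),
        (∀ j, 1 ≤ N j) → (∀ i j : Fin n, (i : ℕ) + 1 = j → N i ∣ N j ∧ R * N i ≤ N j) →
        (∀ j, om j ∈ S) → (∀ j, AdmissiblePeriodic ν (w j) (om j) (q j)) →
        (∀ j i, ∫ x in Icc (0 : R3) 1, w j x i = 0) →
        ContDiff ℝ ∞ v → (∀ x j, v (x + Pi.single j 1) = v x) →
        (∀ x, ∑ i, pd i (fun y => v y i) x = 0) → (∀ i, ∫ x in Icc (0 : R3) 1, v x i = 0) →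
        wiener v ≤ ENNReal.ofReal δ →
        ∃ U P, AdmissiblePeriodic ν (fun x => v x + ∑ j, (N j : ℝ) • w j ((N j : ℝ) • x + b j)) U P ∧
          ∫⁻ t in Ioi (0 : ℝ), wiener (U t) ≤ ENNReal.ofReal B := by
  classical
  obtain ⟨β, hβ, hb⟩ : ∃ β : ℝ, 0 ≤ β ∧ ∀ u ∈ S, (∃ γ : ℝ, SizeLE γ u) → SizeLE β u := by
    rcases hS with hS | ⟨β, hβ⟩
    · have hch : ∀ u : ℝ → R3 → R3, ∃ γ : ℝ, (∃ γ : ℝ, SizeLE γ u) → SizeLE γ u := by
        intro u
        by_cases h : ∃ γ : ℝ, SizeLE γ u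
        · obtain ⟨γ, hγ⟩ := h
          exact ⟨γ, fun _ => hγ⟩
        · exact ⟨0, fun h' => absurd h' h⟩
      choose f hf using hch
      obtain ⟨M, hM⟩ := (hS.image f).bddAbove
      exact ⟨max M 0, le_max_right _ _, fun u hu h =>
        SizeLE.mono ((hM ⟨u, hu, rfl⟩).trans (le_max_left _ _)) (hf u h)⟩
    · exact ⟨max β 0, le_max_right _ _, fun u hu _ => SizeLE.mono (le_max_left _ _) (hβ u hu)⟩
  obtain ⟨R, δ, B, hδ, H⟩ := uniform hν hβ
  refine ⟨R, δ, B, hδ, fun n N w om q b v h1 h2 h3 h4 h5 hv hvp hvd hv0 hvW => ?_⟩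
  refine H n N w om q b v h1 h2 h4 h5 (fun j => hb _ (h3 j) ?_) hv hvp hvd hv0 hvW
  obtain ⟨γ, -, hγ⟩ := size_exists hν (h4 j) (h5 j)
  exact ⟨γ, hγ⟩

end Pool.Agent.H1SS.ScaleSuperpositionKept
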