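import Pool.Agent.H1SS.Phy

open MeasureTheory Set Filter Topology
open scoped ENNReal NNReal ContDiff

namespace Pool.Agent.H356R3.NS.H1SS

open H459R3.NS (IsSol SP Per fr ee cube)

/-! ### Scaling of solutions -/

lemma pd_affine {f : R3 → ℝ} (hf : Differentiable ℝ f) (N : ℝ) (b : R3) (j : Fin 3) (x : R3) :
    pd j (fun y => f (N • y + b)) x = N * pd j f (N • x + b) := by
  unfold pd
  have h1 : HasFDerivAt (fun y : R3 => N • y + b) (N • ContinuousLinearMap.id ℝ R3) x :=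
    ((hasFDerivAt_id x).const_smul N).add_const b
  have h2 := (hf (N • x + b)).hasFDerivAt.comp x h1
  have h3 : fderiv ℝ (fun y => f (N • y + b)) x = (fderiv ℝ f (N • x + b)).comp (N • ContinuousLinearMap.id ℝ R3) :=
    h2.fderiv
  rw [h3]
  simp

lemma pd_const_mul {f : R3 → ℝ} (hf : Differentiable ℝ f) (N : ℝ) (j : Fin 3) (x : R3) :
    pd j (fun y => N * f y) x = N * pd j f x := by
  unfold pd
  have h2 : HasFDerivAt (fun y => N * f y) (N • fderiv ℝ f x) x := (hf x).hasFDerivAt.const_mul N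
  rw [h2.fderiv]
  rfl

lemma per_nat {F : Type*} {f : R3 → F} (hf : ∀ x j, f (x + Pi.single j 1) = f x) (N : ℕ) (j : Fin 3) (x : R3) :
    f (x + (N : ℝ) • Pi.single j 1) = f x := by
  have h1 : Function.Periodic f (Pi.single j (1 : ℝ)) := fun z => hf z j
  have h2 := h1.nsmul N x
  rwa [← Nat.cast_smul_eq_nsmul ℝ] at h2

section
variable {ν : ℝ} {v : R3 → R3} {u : ℝ → R3 → R3} {p : ℝ → R3 → ℝ}

theorem scale (h : AdmissiblePeriodic ν v u p) {N : ℕ} (hN : 1 ≤ N) (b : R3) :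
    AdmissiblePeriodic ν (fun x => (N : ℝ) • v ((N : ℝ) • x + b))
      (fun t x => (N : ℝ) • u ((N : ℝ) ^ 2 * t) ((N : ℝ) • x + b))
      (fun t x => (N : ℝ) ^ 2 * p ((N : ℝ) ^ 2 * t) ((N : ℝ) • x + b)) := by
  have hN0 : (0 : ℝ) < N := by exact_mod_cast hN
  have hN2 : (0 : ℝ) < (N : ℝ) ^ 2 := by positivity
  have hL : ContDiff ℝ ∞ fun z : ℝ × R3 => (((N : ℝ) ^ 2 * z.1, (N : ℝ) • z.2 + b) : ℝ × R3) :=
    (contDiff_const.mul contDiff_fst).prodMk ((contDiff_snd.const_smul _).add contDiff_const)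
  have hmap : MapsTo (fun z : ℝ × R3 => (((N : ℝ) ^ 2 * z.1, (N : ℝ) • z.2 + b) : ℝ × R3))
      (Ici 0 ×ˢ univ) (Ici 0 ×ˢ univ) := fun z hz =>
    ⟨mul_nonneg hN2.le hz.1, mem_univ _⟩
  have hsp : ∀ t, 0 ≤ t → ∀ i, SP (fun x => u t x i) := fun t ht i => adm_sp h ht i
  have hspp : ∀ t, 0 ≤ t → SP (p t) := fun t ht => (toSol h (t + 1)).sp_p ⟨ht, by linarith⟩
  have hdi : ∀ t, 0 ≤ t → ∀ i, Differentiable ℝ (fun x => u t x i) := fun t ht i =>
    (hsp t ht i).smooth.differentiable (by norm_cast)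
  have hdp : ∀ t, 0 ≤ t → Differentiable ℝ (p t) := fun t ht =>
    (hspp t ht).smooth.differentiable (by norm_cast)
  have hdj : ∀ t, 0 ≤ t → ∀ i j, Differentiable ℝ (pd j (fun x => u t x i)) := fun t ht i j =>
    ((hsp t ht i).pd j).smooth.differentiable (by norm_cast)
  have hT : ∀ {t : ℝ}, 0 ≤ t → 0 ≤ (N : ℝ) ^ 2 * t := fun ht => mul_nonneg hN2.le ht
  refine ⟨?_, ?_, ?_, ?_, ?_, ?_, ?_⟩
  · exact (h.smooth_u.comp hL.contDiffOn hmap).const_smul (N : ℝ)
  · exact contDiffOn_const.mul (h.smooth_p.comp hL.contDiffOn hmap)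
  · intro t ht x j
    have e : (N : ℝ) • (x + Pi.single j 1) + b = ((N : ℝ) • x + b) + (N : ℝ) • Pi.single j 1 := by
      rw [smul_add]; abel
    simp only [e]
    rw [per_nat (fun x j => h.periodic_u _ (hT ht) x j)]
  · intro t ht x j
    have e : (N : ℝ) • (x + Pi.single j 1) + b = ((N : ℝ) • x + b) + (N : ℝ) • Pi.single j 1 := by
      rw [smul_add]; abel
    simp only [e]
    rw [per_nat (fun x j => h.periodic_p _ (hT ht) x j)]
  · intro t ht x i
    have hT' := hT ht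
    set T := (N : ℝ) ^ 2 * t with hTdef
    set y := (N : ℝ) • x + b with hy
    have hm := h.momentum T hT' y i
    -- time derivative
    have hs : ContDiffOn ℝ ∞ (fun s => u s y i) (Ici 0) := by
      have h1 := (contDiffOn_pi.1 h.smooth_u) i
      exact h1.comp (contDiff_id.prodMk contDiff_const).contDiffOn fun s hs => ⟨hs, mem_univ _⟩
    have hd1 : HasDerivWithinAt (fun s => u s y i) (derivWithin (fun s => u s y i) (Ici 0) T) (Ici 0) T :=
      ((hs.differentiableOn (by norm_cast)) T hT').hasDerivWithinAt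
    have hd2 : HasDerivWithinAt (fun s : ℝ => (N : ℝ) ^ 2 * s) ((N : ℝ) ^ 2) (Ici 0) t := by
      simpa using ((hasDerivAt_id' t).const_mul ((N : ℝ) ^ 2)).hasDerivWithinAt
    have hd3 : HasDerivWithinAt (fun s => u ((N : ℝ) ^ 2 * s) y i)
        (derivWithin (fun s => u s y i) (Ici 0) T * (N : ℝ) ^ 2) (Ici 0) t := by
      have := HasDerivWithinAt.comp (h₂ := fun s => u s y i) (h := fun s : ℝ => (N : ℝ) ^ 2 * s) t hd1 hd2
        (fun s hs => hT hs)
      exact this
    have hd4 : HasDerivWithinAt (fun s => ((N : ℝ) • u ((N : ℝ) ^ 2 * s) y) i)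
        ((N : ℝ) * (derivWithin (fun s => u s y i) (Ici 0) T * (N : ℝ) ^ 2)) (Ici 0) t := hd3.const_mul _
    have hdt : derivWithin (fun s => ((N : ℝ) • u ((N : ℝ) ^ 2 * s) y) i) (Ici 0) t
        = (N : ℝ) * (derivWithin (fun s => u s y i) (Ici 0) T * (N : ℝ) ^ 2) :=
      hd4.derivWithin (uniqueDiffOn_Ici (0 : ℝ) t ht)
    have hx1 : ∀ j, (pd j fun z => ((N : ℝ) • u T ((N : ℝ) • z + b)) i)
        = fun z => (N : ℝ) ^ 2 * pd j (fun x => u T x i) ((N : ℝ) • z + b) := by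
      intro j
      funext z
      have e : (fun z => ((N : ℝ) • u T ((N : ℝ) • z + b)) i) = fun z => (N : ℝ) * u T ((N : ℝ) • z + b) i := rfl
      rw [e, pd_const_mul (f := fun z => u T ((N : ℝ) • z + b) i)
        ((hdi T hT' i).comp (by fun_prop)) (N : ℝ) j z, pd_affine (hdi T hT' i) (N : ℝ) b j z]
      ring
    have hx2 : ∀ j, pd j (fun z => (N : ℝ) ^ 2 * pd j (fun x => u T x i) ((N : ℝ) • z + b)) x
        = (N : ℝ) ^ 3 * pd j (pd j fun x => u T x i) y := by
      intro j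
      rw [pd_const_mul (f := fun z => pd j (fun x => u T x i) ((N : ℝ) • z + b))
        ((hdj T hT' i j).comp (by fun_prop)) ((N : ℝ) ^ 2) j x, pd_affine (hdj T hT' i j) (N : ℝ) b j x]
      ring
    have hx3 : pd i (fun z => (N : ℝ) ^ 2 * p T ((N : ℝ) • z + b)) x = (N : ℝ) ^ 3 * pd i (p T) y := by
      rw [pd_const_mul (f := fun z => p T ((N : ℝ) • z + b)) ((hdp T hT').comp (by fun_prop)) ((N : ℝ) ^ 2) i x,
        pd_affine (hdp T hT') (N : ℝ) b i x]
      ring
    show derivWithin (fun s => ((N : ℝ) • u ((N : ℝ) ^ 2 * s) y) i) (Ici 0) t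
      + ∑ j, ((N : ℝ) • u T y) j * pd j (fun z => ((N : ℝ) • u T ((N : ℝ) • z + b)) i) x
      = ν * ∑ j, pd j (pd j fun z => ((N : ℝ) • u T ((N : ℝ) • z + b)) i) x
        - pd i (fun z => (N : ℝ) ^ 2 * p T ((N : ℝ) • z + b)) x
    rw [hdt]
    simp only [hx1, hx2, ← hy]
    rw [hx3]
    have e4 : ∀ j, ((N : ℝ) • u T y) j * ((N : ℝ) ^ 2 * pd j (fun x => u T x i) y)
        = (N : ℝ) ^ 3 * (u T y j * pd j (fun x => u T x i) y) := by
      intro j
      show (N : ℝ) * u T y j * _ = _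
      ring
    simp only [e4]
    rw [← Finset.mul_sum, ← Finset.mul_sum]
    linear_combination (N : ℝ) ^ 3 * hm
  · intro t ht x
    have hT' := hT ht
    have hx1 : ∀ i, pd i (fun z => ((N : ℝ) • u ((N : ℝ) ^ 2 * t) ((N : ℝ) • z + b)) i) x
        = (N : ℝ) ^ 2 * pd i (fun x => u ((N : ℝ) ^ 2 * t) x i) ((N : ℝ) • x + b) := by
      intro i
      have e : (fun z => ((N : ℝ) • u ((N : ℝ) ^ 2 * t) ((N : ℝ) • z + b)) i)
          = fun z => (N : ℝ) * u ((N : ℝ) ^ 2 * t) ((N : ℝ) • z + b) i := rfl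
      rw [e, pd_const_mul (f := fun z => u ((N : ℝ) ^ 2 * t) ((N : ℝ) • z + b) i)
        ((hdi _ hT' i).comp (by fun_prop)) (N : ℝ) i x, pd_affine (hdi _ hT' i) (N : ℝ) b i x]
      ring
    show ∑ i, pd i (fun z => ((N : ℝ) • u ((N : ℝ) ^ 2 * t) ((N : ℝ) • z + b)) i) x = 0
    simp only [hx1]
    rw [← Finset.mul_sum, h.divFree _ hT', mul_zero]
  · funext x
    simp only [mul_zero, h.initial]

end

/-! ### Fourier coefficients of a rescaled field -/

/-- multiplication of frequencies -/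
def mulK (N : ℕ) (k : K) : K := fun i => (N : ℤ) * k i

lemma mulK_inj {N : ℕ} (hN : 1 ≤ N) : Function.Injective (mulK N) := by
  intro k l h
  funext i
  have := congrFun h i
  unfold mulK at this
  have hN' : (N : ℤ) ≠ 0 := by exact_mod_cast (by omega : N ≠ 0)
  exact mul_left_cancel₀ hN' this

lemma ee_affine (k : K) (N : ℕ) (b x : R3) : ee k ((N : ℝ) • x + b) = ee k b * ee (mulK N k) x := by
  rw [H459R3.NS.ee_add, mul_comm]
  congr 1
  unfold H459R3.NS.ee H459R3.NS.ph mulK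
  congr 3
  refine Finset.sum_congr rfl fun j _ => ?_
  simp only [Pi.smul_apply, smul_eq_mul]
  push_cast
  ring

lemma fr_scale {f : R3 → ℝ} (hf : SP f) {N : ℕ} (hN : 1 ≤ N) (b : R3) (a : ℝ) :
    fr (fun x => a * f ((N : ℝ) • x + b)) = Function.extend (mulK N) (fun k => (a : ℂ) * (fr f k * ee k b)) 0 := by
  have hinj := mulK_inj hN
  have hs : Summable (fr f) := (H459R3.NS.rap_fr hf).summable
  have hs2 : Summable fun k => (a : ℂ) * (fr f k * ee k b) := (H459R3.NS.summable_term hs b).mul_left _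
  set c := Function.extend (mulK N) (fun k => (a : ℂ) * (fr f k * ee k b)) 0 with hc
  have hcs : Summable c := by
    rw [← hinj.summable_iff]
    · have : c ∘ mulK N = fun k => (a : ℂ) * (fr f k * ee k b) := Function.extend_comp hinj _ _
      rw [this]; exact hs2
    · intro k hk
      exact Function.extend_apply' _ _ _ hk
  refine fc_of_series hcs _ fun x => ?_
  have h1 := inv_real hf ((N : ℝ) • x + b)
  have h2 : ∑' k, c k * ex k x = ∑' k, c (mulK N k) * ex (mulK N k) x := by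
    refine (hinj.tsum_eq (f := fun k => c k * ex k x) ?_).symm
    intro k hk
    by_contra hcon
    apply hk
    have : c k = 0 := Function.extend_apply' _ _ _ hcon
    show c k * ex k x = 0
    rw [this, zero_mul]
  rw [h2]
  push_cast
  rw [← h1, ← tsum_mul_left]
  refine tsum_congr fun k => ?_
  rw [hc, hinj.extend_apply, ex_eq_ee, ex_eq_ee, ee_affine]
  ring

lemma wiener_scale {v : R3 → R3} (hv : ∀ i, SP (fun x => v x i)) {N : ℕ} (hN : 1 ≤ N) (b : R3) (a : ℝ) :
    wiener (fun x => a • v ((N : ℝ) • x + b)) = ENNReal.ofReal |a| * wiener v := by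
  have hinj := mulK_inj hN
  have h1 : ∀ k i, fc (fun x => a • v ((N : ℝ) • x + b)) k i
      = Function.extend (mulK N) (fun k => (a : ℂ) * (fr (fun x => v x i) k * ee k b)) 0 k := by
    intro k i
    rw [fc_fr]
    exact congrFun (fr_scale (hv i) hN b a) k
  unfold wiener
  rw [← ENNReal.tsum_mul_left]
  have h2 : ∑' k, ‖fc (fun x => a • v ((N : ℝ) • x + b)) k‖ₑ
      = ∑' k, ‖fc (fun x => a • v ((N : ℝ) • x + b)) (mulK N k)‖ₑ := by
    refine (hinj.tsum_eq (f := fun k => ‖fc (fun x => a • v ((N : ℝ) • x + b)) k‖ₑ) ?_).symm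
    intro k hk
    by_contra hcon
    apply hk
    have : fc (fun x => a • v ((N : ℝ) • x + b)) k = 0 := by
      funext i
      rw [h1, Function.extend_apply' _ _ _ hcon]
      rfl
    show ‖fc (fun x => a • v ((N : ℝ) • x + b)) k‖ₑ = 0
    rw [this]; simp
  rw [h2]
  refine tsum_congr fun k => ?_
  have h3 : fc (fun x => a • v ((N : ℝ) • x + b)) (mulK N k) = ((a : ℂ) * ee k b) • fc v k := by
    funext i
    rw [h1, hinj.extend_apply, Pi.smul_apply, fc_fr, smul_eq_mul]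
    ring
  rw [h3, enorm_smul]
  congr 1
  rw [← ofReal_norm, norm_mul, H459R3.NS.norm_ee, mul_one, Complex.norm_real, Real.norm_eq_abs]

lemma mean_scale {v : R3 → R3} (hv : ∀ i, SP (fun x => v x i)) (h0 : ∀ i, ∫ x in Icc (0 : R3) 1, v x i = 0)
    {N : ℕ} (hN : 1 ≤ N) (b : R3) (a : ℝ) (i : Fin 3) :
    ∫ x in Icc (0 : R3) 1, (a • v ((N : ℝ) • x + b)) i = 0 := by
  have hinj := mulK_inj hN
  have e : ∀ f : R3 → ℝ, fr f 0 = ((∫ x in Icc (0 : R3) 1, f x : ℝ) : ℂ) := by
    intro f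
    unfold H459R3.NS.fr H459R3.NS.fc H459R3.NS.cube
    rw [← integral_complex_ofReal]
    congr 1
    funext x
    rw [neg_zero, H459R3.NS.ee_zero, one_mul]
  have h1 := congrFun (fr_scale (hv i) hN b a) 0
  have h2 : mulK N 0 = 0 := by funext i; simp [mulK]
  have h3 : Function.extend (mulK N) (fun k => (a : ℂ) * (fr (fun x => v x i) k * ee k b)) 0 (0 : K)
      = (a : ℂ) * (fr (fun x => v x i) 0 * ee 0 b) := by
    conv_lhs => rw [← h2]
    rw [hinj.extend_apply]
  rw [h3, e, e, h0 i] at h1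
  simp only [Complex.ofReal_zero, zero_mul, mul_zero] at h1
  exact_mod_cast h1

lemma lint_scale {a : ℝ} (ha : 0 < a) (f : ℝ → ℝ≥0∞) :
    ∫⁻ t in Ioi (0 : ℝ), f (a * t) = ENNReal.ofReal (1 / a) * ∫⁻ t in Ioi (0 : ℝ), f t := by
  have hme : MeasurableEmbedding (fun t : ℝ => a * t) := (Homeomorph.mulLeft₀ a ha.ne').measurableEmbedding
  have hpre : (fun t : ℝ => a * t) ⁻¹' Ioi 0 = Ioi 0 := by
    ext t
    simp only [mem_preimage, mem_Ioi]
    exact mul_pos_iff_of_pos_left ha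
  have h1 : ∫⁻ t in Ioi (0 : ℝ), f t ∂(Measure.map (a * ·) volume) = ∫⁻ t in Ioi (0 : ℝ), f (a * t) := by
    rw [hme.restrict_map, hme.lintegral_map, hpre]
  rw [← h1, Real.map_volume_mul_left ha.ne', Measure.restrict_smul, lintegral_smul_measure,
    abs_of_pos (inv_pos.2 ha), one_div]
  rfl

end Pool.Agent.H356R3.NS.H1SS
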