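import Pool.Agent.H1SS.Dec2

open MeasureTheory Set Filter Topology
open scoped ENNReal NNReal ContDiff

namespace Pool.Agent.H356R3.NS.H1SS

/-- `ℓ¹` norm -/
noncomputable def W0 (x : K → C3) : ℝ≥0∞ := ∑' k, ‖x k‖ₑ

lemma W0_eq (x : K → C3) : W0 x = NW (fun _ => 1) x := by
  unfold W0 NW; simp

section
variable {u : Fam}

/-- real sums -/
noncomputable def r0 (u : Fam) (t : ℝ) : ℝ := ∑' k, (1 : ℝ) * ‖u k t‖
noncomputable def r5 (u : Fam) (t : ℝ) : ℝ := ∑' k, pw k ^ 5 * ‖u k t‖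

lemma pw5_nonneg (k : K) : 0 ≤ pw k ^ 5 := (pow_pos (pw_pos k) 5).le
lemma pw5_le (k : K) : pw k ^ 5 ≤ 1 * pw k ^ 5 := by rw [one_mul]
lemma one_le_pw5 (k : K) : (1 : ℝ) ≤ 1 * pw k ^ 5 := by
  rw [one_mul]; exact one_le_pow₀ (one_le_pw k)

lemma loc_of_pb (h : ∀ m, PB m u) (_T : ℝ) (m : ℕ) : ∃ M : ℝ, 0 ≤ M ∧ ∀ k t, t ≤ _T → pw k ^ m * ‖u k t‖ ≤ M := by
  obtain ⟨M, hM, hb⟩ := h m
  exact ⟨M, hM, fun k t _ => hb k t⟩

lemma r0_cont (hu : CF u) (h : ∀ m, PB m u) : Continuous (r0 u) :=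
  cont_sum hu (loc_of_pb h) (fun _ => zero_le_one) zero_le_one one_le_pw5

lemma r5_cont (hu : CF u) (h : ∀ m, PB m u) : Continuous (r5 u) :=
  cont_sum hu (loc_of_pb h) pw5_nonneg zero_le_one pw5_le

lemma summ5 (h : ∀ m, PB m u) (t : ℝ) : Summable fun k => pw k ^ 5 * ‖u k t‖ := by
  obtain ⟨M, _, hb⟩ := h 9
  exact summ_sum (n := 5) pw5_nonneg zero_le_one pw5_le (x := at' u t) fun k => hb k t

lemma summ0 (h : ∀ m, PB m u) (t : ℝ) : Summable fun k => (1 : ℝ) * ‖u k t‖ := by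
  obtain ⟨M, _, hb⟩ := h 9
  exact summ_sum (n := 5) (fun _ => zero_le_one) zero_le_one one_le_pw5 (x := at' u t) fun k => hb k t

lemma r0_nonneg (u : Fam) (t : ℝ) : 0 ≤ r0 u t := tsum_nonneg fun _ => by positivity
lemma r5_nonneg (u : Fam) (t : ℝ) : 0 ≤ r5 u t := tsum_nonneg fun k => mul_nonneg (pw5_nonneg k) (norm_nonneg _)

lemma r0_le_r5 (h : ∀ m, PB m u) (t : ℝ) : r0 u t ≤ r5 u t :=
  (summ0 h t).tsum_le_tsum (fun k => mul_le_mul_of_nonneg_right (one_le_pow₀ (one_le_pw k)) (norm_nonneg _)) (summ5 h t)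

lemma r5_bdd (h : ∀ m, PB m u) : ∃ B : ℝ, 0 ≤ B ∧ ∀ t, r5 u t ≤ B := by
  obtain ⟨M, hM, hb⟩ := h 9
  refine ⟨1 * M * S4, by have := S4_nonneg; positivity, fun t => ?_⟩
  exact sum_le (n := 5) pw5_nonneg zero_le_one pw5_le (x := at' u t) fun k => hb k t

lemma W0_r0 (h : ∀ m, PB m u) (t : ℝ) : W0 (at' u t) = ENNReal.ofReal (r0 u t) := by
  rw [W0_eq]
  have := NW_ofReal (a := fun _ => (1 : ℝ)) (fun _ => zero_le_one) (x := at' u t) (summ0 h t)
  rw [ENNReal.ofReal_one] at this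
  exact this

lemma N5_r5 (h : ∀ m, PB m u) (t : ℝ) :
    NW (fun k => ENNReal.ofReal (pw k ^ 5)) (at' u t) = ENNReal.ofReal (r5 u t) :=
  NW_ofReal pw5_nonneg (x := at' u t) (summ5 h t)

end

lemma int_sq_le {f : ℝ → ℝ} (hf : Continuous f) {D : ℝ} (hD : 0 ≤ D)
    (h : ∫⁻ t in Ioi 0, ENNReal.ofReal (f t) ≤ ENNReal.ofReal D) (hf0 : ∀ t, 0 ≤ f t) {t : ℝ} (ht : 0 ≤ t) :
    ∫ s in (0 : ℝ)..t, f s ≤ D := by
  rw [intervalIntegral.integral_of_le ht]
  have h1 : ENNReal.ofReal (∫ s in Ioc 0 t, f s) = ∫⁻ s in Ioc 0 t, ENNReal.ofReal (f s) := by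
    rw [ofReal_integral_eq_lintegral_ofReal]
    · exact (hf.integrableOn_Icc (a := 0) (b := t)).mono_set Ioc_subset_Icc_self
    · exact Filter.Eventually.of_forall fun s => hf0 s
  have h2 : ENNReal.ofReal (∫ s in Ioc 0 t, f s) ≤ ENNReal.ofReal D := by
    rw [h1]
    exact (lintegral_mono_set fun s hs => hs.1).trans h
  exact (ENNReal.ofReal_le_ofReal_iff hD).1 h2

lemma aux_prod {a b a5 b5 δ : ℝ} (q1 : 0 ≤ a) (q2 : 0 ≤ b) (q5 : a ≤ a5) (q6 : b ≤ b5) (hδ : 0 < δ)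
    (hδ1 : δ ≤ 1) : (a + 5 * δ * a5) * (b + 5 * δ * b5) ≤ a * b + 35 * δ * (a5 + b5) ^ 2 := by
  have q3 : 0 ≤ a5 := q1.trans q5
  have q4 : 0 ≤ b5 := q2.trans q6
  have r1 : a * b5 ≤ a5 * b5 := mul_le_mul_of_nonneg_right q5 q4
  have r2 : a5 * b ≤ a5 * b5 := mul_le_mul_of_nonneg_left q6 q3
  have r3 : a5 * b5 ≤ (a5 + b5) ^ 2 := by nlinarith [mul_nonneg q3 q4]
  have r4 : δ * (a * b5) ≤ δ * (a5 * b5) := mul_le_mul_of_nonneg_left r1 hδ.le
  have r5 : δ * (a5 * b) ≤ δ * (a5 * b5) := mul_le_mul_of_nonneg_left r2 hδ.le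
  have r6 : δ * (a5 * b5) ≤ δ * (a5 + b5) ^ 2 := mul_le_mul_of_nonneg_left r3 hδ.le
  have r7 : δ * (δ * (a5 * b5)) ≤ δ * (a5 * b5) := by
    have : 0 ≤ δ * (a5 * b5) := by positivity
    nlinarith
  have e : (a + 5 * δ * a5) * (b + 5 * δ * b5)
      = a * b + 5 * (δ * (a * b5)) + 5 * (δ * (a5 * b)) + 25 * (δ * (δ * (a5 * b5))) := by ring
  rw [e]
  linarith

/-- The superposition theorem on the Fourier side. -/
theorem super {c : ℝ} (hc : 0 < c) {u q : Fam} (hu : GSol c u) (hq : GSol c q) {D I ε : ℝ} (hD : 0 ≤ D)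
    (hI : 0 ≤ I) (hDi : ∫⁻ t in Ioi 0, (W0 (at' u t) + W0 (at' q t)) ^ 2 ≤ ENNReal.ofReal D)
    (hIi : ∫⁻ t in Ioi 0, W0 (at' u t) * W0 (at' q t) ≤ ENNReal.ofReal I)
    (h1 : 4 * C0 * I < thr c D) (h2 : 4 * C0 * I * Real.exp (La c * D) < ε) :
    ∃ r : Fam, MSol c (fun k => u k 0 + q k 0) (u + q + r) ∧ ∀ t, N1 (at' r t) ≤ ENNReal.ofReal ε := by
  have hC := C0_pos
  have hL := La_pos hc
  -- sizes
  obtain ⟨Bu, hBu0, hBu⟩ := r5_bdd hu.pb
  obtain ⟨Bq, hBq0, hBq⟩ := r5_bdd hq.pb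
  have ca := r0_cont hu.ls.cf hu.pb
  have cb := r0_cont hq.ls.cf hq.pb
  have ca5 := r5_cont hu.ls.cf hu.pb
  have cb5 := r5_cont hq.ls.cf hq.pb
  set a := r0 u with ha
  set b := r0 q with hb
  set a5 := r5 u with ha5
  set b5 := r5 q with hb5
  have a0 : ∀ t, 0 ≤ a t := r0_nonneg u
  have b0 : ∀ t, 0 ≤ b t := r0_nonneg q
  have a50 : ∀ t, 0 ≤ a5 t := r5_nonneg u
  have b50 : ∀ t, 0 ≤ b5 t := r5_nonneg q
  have aa5 : ∀ t, a t ≤ a5 t := r0_le_r5 hu.pb
  have bb5 : ∀ t, b t ≤ b5 t := r0_le_r5 hq.pb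
  have hu1 : ∫⁻ t in Ioi 0, ENNReal.ofReal (a5 t) ≠ ⊤ := by
    have := hu.int
    simpa only [N5_r5 hu.pb] using this
  have hq1 : ∫⁻ t in Ioi 0, ENNReal.ofReal (b5 t) ≠ ⊤ := by
    have := hq.int
    simpa only [N5_r5 hq.pb] using this
  have hJ : ∫⁻ t in Ioi 0, ENNReal.ofReal ((a5 t + b5 t) ^ 2) ≠ ⊤ := by
    have h3 : ∀ t, ENNReal.ofReal ((a5 t + b5 t) ^ 2) ≤ ENNReal.ofReal (Bu + Bq) *
        (ENNReal.ofReal (a5 t) + ENNReal.ofReal (b5 t)) := by
      intro t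
      rw [← ENNReal.ofReal_add (a50 t) (b50 t), ← ENNReal.ofReal_mul (by positivity)]
      apply ENNReal.ofReal_le_ofReal
      have := hBu t
      have := hBq t
      have := a50 t
      have := b50 t
      nlinarith
    refine ne_top_of_le_ne_top ?_ (lintegral_mono h3)
    rw [lintegral_const_mul _ (by fun_prop), lintegral_add_left (by fun_prop)]
    exact ENNReal.mul_ne_top ENNReal.ofReal_ne_top (ENNReal.add_ne_top.2 ⟨hu1, hq1⟩)
  set J := (∫⁻ t in Ioi 0, ENNReal.ofReal ((a5 t + b5 t) ^ 2)).toReal with hJdef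
  have hJ0 : 0 ≤ J := ENNReal.toReal_nonneg
  have hJe : ∫⁻ t in Ioi 0, ENNReal.ofReal ((a5 t + b5 t) ^ 2) = ENNReal.ofReal J := (ENNReal.ofReal_toReal hJ).symm
  -- choice of δ
  obtain ⟨δ, hδ, hδ1, hδa, hδb⟩ : ∃ δ : ℝ, 0 < δ ∧ δ ≤ 1 ∧
      4 * C0 * (I + 35 * δ * (J + 1)) ≤ thr c (D + 35 * δ * J) ∧
      Real.exp (La c * (D + 35 * δ * J)) * (4 * C0 * (I + 35 * δ * (J + 1))) ≤ ε := by
    have f1 : ContinuousAt (fun δ : ℝ => thr c (D + 35 * δ * J) - 4 * C0 * (I + 35 * δ * (J + 1))) 0 := by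
      unfold thr
      fun_prop
    have f2 : ContinuousAt (fun δ : ℝ => ε - Real.exp (La c * (D + 35 * δ * J)) * (4 * C0 * (I + 35 * δ * (J + 1)))) 0 := by
      fun_prop
    have e1 : ∀ᶠ δ : ℝ in 𝓝 0, 0 < thr c (D + 35 * δ * J) - 4 * C0 * (I + 35 * δ * (J + 1)) :=
      f1.eventually_const_lt (by simp only [mul_zero, zero_mul, add_zero]; linarith)
    have e2 : ∀ᶠ δ : ℝ in 𝓝 0, 0 < ε - Real.exp (La c * (D + 35 * δ * J)) * (4 * C0 * (I + 35 * δ * (J + 1))) :=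
      f2.eventually_const_lt (by simp only [mul_zero, zero_mul, add_zero]; linarith)
    have e3 : ∀ᶠ δ : ℝ in 𝓝 0, δ < 1 := Iio_mem_nhds one_pos
    have e4 : ∀ᶠ δ : ℝ in 𝓝[>] 0, 0 < δ := self_mem_nhdsWithin
    obtain ⟨δ, ⟨⟨h3, h4⟩, h5⟩, h6⟩ := (((e1.and e2).and e3).filter_mono nhdsWithin_le_nhds |>.and e4).exists
    exact ⟨δ, h6, h5.le, by linarith, by linarith⟩
  set ρ := 4 * C0 * (I + 35 * δ * (J + 1)) with hρ
  have hρ0 : 0 < ρ := by
    have : 0 < 35 * δ * (J + 1) := by positivity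
    have : 0 < I + 35 * δ * (J + 1) := by linarith
    positivity
  have hw := wd_wt hδ hδ1
  set A : ℝ → ℝ := fun t => a t + b t + 5 * δ * (a5 t + b5 t) with hA
  have hAc : Continuous A := by simp only [hA]; fun_prop
  have hA0 : ∀ t, 0 ≤ A t := fun t => by
    have := a0 t; have := b0 t; have := a50 t; have := b50 t
    simp only [hA]; positivity
  have hAi : ∀ t, 0 ≤ t → ∫ s in (0 : ℝ)..t, A s ^ 2 ≤ D + 35 * δ * J := by
    intro t ht
    have i1 : ∫ s in (0 : ℝ)..t, (a s + b s) ^ 2 ≤ D := by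
      refine int_sq_le (by fun_prop) hD ?_ (fun s => sq_nonneg _) ht
      refine le_trans (le_of_eq ?_) hDi
      refine lintegral_congr fun s => ?_
      rw [W0_r0 hu.pb, W0_r0 hq.pb, ← ENNReal.ofReal_add (a0 s) (b0 s), ENNReal.ofReal_pow (add_nonneg (a0 s) (b0 s))]
    have i2 : ∫ s in (0 : ℝ)..t, (a5 s + b5 s) ^ 2 ≤ J :=
      int_sq_le (by fun_prop) hJ0 hJe.le (fun s => sq_nonneg _) ht
    have c1 : Continuous fun s => (a s + b s) ^ 2 := by fun_prop
    have c2 : Continuous fun s => 35 * δ * (a5 s + b5 s) ^ 2 := by fun_prop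
    calc ∫ s in (0 : ℝ)..t, A s ^ 2 ≤ ∫ s in (0 : ℝ)..t, ((a s + b s) ^ 2 + 35 * δ * (a5 s + b5 s) ^ 2) := by
          refine intervalIntegral.integral_mono_on ht ((hAc.pow 2).intervalIntegrable _ _)
            ((c1.add c2).intervalIntegrable _ _) fun s _ => ?_
          have q1 : a s + b s ≤ a5 s + b5 s := add_le_add (aa5 s) (bb5 s)
          have q0 : 0 ≤ a s + b s := add_nonneg (a0 s) (b0 s)
          simp only [hA]
          set x := a s + b s
          set y := a5 s + b5 s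
          have hy : 0 ≤ y := q0.trans q1
          have hxy : x * y ≤ y ^ 2 := by nlinarith
          have hδy : δ * (δ * y ^ 2) ≤ δ * y ^ 2 := by
            have : 0 ≤ δ * y ^ 2 := by positivity
            nlinarith
          have hδxy : δ * (x * y) ≤ δ * y ^ 2 := mul_le_mul_of_nonneg_left hxy hδ.le
          nlinarith
      _ = (∫ s in (0 : ℝ)..t, (a s + b s) ^ 2) + 35 * δ * ∫ s in (0 : ℝ)..t, (a5 s + b5 s) ^ 2 := by
          rw [intervalIntegral.integral_add (c1.intervalIntegrable _ _) (c2.intervalIntegrable _ _),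
            intervalIntegral.integral_const_mul]
      _ ≤ D + 35 * δ * J := by gcongr
  -- the approximate solution
  have du : Dom u := dom_of_pb (hu.pb 4)
  have dq : Dom q := dom_of_pb (hq.pb 4)
  have cU : CF (u + q) := fun k => (hu.ls.cf k).add (hq.ls.cf k)
  have dU' : Dom (u + q) := du.add dq
  have sU : SymF (u + q) := fun t => (hu.ls.sym t).add (hq.ls.sym t)
  have cBu : CF (Bt u) := Bt_cont hu.ls.cf du
  have cBq : CF (Bt q) := Bt_cont hq.ls.cf dq
  have cBU : CF (Bt (u + q)) := Bt_cont cU dU'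
  set FE : Fam := Bt (u + q) - (Bt u + Bt q) with hFE
  have cFE : CF FE := fun k => (cBU k).sub ((cBu k).add (cBq k))
  have sFE : SymF FE := fun t => (Bt_sym sU t).sub ((Bt_sym hu.ls.sym t).add (Bt_sym hq.ls.sym t))
  have zFE : ∀ t, FE 0 t = 0 := by
    intro t
    simp [hFE, Bt, Bf_zero]
  have Va_u : ∀ t, NW (Va (wd δ)) (at' u t) ≤ ENNReal.ofReal (a t + 5 * δ * a5 t) := by
    intro t
    refine (Va_wd_le hδ hδ1 _).trans ?_
    rw [← W0_eq, W0_r0 hu.pb, N5_r5 hu.pb, ← ENNReal.ofReal_mul (by positivity),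
      ← ENNReal.ofReal_add (a0 t) (mul_nonneg (by positivity) (a50 t))]
  have Va_q : ∀ t, NW (Va (wd δ)) (at' q t) ≤ ENNReal.ofReal (b t + 5 * δ * b5 t) := by
    intro t
    refine (Va_wd_le hδ hδ1 _).trans ?_
    rw [← W0_eq, W0_r0 hq.pb, N5_r5 hq.pb, ← ENNReal.ofReal_mul (by positivity),
      ← ENNReal.ofReal_add (b0 t) (mul_nonneg (by positivity) (b50 t))]
  have hUA : ∀ t, 0 < t → NW (Va (wd δ)) (at' (u + q) t) ≤ ENNReal.ofReal (A t) := by
    intro t _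
    calc NW (Va (wd δ)) (at' (u + q) t) ≤ NW (Va (wd δ)) (at' u t) + NW (Va (wd δ)) (at' q t) := NW_add_le _ _ _
      _ ≤ ENNReal.ofReal (a t + 5 * δ * a5 t) + ENNReal.ofReal (b t + 5 * δ * b5 t) := add_le_add (Va_u t) (Va_q t)
      _ = ENNReal.ofReal (A t) := by
          have := a0 t; have := b0 t; have := a50 t; have := b50 t
          rw [← ENNReal.ofReal_add (by positivity) (by positivity)]
          congr 1
          simp only [hA]; ring
  have hFEe : ∀ t, at' FE t = Bf (at' u t) (at' q t) + Bf (at' q t) (at' u t) := by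
    intro t
    have s1 := du.sn t
    have s2 := dq.sn t
    have e1 : at' FE t = Bf (at' u t + at' q t) (at' u t + at' q t) - (Bf (at' u t) (at' u t) + Bf (at' q t) (at' q t)) := rfl
    rw [e1, Bf_add_left s1 s2 (s1.add s2), Bf_add_right s1 s1 s2, Bf_add_right s2 s1 s2]
    abel
  have hFEi : ∫⁻ s in Ioi 0, NW (Vm (wd δ)) (at' FE s) ≤ ENNReal.ofReal (ρ / 2) := by
    have hpt : ∀ s, NW (Vm (wd δ)) (at' FE s) ≤ ENNReal.ofReal (2 * C0) *
        (ENNReal.ofReal (a s * b s) + ENNReal.ofReal (35 * δ) * ENNReal.ofReal ((a5 s + b5 s) ^ 2)) := by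
      intro s
      have q1 := a0 s
      have q2 := b0 s
      have q5 := aa5 s
      have q6 := bb5 s
      have q3 := a50 s
      have q4 := b50 s
      rw [hFEe]
      calc _ ≤ NW (Vm (wd δ)) (Bf (at' u s) (at' q s)) + NW (Vm (wd δ)) (Bf (at' q s) (at' u s)) := NW_add_le _ _ _
        _ ≤ ENNReal.ofReal C0 * (NW (Va (wd δ)) (at' u s) * NW (Va (wd δ)) (at' q s))
            + ENNReal.ofReal C0 * (NW (Va (wd δ)) (at' q s) * NW (Va (wd δ)) (at' u s)) :=
            add_le_add (NV_Bf_le hw _ _) (NV_Bf_le hw _ _)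
        _ ≤ ENNReal.ofReal C0 * (ENNReal.ofReal (a s + 5 * δ * a5 s) * ENNReal.ofReal (b s + 5 * δ * b5 s))
            + ENNReal.ofReal C0 * (ENNReal.ofReal (b s + 5 * δ * b5 s) * ENNReal.ofReal (a s + 5 * δ * a5 s)) := by
            gcongr
            · exact Va_u s
            · exact Va_q s
            · exact Va_q s
            · exact Va_u s
        _ = ENNReal.ofReal (2 * C0 * ((a s + 5 * δ * a5 s) * (b s + 5 * δ * b5 s))) := by
            rw [← ENNReal.ofReal_mul (by positivity), ← ENNReal.ofReal_mul (by positivity),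
              ← ENNReal.ofReal_mul (by positivity), ← ENNReal.ofReal_mul (by positivity),
              ← ENNReal.ofReal_add (by positivity) (by positivity)]
            congr 1; ring
        _ ≤ ENNReal.ofReal (2 * C0 * (a s * b s + 35 * δ * (a5 s + b5 s) ^ 2)) := by
            apply ENNReal.ofReal_le_ofReal
            apply mul_le_mul_of_nonneg_left _ (by positivity)
            exact aux_prod q1 q2 q5 q6 hδ hδ1
        _ = _ := by
            rw [ENNReal.ofReal_mul (by positivity), ENNReal.ofReal_add (by positivity) (by positivity),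
              ENNReal.ofReal_mul (p := 35 * δ) (by positivity)]
    calc _ ≤ ∫⁻ s in Ioi 0, ENNReal.ofReal (2 * C0) *
        (ENNReal.ofReal (a s * b s) + ENNReal.ofReal (35 * δ) * ENNReal.ofReal ((a5 s + b5 s) ^ 2)) :=
          lintegral_mono hpt
      _ = ENNReal.ofReal (2 * C0) * ((∫⁻ s in Ioi 0, ENNReal.ofReal (a s * b s)) +
          ENNReal.ofReal (35 * δ) * ∫⁻ s in Ioi 0, ENNReal.ofReal ((a5 s + b5 s) ^ 2)) := by
          rw [lintegral_const_mul _ (by fun_prop), lintegral_add_left (by fun_prop),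
            lintegral_const_mul _ (by fun_prop)]
      _ ≤ ENNReal.ofReal (2 * C0) * (ENNReal.ofReal I + ENNReal.ofReal (35 * δ) * ENNReal.ofReal J) := by
          apply mul_le_mul' le_rfl
          apply add_le_add
          · refine le_trans (le_of_eq ?_) hIi
            refine lintegral_congr fun s => ?_
            rw [W0_r0 hu.pb, W0_r0 hq.pb, ENNReal.ofReal_mul (a0 s)]
          · rw [hJe]
      _ = ENNReal.ofReal (2 * C0 * (I + 35 * δ * J)) := by
          rw [← ENNReal.ofReal_mul (by positivity), ← ENNReal.ofReal_add hI (by positivity),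
            ← ENNReal.ofReal_mul (by positivity)]
      _ ≤ ENNReal.ofReal (ρ / 2) := by
          apply ENNReal.ofReal_le_ofReal
          rw [hρ]
          have : 0 ≤ C0 * (35 * δ) := by positivity
          nlinarith
  obtain ⟨r, rc, rz, rm, rn, -, rf, rs⟩ := exist_v hc hw hAc hA0 hAi cU dU' sU hUA cFE sFE zFE hρ0 hδa hFEi
  have hrn : ∀ t, NW (Vm (wd δ)) (at' r t) ≤ ENNReal.ofReal ε := fun t =>
    (rn t).trans (ENNReal.ofReal_le_ofReal hδb)
  have hε : 0 ≤ ε := by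
    have : 0 ≤ Real.exp (La c * (D + 35 * δ * J)) * ρ := by positivity
    linarith
  have pr : PB 4 r := by
    refine ⟨ε / δ ^ 5, by positivity, fun k t => ?_⟩
    have h3 := norm_le_of_NVm hw hε (x := at' r t) (rz t) (hrn t) k
    have h4 := le_wd hδ hδ1 k
    have hp := pw_pos k
    have hwk := wd_pos hδ.le k
    calc pw k ^ 4 * ‖r k t‖ ≤ pw k ^ 4 * (ε * (nk k / wd δ k)) := by
          apply mul_le_mul_of_nonneg_left h3 (by positivity)
      _ ≤ pw k ^ 4 * (ε * (pw k / (δ ^ 5 * pw k ^ 5))) := by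
          have := nk_le_pw k
          have := nk_nonneg k
          gcongr
      _ = _ := by field_simp
  refine ⟨r, ?_, fun t => ?_⟩
  · have cf : CF (u + q + r) := fun k => (cU k).add (rc k)
    have dr : Dom r := dom_of_pb pr
    have cB : CF (Bt (u + q + r)) := Bt_cont cf (dU'.add dr)
    have heq : ∀ k t, (u + q + r) k t = Real.exp (-(c * sq k * max t 0)) • (u k 0 + q k 0)
        + Duh c (Bt (u + q + r)) k t := by
      intro k t
      have e1 := hu.ls.eq k t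
      have e2 := hq.ls.eq k t
      have e3 : r k t = Duh c (FE + (Bt (u + q + r) - Bt (u + q))) k t := congrFun (congrFun rf k) t
      have e4 : FE + (Bt (u + q + r) - Bt (u + q)) = Bt (u + q + r) - (Bt u + Bt q) := by
        rw [hFE]; abel
      have cuv : CF (Bt u + Bt q) := fun k => (cBu k).add (cBq k)
      rw [e4, Duh_sub cB cuv, Duh_add cBu cBq] at e3
      show u k t + q k t + r k t = _
      rw [e1, e2, e3, smul_add]
      simp only [Pi.sub_apply, Pi.add_apply]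
      abel
    have hz : ∀ t, (u + q + r) 0 t = 0 := by
      intro t
      show u 0 t + q 0 t + r 0 t = 0
      rw [hu.ls.z, hq.ls.z, rz]; simp
    have hpb4 : PB 4 (u + q + r) := by
      obtain ⟨M1, hM1, q1⟩ := hu.pb 4
      obtain ⟨M2, hM2, q2⟩ := hq.pb 4
      obtain ⟨M3, hM3, q3⟩ := pr
      refine ⟨M1 + M2 + M3, by positivity, fun k t => ?_⟩
      have hp := pw_pos k
      calc pw k ^ 4 * ‖u k t + q k t + r k t‖ ≤ pw k ^ 4 * (‖u k t‖ + ‖q k t‖ + ‖r k t‖) := by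
            gcongr
            exact norm_add₃_le
        _ = pw k ^ 4 * ‖u k t‖ + pw k ^ 4 * ‖q k t‖ + pw k ^ 4 * ‖r k t‖ := by ring
        _ ≤ _ := add_le_add (add_le_add (q1 k t) (q2 k t)) (q3 k t)
    have hpb : ∀ m, PB m (u + q + r) := by
      intro m
      refine boot hc (V := fun k => u k 0 + q k 0) hz (fun m => ?_) heq hpb4 m
      obtain ⟨M1, hM1, q1⟩ := hu.pb m
      obtain ⟨M2, hM2, q2⟩ := hq.pb m
      refine ⟨M1 + M2, by positivity, fun k => ?_⟩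
      have hp := pw_pos k
      calc pw k ^ m * ‖u k 0 + q k 0‖ ≤ pw k ^ m * (‖u k 0‖ + ‖q k 0‖) := by
            gcongr
            exact norm_add_le _ _
        _ = pw k ^ m * ‖u k 0‖ + pw k ^ m * ‖q k 0‖ := by ring
        _ ≤ _ := add_le_add (q1 k 0) (q2 k 0)
    exact ⟨cf, hz, fun t => (sU t).add (rs t), rd_of_pb hpb, heq⟩
  · refine le_trans ?_ (hrn t)
    unfold N1
    refine NW_mono (fun k => ENNReal.ofReal_le_ofReal ?_) _
    exact div_le_div_of_nonneg_right (hw.one_le k) (nk_nonneg k)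

end Pool.Agent.H356R3.NS.H1SS
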