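import Pool.Agent.H1SS.Sup

open MeasureTheory Set Filter Topology
open scoped ENNReal NNReal ContDiff

namespace Pool.Agent.H356R3.NS.H1SS

/-! ### Finite sums -/

section
variable {ι : Type*}

lemma NW_sum_le (W : K → ℝ≥0∞) (s : Finset ι) (x : ι → K → C3) : NW W (∑ i ∈ s, x i) ≤ ∑ i ∈ s, NW W (x i) := by
  classical
  induction s using Finset.induction_on with
  | empty => simp [NW_zero]
  | insert i s hi ih =>
    rw [Finset.sum_insert hi, Finset.sum_insert hi]
    exact (NW_add_le _ _ _).trans (add_le_add le_rfl ih)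

lemma SN_zero : SN (0 : K → C3) := by
  unfold SN; simp

lemma SN_sum (s : Finset ι) {x : ι → K → C3} (h : ∀ i ∈ s, SN (x i)) : SN (∑ i ∈ s, x i) := by
  classical
  induction s using Finset.induction_on with
  | empty => exact SN_zero
  | insert i s hi ih =>
    rw [Finset.sum_insert hi]
    exact (h i (Finset.mem_insert_self _ _)).add (ih fun j hj => h j (Finset.mem_insert_of_mem hj))

lemma Bf_zero_left (y : K → C3) : Bf 0 y = 0 := by
  funext k i
  simp [Bf, cv]

lemma Bf_zero_right (y : K → C3) : Bf y 0 = 0 := by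
  funext k i
  simp [Bf, cv]

lemma Bf_sum_left (s : Finset ι) {x : ι → K → C3} (h : ∀ i ∈ s, SN (x i)) {y : K → C3} (hy : SN y) :
    Bf (∑ i ∈ s, x i) y = ∑ i ∈ s, Bf (x i) y := by
  classical
  induction s using Finset.induction_on with
  | empty => simp [Bf_zero_left]
  | insert i s hi ih =>
    have h2 : ∀ j ∈ s, SN (x j) := fun j hj => h j (Finset.mem_insert_of_mem hj)
    rw [Finset.sum_insert hi, Finset.sum_insert hi, Bf_add_left (h i (Finset.mem_insert_self _ _)) (SN_sum s h2) hy,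
      ih h2]

lemma Bf_sum_right (s : Finset ι) {x : ι → K → C3} (h : ∀ i ∈ s, SN (x i)) {y : K → C3} (hy : SN y) :
    Bf y (∑ i ∈ s, x i) = ∑ i ∈ s, Bf y (x i) := by
  classical
  induction s using Finset.induction_on with
  | empty => simp [Bf_zero_right]
  | insert i s hi ih =>
    have h2 : ∀ j ∈ s, SN (x j) := fun j hj => h j (Finset.mem_insert_of_mem hj)
    rw [Finset.sum_insert hi, Finset.sum_insert hi, Bf_add_right hy (h i (Finset.mem_insert_self _ _)) (SN_sum s h2),
      ih h2]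

lemma CF_sum (s : Finset ι) {u : ι → Fam} (h : ∀ i ∈ s, CF (u i)) : CF (∑ i ∈ s, u i) := by
  intro k
  have e : (∑ i ∈ s, u i) k = fun t => ∑ i ∈ s, u i k t := by
    funext t; simp [Finset.sum_apply]
  rw [e]
  exact continuous_finsetSum _ fun i hi => h i hi k

lemma PB_zero (m : ℕ) : PB m 0 := ⟨0, le_rfl, fun k t => by simp⟩

lemma PB_add {m : ℕ} {u v : Fam} (hu : PB m u) (hv : PB m v) : PB m (u + v) := by
  obtain ⟨M1, hM1, q1⟩ := hu
  obtain ⟨M2, hM2, q2⟩ := hv
  refine ⟨M1 + M2, by positivity, fun k t => ?_⟩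
  have hp := pw_pos k
  calc pw k ^ m * ‖u k t + v k t‖ ≤ pw k ^ m * (‖u k t‖ + ‖v k t‖) := by
        gcongr
        exact norm_add_le _ _
    _ = pw k ^ m * ‖u k t‖ + pw k ^ m * ‖v k t‖ := by ring
    _ ≤ _ := add_le_add (q1 k t) (q2 k t)

lemma PB_sum {m : ℕ} (s : Finset ι) {u : ι → Fam} (h : ∀ i ∈ s, PB m (u i)) : PB m (∑ i ∈ s, u i) := by
  classical
  induction s using Finset.induction_on with
  | empty => exact PB_zero m
  | insert i s hi ih =>
    rw [Finset.sum_insert hi]
    exact PB_add (h i (Finset.mem_insert_self _ _)) (ih fun j hj => h j (Finset.mem_insert_of_mem hj))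

lemma SymF_add {u v : Fam} (hu : SymF u) (hv : SymF v) : SymF (u + v) := fun t => (hu t).add (hv t)

lemma SymF_zero : SymF (0 : Fam) := by
  intro t k i
  simp [at']

lemma SymF_sum (s : Finset ι) {u : ι → Fam} (h : ∀ i ∈ s, SymF (u i)) : SymF (∑ i ∈ s, u i) := by
  classical
  induction s using Finset.induction_on with
  | empty => exact SymF_zero
  | insert i s hi ih =>
    rw [Finset.sum_insert hi]
    exact SymF_add (h i (Finset.mem_insert_self _ _)) (ih fun j hj => h j (Finset.mem_insert_of_mem hj))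

lemma Duh_zero (c : ℝ) : Duh c 0 = 0 := by
  funext k t
  simp [Duh]

lemma Duh_sum {c : ℝ} (s : Finset ι) {F : ι → Fam} (h : ∀ i ∈ s, CF (F i)) :
    Duh c (∑ i ∈ s, F i) = ∑ i ∈ s, Duh c (F i) := by
  classical
  induction s using Finset.induction_on with
  | empty => simp [Duh_zero]
  | insert i s hi ih =>
    have h2 : ∀ j ∈ s, CF (F j) := fun j hj => h j (Finset.mem_insert_of_mem hj)
    rw [Finset.sum_insert hi, Finset.sum_insert hi, Duh_add (h i (Finset.mem_insert_self _ _)) (CF_sum s h2), ih h2]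

lemma at'_sum (s : Finset ι) (u : ι → Fam) (t : ℝ) : at' (∑ i ∈ s, u i) t = ∑ i ∈ s, at' (u i) t := by
  funext k
  simp [at', Finset.sum_apply]

end

/-- The superposition theorem on the Fourier side, for finitely many solutions. -/
theorem superF {c : ℝ} (hc : 0 < c) {ι : Type*} [Fintype ι] [DecidableEq ι] {u : ι → Fam}
    (hu : ∀ j, GSol c (u j)) {D I ε : ℝ} (hD : 0 ≤ D)
    (hI : 0 ≤ I) (hDi : ∫⁻ t in Ioi 0, (∑ j, W0 (at' (u j) t)) ^ 2 ≤ ENNReal.ofReal D)
    (hIi : ∫⁻ t in Ioi 0, (∑ i, ∑ j ∈ Finset.univ.erase i, W0 (at' (u i) t) * W0 (at' (u j) t))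
      ≤ ENNReal.ofReal (2 * I))
    (h1 : 4 * C0 * I < thr c D) (h2 : 4 * C0 * I * Real.exp (La c * D) < ε) :
    ∃ r : Fam, MSol c (fun k => ∑ j, u j k 0) (∑ j, u j + r) ∧ ∀ t, N1 (at' r t) ≤ ENNReal.ofReal ε := by
  have hC := C0_pos
  have hL := La_pos hc
  -- sizes
  choose Bu hBu0 hBu using fun j => r5_bdd (hu j).pb
  have ca : ∀ j, Continuous (r0 (u j)) := fun j => r0_cont (hu j).ls.cf (hu j).pb
  have ca5 : ∀ j, Continuous (r5 (u j)) := fun j => r5_cont (hu j).ls.cf (hu j).pb
  have a0 : ∀ j t, 0 ≤ r0 (u j) t := fun j => r0_nonneg (u j)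
  have a50 : ∀ j t, 0 ≤ r5 (u j) t := fun j => r5_nonneg (u j)
  have aa5 : ∀ j t, r0 (u j) t ≤ r5 (u j) t := fun j => r0_le_r5 (hu j).pb
  have hu1 : ∀ j, ∫⁻ t in Ioi 0, ENNReal.ofReal (r5 (u j) t) ≠ ⊤ := by
    intro j
    have := (hu j).int
    simpa only [N5_r5 (hu j).pb] using this
  set Y : ℝ → ℝ := fun t => ∑ j, r0 (u j) t with hY
  set Z : ℝ → ℝ := fun t => ∑ j, r5 (u j) t with hZ
  have cY : Continuous Y := continuous_finsetSum _ fun j _ => ca j
  have cZ : Continuous Z := continuous_finsetSum _ fun j _ => ca5 j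
  have Y0 : ∀ t, 0 ≤ Y t := fun t => Finset.sum_nonneg fun j _ => a0 j t
  have Z0 : ∀ t, 0 ≤ Z t := fun t => Finset.sum_nonneg fun j _ => a50 j t
  have YZ : ∀ t, Y t ≤ Z t := fun t => Finset.sum_le_sum fun j _ => aa5 j t
  set P : ℝ → ℝ := fun t => ∑ i, ∑ j ∈ Finset.univ.erase i, r0 (u i) t * r0 (u j) t with hP
  have cP : Continuous P := continuous_finsetSum _ fun i _ => continuous_finsetSum _ fun j _ => (ca i).mul (ca j)
  have P0 : ∀ t, 0 ≤ P t := fun t => Finset.sum_nonneg fun i _ => Finset.sum_nonneg fun j _ => mul_nonneg (a0 i t) (a0 j t)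
  have hJ : ∫⁻ t in Ioi 0, ENNReal.ofReal (Z t ^ 2) ≠ ⊤ := by
    have h3 : ∀ t, ENNReal.ofReal (Z t ^ 2) ≤ ENNReal.ofReal (∑ j, Bu j) * ∑ j, ENNReal.ofReal (r5 (u j) t) := by
      intro t
      rw [← ENNReal.ofReal_sum_of_nonneg fun j _ => a50 j t,
        ← ENNReal.ofReal_mul (Finset.sum_nonneg fun j _ => hBu0 j)]
      apply ENNReal.ofReal_le_ofReal
      rw [pow_two]
      exact mul_le_mul_of_nonneg_right (Finset.sum_le_sum fun j _ => hBu j t) (Z0 t)
    refine ne_top_of_le_ne_top ?_ (lintegral_mono h3)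
    rw [lintegral_const_mul _ (Finset.measurable_fun_sum _ fun j _ => (ca5 j).measurable.ennreal_ofReal),
      lintegral_finsetSum _ fun j _ => (ca5 j).measurable.ennreal_ofReal]
    exact ENNReal.mul_ne_top ENNReal.ofReal_ne_top (ENNReal.sum_ne_top.2 fun j _ => hu1 j)
  set J := (∫⁻ t in Ioi 0, ENNReal.ofReal (Z t ^ 2)).toReal with hJdef
  have hJ0 : 0 ≤ J := ENNReal.toReal_nonneg
  have hJe : ∫⁻ t in Ioi 0, ENNReal.ofReal (Z t ^ 2) = ENNReal.ofReal J := (ENNReal.ofReal_toReal hJ).symm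
  -- choice of δ
  obtain ⟨δ, hδ, hδ1, hδa, hδb⟩ : ∃ δ : ℝ, 0 < δ ∧ δ ≤ 1 ∧
      4 * C0 * (I + 35 * δ * (J + 1)) ≤ thr c (D + 35 * δ * J) ∧
      Real.exp (La c * (D + 35 * δ * J)) * (4 * C0 * (I + 35 * δ * (J + 1))) ≤ ε := by
    have f1 : ContinuousAt (fun δ : ℝ => thr c (D + 35 * δ * J) - 4 * C0 * (I + 35 * δ * (J + 1))) 0 := by
      unfold thr
      fun_prop
    have f2 : ContinuousAt (fun δ : ℝ => ε - Real.exp (La c * (D + 35 * δ * J)) * (4 * C0 * (I + 35 * δ * (J + 1)))) 0 := by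
      fun_prop
    have e1 : ∀ᶠ δ : ℝ in 𝓝 0, 0 < thr c (D + 35 * δ * J) - 4 * C0 * (I + 35 * δ * (J + 1)) :=
      f1.eventually_const_lt (by simp only [mul_zero, zero_mul, add_zero]; linarith)
    have e2 : ∀ᶠ δ : ℝ in 𝓝 0, 0 < ε - Real.exp (La c * (D + 35 * δ * J)) * (4 * C0 * (I + 35 * δ * (J + 1))) :=
      f2.eventually_const_lt (by simp only [mul_zero, zero_mul, add_zero]; linarith)
    have e3 : ∀ᶠ δ : ℝ in 𝓝 0, δ < 1 := Iio_mem_nhds one_pos
    have e4 : ∀ᶠ δ : ℝ in 𝓝[>] 0, 0 < δ := self_mem_nhdsWithin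
    obtain ⟨δ, ⟨⟨h3, h4⟩, h5⟩, h6⟩ := (((e1.and e2).and e3).filter_mono nhdsWithin_le_nhds |>.and e4).exists
    exact ⟨δ, h6, h5.le, by linarith, by linarith⟩
  set ρ := 4 * C0 * (I + 35 * δ * (J + 1)) with hρ
  have hρ0 : 0 < ρ := by
    have : 0 < 35 * δ * (J + 1) := by positivity
    have : 0 < I + 35 * δ * (J + 1) := by linarith
    positivity
  have hw := wd_wt hδ hδ1
  set A : ℝ → ℝ := fun t => Y t + 5 * δ * Z t with hA
  have hAc : Continuous A := by simp only [hA]; fun_prop
  have hA0 : ∀ t, 0 ≤ A t := fun t => by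
    have := Y0 t; have := Z0 t
    simp only [hA]; positivity
  have hAi : ∀ t, 0 ≤ t → ∫ s in (0 : ℝ)..t, A s ^ 2 ≤ D + 35 * δ * J := by
    intro t ht
    have i1 : ∫ s in (0 : ℝ)..t, (Y s) ^ 2 ≤ D := by
      refine int_sq_le (by fun_prop) hD ?_ (fun s => sq_nonneg _) ht
      refine le_trans (le_of_eq ?_) hDi
      refine lintegral_congr fun s => ?_
      have e : ∑ j, W0 (at' (u j) s) = ENNReal.ofReal (Y s) := by
        rw [hY, ENNReal.ofReal_sum_of_nonneg fun j _ => a0 j s]
        exact Finset.sum_congr rfl fun j _ => W0_r0 (hu j).pb s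
      rw [e, ENNReal.ofReal_pow (Y0 s)]
    have i2 : ∫ s in (0 : ℝ)..t, (Z s) ^ 2 ≤ J :=
      int_sq_le (by fun_prop) hJ0 hJe.le (fun s => sq_nonneg _) ht
    have c1 : Continuous fun s => (Y s) ^ 2 := by fun_prop
    have c2 : Continuous fun s => 35 * δ * (Z s) ^ 2 := by fun_prop
    calc ∫ s in (0 : ℝ)..t, A s ^ 2 ≤ ∫ s in (0 : ℝ)..t, ((Y s) ^ 2 + 35 * δ * (Z s) ^ 2) := by
          refine intervalIntegral.integral_mono_on ht ((hAc.pow 2).intervalIntegrable _ _)
            ((c1.add c2).intervalIntegrable _ _) fun s _ => ?_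
          have q1 := YZ s
          have q0 := Y0 s
          simp only [hA]
          set x := Y s
          set y := Z s
          have hy : 0 ≤ y := q0.trans q1
          have hxy : x * y ≤ y ^ 2 := by nlinarith
          have hδy : δ * (δ * y ^ 2) ≤ δ * y ^ 2 := by
            have : 0 ≤ δ * y ^ 2 := by positivity
            nlinarith
          have hδxy : δ * (x * y) ≤ δ * y ^ 2 := mul_le_mul_of_nonneg_left hxy hδ.le
          have e : (x + 5 * δ * y) ^ 2 = x ^ 2 + 10 * (δ * (x * y)) + 25 * (δ * (δ * y ^ 2)) := by ring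
          rw [e]
          linarith
      _ = (∫ s in (0 : ℝ)..t, (Y s) ^ 2) + 35 * δ * ∫ s in (0 : ℝ)..t, (Z s) ^ 2 := by
          rw [intervalIntegral.integral_add (c1.intervalIntegrable _ _) (c2.intervalIntegrable _ _),
            intervalIntegral.integral_const_mul]
      _ ≤ D + 35 * δ * J := by gcongr
  -- the approximate solution
  have du : ∀ j, Dom (u j) := fun j => dom_of_pb ((hu j).pb 4)
  have cu : ∀ j, CF (u j) := fun j => (hu j).ls.cf
  have cU : CF (∑ j, u j) := CF_sum _ fun j _ => cu j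
  have pU : ∀ m, PB m (∑ j, u j) := fun m => PB_sum _ fun j _ => (hu j).pb m
  have dU' : Dom (∑ j, u j) := dom_of_pb (pU 4)
  have sU : SymF (∑ j, u j) := SymF_sum _ fun j _ => (hu j).ls.sym
  have cBu : ∀ j, CF (Bt (u j)) := fun j => Bt_cont (cu j) (du j)
  have cBU : CF (Bt (∑ j, u j)) := Bt_cont cU dU'
  have cBS : CF (∑ j, Bt (u j)) := CF_sum _ fun j _ => cBu j
  set FE : Fam := Bt (∑ j, u j) - ∑ j, Bt (u j) with hFE
  have cFE : CF FE := fun k => (cBU k).sub (cBS k)
  have sFE : SymF FE := fun t => (Bt_sym sU t).sub ((SymF_sum Finset.univ fun j _ => Bt_sym (hu j).ls.sym) t)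
  have zFE : ∀ t, FE 0 t = 0 := by
    intro t
    simp [hFE, Bt, Bf_zero, Finset.sum_apply]
  have Va_u : ∀ j t, NW (Va (wd δ)) (at' (u j) t) ≤ ENNReal.ofReal (r0 (u j) t + 5 * δ * r5 (u j) t) := by
    intro j t
    refine (Va_wd_le hδ hδ1 _).trans ?_
    rw [← W0_eq, W0_r0 (hu j).pb, N5_r5 (hu j).pb, ← ENNReal.ofReal_mul (by positivity),
      ← ENNReal.ofReal_add (a0 j t) (mul_nonneg (by positivity) (a50 j t))]
  have an : ∀ j t, 0 ≤ r0 (u j) t + 5 * δ * r5 (u j) t := fun j t => by
    have := a0 j t; have := a50 j t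
    positivity
  have hUA : ∀ t, 0 < t → NW (Va (wd δ)) (at' (∑ j, u j) t) ≤ ENNReal.ofReal (A t) := by
    intro t _
    rw [at'_sum]
    calc NW (Va (wd δ)) (∑ j, at' (u j) t) ≤ ∑ j, NW (Va (wd δ)) (at' (u j) t) := NW_sum_le _ _ _
      _ ≤ ∑ j, ENNReal.ofReal (r0 (u j) t + 5 * δ * r5 (u j) t) := Finset.sum_le_sum fun j _ => Va_u j t
      _ = ENNReal.ofReal (A t) := by
          rw [← ENNReal.ofReal_sum_of_nonneg fun j _ => an j t]
          congr 1
          simp only [hA, hY, hZ]
          rw [Finset.sum_add_distrib, Finset.mul_sum]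
  have hFEe : ∀ t, at' FE t = ∑ i, ∑ j ∈ Finset.univ.erase i, Bf (at' (u i) t) (at' (u j) t) := by
    intro t
    have sn : ∀ j, SN (at' (u j) t) := fun j => (du j).sn t
    have e1 : at' FE t = Bf (∑ j, at' (u j) t) (∑ j, at' (u j) t) - ∑ j, Bf (at' (u j) t) (at' (u j) t) := by
      have e2 : at' (∑ j, Bt (u j)) t = ∑ j, Bf (at' (u j) t) (at' (u j) t) := at'_sum _ _ t
      rw [← e2, ← at'_sum]
      rfl
    rw [e1, Bf_sum_left _ (fun i _ => sn i) (SN_sum _ fun i _ => sn i)]
    have e3 : ∀ i, Bf (at' (u i) t) (∑ j, at' (u j) t)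
        = Bf (at' (u i) t) (at' (u i) t) + ∑ j ∈ Finset.univ.erase i, Bf (at' (u i) t) (at' (u j) t) := by
      intro i
      rw [Bf_sum_right _ (fun j _ => sn j) (sn i)]
      exact (Finset.add_sum_erase _ (fun j => Bf (at' (u i) t) (at' (u j) t)) (Finset.mem_univ i)).symm
    simp only [e3]
    rw [Finset.sum_add_distrib, add_sub_cancel_left]
  have hFEi : ∫⁻ s in Ioi 0, NW (Vm (wd δ)) (at' FE s) ≤ ENNReal.ofReal (ρ / 2) := by
    have hpt : ∀ s, NW (Vm (wd δ)) (at' FE s) ≤ ENNReal.ofReal C0 *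
        (ENNReal.ofReal (P s) + ENNReal.ofReal (35 * δ) * ENNReal.ofReal (Z s ^ 2)) := by
      intro s
      rw [hFEe]
      calc _ ≤ ∑ i, NW (Vm (wd δ)) (∑ j ∈ Finset.univ.erase i, Bf (at' (u i) s) (at' (u j) s)) := NW_sum_le _ _ _
        _ ≤ ∑ i, ∑ j ∈ Finset.univ.erase i, NW (Vm (wd δ)) (Bf (at' (u i) s) (at' (u j) s)) :=
            Finset.sum_le_sum fun i _ => NW_sum_le _ _ _
        _ ≤ ∑ i, ∑ j ∈ Finset.univ.erase i, ENNReal.ofReal (C0 * ((r0 (u i) s + 5 * δ * r5 (u i) s) *
              (r0 (u j) s + 5 * δ * r5 (u j) s))) := by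
            refine Finset.sum_le_sum fun i _ => Finset.sum_le_sum fun j _ => ?_
            refine (NV_Bf_le hw _ _).trans ?_
            rw [ENNReal.ofReal_mul hC.le, ENNReal.ofReal_mul (an i s)]
            exact mul_le_mul' le_rfl (mul_le_mul' (Va_u i s) (Va_u j s))
        _ = ENNReal.ofReal (∑ i, ∑ j ∈ Finset.univ.erase i, (C0 * ((r0 (u i) s + 5 * δ * r5 (u i) s) *
              (r0 (u j) s + 5 * δ * r5 (u j) s)))) := by
            rw [ENNReal.ofReal_sum_of_nonneg]
            · refine Finset.sum_congr rfl fun i _ => ?_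
              rw [ENNReal.ofReal_sum_of_nonneg]
              intro j _
              exact mul_nonneg hC.le (mul_nonneg (an i s) (an j s))
            · intro i _
              exact Finset.sum_nonneg fun j _ => mul_nonneg hC.le (mul_nonneg (an i s) (an j s))
        _ ≤ ENNReal.ofReal (C0 * (P s + 35 * δ * Z s ^ 2)) := by
            apply ENNReal.ofReal_le_ofReal
            have eC : (∑ i, ∑ j ∈ Finset.univ.erase i, (C0 * ((r0 (u i) s + 5 * δ * r5 (u i) s) *
              (r0 (u j) s + 5 * δ * r5 (u j) s)))) = C0 * ∑ i, ∑ j ∈ Finset.univ.erase i,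
              ((r0 (u i) s + 5 * δ * r5 (u i) s) * (r0 (u j) s + 5 * δ * r5 (u j) s)) := by
              rw [Finset.mul_sum]
              exact Finset.sum_congr rfl fun i _ => by rw [Finset.mul_sum]
            rw [eC]
            apply mul_le_mul_of_nonneg_left _ hC.le
            have hcr : ∀ i j, (r0 (u i) s + 5 * δ * r5 (u i) s) * (r0 (u j) s + 5 * δ * r5 (u j) s)
                ≤ r0 (u i) s * r0 (u j) s + 35 * δ * (r5 (u i) s * r5 (u j) s) := by
              intro i j
              have q1 := a0 i s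
              have q2 := a0 j s
              have q3 := a50 i s
              have q4 := a50 j s
              have q5 := aa5 i s
              have q6 := aa5 j s
              have r1 : r0 (u i) s * r5 (u j) s ≤ r5 (u i) s * r5 (u j) s := mul_le_mul_of_nonneg_right q5 q4
              have r2 : r5 (u i) s * r0 (u j) s ≤ r5 (u i) s * r5 (u j) s := mul_le_mul_of_nonneg_left q6 q3
              have r4 := mul_le_mul_of_nonneg_left r1 hδ.le
              have r5' := mul_le_mul_of_nonneg_left r2 hδ.le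
              have r7 : δ * (δ * (r5 (u i) s * r5 (u j) s)) ≤ δ * (r5 (u i) s * r5 (u j) s) := by
                have : 0 ≤ δ * (r5 (u i) s * r5 (u j) s) := by positivity
                nlinarith
              have e : (r0 (u i) s + 5 * δ * r5 (u i) s) * (r0 (u j) s + 5 * δ * r5 (u j) s)
                  = r0 (u i) s * r0 (u j) s + 5 * (δ * (r0 (u i) s * r5 (u j) s))
                    + 5 * (δ * (r5 (u i) s * r0 (u j) s)) + 25 * (δ * (δ * (r5 (u i) s * r5 (u j) s))) := by ring
              rw [e]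
              linarith
            calc _ ≤ ∑ i, ∑ j ∈ Finset.univ.erase i, (r0 (u i) s * r0 (u j) s + 35 * δ * (r5 (u i) s * r5 (u j) s)) :=
                  Finset.sum_le_sum fun i _ => Finset.sum_le_sum fun j _ => hcr i j
              _ = P s + 35 * δ * ∑ i, ∑ j ∈ Finset.univ.erase i, r5 (u i) s * r5 (u j) s := by
                  simp only [hP]
                  rw [Finset.mul_sum, ← Finset.sum_add_distrib]
                  refine Finset.sum_congr rfl fun i _ => ?_
                  rw [Finset.mul_sum, ← Finset.sum_add_distrib]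
              _ ≤ P s + 35 * δ * Z s ^ 2 := by
                  have h4 : ∑ i, ∑ j ∈ Finset.univ.erase i, r5 (u i) s * r5 (u j) s ≤ Z s ^ 2 := by
                    have h5 : Z s ^ 2 = ∑ i, ∑ j, r5 (u i) s * r5 (u j) s := by
                      simp only [hZ]
                      rw [pow_two, Finset.sum_mul_sum]
                    rw [h5]
                    refine Finset.sum_le_sum fun i _ => ?_
                    exact Finset.sum_le_sum_of_subset_of_nonneg (Finset.erase_subset _ _)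
                      fun j _ _ => mul_nonneg (a50 i s) (a50 j s)
                  have : 0 ≤ 35 * δ := by positivity
                  have := mul_le_mul_of_nonneg_left h4 this
                  linarith
        _ = _ := by
            have h6 := P0 s
            have h7 := Z0 s
            rw [ENNReal.ofReal_mul hC.le, ENNReal.ofReal_add h6 (by positivity),
              ENNReal.ofReal_mul (p := 35 * δ) (by positivity)]
    calc _ ≤ ∫⁻ s in Ioi 0, ENNReal.ofReal C0 *
        (ENNReal.ofReal (P s) + ENNReal.ofReal (35 * δ) * ENNReal.ofReal (Z s ^ 2)) :=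
          lintegral_mono hpt
      _ = ENNReal.ofReal C0 * ((∫⁻ s in Ioi 0, ENNReal.ofReal (P s)) +
          ENNReal.ofReal (35 * δ) * ∫⁻ s in Ioi 0, ENNReal.ofReal (Z s ^ 2)) := by
          rw [lintegral_const_mul _ (by fun_prop), lintegral_add_left (by fun_prop),
            lintegral_const_mul _ (by fun_prop)]
      _ ≤ ENNReal.ofReal C0 * (ENNReal.ofReal (2 * I) + ENNReal.ofReal (35 * δ) * ENNReal.ofReal J) := by
          apply mul_le_mul' le_rfl
          apply add_le_add
          · refine le_trans (le_of_eq ?_) hIi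
            refine lintegral_congr fun s => ?_
            simp only [hP]
            rw [ENNReal.ofReal_sum_of_nonneg fun i _ => Finset.sum_nonneg fun j _ => mul_nonneg (a0 i s) (a0 j s)]
            refine Finset.sum_congr rfl fun i _ => ?_
            rw [ENNReal.ofReal_sum_of_nonneg fun j _ => mul_nonneg (a0 i s) (a0 j s)]
            refine Finset.sum_congr rfl fun j _ => ?_
            rw [W0_r0 (hu i).pb, W0_r0 (hu j).pb, ENNReal.ofReal_mul (a0 i s)]
          · rw [hJe]
      _ = ENNReal.ofReal (C0 * (2 * I + 35 * δ * J)) := by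
          rw [← ENNReal.ofReal_mul (by positivity), ← ENNReal.ofReal_add (by positivity) (by positivity),
            ← ENNReal.ofReal_mul (by positivity)]
      _ ≤ ENNReal.ofReal (ρ / 2) := by
          apply ENNReal.ofReal_le_ofReal
          have h8 : 0 ≤ C0 * (35 * δ) := by positivity
          have h9 : 0 ≤ C0 * (35 * δ) * J := by positivity
          have e : ρ / 2 = C0 * (2 * I) + 2 * (C0 * (35 * δ) * J) + 2 * (C0 * (35 * δ)) := by rw [hρ]; ring
          rw [e]
          have e' : C0 * (2 * I + 35 * δ * J) = C0 * (2 * I) + C0 * (35 * δ) * J := by ring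
          rw [e']
          linarith
  obtain ⟨r, rc, rz, rm, rn, -, rf, rs⟩ := exist_v hc hw hAc hA0 hAi cU dU' sU hUA cFE sFE zFE hρ0 hδa hFEi
  have hrn : ∀ t, NW (Vm (wd δ)) (at' r t) ≤ ENNReal.ofReal ε := fun t =>
    (rn t).trans (ENNReal.ofReal_le_ofReal hδb)
  have hε : 0 ≤ ε := by
    have : 0 ≤ Real.exp (La c * (D + 35 * δ * J)) * ρ := by positivity
    linarith
  have pr : PB 4 r := by
    refine ⟨ε / δ ^ 5, by positivity, fun k t => ?_⟩
    have h3 := norm_le_of_NVm hw hε (x := at' r t) (rz t) (hrn t) k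
    have h4 := le_wd hδ hδ1 k
    have hp := pw_pos k
    have hwk := wd_pos hδ.le k
    calc pw k ^ 4 * ‖r k t‖ ≤ pw k ^ 4 * (ε * (nk k / wd δ k)) := by
          apply mul_le_mul_of_nonneg_left h3 (by positivity)
      _ ≤ pw k ^ 4 * (ε * (pw k / (δ ^ 5 * pw k ^ 5))) := by
          have := nk_le_pw k
          have := nk_nonneg k
          gcongr
      _ = _ := by field_simp
  refine ⟨r, ?_, fun t => ?_⟩
  · have cf : CF (∑ j, u j + r) := fun k => (cU k).add (rc k)
    have dr : Dom r := dom_of_pb pr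
    have cB : CF (Bt (∑ j, u j + r)) := Bt_cont cf (dU'.add dr)
    have heq : ∀ k t, (∑ j, u j + r) k t = Real.exp (-(c * sq k * max t 0)) • (∑ j, u j k 0)
        + Duh c (Bt (∑ j, u j + r)) k t := by
      intro k t
      have e1 : ∀ j, u j k t = Real.exp (-(c * sq k * max t 0)) • u j k 0 + Duh c (Bt (u j)) k t :=
        fun j => (hu j).ls.eq k t
      have e3 : r k t = Duh c (FE + (Bt (∑ j, u j + r) - Bt (∑ j, u j))) k t := congrFun (congrFun rf k) t
      have e4 : FE + (Bt (∑ j, u j + r) - Bt (∑ j, u j)) = Bt (∑ j, u j + r) - ∑ j, Bt (u j) := by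
        rw [hFE]; abel
      rw [e4, Duh_sub cB cBS, Duh_sum _ fun j _ => cBu j] at e3
      have e5 : (∑ j, u j + r) k t = (∑ j, u j k t) + r k t := by
        simp [Finset.sum_apply]
      rw [e5, e3]
      simp only [Pi.sub_apply, Finset.sum_apply]
      rw [Finset.sum_congr rfl fun j _ => e1 j, Finset.sum_add_distrib, Finset.smul_sum]
      abel
    have hz : ∀ t, (∑ j, u j + r) 0 t = 0 := by
      intro t
      have e5 : (∑ j, u j + r) 0 t = (∑ j, u j 0 t) + r 0 t := by
        simp [Finset.sum_apply]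
      rw [e5, rz, Finset.sum_eq_zero fun j _ => (hu j).ls.z t, add_zero]
    have hpb4 : PB 4 (∑ j, u j + r) := PB_add (pU 4) pr
    have hpb : ∀ m, PB m (∑ j, u j + r) := by
      intro m
      refine boot hc (V := fun k => ∑ j, u j k 0) hz (fun m => ?_) heq hpb4 m
      obtain ⟨M1, hM1, q1⟩ := pU m
      refine ⟨M1, hM1, fun k => ?_⟩
      have := q1 k 0
      simpa [Finset.sum_apply] using this
    exact ⟨cf, hz, fun t => (sU t).add (rs t), rd_of_pb hpb, heq⟩
  · refine le_trans ?_ (hrn t)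
    unfold N1
    refine NW_mono (fun k => ENNReal.ofReal_le_ofReal ?_) _
    exact div_le_div_of_nonneg_right (hw.one_le k) (nk_nonneg k)

end Pool.Agent.H356R3.NS.H1SS
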