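import Pool.Agent.H356R3.NS.Late
import Pool.Agent.H356R3.NS.Four2

/-!
# Weighted `ℓ¹` spaces on the Fourier side, general weights
-/

open MeasureTheory Set Filter Topology
open scoped ENNReal NNReal

namespace Pool.Agent.H356R3.NS.H1SS


/-- Submultiplicative weights which grow fast enough. -/
structure Wt (w : K → ℝ) : Prop where
  one_le : ∀ k, 1 ≤ w k
  sub : ∀ k l, w k ≤ w l * w (k - l)
  summ : Summable fun k => nk k / w k

lemma Wt.pos {w : K → ℝ} (h : Wt w) (k : K) : 0 < w k := lt_of_lt_of_le one_pos (h.one_le k)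

/-- weight `w/|k|` -/
noncomputable def Vm (w : K → ℝ) (k : K) : ℝ≥0∞ := ENNReal.ofReal (w k / nk k)

/-- weight `w` -/
noncomputable def Va (w : K → ℝ) (k : K) : ℝ≥0∞ := ENNReal.ofReal (w k)

/-- weight `w |k|` -/
noncomputable def Vp (w : K → ℝ) (k : K) : ℝ≥0∞ := ENNReal.ofReal (w k * nk k)

/-- The bilinear estimate. -/
lemma NV_Bf_le {w : K → ℝ} (hw : Wt w) (x y : K → C3) :
    NW (Vm w) (Bf x y) ≤ ENNReal.ofReal C0 * (NW (Va w) x * NW (Va w) y) := by
  have h1 : ∀ k, Vm w k * ‖Bf x y k‖ₑ ≤ ENNReal.ofReal C0 *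
      ∑' l, (Va w l * ‖x l‖ₑ) * (Va w (k - l) * ‖y (k - l)‖ₑ) := by
    intro k
    by_cases hk : k = 0
    · subst hk; rw [Bf_zero]; simp
    have hn := nk_pos hk
    calc Vm w k * ‖Bf x y k‖ₑ
        ≤ Vm w k * (ENNReal.ofReal (C0 * nk k) * ∑' l, ‖x l‖ₑ * ‖y (k - l)‖ₑ) :=
          mul_le_mul' le_rfl (enorm_Bf_le x y k)
      _ = ENNReal.ofReal C0 * (ENNReal.ofReal (w k) * ∑' l, ‖x l‖ₑ * ‖y (k - l)‖ₑ) := by
          rw [← mul_assoc, ← mul_assoc]
          congr 1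
          unfold Vm
          rw [← ENNReal.ofReal_mul (div_nonneg (hw.pos k).le hn.le), ← ENNReal.ofReal_mul C0_pos.le]
          congr 1
          field_simp
      _ ≤ _ := by
          apply mul_le_mul' le_rfl
          rw [← ENNReal.tsum_mul_left]
          refine ENNReal.tsum_le_tsum fun l => ?_
          calc ENNReal.ofReal (w k) * (‖x l‖ₑ * ‖y (k - l)‖ₑ)
              ≤ (ENNReal.ofReal (w l) * ENNReal.ofReal (w (k - l)))
                * (‖x l‖ₑ * ‖y (k - l)‖ₑ) := by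
                apply mul_le_mul' _ le_rfl
                rw [← ENNReal.ofReal_mul (hw.pos l).le]
                exact ENNReal.ofReal_le_ofReal (hw.sub k l)
            _ = _ := by unfold Va; ring
  calc NW (Vm w) (Bf x y) ≤ ∑' k, ENNReal.ofReal C0 *
      ∑' l, (Va w l * ‖x l‖ₑ) * (Va w (k - l) * ‖y (k - l)‖ₑ) := ENNReal.tsum_le_tsum h1
    _ = ENNReal.ofReal C0 * ∑' l, ∑' k, (Va w l * ‖x l‖ₑ) * (Va w (k - l) * ‖y (k - l)‖ₑ) := by
        rw [ENNReal.tsum_mul_left, ENNReal.tsum_comm]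
    _ = _ := by
        congr 1
        unfold NW
        rw [← ENNReal.tsum_mul_right]
        refine tsum_congr fun l => ?_
        rw [ENNReal.tsum_mul_left]
        congr 1
        exact (Equiv.subRight l).tsum_eq fun k => Va w k * ‖y k‖ₑ

/-- Interpolation. -/
lemma NV_interp {w : K → ℝ} (hw : Wt w) {x : K → C3} (h0 : x 0 = 0) :
    NW (Va w) x * NW (Va w) x ≤ NW (Vm w) x * NW (Vp w) x := by
  have key : ∀ k l, (Va w k * ‖x k‖ₑ) * (Va w l * ‖x l‖ₑ) + (Va w k * ‖x k‖ₑ) * (Va w l * ‖x l‖ₑ)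
      ≤ (Vm w k * ‖x k‖ₑ) * (Vp w l * ‖x l‖ₑ) + (Vp w k * ‖x k‖ₑ) * (Vm w l * ‖x l‖ₑ) := by
    intro k l
    by_cases hk : k = 0
    · subst hk; simp [h0]
    by_cases hl : l = 0
    · subst hl; simp [h0]
    have hk' := nk_pos hk
    have hl' := nk_pos hl
    have e1 : (Va w k * ‖x k‖ₑ) * (Va w l * ‖x l‖ₑ) + (Va w k * ‖x k‖ₑ) * (Va w l * ‖x l‖ₑ)
        = ENNReal.ofReal (w k * w l + w k * w l) * (‖x k‖ₑ * ‖x l‖ₑ) := by
      unfold Va
      rw [ENNReal.ofReal_add (by have := hw.pos k; have := hw.pos l; positivity)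
        (by have := hw.pos k; have := hw.pos l; positivity), ENNReal.ofReal_mul (hw.pos k).le]
      ring
    have e2 : (Vm w k * ‖x k‖ₑ) * (Vp w l * ‖x l‖ₑ) + (Vp w k * ‖x k‖ₑ) * (Vm w l * ‖x l‖ₑ)
        = ENNReal.ofReal ((w k / nk k) * (w l * nk l) + (w k * nk k) * (w l / nk l))
          * (‖x k‖ₑ * ‖x l‖ₑ) := by
      unfold Vm Vp
      have p1 := hw.pos k
      have p2 := hw.pos l
      rw [ENNReal.ofReal_add (by positivity) (by positivity),
        ENNReal.ofReal_mul (p := w k / nk k) (by positivity),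
        ENNReal.ofReal_mul (p := w k * nk k) (by positivity)]
      ring
    rw [e1, e2]
    apply mul_le_mul' _ le_rfl
    apply ENNReal.ofReal_le_ofReal
    have p1 := hw.pos k
    have p2 := hw.pos l
    have h3 : (w k / nk k) * (w l * nk l) + (w k * nk k) * (w l / nk l)
        = w k * w l * ((nk l ^ 2 + nk k ^ 2) / (nk k * nk l)) := by
      field_simp
    rw [h3, ← two_mul, mul_comm (2 : ℝ)]
    apply mul_le_mul_of_nonneg_left _ (by positivity)
    rw [le_div_iff₀ (by positivity)]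
    nlinarith [sq_nonneg (nk k - nk l)]
  have h2 : NW (Va w) x * NW (Va w) x + NW (Va w) x * NW (Va w) x
      ≤ NW (Vm w) x * NW (Vp w) x + NW (Vp w) x * NW (Vm w) x := by
    have e : ∀ f g : K → ℝ≥0∞, (∑' k, f k) * (∑' l, g l) = ∑' k, ∑' l, f k * g l := by
      intro f g
      rw [← ENNReal.tsum_mul_right]
      exact tsum_congr fun k => ENNReal.tsum_mul_left.symm
    unfold NW
    rw [e, e, e, ← ENNReal.tsum_add, ← ENNReal.tsum_add]
    refine ENNReal.tsum_le_tsum fun k => ?_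
    rw [← ENNReal.tsum_add, ← ENNReal.tsum_add]
    exact ENNReal.tsum_le_tsum fun l => key k l
  rw [mul_comm (NW (Vp w) x), ← two_mul, ← two_mul] at h2
  exact (ENNReal.mul_le_mul_iff_right (by norm_num) (by norm_num)).1 h2


/-- Pointwise bound from the weighted norm. -/
lemma norm_le_of_NVm {w : K → ℝ} (hw : Wt w) {M : ℝ} (hM : 0 ≤ M) {x : K → C3} (h0 : x 0 = 0)
    (h : NW (Vm w) x ≤ ENNReal.ofReal M) (k : K) : ‖x k‖ ≤ M * (nk k / w k) := by
  by_cases hk : k = 0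
  · subst hk; simp [h0, nk_zero]
  have hn := nk_pos hk
  have h1 : Vm w k * ‖x k‖ₑ ≤ ENNReal.ofReal M := (ENNReal.le_tsum k).trans h
  unfold Vm at h1
  rw [← ofReal_norm, ← ENNReal.ofReal_mul (div_nonneg (hw.pos k).le hn.le)] at h1
  have h2 := (ENNReal.ofReal_le_ofReal_iff hM).1 h1
  have h4 := hw.pos k
  rw [div_mul_eq_mul_div, div_le_iff₀ hn] at h2
  rw [← mul_div_assoc, le_div_iff₀ h4]
  linarith

lemma dom_of_NVm {w : K → ℝ} (hw : Wt w) {M : ℝ} (hM : 0 ≤ M) {u : Fam} (h0 : ∀ t, u 0 t = 0)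
    (h : ∀ t, NW (Vm w) (at' u t) ≤ ENNReal.ofReal M) : Dom u :=
  ⟨_, hw.summ.mul_left M, fun k t => norm_le_of_NVm hw hM (h0 t) (h t) k⟩

lemma Vm_ne_top (w : K → ℝ) (k : K) : Vm w k ≠ ⊤ := ENNReal.ofReal_ne_top
lemma Va_ne_top (w : K → ℝ) (k : K) : Va w k ≠ ⊤ := ENNReal.ofReal_ne_top

/-- Interpolation for two sequences. -/
lemma NV_interp2 {w : K → ℝ} (hw : Wt w) {x y : K → C3} (h0 : x 0 = 0) (h0' : y 0 = 0) :
    2 * (NW (Va w) x * NW (Va w) y) ≤ NW (Vm w) x * NW (Vp w) y + NW (Vp w) x * NW (Vm w) y := by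
  have key : ∀ k l, 2 * ((Va w k * ‖x k‖ₑ) * (Va w l * ‖y l‖ₑ))
      ≤ (Vm w k * ‖x k‖ₑ) * (Vp w l * ‖y l‖ₑ) + (Vp w k * ‖x k‖ₑ) * (Vm w l * ‖y l‖ₑ) := by
    intro k l
    by_cases hk : k = 0
    · subst hk; simp [h0]
    by_cases hl : l = 0
    · subst hl; simp [h0']
    have hk' := nk_pos hk
    have hl' := nk_pos hl
    have e1 : 2 * ((Va w k * ‖x k‖ₑ) * (Va w l * ‖y l‖ₑ))
        = ENNReal.ofReal (2 * (w k * w l)) * (‖x k‖ₑ * ‖y l‖ₑ) := by
      unfold Va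
      rw [ENNReal.ofReal_mul (by norm_num), ENNReal.ofReal_mul (hw.pos k).le]
      simp only [ENNReal.ofReal_ofNat]
      ring
    have e2 : (Vm w k * ‖x k‖ₑ) * (Vp w l * ‖y l‖ₑ) + (Vp w k * ‖x k‖ₑ) * (Vm w l * ‖y l‖ₑ)
        = ENNReal.ofReal ((w k / nk k) * (w l * nk l) + (w k * nk k) * (w l / nk l))
          * (‖x k‖ₑ * ‖y l‖ₑ) := by
      unfold Vm Vp
      have p1 := hw.pos k
      have p2 := hw.pos l
      rw [ENNReal.ofReal_add (by positivity) (by positivity),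
        ENNReal.ofReal_mul (p := w k / nk k) (by positivity),
        ENNReal.ofReal_mul (p := w k * nk k) (by positivity)]
      ring
    rw [e1, e2]
    apply mul_le_mul' _ le_rfl
    apply ENNReal.ofReal_le_ofReal
    have p1 := hw.pos k
    have p2 := hw.pos l
    have h3 : (w k / nk k) * (w l * nk l) + (w k * nk k) * (w l / nk l)
        = w k * w l * ((nk l ^ 2 + nk k ^ 2) / (nk k * nk l)) := by
      field_simp
    rw [h3, mul_comm (2 : ℝ)]
    apply mul_le_mul_of_nonneg_left _ (by positivity)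
    rw [le_div_iff₀ (by positivity)]
    nlinarith [sq_nonneg (nk k - nk l)]
  have e : ∀ f g : K → ℝ≥0∞, (∑' k, f k) * (∑' l, g l) = ∑' k, ∑' l, f k * g l := by
    intro f g
    rw [← ENNReal.tsum_mul_right]
    exact tsum_congr fun k => ENNReal.tsum_mul_left.symm
  unfold NW
  rw [e, e, e, ← ENNReal.tsum_mul_left, ← ENNReal.tsum_add]
  refine ENNReal.tsum_le_tsum fun k => ?_
  rw [← ENNReal.tsum_mul_left, ← ENNReal.tsum_add]
  exact ENNReal.tsum_le_tsum fun l => key k l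

/-- Interpolation with a number. -/
lemma NV_young {w : K → ℝ} (hw : Wt w) {x : K → C3} (h0 : x 0 = 0) {θ a : ℝ} (hθ : 0 < θ) (ha : 0 ≤ a) :
    2 * (NW (Va w) x * ENNReal.ofReal a) ≤
      ENNReal.ofReal θ * NW (Vp w) x + ENNReal.ofReal (a ^ 2 / θ) * NW (Vm w) x := by
  unfold NW
  rw [← ENNReal.tsum_mul_left, ← ENNReal.tsum_mul_left, ← ENNReal.tsum_mul_right,
    ← ENNReal.tsum_mul_left, ← ENNReal.tsum_add]
  refine ENNReal.tsum_le_tsum fun k => ?_
  by_cases hk : k = 0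
  · subst hk; simp [h0]
  have hk' := nk_pos hk
  have p1 := hw.pos k
  have e1 : 2 * (Va w k * ‖x k‖ₑ * ENNReal.ofReal a) = ENNReal.ofReal (2 * (w k * a)) * ‖x k‖ₑ := by
    unfold Va
    rw [ENNReal.ofReal_mul (by norm_num), ENNReal.ofReal_mul p1.le]
    simp only [ENNReal.ofReal_ofNat]
    ring
  have e2 : ENNReal.ofReal θ * (Vp w k * ‖x k‖ₑ) + ENNReal.ofReal (a ^ 2 / θ) * (Vm w k * ‖x k‖ₑ)
      = ENNReal.ofReal (θ * (w k * nk k) + a ^ 2 / θ * (w k / nk k)) * ‖x k‖ₑ := by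
    unfold Vm Vp
    rw [ENNReal.ofReal_add (by positivity) (by positivity), ENNReal.ofReal_mul hθ.le,
      ENNReal.ofReal_mul (p := a ^ 2 / θ) (by positivity)]
    ring
  rw [e1, e2]
  apply mul_le_mul' _ le_rfl
  apply ENNReal.ofReal_le_ofReal
  have h3 : θ * (w k * nk k) + a ^ 2 / θ * (w k / nk k)
      = w k * ((θ ^ 2 * nk k ^ 2 + a ^ 2) / (θ * nk k)) := by
    field_simp
  rw [h3]
  have h4 : 2 * a ≤ (θ ^ 2 * nk k ^ 2 + a ^ 2) / (θ * nk k) := by
    rw [le_div_iff₀ (by positivity)]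
    nlinarith [sq_nonneg (θ * nk k - a)]
  nlinarith

end Pool.Agent.H356R3.NS.H1SS
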